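import Pool.Agent.Run7.h68.Cyc

/-!
# Average number of cycles after multiplication by a random permutation of a set
-/

set_option autoImplicit false

open Finset Equiv

namespace Run7.h68

variable {A : Type*} [Fintype A] [DecidableEq A]

/-- permutations supported in `X` -/
def supp (X : Finset A) : Finset (Perm A) := univ.filter (fun π => ∀ d, d ∉ X → π d = d)

theorem mem_supp {X : Finset A} {π : Perm A} : π ∈ supp X ↔ ∀ d, d ∉ X → π d = d := by
  simp [supp]

theorem first_ret {σ : Perm A} {X : Finset A} {x y : A}
    (hP : ∀ z ∈ X, ¬ (σ * swap x y).SameCycle x z) (hy : y ∈ insert x X) :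
    ∃ n, 1 ≤ n ∧ (σ ^ n) y = x ∧ ∀ i, 1 ≤ i → i < n → (σ ^ i) y ∉ insert x X := by
  classical
  set τ := σ * swap x y with hτ
  have hex : ∃ n, 1 ≤ n ∧ (τ ^ n) x = x := by
    obtain ⟨m, hm, hm'⟩ := isOfFinOrder_iff_pow_eq_one.1 (isOfFinOrder_of_finite τ)
    exact ⟨m, hm, by rw [hm']; rfl⟩
  set n := Nat.find hex with hn
  have hn1 : 1 ≤ n ∧ (τ ^ n) x = x := Nat.find_spec hex
  have hmin : ∀ i, 1 ≤ i → i < n → (τ ^ i) x ≠ x := fun i h1 h2 h3 => Nat.find_min hex h2 ⟨h1, h3⟩
  have hnot : ∀ i, 1 ≤ i → i < n → (τ ^ i) x ∉ insert x X := by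
    intro i h1 h2 h3
    rcases Finset.mem_insert.1 h3 with h4 | h4
    · exact hmin i h1 h2 h4
    · exact hP _ h4 (sameCycle_of_nat i rfl)
  have hpow : ∀ i, 1 ≤ i → i ≤ n → (τ ^ i) x = (σ ^ i) y := by
    intro i h1
    induction i, h1 using Nat.le_induction with
    | base =>
      intro _
      simp [hτ]
    | succ i h1 ih =>
      intro h2
      have h3 := hnot i h1 (by omega)
      have h4 : (τ ^ i) x ≠ x := fun h => h3 (by rw [h]; exact Finset.mem_insert_self _ _)
      have h5 : (τ ^ i) x ≠ y := fun h => h3 (by rw [h]; exact hy)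
      have h6 : ∀ w, w ≠ x → w ≠ y → τ w = σ w := by
        intro w hw1 hw2
        rw [hτ, Perm.mul_apply, swap_apply_of_ne_of_ne hw1 hw2]
      rw [pow_succ' τ i, Perm.mul_apply, h6 _ h4 h5, ih (by omega), pow_succ' σ i,
        Perm.mul_apply]
  refine ⟨n, hn1.1, ?_, ?_⟩
  · rw [← hpow n hn1.1 le_rfl]; exact hn1.2
  · intro i h1 h2
    rw [← hpow i h1 (by omega)]
    exact hnot i h1 h2

theorem first_ret_unique {σ : Perm A} {X : Finset A} {x y y' : A}
    (hP : ∀ z ∈ X, ¬ (σ * swap x y).SameCycle x z) (hy : y ∈ insert x X)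
    (hP' : ∀ z ∈ X, ¬ (σ * swap x y').SameCycle x z) (hy' : y' ∈ insert x X) : y = y' := by
  obtain ⟨n, h1, h2, h3⟩ := first_ret hP hy
  obtain ⟨n', h1', h2', h3'⟩ := first_ret hP' hy'
  have key : ∀ {a b : A} {m l : ℕ}, (σ ^ m) a = x → (σ ^ l) b = x → m ≤ l →
      (σ ^ (l - m)) b = a := by
    intro a b m l ha hb hml
    have h4 : (σ ^ m) ((σ ^ (l - m)) b) = x := by
      rw [← Perm.mul_apply, ← pow_add, Nat.add_sub_cancel' hml, hb]
    exact (σ ^ m).injective (h4.trans ha.symm)
  rcases Nat.lt_trichotomy n n' with h | h | h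
  · exfalso
    have h4 := key h2 h2' h.le
    exact h3' (n' - n) (by omega) (by omega) (by rw [h4]; exact hy)
  · subst h
    have h4 := key h2 h2' le_rfl
    simpa using h4.symm
  · exfalso
    have h4 := key h2' h2 h.le
    exact h3 (n - n') (by omega) (by omega) (by rw [h4]; exact hy')

theorem supp_insert_sum {X : Finset A} {x : A} (hx : x ∉ X) (f : Perm A → ℚ) :
    ∑ π ∈ supp (insert x X), f π = ∑ y ∈ insert x X, ∑ π ∈ supp X, f (swap x y * π) := by
  rw [← Finset.sum_product']
  apply Finset.sum_nbij' (fun π => (π x, swap x (π x) * π)) (fun z => swap x z.1 * z.2)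
  · intro π hπ
    rw [mem_supp] at hπ
    have h1 : π x ∈ insert x X := by
      by_contra h
      have h2 := hπ _ h
      have h3 := π.injective h2
      exact h (by rw [h3]; exact Finset.mem_insert_self _ _)
    rw [Finset.mem_product]
    refine ⟨h1, ?_⟩
    rw [mem_supp]
    intro d hd
    rw [Perm.mul_apply]
    by_cases hdx : d = x
    · rw [hdx, swap_apply_right]
    · have h2 : d ∉ insert x X := by
        rw [Finset.mem_insert]; push Not; exact ⟨hdx, hd⟩
      rw [hπ d h2, swap_apply_of_ne_of_ne hdx]
      intro h3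
      exact h2 (h3 ▸ h1)
  · rintro ⟨y, π⟩ hz
    rw [Finset.mem_product, mem_supp] at hz
    simp only at hz ⊢
    rw [mem_supp]
    intro d hd
    have h2 : d ∉ X := fun h => hd (Finset.mem_insert_of_mem h)
    rw [Perm.mul_apply, hz.2 d h2, swap_apply_of_ne_of_ne]
    · intro h; exact hd (by rw [h]; exact Finset.mem_insert_self _ _)
    · intro h; exact hd (by rw [h]; exact hz.1)
  · intro π _
    simp only
    rw [← mul_assoc, swap_mul_self, one_mul]
  · rintro ⟨y, π⟩ hz
    rw [Finset.mem_product, mem_supp] at hz
    simp only at hz ⊢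
    have h1 : (swap x y * π) x = y := by
      rw [Perm.mul_apply, hz.2 x hx, swap_apply_left]
    rw [h1, ← mul_assoc, swap_mul_self, one_mul]
  · intro π _
    simp only
    rw [← mul_assoc, swap_mul_self, one_mul]

omit [Fintype A] in
theorem cycOn_insert_le (σ : Perm A) (X : Finset A) (x : A) :
    cycOn σ (insert x X) ≤ cycOn σ X + 1 := by
  classical
  unfold cycOn
  rw [Finset.image_insert]
  exact Finset.card_insert_le _ _

omit [Fintype A] in
theorem cycOn_insert_of (σ : Perm A) (X : Finset A) (x z : A) (hz : z ∈ X)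
    (h : σ.SameCycle x z) : cycOn σ (insert x X) = cycOn σ X := by
  classical
  unfold cycOn
  rw [Finset.image_insert, Finset.insert_eq_of_mem]
  rw [cyc_eq.2 h]
  exact Finset.mem_image_of_mem _ hz

/-- The average number of cycles of `σ * π` meeting `X`, for `π` a random permutation supported in
`X`, is at most the harmonic number. -/
theorem avg_cyc (X : Finset A) : ∀ σ : Perm A,
    ∑ π ∈ supp X, (cycOn (σ * π) X : ℚ) ≤ (supp X).card * harmonic X.card := by
  induction X using Finset.induction_on with
  | empty =>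
    intro σ
    simp [cycOn]
  | insert x X hx ih =>
    intro σ
    classical
    have hcard : ((supp (insert x X)).card : ℚ) = (X.card + 1) * (supp X).card := by
      have h1 := supp_insert_sum hx (fun _ => (1 : ℚ))
      rw [Finset.sum_const, nsmul_eq_mul, mul_one] at h1
      rw [h1, Finset.sum_const, Finset.sum_const, nsmul_eq_mul, nsmul_eq_mul, mul_one,
        Finset.card_insert_of_notMem hx]
      push_cast
      ring
    rw [supp_insert_sum hx]
    -- the bad `y`
    let P : A → Prop := fun y => ∀ z ∈ X, ¬ (σ * swap x y).SameCycle x z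
    have hstep : ∀ y, ∀ π ∈ supp X, (cycOn (σ * (swap x y * π)) (insert x X) : ℚ) ≤
        cycOn ((σ * swap x y) * π) X + (if P y then 1 else 0) := by
      intro y π hπ
      rw [mem_supp] at hπ
      rw [← mul_assoc]
      by_cases hP : P y
      · rw [if_pos hP]
        exact_mod_cast cycOn_insert_le _ _ _
      · rw [if_neg hP, add_zero]
        simp only [P] at hP
        push Not at hP
        obtain ⟨z, hz, hs⟩ := hP
        have h2 : ∃ z ∈ X, ((σ * swap x y) * π).SameCycle x z := by
          by_contra hc
          push Not at hc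
          obtain ⟨n, hn⟩ := sameCycle_nat hs
          have h3 : ∀ i : ℕ, (((σ * swap x y) * π) ^ i) x = ((σ * swap x y) ^ i) x := by
            intro i
            induction i with
            | zero => rfl
            | succ i ihi =>
              have h4 : (((σ * swap x y) * π) ^ i) x ∉ X := fun h =>
                hc _ h (sameCycle_of_nat i rfl)
              rw [pow_succ', Perm.mul_apply, Perm.mul_apply, hπ _ h4, ihi, pow_succ' _ i,
                Perm.mul_apply (σ * swap x y)]
          exact hc z hz (sameCycle_of_nat n (by rw [h3, hn]))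
        obtain ⟨z', hz', hs'⟩ := h2
        rw [cycOn_insert_of _ _ _ _ hz' hs']
    calc ∑ y ∈ insert x X, ∑ π ∈ supp X, (cycOn (σ * (swap x y * π)) (insert x X) : ℚ)
        ≤ ∑ y ∈ insert x X, ∑ π ∈ supp X,
          ((cycOn ((σ * swap x y) * π) X : ℚ) + (if P y then 1 else 0)) :=
          Finset.sum_le_sum (fun y _ => Finset.sum_le_sum (fun π hπ => hstep y π hπ))
      _ = ∑ y ∈ insert x X, (∑ π ∈ supp X, (cycOn ((σ * swap x y) * π) X : ℚ)) +
          (supp X).card * ∑ y ∈ insert x X, (if P y then (1 : ℚ) else 0) := by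
          rw [Finset.mul_sum, ← Finset.sum_add_distrib]
          refine Finset.sum_congr rfl (fun y _ => ?_)
          rw [Finset.sum_add_distrib, Finset.sum_const, nsmul_eq_mul]
      _ ≤ ∑ y ∈ insert x X, ((supp X).card * harmonic X.card) + (supp X).card * 1 := by
          gcongr with y hy
          · exact ih _
          · rw [Finset.sum_ite, Finset.sum_const_zero, add_zero, Finset.sum_const, nsmul_eq_mul,
              mul_one]
            have : ((insert x X).filter P).card ≤ 1 := by
              rw [Finset.card_le_one]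
              intro a ha b hb
              rw [Finset.mem_filter] at ha hb
              exact first_ret_unique ha.2 ha.1 hb.2 hb.1
            exact_mod_cast this
      _ = (supp (insert x X)).card * harmonic (insert x X).card := by
          rw [hcard, Finset.sum_const, nsmul_eq_mul, Finset.card_insert_of_notMem hx,
            harmonic_succ]
          push_cast
          field_simp

/-- Version for an embedded copy of `R`. -/
theorem avg_cyc_emb {R : Type*} [Fintype R] [DecidableEq R] (ι : R ↪ A) (σ : Perm A)
    (E : Perm R → Perm A) (hE1 : ∀ θ x, E θ (ι x) = ι (θ x))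
    (hE2 : ∀ θ d, (∀ x, ι x ≠ d) → E θ d = d) :
    ∑ θ : Perm R, (cycOn (σ * E θ) (univ.map ι) : ℚ) ≤
      (Fintype.card (Perm R)) * harmonic (Fintype.card R) := by
  have hmem : ∀ d, d ∈ univ.map ι ↔ ∃ x, ι x = d := by
    intro d; simp
  have hinj : Function.Injective E := by
    intro θ θ' h
    ext x
    have h1 : ι (θ x) = ι (θ' x) := by rw [← hE1, ← hE1, h]
    exact ι.injective h1
  have himg : univ.image E = supp (univ.map ι) := by
    ext π
    rw [Finset.mem_image, mem_supp]
    constructor
    · rintro ⟨θ, -, rfl⟩ d hd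
      refine hE2 θ d ?_
      intro x hx
      exact hd ((hmem d).2 ⟨x, hx⟩)
    · intro h
      have h1 : ∀ x, ∃ y, ι y = π (ι x) := by
        intro x
        rw [← hmem]
        by_contra hc
        have h2 := h _ hc
        have h3 := π.injective h2
        rw [h3] at hc
        exact hc ((hmem _).2 ⟨x, rfl⟩)
      choose f hf using h1
      have hfi : Function.Injective f := by
        intro a b hab
        have h2 : π (ι a) = π (ι b) := by rw [← hf, ← hf, hab]
        exact ι.injective (π.injective h2)
      let θ : Perm R := Equiv.ofBijective f (Finite.injective_iff_bijective.1 hfi)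
      refine ⟨θ, mem_univ _, ?_⟩
      ext d
      by_cases hd : ∃ x, ι x = d
      · obtain ⟨x, rfl⟩ := hd
        rw [hE1, ← hf]
        rfl
      · have hd2 : d ∉ univ.map ι := fun hh => hd ((hmem d).1 hh)
        push Not at hd
        rw [hE2 θ d hd, h d hd2]
  have h1 := avg_cyc (univ.map ι) σ
  rw [← himg, Finset.sum_image (fun a _ b _ hab => hinj hab),
    Finset.card_image_of_injective _ hinj, Finset.card_map, Finset.card_univ, Finset.card_univ] at h1
  exact h1

end Run7.h68
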