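import Pool.Agent.Run7.h68.Isolate

/-!
# A lower bound for the genus of a graph with a complete bipartite subgraph
-/

set_option autoImplicit false

open Finset Equiv

namespace Run7.h68

section

variable {A : Type*} [Fintype A] [DecidableEq A]

/-- long cycles -/
theorem four_mul_cycOn_le {φ : Perm A} {K : Finset A} (h0 : ∀ d ∈ K, φ d ∈ K)
    (h1 : ∀ d ∈ K, φ d ≠ d) (h2 : ∀ d ∈ K, φ (φ d) ≠ d) (h3 : ∀ d ∈ K, φ (φ (φ d)) ≠ d) :
    4 * cycOn φ K ≤ K.card := by
  classical
  unfold cycOn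
  apply Finset.mul_card_image_le_card
  intro q hq
  obtain ⟨d, hd, rfl⟩ := Finset.mem_image.1 hq
  have hc : ∀ e, cyc φ (φ e) = cyc φ e := fun e => cyc_apply φ e
  have hsub : ({d, φ d, φ (φ d), φ (φ (φ d))} : Finset A) ⊆
      K.filter (fun e => cyc φ e = cyc φ d) := by
    intro e he
    simp only [Finset.mem_insert, Finset.mem_singleton] at he
    rw [mem_filter]
    rcases he with rfl | rfl | rfl | rfl
    · exact ⟨hd, rfl⟩
    · exact ⟨h0 _ hd, by rw [hc]⟩
    · exact ⟨h0 _ (h0 _ hd), by rw [hc, hc]⟩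
    · exact ⟨h0 _ (h0 _ (h0 _ hd)), by rw [hc, hc, hc]⟩
  refine le_trans ?_ (Finset.card_le_card hsub)
  have hi := φ.injective
  have e1 : d ∉ ({φ d, φ (φ d), φ (φ (φ d))} : Finset A) := by
    simp only [Finset.mem_insert, Finset.mem_singleton, not_or]
    exact ⟨(h1 d hd).symm, (h2 d hd).symm, (h3 d hd).symm⟩
  have e2 : φ d ∉ ({φ (φ d), φ (φ (φ d))} : Finset A) := by
    simp only [Finset.mem_insert, Finset.mem_singleton, not_or]
    exact ⟨fun h => h1 d hd (hi h).symm, fun h => h2 d hd (hi h).symm⟩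
  have e3 : φ (φ d) ∉ ({φ (φ (φ d))} : Finset A) := by
    rw [Finset.mem_singleton]
    exact fun h => h1 d hd (hi (hi h)).symm
  rw [Finset.card_insert_of_notMem e1, Finset.card_insert_of_notMem e2,
    Finset.card_insert_of_notMem e3, Finset.card_singleton]

end

/-- If a graph with a complete bipartite subgraph with parts `A`, `B` embeds in the surface of
genus `g`, then `(|A| - 2) (|B| - 2) ≤ 4 g`. -/
theorem genus_lower {W : Type} [DecidableEq W] {G : SimpleGraph W} {g : ℕ} (hG : EmbedsIn G g)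
    (A B : Finset W) (hAB : Disjoint A B) (hadj : ∀ a ∈ A, ∀ b ∈ B, G.Adj a b)
    (hA : 2 ≤ A.card) (hB : 0 < B.card) :
    A.card * B.card + 4 ≤ 2 * A.card + 2 * B.card + 4 * g := by
  classical
  obtain ⟨D, hfin, M, hM, f, hf, hGe⟩ := hG
  haveI : Fintype D := Fintype.ofFinite D
  haveI : Nonempty D := M.nonempty
  have hex : ∀ a b : W, ∃ d : D, G.Adj a b → M.tail d = f a ∧ M.tail (M.rev d) = f b := by
    intro a b
    by_cases h : G.Adj a b
    · obtain ⟨d, hd⟩ := hGe a b h
      exact ⟨d, fun _ => hd⟩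
    · exact ⟨Classical.arbitrary D, fun h1 => absurd h1 h⟩
  choose dd hdd using hex
  have hrr := M.rev_rev
  have hrn := M.rev_ne
  have ht : ∀ a ∈ A, ∀ b ∈ B, M.tail (dd a b) = f a := fun a ha b hb =>
    (hdd a b (hadj a ha b hb)).1
  have hh : ∀ a ∈ A, ∀ b ∈ B, M.tail (M.rev (dd a b)) = f b := fun a ha b hb =>
    (hdd a b (hadj a ha b hb)).2
  have hne : ∀ a ∈ A, ∀ b ∈ B, f a ≠ f b := by
    intro a ha b hb h
    have h1 := hf h
    rw [h1] at ha
    exact Finset.disjoint_left.1 hAB ha hb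
  obtain ⟨K1, hK1⟩ : ∃ K1 : Finset D, K1 = (A ×ˢ B).image (fun x => dd x.1 x.2) := ⟨_, rfl⟩
  obtain ⟨K2, hK2⟩ : ∃ K2 : Finset D, K2 = K1.image M.rev := ⟨_, rfl⟩
  obtain ⟨K, hK⟩ : ∃ K : Finset D, K = K1 ∪ K2 := ⟨_, rfl⟩
  have mK1 : ∀ d, d ∈ K1 → ∃ a ∈ A, ∃ b ∈ B, M.tail d = f a ∧ M.tail (M.rev d) = f b ∧
      d = dd a b := by
    intro d hd
    rw [hK1, Finset.mem_image] at hd
    obtain ⟨⟨a, b⟩, hab, rfl⟩ := hd
    rw [Finset.mem_product] at hab
    exact ⟨a, hab.1, b, hab.2, ht a hab.1 b hab.2, hh a hab.1 b hab.2, rfl⟩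
  have mK2 : ∀ d, d ∈ K2 → ∃ a ∈ A, ∃ b ∈ B, M.tail d = f b ∧ M.tail (M.rev d) = f a ∧
      d = M.rev (dd a b) := by
    intro d hd
    rw [hK2, Finset.mem_image] at hd
    obtain ⟨e, he, rfl⟩ := hd
    obtain ⟨a, ha, b, hb, h1, h2, h3⟩ := mK1 e he
    exact ⟨a, ha, b, hb, h2, by rw [hrr]; exact h1, by rw [h3]⟩
  have hdK1 : ∀ a ∈ A, ∀ b ∈ B, dd a b ∈ K1 := by
    intro a ha b hb
    rw [hK1]
    exact Finset.mem_image.2 ⟨(a, b), Finset.mem_product.2 ⟨ha, hb⟩, rfl⟩
  have hdisj : Disjoint K1 K2 := by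
    rw [Finset.disjoint_left]
    intro d h1 h2
    obtain ⟨a, ha, b, hb, e1, -, -⟩ := mK1 d h1
    obtain ⟨a', ha', b', hb', e2, -, -⟩ := mK2 d h2
    exact hne a ha b' hb' (e1.symm.trans e2)
  have hcard1 : K1.card = A.card * B.card := by
    rw [hK1, Finset.card_image_of_injOn, Finset.card_product]
    rintro ⟨a, b⟩ hab ⟨a', b'⟩ hab' h
    rw [Finset.mem_coe, Finset.mem_product] at hab hab'
    simp only at h hab hab'
    have e1 := ht a hab.1 b hab.2
    have e2 := hh a hab.1 b hab.2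
    rw [h] at e1 e2
    rw [ht a' hab'.1 b' hab'.2] at e1
    rw [hh a' hab'.1 b' hab'.2] at e2
    rw [hf e1, hf e2]
  have hcard : K.card = 2 * (A.card * B.card) := by
    rw [hK, Finset.card_union_of_disjoint hdisj, hK2,
      Finset.card_image_of_injective _ M.rev.injective, hcard1]
    ring
  have hKrev : ∀ d ∈ K, M.rev d ∈ K := by
    intro d hd
    rw [hK, mem_union] at hd ⊢
    rcases hd with h | h
    · right; rw [hK2]; exact Finset.mem_image_of_mem _ h
    · left
      rw [hK2, Finset.mem_image] at h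
      obtain ⟨e, he, rfl⟩ := h
      rw [hrr]
      exact he
  have hKne : K.Nonempty := by
    obtain ⟨a, ha⟩ := Finset.card_pos.1 (show 0 < A.card by omega)
    obtain ⟨b, hb⟩ := Finset.card_pos.1 hB
    exact ⟨dd a b, by rw [hK]; exact mem_union_left _ (hdK1 a ha b hb)⟩
  have hle : K.card ≤ Fintype.card D := Finset.card_le_univ K
  obtain ⟨σ', hs1, hs2, hs3, hs4⟩ := isolate hrr hrn M.connected (Fintype.card D - K.card) K hKne
    hKrev (by omega)
  -- the tails
  have htail : ∀ c, M.tail (σ' c) = M.tail c := hs3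
  have htsame : ∀ c d, M.tail c = M.tail d → M.rot.SameCycle c d := fun c d h => Quotient.exact h
  -- a dart of `K` is determined by its ends
  have huniq : ∀ d ∈ K, ∀ e ∈ K, M.tail d = M.tail e → M.tail (M.rev d) = M.tail (M.rev e) →
      d = e := by
    intro d hd e he h1 h2
    rw [hK, mem_union] at hd he
    rcases hd with hd | hd
    · obtain ⟨a, ha, b, hb, x1, x2, x3⟩ := mK1 d hd
      rcases he with he | he
      · obtain ⟨a', ha', b', hb', y1, y2, y3⟩ := mK1 e he
        rw [x1, y1] at h1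
        rw [x2, y2] at h2
        rw [x3, y3, hf h1, hf h2]
      · obtain ⟨a', ha', b', hb', y1, y2, y3⟩ := mK2 e he
        rw [x1, y1] at h1
        exact absurd h1 (hne a ha b' hb')
    · obtain ⟨a, ha, b, hb, x1, x2, x3⟩ := mK2 d hd
      rcases he with he | he
      · obtain ⟨a', ha', b', hb', y1, y2, y3⟩ := mK1 e he
        rw [x1, y1] at h1
        exact absurd h1.symm (hne a' ha' b hb)
      · obtain ⟨a', ha', b', hb', y1, y2, y3⟩ := mK2 e he
        rw [x1, y1] at h1
        rw [x2, y2] at h2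
        rw [x3, y3, hf h1, hf h2]
  -- sides
  have hside : ∀ d ∈ K, ((∃ a ∈ A, M.tail d = f a) ↔ ¬ ∃ a ∈ A, M.tail (M.rev d) = f a) := by
    intro d hd
    rw [hK, mem_union] at hd
    rcases hd with hd | hd
    · obtain ⟨a, ha, b, hb, x1, x2, -⟩ := mK1 d hd
      constructor
      · rintro - ⟨a', ha', h'⟩
        exact hne a' ha' b hb (h'.symm.trans x2)
      · intro _; exact ⟨a, ha, x1⟩
    · obtain ⟨a, ha, b, hb, x1, x2, -⟩ := mK2 d hd
      constructor
      · rintro ⟨a', ha', h'⟩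
        exact absurd (h'.symm.trans x1) (hne a' ha' b hb)
      · intro h; exact absurd ⟨a, ha, x2⟩ h
  -- faces
  obtain ⟨φ, hφ⟩ : ∃ φ, φ = σ' * M.rev := ⟨_, rfl⟩
  have hφa : ∀ d, φ d = σ' (M.rev d) := fun d => by rw [hφ]; rfl
  have hσK : ∀ d ∈ K, σ' d ∈ K := by
    intro d hd
    by_contra hc
    have h1 := hs1 _ hc
    have h2 := σ'.injective h1
    rw [h2] at hc
    exact hc hd
  have hφK : ∀ d ∈ K, φ d ∈ K := by
    intro d hd
    rw [hφa]
    exact hσK _ (hKrev d hd)
  obtain ⟨P, hP⟩ : ∃ P : D → Prop, ∀ d, P d ↔ ∃ a ∈ A, M.tail d = f a := ⟨_, fun _ => Iff.rfl⟩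
  have hflip : ∀ d ∈ K, (P (φ d) ↔ ¬ P d) := by
    intro d hd
    have h1 := hside d hd
    rw [← hP, ← hP] at h1
    have h2 : P (φ d) ↔ P (M.rev d) := by rw [hP, hP, hφa, htail]
    rw [h2]
    by_cases h3 : P d
    · exact ⟨fun h4 => absurd h4 (h1.1 h3), fun h4 => absurd h3 h4⟩
    · by_cases h4 : P (M.rev d)
      · exact ⟨fun _ => h3, fun _ => h4⟩
      · exact absurd (h1.2 h4) h3
  have hf1 : ∀ d ∈ K, φ d ≠ d := by
    intro d hd h
    have h1 := hflip d hd
    rw [h] at h1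
    exact iff_not_self h1
  have hf3 : ∀ d ∈ K, φ (φ (φ d)) ≠ d := by
    intro d hd h
    have h1 := hflip d hd
    have h2 := hflip _ (hφK d hd)
    have h3 := hflip _ (hφK _ (hφK d hd))
    rw [h] at h3
    by_cases h4 : P d
    · exact (h3.1 h4) (h2.2 (h1.not.2 (not_not.2 h4)))
    · exact h4 (h3.2 (h2.not.2 (not_not.2 (h1.2 h4))))
  have hf2 : ∀ d ∈ K, φ (φ d) ≠ d := by
    intro d hd h
    have h1 : φ d = M.rev d := by
      apply huniq _ (hφK d hd) _ (hKrev d hd)
      · rw [hφa, htail]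
      · rw [hrr, ← htail (M.rev (φ d)), ← hφa, h]
    have h2 : σ' (M.rev d) = M.rev d := by rw [← hφa, h1]
    have h3 : σ' d = d := by
      have h4 := hφa (φ d)
      rw [h, h1, hrr] at h4
      exact h4.symm
    -- the end in `B` has at least two darts
    have hmain : ∀ e ∈ K, σ' e = e → (∃ b ∈ B, M.tail e = f b) → False := by
      rintro e he hfix ⟨b, hb, hbe⟩
      obtain ⟨a1, ha1, a2, ha2, h12⟩ := Finset.one_lt_card.1 (show 1 < A.card by omega)
      have hall : ∀ a ∈ A, e = M.rev (dd a b) := by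
        intro a ha
        have h5 : M.rev (dd a b) ∈ K := hKrev _ (by rw [hK]; exact mem_union_left _ (hdK1 a ha b hb))
        have h6 : M.rot.SameCycle e (M.rev (dd a b)) := by
          apply htsame
          rw [hbe, hh a ha b hb]
        exact sameCycle_fixed hfix (hs2 e he _ h5 h6)
      have h7 := (hall a1 ha1).symm.trans (hall a2 ha2)
      have h8 := M.rev.injective h7
      have h9 := ht a1 ha1 b hb
      rw [h8, ht a2 ha2 b hb] at h9
      exact h12 (hf h9).symm
    have hd' := hd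
    rw [hK, mem_union] at hd'
    rcases hd' with hd' | hd'
    · obtain ⟨a, ha, b, hb, x1, x2, -⟩ := mK1 d hd'
      exact hmain _ (hKrev d hd) h2 ⟨b, hb, x2⟩
    · obtain ⟨a, ha, b, hb, x1, x2, -⟩ := mK2 d hd'
      exact hmain _ hd h3 ⟨b, hb, x1⟩
  have hfaces : 4 * cycOn φ K ≤ K.card := four_mul_cycOn_le hφK hf1 hf2 hf3
  have hfaces2 : 2 * cycOn φ Kᶜ ≤ (Kᶜ).card := by
    unfold cycOn
    apply Finset.mul_card_image_le_card
    intro q hq
    obtain ⟨d, hd, rfl⟩ := Finset.mem_image.1 hq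
    rw [Finset.mem_compl] at hd
    have hsub : ({d, M.rev d} : Finset D) ⊆ (Kᶜ).filter (fun e => cyc φ e = cyc φ d) := by
      intro e he
      simp only [Finset.mem_insert, Finset.mem_singleton] at he
      rw [mem_filter, Finset.mem_compl]
      rcases he with rfl | rfl
      · exact ⟨hd, rfl⟩
      · refine ⟨fun h => hd (by rw [← hrr d]; exact hKrev _ h), ?_⟩
        rw [← cyc_apply φ (M.rev d), hφa, hrr, hs1 d hd]
    refine le_trans ?_ (Finset.card_le_card hsub)
    rw [Finset.card_pair (hrn d).symm]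
  have hFtot : numCyc φ ≤ cycOn φ K + cycOn φ Kᶜ := by
    rw [← cycOn_univ, ← Finset.union_compl K]
    exact cycOn_union_le φ K Kᶜ
  have hVtot : numCyc σ' ≤ cycOn σ' K + cycOn σ' Kᶜ := by
    rw [← cycOn_univ, ← Finset.union_compl K]
    exact cycOn_union_le σ' K Kᶜ
  have hV2 : cycOn σ' Kᶜ ≤ (Kᶜ).card := cycOn_le_card _ _
  have hV1 : cycOn σ' K ≤ A.card + B.card := by
    have h1 : cycOn σ' K ≤ (K.image M.tail).card := by
      unfold cycOn
      have hne' : Nonempty D := inferInstance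
      let h : M.Vert → Quotient (Perm.SameCycle.setoid σ') := fun v =>
        if hv : ∃ d ∈ K, M.tail d = v then cyc σ' (Classical.choose hv)
        else cyc σ' (Classical.arbitrary D)
      have h2 : K.image (cyc σ') ⊆ (K.image M.tail).image h := by
        intro q hq
        obtain ⟨d, hd, rfl⟩ := Finset.mem_image.1 hq
        rw [Finset.mem_image]
        refine ⟨M.tail d, Finset.mem_image_of_mem _ hd, ?_⟩
        have hv : ∃ e ∈ K, M.tail e = M.tail d := ⟨d, hd, rfl⟩
        have hsp := Classical.choose_spec hv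
        show (if hv : ∃ e ∈ K, M.tail e = M.tail d then cyc σ' (Classical.choose hv)
          else cyc σ' (Classical.arbitrary D)) = cyc σ' d
        rw [dif_pos hv, cyc_eq]
        exact hs2 _ hsp.1 _ hd (htsame _ _ hsp.2)
      exact (Finset.card_le_card h2).trans Finset.card_image_le
    have h3 : K.image M.tail ⊆ (A ∪ B).image f := by
      intro v hv
      obtain ⟨d, hd, rfl⟩ := Finset.mem_image.1 hv
      rw [hK, mem_union] at hd
      rcases hd with hd | hd
      · obtain ⟨a, ha, b, hb, x1, x2, -⟩ := mK1 d hd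
        rw [x1]
        exact Finset.mem_image_of_mem _ (mem_union_left _ ha)
      · obtain ⟨a, ha, b, hb, x1, x2, -⟩ := mK2 d hd
        rw [x1]
        exact Finset.mem_image_of_mem _ (mem_union_right _ hb)
    exact h1.trans ((Finset.card_le_card h3).trans (Finset.card_image_le.trans
      (Finset.card_union_le _ _)))
  have hE := two_mul_numCyc M.rev hrr hrn
  have hcc : K.card + (Kᶜ).card = Fintype.card D := Finset.card_add_card_compl K
  have hM' : numCyc M.rev + 2 ≤ numCyc M.rot + numCyc (M.rot * M.rev) + 2 * g := hM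
  rw [← hφ] at hs4
  generalize hab : A.card * B.card = ab at *
  omega

end Run7.h68
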