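import Mathlib

/-!
# Blocks of consecutive elements of a finite set
-/

set_option autoImplicit false

open Finset

namespace Run7.h68

section

variable {V : Type} [LinearOrder V]

/-- number of elements of `B` below `v` -/
def rk (B : Finset V) (v : V) : ℕ := (B.filter (fun w => w < v)).card

theorem rk_mono (B : Finset V) {u v : V} (h : u ≤ v) : rk B u ≤ rk B v := by
  unfold rk
  apply Finset.card_le_card
  intro w hw
  rw [mem_filter] at hw ⊢
  exact ⟨hw.1, lt_of_lt_of_le hw.2 h⟩

theorem rk_strict (B : Finset V) {u v : V} (hu : u ∈ B) (h : u < v) : rk B u < rk B v := by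
  unfold rk
  apply Finset.card_lt_card
  rw [Finset.ssubset_iff_of_subset]
  · exact ⟨u, by rw [mem_filter]; exact ⟨hu, h⟩, by rw [mem_filter]; simp⟩
  · intro w hw
    rw [mem_filter] at hw ⊢
    exact ⟨hw.1, hw.2.trans h⟩

theorem rk_lt_card (B : Finset V) {u : V} (hu : u ∈ B) : rk B u < B.card := by
  unfold rk
  apply Finset.card_lt_card
  rw [Finset.ssubset_iff_of_subset (Finset.filter_subset _ _)]
  exact ⟨u, hu, by rw [mem_filter]; simp⟩

theorem rk_le_card (B : Finset V) (u : V) : rk B u ≤ B.card := by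
  unfold rk
  exact Finset.card_le_card (Finset.filter_subset _ _)

theorem rk_injOn (B : Finset V) : Set.InjOn (rk B) B := by
  intro u hu v hv h
  rcases lt_trichotomy u v with h1 | h1 | h1
  · have := rk_strict B hu h1; omega
  · exact h1
  · have := rk_strict B hv h1; omega

theorem rk_image (B : Finset V) : B.image (rk B) = range B.card := by
  apply Finset.eq_of_subset_of_card_le
  · intro i hi
    obtain ⟨v, hv, rfl⟩ := Finset.mem_image.1 hi
    rw [Finset.mem_range]
    exact rk_lt_card B hv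
  · rw [Finset.card_range, Finset.card_image_of_injOn (rk_injOn B)]

theorem exists_rk (B : Finset V) {i : ℕ} (hi : i < B.card) : ∃ v ∈ B, rk B v = i := by
  have h : i ∈ B.image (rk B) := by rw [rk_image, Finset.mem_range]; exact hi
  obtain ⟨v, hv, h1⟩ := Finset.mem_image.1 h
  exact ⟨v, hv, h1⟩

theorem lt_of_rk_lt (B : Finset V) {u v : V} (h : rk B u < rk B v) : u < v := by
  by_contra hc
  push Not at hc
  have := rk_mono B hc
  omega

theorem rk_union [DecidableEq V] {S Y : Finset V} (hd : Disjoint Y S) (v : V) :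
    rk (S ∪ Y) v = rk S v + rk Y v := by
  unfold rk
  rw [Finset.filter_union, Finset.card_union_of_disjoint]
  exact Finset.disjoint_filter_filter hd.symm

/-- the elements in the `j`-th block of `r` consecutive elements -/
def blkSet (r : ℕ) (S : Finset V) (j : ℕ) : Finset V := S.filter (fun w => rk S w / r = j)

theorem mem_blkSet {r : ℕ} {S : Finset V} {j : ℕ} {w : V} :
    w ∈ blkSet r S j ↔ w ∈ S ∧ rk S w / r = j := by
  simp [blkSet]

theorem div_eq_iff_mem {r : ℕ} (hr : 0 < r) (a j : ℕ) : a / r = j ↔ j * r ≤ a ∧ a < (j + 1) * r := by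
  rw [Nat.div_eq_iff hr]
  constructor
  · rintro ⟨h1, h2⟩
    refine ⟨h1, ?_⟩
    rw [Nat.add_mul, one_mul]
    omega
  · rintro ⟨h1, h2⟩
    rw [Nat.add_mul, one_mul] at h2
    refine ⟨h1, ?_⟩
    omega

theorem blkSet_card_le {r : ℕ} (hr : 0 < r) (S : Finset V) (j : ℕ) : (blkSet r S j).card ≤ r := by
  have h1 : ((blkSet r S j).image (rk S)) ⊆ Finset.Ico (j * r) ((j + 1) * r) := by
    intro i hi
    obtain ⟨v, hv, rfl⟩ := Finset.mem_image.1 hi
    rw [mem_blkSet] at hv
    rw [Finset.mem_Ico]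
    exact (div_eq_iff_mem hr _ _).1 hv.2
  have h2 := Finset.card_le_card h1
  rw [Nat.card_Ico, Finset.card_image_of_injOn] at h2
  · rw [Nat.add_mul, one_mul] at h2
    omega
  · exact (rk_injOn S).mono (by intro x hx; exact (mem_blkSet.1 hx).1)

theorem blkSet_card_eq {r : ℕ} (hr : 0 < r) (S : Finset V) (j : ℕ) (h : (j + 1) * r ≤ S.card) :
    (blkSet r S j).card = r := by
  have h1 : ((blkSet r S j).image (rk S)) = Finset.Ico (j * r) ((j + 1) * r) := by
    ext i
    rw [Finset.mem_image, Finset.mem_Ico]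
    constructor
    · rintro ⟨v, hv, rfl⟩
      rw [mem_blkSet] at hv
      exact (div_eq_iff_mem hr _ _).1 hv.2
    · rintro ⟨h2, h3⟩
      obtain ⟨v, hv, h4⟩ := exists_rk S (lt_of_lt_of_le h3 h)
      refine ⟨v, ?_, h4⟩
      rw [mem_blkSet, div_eq_iff_mem hr, h4]
      exact ⟨hv, h2, h3⟩
  have h2 := congrArg Finset.card h1
  rw [Nat.card_Ico, Finset.card_image_of_injOn] at h2
  · rw [Nat.add_mul, one_mul] at h2
    omega
  · exact (rk_injOn S).mono (by intro x hx; exact (mem_blkSet.1 hx).1)

/-- coarse adjacency -/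
def cadj (r m : ℕ) (B : Finset V) (u v : V) : Prop :=
  u ∈ B ∧ v ∈ B ∧ rk B u / r ≤ rk B v / r + m ∧ rk B v / r ≤ rk B u / r + m

theorem cadj_symm {r m : ℕ} {B : Finset V} {u v : V} (h : cadj r m B u v) : cadj r m B v u :=
  ⟨h.2.1, h.1, h.2.2.2, h.2.2.1⟩

theorem cadj_comm {r m : ℕ} {B : Finset V} {u v : V} : cadj r m B u v ↔ cadj r m B v u :=
  ⟨cadj_symm, cadj_symm⟩

theorem cadj_iff_of_lt {r m : ℕ} {B : Finset V} {u v : V} (hu : u ∈ B) (hv : v ∈ B)
    (h : v < u) : cadj r m B u v ↔ rk B u / r ≤ rk B v / r + m := by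
  constructor
  · intro h1; exact h1.2.2.1
  · intro h1
    refine ⟨hu, hv, h1, ?_⟩
    have h2 := rk_mono B h.le
    have h3 := Nat.div_le_div_right (c := r) h2
    omega

end

section

variable {V : Type} [LinearOrder V] {S Y : Finset V} {r m z : ℕ}

/-- The setting of one step: a set `Y` of `r` elements is inserted in `S`. -/
structure Ins (S Y : Finset V) (r m z : ℕ) (y0 y1 : V) : Prop where
  hr : 0 < r
  hm : 0 < m
  card : Y.card = r
  disj : Disjoint Y S
  mem0 : y0 ∈ Y
  mem1 : y1 ∈ Y
  min : ∀ y ∈ Y, y0 ≤ y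
  max : ∀ y ∈ Y, y ≤ y1
  zone : (S.filter (fun w => y0 < w ∧ w < y1)).card ≤ z
  low : m * r ≤ rk S y0
  high : m * r + rk S y1 ≤ S.card

variable {y0 y1 : V}

namespace Ins

variable (I : Ins S Y r m z y0 y1)
include I

theorem notMem {y : V} (hy : y ∈ Y) : y ∉ S := fun h =>
  (Finset.disjoint_left.1 I.disj) hy h

theorem le01 : y0 ≤ y1 := I.min _ I.mem1

theorem hi_le : rk S y1 ≤ rk S y0 + z := by
  have h1 : S.filter (fun w => w < y1) ⊆
      S.filter (fun w => w < y0) ∪ S.filter (fun w => y0 < w ∧ w < y1) := by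
    intro w hw
    rw [mem_filter] at hw
    rw [mem_union, mem_filter, mem_filter]
    rcases lt_trichotomy w y0 with h | h | h
    · left; exact ⟨hw.1, h⟩
    · exfalso
      rw [h] at hw
      exact I.notMem I.mem0 hw.1
    · right; exact ⟨hw.1, h, hw.2⟩
  have h2 := (Finset.card_le_card h1).trans (Finset.card_union_le _ _)
  have h3 := I.zone
  unfold rk
  omega

theorem lo_le : rk S y0 ≤ rk S y1 := rk_mono S I.le01

theorem rkY_lt {w : V} (h : w < y0) : rk Y w = 0 := by
  unfold rk
  rw [Finset.card_eq_zero, Finset.filter_eq_empty_iff]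
  intro y hy
  have := I.min y hy
  exact not_lt.2 (h.le.trans this)

theorem rkY_le (w : V) : rk Y w ≤ r := by
  have := rk_le_card Y w
  rw [I.card] at this
  exact this

theorem rkY_gt {w : V} (h : y1 < w) : rk Y w = r := by
  unfold rk
  rw [Finset.filter_true_of_mem, I.card]
  intro y hy
  exact lt_of_le_of_lt (I.max y hy) h

theorem rkL (w : V) : rk (S ∪ Y) w = rk S w + rk Y w := rk_union I.disj w

theorem below {w : V} (h : rk S w < rk S y0) : w < y0 := lt_of_rk_lt S h

theorem above {w : V} (hw : w ∈ S) (h : rk S y1 ≤ rk S w) : y1 < w := by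
  rcases lt_trichotomy w y1 with h1 | h1 | h1
  · have := rk_strict S hw h1; omega
  · exfalso; rw [h1] at hw; exact I.notMem I.mem1 hw
  · exact h1

theorem rkLy {y : V} (hy : y ∈ Y) : rk S y0 ≤ rk (S ∪ Y) y ∧ rk (S ∪ Y) y < rk S y1 + r := by
  rw [I.rkL]
  have h1 := rk_mono S (I.min y hy)
  have h2 := rk_mono S (I.max y hy)
  have h3 := rk_lt_card Y hy
  rw [I.card] at h3
  omega

theorem div_shift (w : V) : rk S w / r ≤ rk (S ∪ Y) w / r ∧
    rk (S ∪ Y) w / r ≤ rk S w / r + 1 := by
  have hr := I.hr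
  rw [I.rkL]
  have h1 := I.rkY_le w
  constructor
  · exact Nat.div_le_div_right (by omega)
  · calc (rk S w + rk Y w) / r ≤ (rk S w + r) / r := Nat.div_le_div_right (by omega)
      _ = rk S w / r + 1 := by rw [Nat.add_div_right _ hr]

theorem div_above {w : V} (h : y1 < w) : rk (S ∪ Y) w / r = rk S w / r + 1 := by
  have hr := I.hr
  rw [I.rkL, I.rkY_gt h, Nat.add_div_right _ hr]

theorem div_below {w : V} (h : w < y0) : rk (S ∪ Y) w / r = rk S w / r := by
  rw [I.rkL, I.rkY_lt h, add_zero]

/-- Block indices of the pieces. -/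
theorem exists_J : ∃ a b : ℕ, (∀ j, a ≤ j → j < b → (j + 1) * r ≤ rk S y0 ∧
      rk S y1 ≤ (j + m) * r) ∧ b - a ≤ m ∧ m * r ≤ (b - a) * r + z + 2 * r := by
  have hr := I.hr
  have h1 := I.hi_le
  have h2 := I.lo_le
  have h3 := I.low
  -- b = lo / r, h = (hi + r - 1) / r
  refine ⟨(rk S y1 + r - 1) / r - m, rk S y0 / r, ?_, ?_, ?_⟩
  · intro j hj1 hj2
    constructor
    · have h4 : (j + 1) * r ≤ (rk S y0 / r) * r := Nat.mul_le_mul_right r (by omega)
      exact h4.trans (Nat.div_mul_le_self _ _)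
    · have h4 : (rk S y1 + r - 1) / r ≤ j + m := by omega
      have h5 : rk S y1 + r - 1 < ((rk S y1 + r - 1) / r + 1) * r := by
        have := Nat.lt_div_mul_add (a := rk S y1 + r - 1) hr
        rw [Nat.add_mul, one_mul]
        exact this
      have h6 : ((rk S y1 + r - 1) / r + 1) * r ≤ (j + m + 1) * r :=
        Nat.mul_le_mul_right r (by omega)
      rw [Nat.add_mul (j + m), one_mul] at h6
      omega
  · have h4 : rk S y0 / r ≤ (rk S y1 + r - 1) / r := Nat.div_le_div_right (by omega)
    omega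
  · have h5 : rk S y0 < (rk S y0 / r) * r + r := Nat.lt_div_mul_add hr
    have h6 : (rk S y1 + r - 1) / r * r ≤ rk S y1 + r - 1 := Nat.div_mul_le_self _ _
    set b := rk S y0 / r with hb
    set h := (rk S y1 + r - 1) / r with hh
    have h7 : (b - (h - m)) * r + h * r ≥ b * r + m * r := by
      rcases le_or_gt h m with h8 | h8
      · have h9 : m * r ≤ h * r := by
          -- since `lo ≥ m r`
          have h10 : m ≤ b := by
            rw [hb, Nat.le_div_iff_mul_le hr]; exact h3
          have h11 : b ≤ h := by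
            rw [hb, hh]
            exact Nat.div_le_div_right (by omega)
          exact Nat.mul_le_mul_right r (h10.trans h11)
        have h12 : h - m = 0 := by omega
        rw [h12, Nat.sub_zero]
        omega
      · have h9 : b + m ≤ (b - (h - m)) + h := by omega
        have h10 := Nat.mul_le_mul_right r h9
        rw [Nat.add_mul, Nat.add_mul] at h10
        omega
    omega

end Ins

end

end Run7.h68
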