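import Pool.Agent.Run7.h68.Pieces

/-!
# Counting the coarse adjacencies created in one step
-/

set_option autoImplicit false

open Finset

namespace Run7.h68

instance {V : Type} [LinearOrder V] (r m : ℕ) (B : Finset V) (u v : V) :
    Decidable (cadj r m B u v) := by unfold cadj; infer_instance

section

variable {V : Type} [LinearOrder V]

/-- pairs `(u, v)` with `v ∈ Z` and `u` in a given block depending on `v` -/
theorem card_pairs_le {r : ℕ} (hr : 0 < r) (S Z : Finset V) (f : V → ℕ) :
    (Z.biUnion (fun v => (blkSet r S (f v)).image (fun u => (u, v)))).card ≤ Z.card * r := by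
  refine Finset.card_biUnion_le.trans ?_
  rw [← smul_eq_mul, ← Finset.sum_const]
  apply Finset.sum_le_sum
  intro v _
  exact Finset.card_image_le.trans (blkSet_card_le hr S _)

theorem card_pairs_le' {r : ℕ} (hr : 0 < r) (S Z : Finset V) (f : V → ℕ) :
    (Z.biUnion (fun u => (blkSet r S (f u)).image (fun v => (u, v)))).card ≤ Z.card * r := by
  refine Finset.card_biUnion_le.trans ?_
  rw [← smul_eq_mul, ← Finset.sum_const]
  apply Finset.sum_le_sum
  intro v _
  exact Finset.card_image_le.trans (blkSet_card_le hr S _)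

theorem card_blocks_le {r : ℕ} (hr : 0 < r) (S : Finset V) (J : Finset ℕ) :
    (J.biUnion (fun j => blkSet r S j)).card ≤ J.card * r := by
  refine Finset.card_biUnion_le.trans ?_
  rw [← smul_eq_mul, ← Finset.sum_const]
  exact Finset.sum_le_sum (fun j _ => blkSet_card_le hr S _)

variable [Fintype V]

/-- the ordered pairs whose coarse adjacency is created when `B` is replaced by `B'` -/
def created (r m : ℕ) (B B' : Finset V) : Finset (V × V) :=
  univ.filter (fun x => x.1 ≠ x.2 ∧ ¬ cadj r m B x.1 x.2 ∧ cadj r m B' x.1 x.2)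

theorem mem_created {r m : ℕ} {B B' : Finset V} {x : V × V} :
    x ∈ created r m B B' ↔ x.1 ≠ x.2 ∧ ¬ cadj r m B x.1 x.2 ∧ cadj r m B' x.1 x.2 := by
  simp [created]

theorem created_card_le (r m : ℕ) (B B' : Finset V) (T : Finset (V × V))
    (hT : ∀ u v, v < u → ¬ cadj r m B u v → cadj r m B' u v → (u, v) ∈ T) :
    (created r m B B').card ≤ 2 * T.card := by
  have h1 : created r m B B' ⊆ T ∪ T.image Prod.swap := by
    rintro ⟨u, v⟩ hx
    rw [mem_created] at hx
    obtain ⟨h1, h2, h3⟩ := hx
    simp only at h1 h2 h3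
    rw [mem_union]
    rcases lt_or_gt_of_ne h1 with h | h
    · right
      rw [Finset.mem_image]
      exact ⟨(v, u), hT v u h (fun hh => h2 (cadj_symm hh)) (cadj_symm h3), rfl⟩
    · left
      exact hT u v h h2 h3
  have h2 := (Finset.card_le_card h1).trans (Finset.card_union_le _ _)
  have h3 : (T.image Prod.swap).card ≤ T.card := Finset.card_image_le
  omega

namespace Ins

variable {S Y : Finset V} {r m z : ℕ} {y0 y1 : V} (I : Ins S Y r m z y0 y1)
include I

theorem created_ins : (created r m S (S ∪ Y)).card ≤ 2 * (2 * (r * ((m + 1) * r)) + z * r) := by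
  have hr := I.hr
  let Z := S.filter (fun w => y0 < w ∧ w < y1)
  let nb : V → Finset V := fun y =>
    (Finset.Icc (rk (S ∪ Y) y / r - m) (rk (S ∪ Y) y / r)).biUnion
      (fun j => blkSet r (S ∪ Y) j)
  let nb' : V → Finset V := fun y =>
    (Finset.Icc (rk (S ∪ Y) y / r) (rk (S ∪ Y) y / r + m)).biUnion
      (fun j => blkSet r (S ∪ Y) j)
  have hnb : ∀ y, (nb y).card ≤ (m + 1) * r := by
    intro y
    refine (card_blocks_le hr _ _).trans ?_
    apply Nat.mul_le_mul_right
    rw [Nat.card_Icc]
    omega
  have hnb' : ∀ y, (nb' y).card ≤ (m + 1) * r := by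
    intro y
    refine (card_blocks_le hr _ _).trans ?_
    apply Nat.mul_le_mul_right
    rw [Nat.card_Icc]
    omega
  have hnb2 : ∀ y w, w < y → cadj r m (S ∪ Y) y w → w ∈ nb y := by
    intro y w hwy h
    rw [Finset.mem_biUnion]
    refine ⟨rk (S ∪ Y) w / r, ?_, ?_⟩
    · rw [Finset.mem_Icc]
      have := h.2.2
      have h0 := Nat.zero_le (rk (S ∪ Y) w / r)
      have h1 : rk (S ∪ Y) w / r ≤ rk (S ∪ Y) y / r := Nat.div_le_div_right (rk_mono _ hwy.le)
      omega
    · rw [mem_blkSet]
      exact ⟨h.2.1, rfl⟩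
  have hnb3 : ∀ y w, y < w → cadj r m (S ∪ Y) y w → w ∈ nb' y := by
    intro y w hwy h
    rw [Finset.mem_biUnion]
    refine ⟨rk (S ∪ Y) w / r, ?_, ?_⟩
    · rw [Finset.mem_Icc]
      have := h.2.2
      have h1 : rk (S ∪ Y) y / r ≤ rk (S ∪ Y) w / r := Nat.div_le_div_right (rk_mono _ hwy.le)
      omega
    · rw [mem_blkSet]
      exact ⟨h.2.1, rfl⟩
  let A1 : Finset (V × V) := Y.biUnion (fun y => (nb y).image (fun w => (y, w)))
  let A2 : Finset (V × V) := Y.biUnion (fun y => (nb' y).image (fun w => (w, y)))
  let A3 : Finset (V × V) :=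
    Z.biUnion (fun v => (blkSet r S (rk S v / r + m + 1)).image (fun u => (u, v)))
  have hA1 : A1.card ≤ r * ((m + 1) * r) := by
    refine Finset.card_biUnion_le.trans ?_
    rw [← I.card, ← smul_eq_mul, ← Finset.sum_const]
    apply Finset.sum_le_sum
    intro y _
    refine Finset.card_image_le.trans ?_
    have := hnb y
    rw [I.card]
    exact this
  have hA2 : A2.card ≤ r * ((m + 1) * r) := by
    refine Finset.card_biUnion_le.trans ?_
    rw [← I.card, ← smul_eq_mul, ← Finset.sum_const]
    apply Finset.sum_le_sum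
    intro y _
    refine Finset.card_image_le.trans ?_
    have := hnb' y
    rw [I.card]
    exact this
  have hA3 : A3.card ≤ z * r := by
    refine (card_pairs_le hr S Z _).trans ?_
    exact Nat.mul_le_mul_right r I.zone
  have hmain := created_card_le r m S (S ∪ Y) (A1 ∪ A2 ∪ A3) (by
    intro u v huv h1 h2
    rw [mem_union, mem_union]
    by_cases hu : u ∈ S
    · by_cases hv : v ∈ S
      · right
        have h3 := (cadj_iff_of_lt hu hv huv).not.1 h1
        have h4 := h2.2.2.1
        have h5 := I.div_shift u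
        have h6 := I.div_shift v
        have h7 : rk S u / r = rk S v / r + m + 1 := by omega
        have h8 : rk (S ∪ Y) v / r = rk S v / r + 1 := by omega
        have h9 : rk (S ∪ Y) u / r = rk S u / r := by omega
        rw [Finset.mem_biUnion]
        refine ⟨v, ?_, ?_⟩
        · rw [mem_filter]
          refine ⟨hv, ?_, ?_⟩
          · rcases lt_trichotomy v y0 with h | h | h
            · have := I.div_below h; omega
            · exfalso; rw [h] at hv; exact I.notMem I.mem0 hv
            · exact h
          · rcases lt_trichotomy v y1 with h | h | h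
            · exact h
            · exfalso; rw [h] at hv; exact I.notMem I.mem1 hv
            · have := I.div_above (h.trans huv); omega
        · rw [Finset.mem_image]
          exact ⟨u, mem_blkSet.2 ⟨hu, h7⟩, rfl⟩
      · left; right
        have hv' : v ∈ Y := (mem_union.1 h2.2.1).resolve_left hv
        rw [Finset.mem_biUnion]
        refine ⟨v, hv', ?_⟩
        rw [Finset.mem_image]
        exact ⟨u, hnb3 v u huv (cadj_symm h2), rfl⟩
    · left; left
      have hu' : u ∈ Y := (mem_union.1 h2.1).resolve_left hu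
      rw [Finset.mem_biUnion]
      refine ⟨u, hu', ?_⟩
      rw [Finset.mem_image]
      exact ⟨v, hnb2 u v huv h2, rfl⟩)
  refine hmain.trans (Nat.mul_le_mul_left 2 ?_)
  have h1 := Finset.card_union_le (A1 ∪ A2) A3
  have h2 := Finset.card_union_le A1 A2
  omega

theorem created_del : (created r m (S ∪ Y) S).card ≤ 2 * ((m + 1) * r * r + 2 * (z * r)) := by
  have hr := I.hr
  let Z := S.filter (fun w => y0 < w ∧ w < y1)
  let b := rk S y0 / r
  let A1 : Finset (V × V) :=
    Z.biUnion (fun v => (blkSet r S (rk S v / r + m)).image (fun u => (u, v)))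
  let A2 : Finset (V × V) :=
    Z.biUnion (fun u => (blkSet r S (rk S u / r - m)).image (fun v => (u, v)))
  let K : Finset V := (Finset.Icc (b - m) b).biUnion (fun j => blkSet r S j)
  let A3 : Finset (V × V) :=
    K.biUnion (fun v => (blkSet r S (rk S v / r + m)).image (fun u => (u, v)))
  have hA1 : A1.card ≤ z * r := (card_pairs_le hr S Z _).trans (Nat.mul_le_mul_right r I.zone)
  have hA2 : A2.card ≤ z * r := (card_pairs_le' hr S Z _).trans (Nat.mul_le_mul_right r I.zone)
  have hK : K.card ≤ (m + 1) * r := by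
    refine (card_blocks_le hr _ _).trans ?_
    apply Nat.mul_le_mul_right
    rw [Nat.card_Icc]
    omega
  have hA3 : A3.card ≤ (m + 1) * r * r := (card_pairs_le hr S K _).trans (Nat.mul_le_mul_right r hK)
  have hmain := created_card_le r m (S ∪ Y) S (A1 ∪ A2 ∪ A3) (by
    intro u v huv h1 h2
    rw [mem_union, mem_union]
    have hu : u ∈ S := h2.1
    have hv : v ∈ S := h2.2.1
    have h3 := (cadj_iff_of_lt (mem_union_left _ hu) (mem_union_left _ hv) huv).not.1 h1
    have h4 := h2.2.2.1
    have h5 := I.div_shift u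
    have h6 := I.div_shift v
    have h7 : rk S u / r = rk S v / r + m := by omega
    have h8 : rk (S ∪ Y) v / r = rk S v / r := by omega
    have h9 : rk (S ∪ Y) u / r = rk S u / r + 1 := by omega
    by_cases hvZ : v ∈ Z
    · left; left
      rw [Finset.mem_biUnion]
      refine ⟨v, hvZ, ?_⟩
      rw [Finset.mem_image]
      exact ⟨u, mem_blkSet.2 ⟨hu, h7⟩, rfl⟩
    by_cases huZ : u ∈ Z
    · left; right
      rw [Finset.mem_biUnion]
      refine ⟨u, huZ, ?_⟩
      rw [Finset.mem_image]
      exact ⟨v, mem_blkSet.2 ⟨hv, by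
        have h0 := Nat.zero_le (rk S v / r)
        omega⟩, rfl⟩
    right
    have hv0 : v < y0 := by
      rcases lt_trichotomy v y0 with h | h | h
      · exact h
      · exfalso; rw [h] at hv; exact I.notMem I.mem0 hv
      · rcases lt_trichotomy v y1 with h' | h' | h'
        · exact absurd (mem_filter.2 ⟨hv, h, h'⟩) hvZ
        · exfalso; rw [h'] at hv; exact I.notMem I.mem1 hv
        · have := I.div_above h'; omega
    have hu1 : y1 < u := by
      rcases lt_trichotomy u y1 with h | h | h
      · rcases lt_trichotomy u y0 with h' | h' | h'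
        · have := I.div_below h'; omega
        · exfalso; rw [h'] at hu; exact I.notMem I.mem0 hu
        · exact absurd (mem_filter.2 ⟨hu, h', h⟩) huZ
      · exfalso; rw [h] at hu; exact I.notMem I.mem1 hu
      · exact h
    have h10 : rk S v / r ≤ b := Nat.div_le_div_right (rk_mono S hv0.le)
    have h11 : b ≤ rk S u / r :=
      Nat.div_le_div_right (rk_mono S (I.le01.trans hu1.le))
    rw [Finset.mem_biUnion]
    refine ⟨v, ?_, ?_⟩
    · rw [Finset.mem_biUnion]
      refine ⟨rk S v / r, ?_, mem_blkSet.2 ⟨hv, rfl⟩⟩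
      rw [Finset.mem_Icc]
      have h0 := Nat.zero_le (rk S v / r)
      omega
    · rw [Finset.mem_image]
      exact ⟨u, mem_blkSet.2 ⟨hu, h7⟩, rfl⟩)
  refine hmain.trans (Nat.mul_le_mul_left 2 ?_)
  have h1 := Finset.card_union_le (A1 ∪ A2) A3
  have h2 := Finset.card_union_le A1 A2
  omega

end Ins

end

end Run7.h68
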