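import Pool.Agent.Run7.h68.Defs

/-!
# Number of cycles of a permutation
-/

set_option autoImplicit false

open Finset

namespace Run7.h68

variable {A : Type*}

/-- the cycle of an element -/
def cyc (σ : Equiv.Perm A) (a : A) : Quotient (Equiv.Perm.SameCycle.setoid σ) :=
  Quotient.mk _ a

theorem cyc_eq {σ : Equiv.Perm A} {a b : A} : cyc σ a = cyc σ b ↔ σ.SameCycle a b :=
  ⟨fun h => Quotient.exact h, fun h => Quotient.sound h⟩

theorem cyc_apply (σ : Equiv.Perm A) (a : A) : cyc σ (σ a) = cyc σ a :=
  cyc_eq.2 ((Equiv.Perm.sameCycle_apply_left).2 (Equiv.Perm.SameCycle.refl σ a))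

theorem cyc_surj (σ : Equiv.Perm A) (q : Quotient (Equiv.Perm.SameCycle.setoid σ)) :
    ∃ a, cyc σ a = q := by
  induction q using Quotient.inductionOn with
  | _ a => exact ⟨a, rfl⟩

theorem inv_sameCycle {β : Type*} {θ : Equiv.Perm A} {g : A → β} (hg : ∀ a, g (θ a) = g a)
    {a b : A} (h : θ.SameCycle a b) : g a = g b := by
  obtain ⟨i, rfl⟩ := h
  have h2 : ∀ y, g (θ⁻¹ y) = g y := fun y => by
    rw [← hg (θ⁻¹ y)]; simp
  induction i with
  | zero => simp
  | succ n ih => rw [add_comm, zpow_add, zpow_one, Equiv.Perm.mul_apply, hg, ih]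
  | pred n ih =>
    rw [sub_eq_add_neg, add_comm, zpow_add, zpow_neg_one, Equiv.Perm.mul_apply, h2, ih]

section

variable [Fintype A]

theorem sameCycle_nat {σ : Equiv.Perm A} {a b : A} (h : σ.SameCycle a b) :
    ∃ n : ℕ, (σ ^ n) a = b := by
  classical
  obtain ⟨i, -, hi⟩ := h.exists_pow_eq'
  exact ⟨i, hi⟩

omit [Fintype A] in
theorem sameCycle_of_nat {σ : Equiv.Perm A} {a b : A} (n : ℕ) (h : (σ ^ n) a = b) :
    σ.SameCycle a b := ⟨n, by simpa using h⟩

variable [DecidableEq A]

/-- Functions constant on the cycles. -/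
theorem card_inv_eq (θ : Equiv.Perm A) (q : ℕ) [NeZero q] :
    (Finset.univ.filter (fun g : A → ZMod q => ∀ a, g (θ a) = g a)).card = q ^ numCyc θ := by
  classical
  have : Fintype (Quotient (Equiv.Perm.SameCycle.setoid θ)) := Fintype.ofFinite _
  have h1 : q ^ numCyc θ =
      Fintype.card (Quotient (Equiv.Perm.SameCycle.setoid θ) → ZMod q) := by
    rw [Fintype.card_fun, ZMod.card, numCyc, Nat.card_eq_fintype_card]
  rw [h1, ← Finset.card_univ]
  symm
  apply Finset.card_bij (fun (G : Quotient (Equiv.Perm.SameCycle.setoid θ) → ZMod q) _ =>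
    (fun a => G (Quotient.mk _ a)))
  · intro G _
    simp only [mem_filter, mem_univ, true_and]
    intro a
    congr 1
    apply Quotient.sound
    exact (Equiv.Perm.sameCycle_apply_left.2 (Equiv.Perm.SameCycle.refl θ a))
  · intro G _ G' _ h
    funext x
    induction x using Quotient.inductionOn with
    | _ a => exact congrFun h a
  · intro g hg
    simp only [mem_filter, mem_univ, true_and] at hg
    refine ⟨Quotient.lift g (fun a b hab => inv_sameCycle hg hab), mem_univ _, rfl⟩

/-- Merging two cycles. -/
theorem numCyc_swap_merge {θ : Equiv.Perm A} {x y : A} (h : ¬ θ.SameCycle x y) :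
    numCyc (Equiv.swap x y * θ) + 1 = numCyc θ := by
  classical
  have hxy : x ≠ y := fun h1 => h (h1 ▸ Equiv.Perm.SameCycle.refl θ x)
  have hxx : θ.SameCycle x x := Equiv.Perm.SameCycle.refl θ x
  -- invariant functions
  have key : ∀ f : A → ZMod 2, (∀ a, f ((Equiv.swap x y * θ) a) = f a) ↔
      (∀ a, f (θ a) = f a) ∧ f x = f y := by
    intro f
    constructor
    · intro hf
      -- walk along the cycle of `x`
      have hw : ∀ a, θ a ≠ x → θ a ≠ y → f (θ a) = f a := by
        intro a h1 h2
        have := hf a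
        rwa [Equiv.Perm.mul_apply, Equiv.swap_apply_of_ne_of_ne h1 h2] at this
      have hx : ∀ a, θ a = x → f y = f a := by
        intro a h1
        have := hf a
        rwa [Equiv.Perm.mul_apply, h1, Equiv.swap_apply_left] at this
      have hy : ∀ a, θ a = y → f x = f a := by
        intro a h1
        have := hf a
        rwa [Equiv.Perm.mul_apply, h1, Equiv.swap_apply_right] at this
      have hxy' : f x = f y := by
        have hind : ∀ k : ℕ, f ((θ ^ k) x) = f x ∨ f x = f y := by
          intro k
          induction k with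
          | zero => left; simp
          | succ k ih =>
            rcases ih with ih | ih
            · by_cases h1 : θ ((θ ^ k) x) = x
              · right
                rw [hx _ h1, ih]
              · left
                rw [pow_succ', Equiv.Perm.mul_apply, hw _ h1, ih]
                intro h2
                apply h
                refine ⟨(k + 1 : ℕ), ?_⟩
                rw [zpow_natCast, pow_succ', Equiv.Perm.mul_apply, h2]
            · right; exact ih
        obtain ⟨m, hm, hm'⟩ := isOfFinOrder_iff_pow_eq_one.1 (isOfFinOrder_of_finite θ)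
        rcases hind (m - 1) with h1 | h1
        · rw [hx ((θ ^ (m - 1)) x) (by
            rw [← Equiv.Perm.mul_apply, ← pow_succ', Nat.sub_add_cancel hm, hm']; rfl), h1]
        · exact h1
      refine ⟨fun a => ?_, hxy'⟩
      by_cases h1 : θ a = x
      · rw [h1, hxy', hx a h1]
      · by_cases h2 : θ a = y
        · rw [h2, ← hxy', hy a h2]
        · exact hw a h1 h2
    · rintro ⟨hf, hxy'⟩ a
      rw [Equiv.Perm.mul_apply, Equiv.swap_apply_def]
      split_ifs with h1 h2
      · rw [← hxy', ← h1, hf]
      · rw [hxy', ← h2, hf]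
      · exact hf a
  -- counting
  have h1 := card_inv_eq (Equiv.swap x y * θ) 2
  have h2 := card_inv_eq θ 2
  have h3 : (Finset.univ.filter (fun g : A → ZMod 2 => ∀ a, g (θ a) = g a)).card =
      2 * (Finset.univ.filter (fun g : A → ZMod 2 =>
        ∀ a, g ((Equiv.swap x y * θ) a) = g a)).card := by
    have : 2 * (Finset.univ.filter (fun g : A → ZMod 2 =>
        ∀ a, g ((Equiv.swap x y * θ) a) = g a)).card =
        ((Finset.univ : Finset (ZMod 2)) ×ˢ (Finset.univ.filter (fun g : A → ZMod 2 =>
        ∀ a, g ((Equiv.swap x y * θ) a) = g a))).card := by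
      rw [Finset.card_product]; rfl
    rw [this]
    symm
    apply Finset.card_bij'
      (fun (z : ZMod 2 × (A → ZMod 2)) _ => (fun a => z.2 a + if θ.SameCycle x a then z.1 else 0))
      (fun (g : A → ZMod 2) _ => (g x - g y, (fun a => g a - if θ.SameCycle x a then g x - g y else 0)))
    · rintro ⟨k, f⟩ hf
      simp only [mem_product, mem_univ, true_and, mem_filter, key] at hf
      simp only [mem_filter, mem_univ, true_and]
      intro a
      simp only [Equiv.Perm.sameCycle_apply_right, hf.1]
    · intro g hg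
      simp only [mem_filter, mem_univ, true_and] at hg
      simp only [mem_product, mem_univ, true_and, mem_filter, key]
      refine ⟨fun a => ?_, ?_⟩
      · simp only [Equiv.Perm.sameCycle_apply_right, hg]
      · simp [h, hxx]
    · rintro ⟨k, f⟩ hf
      simp only [mem_product, mem_univ, true_and, mem_filter, key] at hf
      ext1
      · simp [h, hf.2, hxx]
      · funext a
        by_cases ha : θ.SameCycle x a
        · simp [h, hf.2, ha, hxx]
        · simp [ha]
    · intro g hg
      funext a
      by_cases ha : θ.SameCycle x a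
      · simp [ha]
      · simp [ha]
  rw [h1, h2] at h3
  have h4 : (2 : ℕ) ^ numCyc θ = 2 ^ (numCyc (Equiv.swap x y * θ) + 1) := by
    rw [h3, pow_succ]; ring
  exact (Nat.pow_right_injective le_rfl h4).symm

/-- Splitting a cycle. -/
theorem numCyc_swap_split {θ : Equiv.Perm A} {x y : A} (hxy : x ≠ y) (h : θ.SameCycle x y) :
    numCyc (Equiv.swap x y * θ) = numCyc θ + 1 := by
  classical
  have hmain : ¬ (Equiv.swap x y * θ).SameCycle x y := by
    have hex : ∃ k : ℕ, (θ ^ k) x = y := by
      obtain ⟨i, -, hi⟩ := h.exists_pow_eq'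
      exact ⟨i, hi⟩
    set k := Nat.find hex with hk
    have hk1 : (θ ^ k) x = y := Nat.find_spec hex
    have hmin : ∀ j < k, (θ ^ j) x ≠ y := fun j hj => Nat.find_min hex hj
    have hk0 : 0 < k := by
      rcases Nat.eq_zero_or_pos k with h0 | h0
      · rw [h0] at hk1
        exact absurd (by simpa using hk1) hxy
      · exact h0
    have hminx : ∀ j, 0 < j → j < k → (θ ^ j) x ≠ x := by
      intro j hj hj' h1
      apply hmin (k - j) (by omega)
      calc (θ ^ (k - j)) x = (θ ^ (k - j)) ((θ ^ j) x) := by rw [h1]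
        _ = (θ ^ (k - j + j)) x := by rw [pow_add θ (k - j) j, Equiv.Perm.mul_apply]
        _ = y := by rw [Nat.sub_add_cancel (by omega), hk1]
    have hpow : ∀ j < k, ((Equiv.swap x y * θ) ^ j) x = (θ ^ j) x := by
      intro j
      induction j with
      | zero => intro _; simp
      | succ j ih =>
        intro hj
        rw [pow_succ', Equiv.Perm.mul_apply, ih (by omega), Equiv.Perm.mul_apply,
          ← Equiv.Perm.mul_apply θ, ← pow_succ',
          Equiv.swap_apply_of_ne_of_ne (hminx _ (by omega) hj) (hmin _ hj)]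
    have hper : ((Equiv.swap x y * θ) ^ k) x = x := by
      obtain ⟨j, hj⟩ : ∃ j, k = j + 1 := ⟨k - 1, by omega⟩
      rw [hj, pow_succ', Equiv.Perm.mul_apply, hpow j (by omega), Equiv.Perm.mul_apply,
        ← Equiv.Perm.mul_apply θ, ← pow_succ', ← hj, hk1, Equiv.swap_apply_right]
    have hperm : ∀ m : ℕ, ((Equiv.swap x y * θ) ^ (k * m)) x = x := by
      intro m
      induction m with
      | zero => simp
      | succ m ih => rw [Nat.mul_succ, pow_add, Equiv.Perm.mul_apply, hper, ih]
    intro h5
    obtain ⟨i, -, hi⟩ := h5.exists_pow_eq'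
    have h6 : i = i % k + k * (i / k) := by rw [Nat.mod_add_div]
    rw [h6, pow_add, Equiv.Perm.mul_apply, hperm, hpow _ (Nat.mod_lt _ hk0)] at hi
    exact hmin _ (Nat.mod_lt _ hk0) hi
  have h7 := numCyc_swap_merge hmain
  rw [← mul_assoc, Equiv.swap_mul_self, one_mul] at h7
  exact h7.symm

/-- Multiplying by a transposition changes the number of cycles by at most one. -/
theorem numCyc_swap_le (θ : Equiv.Perm A) (x y : A) :
    numCyc θ ≤ numCyc (Equiv.swap x y * θ) + 1 := by
  by_cases hxy : x = y
  · subst hxy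
    have h1 : (Equiv.swap x x * θ) = θ := by rw [Equiv.swap_self]; rfl
    rw [h1]; omega
  · by_cases h : θ.SameCycle x y
    · rw [numCyc_swap_split hxy h]; omega
    · rw [numCyc_swap_merge h]

/-- If elements with the same label are not all on the same cycles, multiply by transpositions
until they are; the number of cycles of `rot * rev` drops at most by the number of merged cycles. -/
theorem merge_all {V : Type*} (tl : A → V) (rev : Equiv.Perm A) :
    ∀ (n : ℕ) (rot : Equiv.Perm A), numCyc rot = n → (∀ d, tl (rot d) = tl d) →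
    ∃ rot' : Equiv.Perm A, (∀ d, tl (rot' d) = tl d) ∧
      (∀ d d', tl d = tl d' → rot'.SameCycle d d') ∧
      numCyc (rot * rev) + numCyc rot' ≤ numCyc (rot' * rev) + numCyc rot := by
  intro n
  induction n with
  | zero =>
    intro rot h0 hrot
    refine ⟨rot, hrot, ?_, le_rfl⟩
    intro d d' _
    exfalso
    unfold numCyc at h0
    have hne : Nonempty (Quotient (Equiv.Perm.SameCycle.setoid rot)) := ⟨Quotient.mk _ d⟩
    have := Nat.card_pos (α := Quotient (Equiv.Perm.SameCycle.setoid rot))
    omega
  | succ n ih =>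
    intro rot hn hrot
    by_cases hall : ∀ d d', tl d = tl d' → rot.SameCycle d d'
    · exact ⟨rot, hrot, hall, le_rfl⟩
    · push Not at hall
      obtain ⟨x, y, hxy, hns⟩ := hall
      have h1 := numCyc_swap_merge hns
      have h2 := numCyc_swap_le (rot * rev) x y
      have hrot1 : ∀ d, tl ((Equiv.swap x y * rot) d) = tl d := by
        intro d
        rw [Equiv.Perm.mul_apply, Equiv.swap_apply_def]
        split_ifs with h3 h4
        · rw [← hxy, ← h3, hrot]
        · rw [hxy, ← h4, hrot]
        · exact hrot d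
      obtain ⟨rot', hr1, hr2, hr3⟩ := ih (Equiv.swap x y * rot) (by omega) hrot1
      refine ⟨rot', hr1, hr2, ?_⟩
      rw [mul_assoc] at hr3
      omega

end

/-- number of cycles meeting a finite set -/
noncomputable def cycOn (σ : Equiv.Perm A) (X : Finset A) : ℕ :=
  open Classical in (X.image (cyc σ)).card

theorem cycOn_le_card (σ : Equiv.Perm A) (X : Finset A) : cycOn σ X ≤ X.card := by
  classical
  unfold cycOn
  exact Finset.card_image_le

theorem cycOn_mono (σ : Equiv.Perm A) {X Y : Finset A} (h : X ⊆ Y) : cycOn σ X ≤ cycOn σ Y := by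
  classical
  unfold cycOn
  exact Finset.card_le_card (Finset.image_subset_image h)

theorem cycOn_union_le [DecidableEq A] (σ : Equiv.Perm A) (X Y : Finset A) :
    cycOn σ (X ∪ Y) ≤ cycOn σ X + cycOn σ Y := by
  classical
  unfold cycOn
  rw [Finset.image_union]
  exact Finset.card_union_le _ _

theorem cycOn_biUnion_le [DecidableEq A] {ι : Type*} (σ : Equiv.Perm A) (s : Finset ι)
    (X : ι → Finset A) : cycOn σ (s.biUnion X) ≤ ∑ i ∈ s, cycOn σ (X i) := by
  classical
  induction s using Finset.induction_on with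
  | empty => simp [cycOn]
  | insert i s hi ih =>
    rw [Finset.biUnion_insert, Finset.sum_insert hi]
    exact (cycOn_union_le σ _ _).trans (by omega)

theorem cycOn_univ [Fintype A] (σ : Equiv.Perm A) : cycOn σ Finset.univ = numCyc σ := by
  classical
  have : Fintype (Quotient (Equiv.Perm.SameCycle.setoid σ)) := Fintype.ofFinite _
  unfold cycOn numCyc
  rw [Nat.card_eq_fintype_card, ← Finset.card_univ]
  congr 1
  ext q
  simp only [Finset.mem_image, Finset.mem_univ, true_and, iff_true]
  exact cyc_surj σ q

/-- the number of cycles meeting a set only depends on the equivalence relation on the set -/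
theorem cycOn_congr {B : Type*} {σ : Equiv.Perm A} {τ : Equiv.Perm B} {X : Finset A}
    {Y : Finset B} (f : A → B) (hf : ∀ x ∈ X, f x ∈ Y) (hs : ∀ y ∈ Y, ∃ x ∈ X, f x = y)
    (h : ∀ x ∈ X, ∀ y ∈ X, σ.SameCycle x y ↔ τ.SameCycle (f x) (f y)) :
    cycOn σ X = cycOn τ Y := by
  classical
  unfold cycOn
  have hg : ∀ q ∈ X.image (cyc σ), ∃ x ∈ X, cyc σ x = q := fun q hq => by
    simpa using hq
  choose g hg1 hg2 using hg
  apply Finset.card_bij (fun q hq => cyc τ (f (g q hq)))
  · intro q hq
    exact Finset.mem_image_of_mem _ (hf _ (hg1 q hq))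
  · intro q hq q' hq' hqq
    rw [cyc_eq, ← h _ (hg1 q hq) _ (hg1 q' hq'), ← cyc_eq, hg2, hg2] at hqq
    exact hqq
  · intro q hq
    obtain ⟨y, hy, rfl⟩ := Finset.mem_image.1 hq
    obtain ⟨x, hx, rfl⟩ := hs y hy
    refine ⟨cyc σ x, Finset.mem_image_of_mem _ hx, ?_⟩
    rw [cyc_eq, ← h _ (hg1 _ _) _ hx, ← cyc_eq, hg2]

end Run7.h68
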