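import Mathlib

/-!
# Bar `k`-visibility graphs and the genus of a graph: definitions
-/

set_option autoImplicit false

namespace Run7.h68

/-- The number of cycles of a permutation of a finite set (fixed points are cycles too). -/
noncomputable def numCyc {D : Type*} (σ : Equiv.Perm D) : ℕ :=
  Nat.card (Quotient (Equiv.Perm.SameCycle.setoid σ))

/-- A finite connected combinatorial map (rotation system of a connected multigraph), that is, a
cellular embedding of a connected multigraph in a closed orientable surface. `D` is the set of darts
(edges with a direction), `rev` reverses a dart, `rot` sends a dart to the next dart in the rotation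
around its initial vertex. The vertices are the cycles of `rot`, the edges are the cycles of `rev`
and the faces are the cycles of `rot * rev`. -/
structure CombMap (D : Type) where
  /-- the rotation around the vertices -/
  rot : Equiv.Perm D
  /-- reversal of darts -/
  rev : Equiv.Perm D
  rev_rev : ∀ d, rev (rev d) = d
  rev_ne : ∀ d, rev d ≠ d
  nonempty : Nonempty D
  connected : ∀ S : Set D, S.Nonempty → (∀ d ∈ S, rot d ∈ S ∧ rev d ∈ S) → S = Set.univ

/-- The set of vertices of a combinatorial map: the cycles of `rot`. -/
def CombMap.Vert {D : Type} (M : CombMap D) : Type := Quotient (Equiv.Perm.SameCycle.setoid M.rot)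

/-- The initial vertex of a dart. -/
def CombMap.tail {D : Type} (M : CombMap D) (d : D) : M.Vert := Quotient.mk _ d

/-- The surface of the combinatorial map has genus at most `g`: `2 - 2 g ≤ V - E + F`. -/
def CombMap.GenusLE {D : Type} (M : CombMap D) (g : ℕ) : Prop :=
  numCyc M.rev + 2 ≤ numCyc M.rot + numCyc (M.rot * M.rev) + 2 * g

/-- The graph `G` embeds without crossings in the closed orientable surface of genus `g`: it is a
subgraph of a (finite, connected) multigraph cellularly embedded in a closed orientable surface of
genus at most `g`. -/
def EmbedsIn {V : Type} (G : SimpleGraph V) (g : ℕ) : Prop :=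
  ∃ (D : Type) (_ : Finite D) (M : CombMap D), M.GenusLE g ∧
    ∃ f : V → M.Vert, Function.Injective f ∧
      ∀ u v, G.Adj u v → ∃ d : D, M.tail d = f u ∧ M.tail (M.rev d) = f v

/-- The genus of a graph: the least `g` such that it embeds in the closed orientable surface of
genus `g`. -/
noncomputable def genus {V : Type} (G : SimpleGraph V) : ℕ := sInf {g | EmbedsIn G g}

/-- `n` pairwise disjoint horizontal segments (bars) in the plane: the `i`-th one is
`[left i, right i] × {height i}`. -/
structure Bars (n : ℕ) where
  /-- the left endpoints -/
  left : Fin n → ℝ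
  /-- the right endpoints -/
  right : Fin n → ℝ
  /-- the heights -/
  height : Fin n → ℝ
  left_lt_right : ∀ i, left i < right i
  disjoint : ∀ i j, i ≠ j → height i = height j → right i < left j ∨ right j < left i

/-- The vertical line with abscissa `x` meets the `i`-th bar. -/
def Bars.Meets {n : ℕ} (S : Bars n) (x : ℝ) (i : Fin n) : Prop := S.left i ≤ x ∧ x ≤ S.right i

/-- The bars `i` and `j` see each other through at most `k` bars: some vertical segment with one
endpoint on bar `i` and the other on bar `j` meets at most `k` other bars. -/
def Bars.Sees {n : ℕ} (S : Bars n) (k : ℕ) (i j : Fin n) : Prop :=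
  ∃ x : ℝ, S.Meets x i ∧ S.Meets x j ∧
    {m : Fin n | m ≠ i ∧ m ≠ j ∧ S.Meets x m ∧ S.height m ∈ Set.uIcc (S.height i) (S.height j)}.ncard
      ≤ k

/-- `G` is a bar `k`-visibility graph. -/
def IsBarVisibility {n : ℕ} (k : ℕ) (G : SimpleGraph (Fin n)) : Prop :=
  ∃ S : Bars n, ∀ i j, G.Adj i j ↔ i ≠ j ∧ S.Sees k i j

/-- `g_k(n)`: the maximum genus of a bar `k`-visibility graph with `n` vertices. -/
noncomputable def maxGenus (k n : ℕ) : ℕ :=
  sSup {g | ∃ G : SimpleGraph (Fin n), IsBarVisibility k G ∧ genus G = g}

end Run7.h68
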