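import Pool.Agent.Run7.h68.LatticeBars

/-!
# Euler's lower bound for the genus
-/

set_option autoImplicit false

open Finset Equiv

namespace Run7.h68

/-- if no element lies in a cycle of length at most two, there are few cycles -/
theorem three_mul_numCyc_le {A : Type*} [Fintype A] (φ : Perm A)
    (h1 : ∀ d, φ d ≠ d) (h2 : ∀ d, φ (φ d) ≠ d) : 3 * numCyc φ ≤ Fintype.card A := by
  classical
  rw [← cycOn_univ, ← Finset.card_univ]
  unfold cycOn
  apply Finset.mul_card_image_le_card
  intro q hq
  obtain ⟨d, -, rfl⟩ := Finset.mem_image.1 hq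
  have hc : ∀ e, cyc φ (φ e) = cyc φ e := fun e => cyc_apply φ e
  have hi := φ.injective
  have hsub : ({d, φ d, φ (φ d)} : Finset A) ⊆ univ.filter (fun e => cyc φ e = cyc φ d) := by
    intro e he
    simp only [Finset.mem_insert, Finset.mem_singleton] at he
    rw [mem_filter]
    rcases he with rfl | rfl | rfl
    · exact ⟨Finset.mem_univ _, rfl⟩
    · exact ⟨Finset.mem_univ _, by rw [hc]⟩
    · exact ⟨Finset.mem_univ _, by rw [hc, hc]⟩
  refine le_trans ?_ (Finset.card_le_card hsub)
  have e1 : d ∉ ({φ d, φ (φ d)} : Finset A) := by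
    simp only [Finset.mem_insert, Finset.mem_singleton, not_or]
    exact ⟨(h1 d).symm, (h2 d).symm⟩
  have e2 : φ d ∉ ({φ (φ d)} : Finset A) := by
    rw [Finset.mem_singleton]
    exact fun h => h1 d (hi h).symm
  rw [Finset.card_insert_of_notMem e1, Finset.card_insert_of_notMem e2, Finset.card_singleton]

/-- Euler's bound: a graph without vertices of degree one that embeds in the surface of genus `g`
satisfies `E + 6 ≤ 3 V + 6 g`. -/
theorem euler_bound {W : Type} [Fintype W] (H : SimpleGraph W) [Fintype H.Dart] {g : ℕ}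
    (hG : EmbedsIn H g) (hne : Nonempty H.Dart)
    (hdeg : ∀ d : H.Dart, ∃ e : H.Dart, e.fst = d.fst ∧ e ≠ d) :
    Fintype.card H.Dart + 12 ≤ 6 * Fintype.card W + 12 * g := by
  obtain ⟨ρ, h1, h2, h3⟩ := exists_rotation H hG hne
  have hφ : 3 * numCyc (ρ * symmPerm H) ≤ Fintype.card H.Dart := by
    apply three_mul_numCyc_le
    · intro d h
      have h4 : ((ρ * symmPerm H) d).fst = d.snd := by
        rw [Perm.mul_apply, h1]; rfl
      rw [h] at h4
      exact d.adj.ne h4
    · intro d h
      have h4 : ((ρ * symmPerm H) d).fst = d.snd := by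
        rw [Perm.mul_apply, h1]; rfl
      have h5 : ((ρ * symmPerm H) ((ρ * symmPerm H) d)).fst = ((ρ * symmPerm H) d).snd := by
        rw [Perm.mul_apply _ _ ((ρ * symmPerm H) d), h1]; rfl
      rw [h] at h5
      have h6 : (ρ * symmPerm H) d = d.symm :=
        SimpleGraph.Dart.ext _ _ (Prod.ext h4 h5.symm)
      have h7 : ρ d.symm = d.symm := h6
      obtain ⟨e, he1, he2⟩ := hdeg d.symm
      obtain ⟨i, hi⟩ := h2 d.symm e he1.symm
      apply he2
      rw [← hi]
      exact Function.IsFixedPt.perm_zpow h7 i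
  omega

end Run7.h68
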