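import Pool.Agent.Run7.h68.Avg

/-!
# Extending facial permutations
-/

set_option autoImplicit false

open Finset Equiv

namespace Run7.h68

/-- If two maps `a b : W → V` have fibres of the same sizes, then there is a permutation `ψ` of `W`
with `b (ψ w) = a w`. -/
theorem exists_match {W V : Type*} [Fintype W] [DecidableEq W] [DecidableEq V] (a b : W → V)
    (h : ∀ v, (univ.filter (fun w => a w = v)).card = (univ.filter (fun w => b w = v)).card) :
    ∃ ψ : Perm W, ∀ w, b (ψ w) = a w := by
  classical
  have h1 : ∀ v, Fintype.card {w // a w = v} = Fintype.card {w // b w = v} := by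
    intro v
    rw [Fintype.card_subtype, Fintype.card_subtype]
    exact h v
  let e : ∀ v, {w // a w = v} ≃ {w // b w = v} := fun v => Fintype.equivOfCardEq (h1 v)
  let ψ : Perm W := ((Equiv.sigmaFiberEquiv a).symm.trans (Equiv.sigmaCongrRight e)).trans
    (Equiv.sigmaFiberEquiv b)
  refine ⟨ψ, fun w => ?_⟩
  exact (e (a w) ⟨w, rfl⟩).2

theorem exists_ext {S D V : Type*} [Fintype S] [DecidableEq S] [Fintype D] [DecidableEq D]
    [DecidableEq V] (δ : S → D) (hδ : Function.Injective δ) (st sh : S → V) (tl hd : D → V)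
    (h1 : ∀ s, tl (δ s) = st s) (h2 : ∀ s, hd (δ s) = sh s)
    (hD : ∀ v, (univ.filter (fun d => hd d = v)).card = (univ.filter (fun d => tl d = v)).card)
    (hS : ∀ v, (univ.filter (fun s => sh s = v)).card = (univ.filter (fun s => st s = v)).card) :
    ∃ F : Perm S → Perm D, (∀ f s, F f (δ s) = δ (f s)) ∧
      (∀ f f' d, d ∉ Set.range δ → F f d = F f' d) ∧
      (∀ f d, d ∉ Set.range δ → tl (F f d) = hd d) := by
  classical
  let W := {d : D // d ∉ Set.range δ}
  have key : ∀ (g : D → V) (gs : S → V), (∀ s, g (δ s) = gs s) → ∀ v,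
      (univ.filter (fun d => g d = v)).card = (univ.filter (fun s => gs s = v)).card +
        (univ.filter (fun w : W => g w.1 = v)).card := by
    intro g gs hg v
    have e1 : (univ.filter (fun d => g d = v)) =
        (univ.filter (fun s => gs s = v)).image δ ∪
          (univ.filter (fun w : W => g w.1 = v)).image Subtype.val := by
      ext d
      simp only [mem_filter, mem_univ, true_and, mem_union, mem_image]
      constructor
      · intro hd
        by_cases hr : d ∈ Set.range δ
        · obtain ⟨s, rfl⟩ := hr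
          left
          exact ⟨s, by rw [← hg]; exact hd, rfl⟩
        · right
          exact ⟨⟨d, hr⟩, hd, rfl⟩
      · rintro (⟨s, hs, rfl⟩ | ⟨w, hw, rfl⟩)
        · rw [hg]; exact hs
        · exact hw
    rw [e1, Finset.card_union_of_disjoint, Finset.card_image_of_injective _ hδ,
      Finset.card_image_of_injective _ Subtype.val_injective]
    rw [Finset.disjoint_left]
    intro d hd1 hd2
    obtain ⟨s, -, rfl⟩ := Finset.mem_image.1 hd1
    obtain ⟨w, -, hw⟩ := Finset.mem_image.1 hd2
    exact w.2 ⟨s, hw.symm⟩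
  obtain ⟨ψ, hψ⟩ := exists_match (W := W) (fun w => hd w.1) (fun w => tl w.1) (by
    intro v
    have e1 := key hd sh h2 v
    have e2 := key tl st h1 v
    have e3 := hD v
    have e4 := hS v
    omega)
  let e : S ⊕ W ≃ D := (Equiv.sumCongr (Equiv.ofInjective δ hδ) (Equiv.refl W)).trans
    (Equiv.Set.sumCompl (Set.range δ))
  have he1 : ∀ s, e (Sum.inl s) = δ s := fun s => rfl
  have he2 : ∀ w : W, e (Sum.inr w) = w.1 := fun w => rfl
  have he3 : ∀ s, e.symm (δ s) = Sum.inl s := fun s => by rw [← he1, e.symm_apply_apply]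
  have he4 : ∀ w : W, e.symm w.1 = Sum.inr w := fun w => by rw [← he2, e.symm_apply_apply]
  refine ⟨fun f => (e.symm.trans (Equiv.sumCongr f ψ)).trans e, ?_, ?_, ?_⟩
  · intro f s
    simp only [Equiv.trans_apply, he3, Equiv.sumCongr_apply, Sum.map_inl, he1]
  · intro f f' d hd
    have h5 := he4 ⟨d, hd⟩
    simp only at h5
    simp only [Equiv.trans_apply, h5, Equiv.sumCongr_apply, Sum.map_inr]
  · intro f d hd
    have h5 := he4 ⟨d, hd⟩
    simp only at h5
    simp only [Equiv.trans_apply, h5, Equiv.sumCongr_apply, Sum.map_inr, he2]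
    exact hψ ⟨d, hd⟩

/-- two permutations preserving a labelling that agree on the elements with label `v` -/
theorem sameCycle_local {D V : Type*} [Fintype D] {σ σ' : Perm D} {tl : D → V}
    (h1 : ∀ d, tl (σ d) = tl d) {v : V}
    (h3 : ∀ d, tl d = v → σ d = σ' d) {x y : D} (hx : tl x = v) :
    σ.SameCycle x y ↔ σ'.SameCycle x y := by
  classical
  have h4 : ∀ n : ℕ, tl ((σ ^ n) x) = v ∧ (σ ^ n) x = (σ' ^ n) x := by
    intro n
    induction n with
    | zero => exact ⟨hx, rfl⟩
    | succ n ih =>
      rw [pow_succ', pow_succ', Perm.mul_apply, Perm.mul_apply]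
      exact ⟨by rw [h1]; exact ih.1, by rw [← ih.2, h3 _ ih.1]⟩
  constructor
  · intro h
    obtain ⟨n, hn⟩ := sameCycle_nat h
    exact sameCycle_of_nat n (by rw [← (h4 n).2, hn])
  · intro h
    obtain ⟨n, hn⟩ := sameCycle_nat h
    exact sameCycle_of_nat n (by rw [(h4 n).2, hn])

theorem cycOn_local {D V : Type*} [Fintype D] {σ σ' : Perm D} {tl : D → V}
    (h1 : ∀ d, tl (σ d) = tl d) {v : V}
    (h3 : ∀ d, tl d = v → σ d = σ' d) {X : Finset D} (hX : ∀ x ∈ X, tl x = v) :
    cycOn σ X = cycOn σ' X := by
  apply cycOn_congr id (fun x hx => hx) (fun y hy => ⟨y, hy, rfl⟩)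
  intro x hx y _
  exact sameCycle_local h1 h3 (hX x hx)

/-- the number of cycles of a fixed-point-free involution -/
theorem two_mul_numCyc {D : Type*} [Fintype D] (rev : Perm D) (h1 : ∀ d, rev (rev d) = d)
    (h2 : ∀ d, rev d ≠ d) : 2 * numCyc rev = Fintype.card D := by
  classical
  have hsame : ∀ a b, rev.SameCycle a b ↔ b = a ∨ b = rev a := by
    intro a b
    constructor
    · intro h
      obtain ⟨n, hn⟩ := sameCycle_nat h
      have : ∀ n : ℕ, (rev ^ n) a = a ∨ (rev ^ n) a = rev a := by
        intro n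
        induction n with
        | zero => left; rfl
        | succ n ih =>
          rw [pow_succ', Perm.mul_apply]
          rcases ih with ih | ih
          · right; rw [ih]
          · left; rw [ih, h1]
      rcases this n with h3 | h3
      · left; rw [← hn, h3]
      · right; rw [← hn, h3]
    · rintro (rfl | rfl)
      · exact Perm.SameCycle.refl _ _
      · exact (Perm.sameCycle_apply_right).2 (Perm.SameCycle.refl _ _)
  rw [← cycOn_univ]
  unfold cycOn
  rw [← Finset.card_univ, Finset.card_eq_sum_card_image (cyc rev) univ]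
  rw [Finset.sum_const_nat (m := 2), mul_comm]
  intro q hq
  obtain ⟨a, -, rfl⟩ := Finset.mem_image.1 hq
  have : (univ.filter (fun x => cyc rev x = cyc rev a)) = {a, rev a} := by
    ext x
    simp only [mem_filter, mem_univ, true_and, Finset.mem_insert, Finset.mem_singleton]
    rw [eq_comm, cyc_eq, hsame]
  rw [this, Finset.card_pair (h2 a).symm]

end Run7.h68
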