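import Pool.Agent.Run7.h68.Sys

/-!
# Grouping endpoints
-/

set_option autoImplicit false

open Finset

namespace Run7.h68

section

variable {V : Type} [LinearOrder V]

/-- no `r` elements of `Z` lie in an interval containing at most `g` elements of `C` -/
def NoClose (r g : ℕ) (C Z : Finset V) : Prop :=
  ∀ x y, (C.filter (fun w => x ≤ w ∧ w ≤ y)).card ≤ g →
    (Z.filter (fun w => x ≤ w ∧ w ≤ y)).card < r

/-- `Z'` is obtained from `Z` by removing `j` local groups of `r` elements -/
inductive Cl (r g : ℕ) (C : Finset V) : Finset V → Finset V → ℕ → Prop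
  | refl (Z : Finset V) : Cl r g C Z Z 0
  | step {Z D Z' : Finset V} {j : ℕ} (hD : D ⊆ Z) (hc : D.card = r)
      (hg : ∀ a ∈ D, ∀ b ∈ D, (C.filter (fun w => a ≤ w ∧ w ≤ b)).card ≤ g)
      (hcons : ∀ a ∈ D, ∀ b ∈ D, ∀ z ∈ Z, a ≤ z → z ≤ b → z ∈ D)
      (h : Cl r g C (Z \ D) Z' j) : Cl r g C Z Z' (j + 1)

theorem Cl.subset {r g : ℕ} {C Z Z' : Finset V} {j : ℕ} (h : Cl r g C Z Z' j) : Z' ⊆ Z := by
  induction h with
  | refl Z => exact Finset.Subset.refl _
  | step hD hc hg hcons h ih => exact ih.trans Finset.sdiff_subset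

theorem Cl.card {r g : ℕ} {C Z Z' : Finset V} {j : ℕ} (h : Cl r g C Z Z' j) :
    Z.card = Z'.card + r * j := by
  induction h with
  | refl Z => simp
  | @step Z D Z' j hD hc hg hcons h ih =>
    have h1 := Finset.card_sdiff_add_card_eq_card hD
    rw [hc] at h1
    rw [Nat.mul_add, mul_one]
    omega

theorem exists_clean {r : ℕ} (hr : 0 < r) (g : ℕ) (C : Finset V) : ∀ (n : ℕ) (Z : Finset V),
    Z.card = n → ∃ Z' j, Cl r g C Z Z' j ∧ NoClose r g C Z' := by
  intro n
  induction n using Nat.strong_induction_on with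
  | _ n ih =>
    intro Z hZ
    by_cases hno : NoClose r g C Z
    · exact ⟨Z, 0, Cl.refl Z, hno⟩
    · unfold NoClose at hno
      push Not at hno
      obtain ⟨x, y, h1, h2⟩ := hno
      set W := Z.filter (fun w => x ≤ w ∧ w ≤ y) with hW
      have hDc : (blkSet r W 0).card = r := blkSet_card_eq hr W 0 (by omega)
      have hDW : ∀ w ∈ blkSet r W 0, w ∈ W ∧ rk W w < r := by
        intro w hw
        rw [mem_blkSet, div_eq_iff_mem hr] at hw
        exact ⟨hw.1, by omega⟩
      have hDZ : blkSet r W 0 ⊆ Z := by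
        intro w hw
        exact (mem_filter.1 (hDW w hw).1).1
      have hcard : (Z \ blkSet r W 0).card < n := by
        have h3 := Finset.card_sdiff_add_card_eq_card hDZ
        omega
      obtain ⟨Z', j, h3, h4⟩ := ih _ hcard (Z \ blkSet r W 0) rfl
      refine ⟨Z', j + 1, Cl.step hDZ hDc ?_ ?_ h3, h4⟩
      · intro a ha b hb
        refine le_trans (Finset.card_le_card ?_) h1
        intro w hw
        rw [mem_filter] at hw ⊢
        have ha' := (mem_filter.1 (hDW a ha).1).2
        have hb' := (mem_filter.1 (hDW b hb).1).2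
        exact ⟨hw.1, ha'.1.trans hw.2.1, hw.2.2.trans hb'.2⟩
      · intro a ha b hb z hz haz hzb
        have ha' := (mem_filter.1 (hDW a ha).1).2
        have hb' := (mem_filter.1 (hDW b hb).1).2
        have hzW : z ∈ W := by
          rw [hW, mem_filter]
          exact ⟨hz, ha'.1.trans haz, hzb.trans hb'.2⟩
        rw [mem_blkSet, div_eq_iff_mem hr]
        have h5 := rk_mono W hzb
        have h6 := (hDW b hb).2
        exact ⟨hzW, by omega, by omega⟩

theorem count_le {r g : ℕ} {C Z : Finset V} (hno : NoClose r g C Z) (hd : Disjoint C Z) :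
    ∀ (n : ℕ) (x y : V), (C.filter (fun w => x < w ∧ w < y)).card = n →
      (Z.filter (fun w => x < w ∧ w < y)).card ≤ r * (n / (g + 1) + 1) := by
  intro n
  induction n using Nat.strong_induction_on with
  | _ n ih =>
    intro x y hn
    by_cases hng : n ≤ g
    · -- small case
      rcases Finset.eq_empty_or_nonempty (Z.filter (fun w => x < w ∧ w < y)) with h0 | h0
      · rw [h0]; simp
      · set W := Z.filter (fun w => x < w ∧ w < y) with hW
        have h1 := Finset.min'_mem W h0
        have h2 := Finset.max'_mem W h0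
        have h1' := (mem_filter.1 h1).2
        have h2' := (mem_filter.1 h2).2
        have h3 := hno (W.min' h0) (W.max' h0) (by
          refine le_trans (Finset.card_le_card ?_) (hn.le.trans hng)
          intro w hw
          rw [mem_filter] at hw ⊢
          exact ⟨hw.1, h1'.1.trans_le hw.2.1, hw.2.2.trans_lt h2'.2⟩)
        have h4 : W.card ≤ (Z.filter (fun w => W.min' h0 ≤ w ∧ w ≤ W.max' h0)).card := by
          apply Finset.card_le_card
          intro w hw
          rw [mem_filter]
          exact ⟨(mem_filter.1 hw).1, Finset.min'_le W w hw, Finset.le_max' W w hw⟩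
        have h5 : r ≤ r * (n / (g + 1) + 1) := Nat.le_mul_of_pos_right r (Nat.succ_pos _)
        omega
    · push Not at hng
      set C' := C.filter (fun w => x < w ∧ w < y) with hC'
      obtain ⟨c, hc, hcg⟩ := exists_rk C' (i := g) (by omega)
      have hc' := mem_filter.1 hc
      have e1 : (C.filter (fun w => x < w ∧ w < c)).card = g := by
        rw [← hcg]
        unfold rk
        congr 1
        ext w
        simp only [hC', mem_filter]
        constructor
        · rintro ⟨h1, h2, h3⟩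
          exact ⟨⟨h1, h2, h3.trans hc'.2.2⟩, h3⟩
        · rintro ⟨⟨h1, h2, -⟩, h3⟩
          exact ⟨h1, h2, h3⟩
      have e2 : (C.filter (fun w => c < w ∧ w < y)).card = n - g - 1 := by
        have h1 : C' = insert c (C.filter (fun w => x < w ∧ w < c) ∪
            C.filter (fun w => c < w ∧ w < y)) := by
          ext w
          simp only [Finset.mem_insert, mem_union, hC', mem_filter]
          constructor
          · rintro ⟨h1, h2, h3⟩
            rcases lt_trichotomy w c with h | h | h
            · right; left; exact ⟨h1, h2, h⟩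
            · left; exact h
            · right; right; exact ⟨h1, h, h3⟩
          · rintro (h | ⟨h1, h2, h3⟩ | ⟨h1, h2, h3⟩)
            · rw [h]; exact hc'
            · exact ⟨h1, h2, h3.trans hc'.2.2⟩
            · exact ⟨h1, hc'.2.1.trans h2, h3⟩
        have h2 : c ∉ (C.filter (fun w => x < w ∧ w < c) ∪
            C.filter (fun w => c < w ∧ w < y)) := by
          rw [mem_union, mem_filter, mem_filter]
          rintro (h | h)
          · exact lt_irrefl _ h.2.2
          · exact lt_irrefl _ h.2.1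
        have h3 : Disjoint (C.filter (fun w => x < w ∧ w < c))
            (C.filter (fun w => c < w ∧ w < y)) := by
          rw [Finset.disjoint_left]
          intro w hw1 hw2
          exact lt_asymm (mem_filter.1 hw1).2.2 (mem_filter.1 hw2).2.1
        have h4 := congrArg Finset.card h1
        rw [Finset.card_insert_of_notMem h2, Finset.card_union_of_disjoint h3, e1, hn] at h4
        omega
      have hcZ : c ∉ Z := fun h => (Finset.disjoint_left.1 hd) hc'.1 h
      have h1 : Z.filter (fun w => x < w ∧ w < y) ⊆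
          Z.filter (fun w => x < w ∧ w < c) ∪ Z.filter (fun w => c < w ∧ w < y) := by
        intro w hw
        rw [mem_filter] at hw
        rw [mem_union, mem_filter, mem_filter]
        rcases lt_trichotomy w c with h | h | h
        · left; exact ⟨hw.1, hw.2.1, h⟩
        · exfalso; rw [h] at hw; exact hcZ hw.1
        · right; exact ⟨hw.1, h, hw.2.2⟩
      have h2 := (Finset.card_le_card h1).trans (Finset.card_union_le _ _)
      have h3 := ih g (by omega) x c e1
      have h4 := ih (n - g - 1) (by omega) c y e2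
      have h5 : g / (g + 1) = 0 := Nat.div_eq_of_lt (by omega)
      have h6 : n / (g + 1) = (n - g - 1) / (g + 1) + 1 := by
        have h7 : n = (n - g - 1) + (g + 1) := by omega
        conv_lhs => rw [h7]
        rw [Nat.add_div_right _ (by omega)]
      rw [h5] at h3
      rw [h6]
      have h8 : r * ((n - g - 1) / (g + 1) + 1 + 1) = r * ((n - g - 1) / (g + 1) + 1) + r := by
        ring
      rw [h8]
      omega

/-- dummy elements below and above all real ones -/
structure Env (Rl Dm : Finset V) (M : ℕ) : Prop where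
  sep : ∀ d ∈ Dm, (∀ x ∈ Rl, d < x) ∨ (∀ x ∈ Rl, x < d)
  low : ∀ x ∈ Rl, M ≤ (Dm.filter (fun w => w < x)).card
  high : ∀ x ∈ Rl, M ≤ (Dm.filter (fun w => x < w)).card

theorem Env.disj {Rl Dm : Finset V} {M : ℕ} (E : Env Rl Dm M) {x : V} (hx : x ∈ Rl) :
    x ∉ Dm := by
  intro h
  rcases E.sep x h with h1 | h1
  · exact lt_irrefl _ (h1 x hx)
  · exact lt_irrefl _ (h1 x hx)

theorem Env.mk_ins {Rl Dm : Finset V} {M r m g z : ℕ} (E : Env Rl Dm M) (hr : 0 < r) (hm : 0 < m)
    (hM : m * r ≤ M) (hz : g + r ≤ z) {C P Z D : Finset V} (hD : D ⊆ Rl) (hDc : D.card = r)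
    (hdC : Disjoint D C) (hdP : Disjoint D P) (hdZ : Disjoint D Z)
    (hg : ∀ a ∈ D, ∀ b ∈ D, (C.filter (fun w => a ≤ w ∧ w ≤ b)).card ≤ g)
    (hP : NoClose r g C P)
    (hcons : ∀ a ∈ D, ∀ b ∈ D, ∀ z ∈ Z, a ≤ z → z ≤ b → False) :
    ∃ y0 y1, Ins (Dm ∪ C ∪ P ∪ Z) D r m z y0 y1 := by
  have hne : D.Nonempty := Finset.card_pos.1 (by omega)
  have h0 := Finset.min'_mem D hne
  have h1 := Finset.max'_mem D hne
  refine ⟨D.min' hne, D.max' hne, hr, hm, hDc, ?_, h0, h1, fun y hy => Finset.min'_le D y hy,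
    fun y hy => Finset.le_max' D y hy, ?_, ?_, ?_⟩
  · rw [Finset.disjoint_union_right, Finset.disjoint_union_right, Finset.disjoint_union_right]
    refine ⟨⟨⟨?_, hdC⟩, hdP⟩, hdZ⟩
    rw [Finset.disjoint_left]
    intro x hx
    exact E.disj (hD hx)
  · -- the zone
    set a := D.min' hne
    set b := D.max' hne
    have hC1 := hg a h0 b h1
    have hP1 := hP a b hC1
    have hsub : (Dm ∪ C ∪ P ∪ Z).filter (fun w => a < w ∧ w < b) ⊆
        C.filter (fun w => a ≤ w ∧ w ≤ b) ∪ P.filter (fun w => a ≤ w ∧ w ≤ b) := by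
      intro w hw
      rw [mem_filter, mem_union, mem_union, mem_union] at hw
      rw [mem_union, mem_filter, mem_filter]
      obtain ⟨hw1, hw2, hw3⟩ := hw
      rcases hw1 with ((h | h) | h) | h
      · exfalso
        rcases E.sep w h with h2 | h2
        · exact lt_asymm (h2 a (hD h0)) hw2
        · exact lt_asymm (h2 b (hD h1)) hw3
      · left; exact ⟨h, hw2.le, hw3.le⟩
      · right; exact ⟨h, hw2.le, hw3.le⟩
      · exact absurd (hcons a h0 b h1 w h hw2.le hw3.le) id
    have h2 := (Finset.card_le_card hsub).trans (Finset.card_union_le _ _)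
    omega
  · have h2 := E.low _ (hD h0)
    refine hM.trans (h2.trans ?_)
    unfold rk
    apply Finset.card_le_card
    intro w hw
    rw [mem_filter] at hw ⊢
    exact ⟨by simp [hw.1], hw.2⟩
  · have h2 := E.high _ (hD h1)
    set b := D.max' hne
    have h3 : Disjoint (Dm.filter (fun w => b < w)) ((Dm ∪ C ∪ P ∪ Z).filter (fun w => w < b)) := by
      rw [Finset.disjoint_left]
      intro w hw1 hw2
      exact lt_asymm (mem_filter.1 hw1).2 (mem_filter.1 hw2).2
    have h4 : (Dm.filter (fun w => b < w)) ∪ ((Dm ∪ C ∪ P ∪ Z).filter (fun w => w < b)) ⊆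
        Dm ∪ C ∪ P ∪ Z := by
      intro w hw
      rw [mem_union, mem_filter, mem_filter] at hw
      rcases hw with h | h
      · simp [h.1]
      · exact h.1
    have h5 := Finset.card_le_card h4
    rw [Finset.card_union_of_disjoint h3] at h5
    unfold rk
    omega

end

section

variable {V R : Type} [LinearOrder V] [Fintype V] [AddCommGroup R] [Fintype R] [DecidableEq R]

theorem sys_del_cl {Rl Dm : Finset V} {M r m g z : ℕ} (E : Env Rl Dm M) (hr : 0 < r) (hm : 0 < m)
    (hM : m * r ≤ M) (hz : g + r ≤ z) (hR : Fintype.card R = r) {C P : Finset V}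
    (hP : NoClose r g C P) {Z Z' : Finset V} {j : ℕ} (hcl : Cl r g C Z Z' j) :
    ∀ {L : List (Fin 3 × R → V)} {N : V → V → ℕ} {α I D : ℕ}, Z ⊆ Rl → Disjoint Z C →
      Disjoint Z P → Sys r m z (Dm ∪ C ∪ P ∪ Z) L N α I D →
      ∃ (L' : List (Fin 3 × R → V)) (N' : V → V → ℕ),
        Sys r m z (Dm ∪ C ∪ P ∪ Z') L' N' α I (D + j) ∧ ∀ u v, N u v ≤ N' u v := by
  induction hcl with
  | refl Z =>
    intro L N α I D _ _ _ hS
    exact ⟨L, N, hS, fun _ _ => le_rfl⟩
  | @step Z D Z' j hD hc hg hcons h ih =>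
    intro L N α I D' hZR hZC hZP hS
    have hsd : Z \ D ⊆ Z := Finset.sdiff_subset
    obtain ⟨y0, y1, hI⟩ := E.mk_ins hr hm hM hz (C := C) (P := P) (Z := Z \ D) (D := D)
      (hD.trans hZR) hc (hZC.mono_left hD) (hZP.mono_left hD) Finset.disjoint_sdiff hg hP
      (by
        intro a ha b hb w hw h1 h2
        have h3 := hcons a ha b hb w (hsd hw) h1 h2
        exact (Finset.mem_sdiff.1 hw).2 h3)
    have e1 : Dm ∪ C ∪ P ∪ Z = (Dm ∪ C ∪ P ∪ (Z \ D)) ∪ D := by
      rw [Finset.union_assoc _ (Z \ D) D, Finset.sdiff_union_of_subset hD]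
    rw [e1] at hS
    obtain ⟨L1, N1, hS1, hN1⟩ := hS.step_del hR hI
    obtain ⟨L2, N2, hS2, hN2⟩ := ih (hsd.trans hZR) (hZC.mono_left hsd) (hZP.mono_left hsd) hS1
    refine ⟨L2, N2, ?_, fun u v => (hN1 u v).trans (hN2 u v)⟩
    have e2 : D' + (j + 1) = D' + 1 + j := by omega
    rw [e2]
    exact hS2

theorem sys_ins_cl {Rl Dm : Finset V} {M r m g z : ℕ} (E : Env Rl Dm M) (hr : 0 < r) (hm : 0 < m)
    (hM : m * r ≤ M) (hz : g + r ≤ z) (hR : Fintype.card R = r) {C P : Finset V}
    (hP : NoClose r g C P) {Z Z' : Finset V} {j : ℕ} (hcl : Cl r g C Z Z' j) :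
    ∀ {L : List (Fin 3 × R → V)} {N : V → V → ℕ} {α I D : ℕ}, Z ⊆ Rl → Disjoint Z C →
      Disjoint Z P → Sys r m z (Dm ∪ C ∪ P ∪ Z') L N α I D →
      ∃ (L' : List (Fin 3 × R → V)) (N' : V → V → ℕ),
        Sys r m z (Dm ∪ C ∪ P ∪ Z) L' N' α (I + j) D ∧ ∀ u v, N u v ≤ N' u v := by
  induction hcl with
  | refl Z =>
    intro L N α I D _ _ _ hS
    exact ⟨L, N, hS, fun _ _ => le_rfl⟩
  | @step Z D Z' j hD hc hg hcons h ih =>
    intro L N α I D' hZR hZC hZP hS
    have hsd : Z \ D ⊆ Z := Finset.sdiff_subset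
    obtain ⟨y0, y1, hI⟩ := E.mk_ins hr hm hM hz (C := C) (P := P) (Z := Z \ D) (D := D)
      (hD.trans hZR) hc (hZC.mono_left hD) (hZP.mono_left hD) Finset.disjoint_sdiff hg hP
      (by
        intro a ha b hb w hw h1 h2
        have h3 := hcons a ha b hb w (hsd hw) h1 h2
        exact (Finset.mem_sdiff.1 hw).2 h3)
    have e1 : Dm ∪ C ∪ P ∪ Z = (Dm ∪ C ∪ P ∪ (Z \ D)) ∪ D := by
      rw [Finset.union_assoc _ (Z \ D) D, Finset.sdiff_union_of_subset hD]
    obtain ⟨L1, N1, hS1, hN1⟩ := ih (hsd.trans hZR) (hZC.mono_left hsd) (hZP.mono_left hsd) hS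
    obtain ⟨L2, N2, hS2, hN2⟩ := hS1.step_ins hR hI
    refine ⟨L2, N2, ?_, fun u v => (hN1 u v).trans (hN2 u v)⟩
    rw [e1]
    have e2 : I + (j + 1) = I + j + 1 := by omega
    rw [e2]
    exact hS2

end

end Run7.h68
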