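import Pool.Agent.Run7.h68.Ext

/-!
# Isolating edges of a combinatorial map
-/

set_option autoImplicit false

open Finset Equiv

namespace Run7.h68

section

variable {A : Type*} [Fintype A] [DecidableEq A]

theorem same_isolate_aux {τ : Perm A} {x : A} : ∀ (n : ℕ) (a : A), a ≠ x → (τ ^ n) a ≠ x →
    (swap x (τ x) * τ).SameCycle a ((τ ^ n) a) := by
  intro n
  induction n using Nat.strong_induction_on with
  | _ n ih =>
    intro a ha hn
    rcases n with _ | n
    · exact Perm.SameCycle.refl _ _
    · have hstep : ∀ c, c ≠ x → τ c ≠ x → (swap x (τ x) * τ) c = τ c := by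
        intro c h1 h2
        rw [Perm.mul_apply, swap_apply_of_ne_of_ne h2]
        intro h
        exact h1 (τ.injective h)
      by_cases hc : (τ ^ n) a = x
      · rcases n with _ | n
        · exact absurd hc ha
        · have h1 : (τ ^ n) a ≠ x := by
            intro h
            apply hn
            rw [pow_succ', Perm.mul_apply, hc]
            rw [pow_succ', Perm.mul_apply, h] at hc
            exact hc
          have h2 := ih n (by omega) a ha h1
          have h3 : (swap x (τ x) * τ) ((τ ^ n) a) = (τ ^ (n + 1 + 1)) a := by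
            rw [pow_succ', Perm.mul_apply τ, hc, Perm.mul_apply]
            rw [pow_succ', Perm.mul_apply] at hc
            rw [hc, swap_apply_left]
          rw [← h3]
          exact Perm.sameCycle_apply_right.2 h2
      · have h2 := ih n (by omega) a ha hc
        have h3 : (swap x (τ x) * τ) ((τ ^ n) a) = (τ ^ (n + 1)) a := by
          rw [pow_succ', Perm.mul_apply τ]
          apply hstep _ hc
          rw [pow_succ', Perm.mul_apply] at hn
          exact hn
        rw [← h3]
        exact Perm.sameCycle_apply_right.2 h2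

theorem same_isolate {τ : Perm A} {x a b : A} (ha : a ≠ x) (hb : b ≠ x) (h : τ.SameCycle a b) :
    (swap x (τ x) * τ).SameCycle a b := by
  obtain ⟨n, rfl⟩ := sameCycle_nat h
  exact same_isolate_aux n a ha hb

omit [Fintype A] in
theorem isolate_fix {τ : Perm A} (x : A) : (swap x (τ x) * τ) x = x := by
  rw [Perm.mul_apply, swap_apply_right]

omit [Fintype A] in
theorem isolate_fix' {τ : Perm A} {x c : A} (hc : c ≠ x) (h : τ c = c) :
    (swap x (τ x) * τ) c = c := by
  rw [Perm.mul_apply, h, swap_apply_of_ne_of_ne hc]
  intro h1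
  rw [← h] at h1
  exact hc (τ.injective h1)

omit [Fintype A] in
theorem isolate_label {β : Type*} {τ : Perm A} {tl : A → β} (h : ∀ c, tl (τ c) = tl c) (x : A) :
    ∀ c, tl ((swap x (τ x) * τ) c) = tl c := by
  intro c
  rw [Perm.mul_apply, swap_apply_def]
  split_ifs with h1 h2
  · rw [h x, ← h c, h1]
  · rw [τ.injective h2]
  · exact h c

theorem sameCycle_step {τ : Perm A} {a b : A} (h : τ a = b) : τ.SameCycle a b := by
  rw [← h]
  exact Perm.sameCycle_apply_right.2 (Perm.SameCycle.refl _ _)

theorem sameCycle_fixed {τ : Perm A} {a b : A} (ha : τ a = a) (h : τ.SameCycle a b) : a = b := by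
  obtain ⟨n, rfl⟩ := sameCycle_nat h
  induction n with
  | zero => rfl
  | succ n ih =>
    have h1 := ih (by
      rw [pow_succ'] at h
      rw [Perm.mul_apply] at h
      exact Perm.sameCycle_apply_right.1 h)
    rw [pow_succ', Perm.mul_apply, ← h1, ha]

/-- isolating the two darts of an edge -/
theorem isolate_pair {τ rev : Perm A} (hrr : ∀ d, rev (rev d) = d) (hrn : ∀ d, rev d ≠ d)
    {x d : A} (hdx : d ≠ x) (hdy : d ≠ rev x) (hs : τ.SameCycle d x) :
    ∃ σ' : Perm A, σ' x = x ∧ σ' (rev x) = rev x ∧
      (∀ c, c ≠ x → c ≠ rev x → τ c = c → σ' c = c) ∧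
      (∀ a b, a ≠ x → a ≠ rev x → b ≠ x → b ≠ rev x → τ.SameCycle a b → σ'.SameCycle a b) ∧
      (∀ (tl : A → Quotient (Perm.SameCycle.setoid τ)) , (∀ c, tl (τ c) = tl c) →
        ∀ c, tl (σ' c) = tl c) ∧
      numCyc τ + numCyc (τ * rev) + 2 ≤ numCyc σ' + numCyc (σ' * rev) := by
  obtain ⟨y, hy⟩ : ∃ y, y = rev x := ⟨_, rfl⟩
  rw [← hy] at hdy ⊢
  have hyx : y ≠ x := by rw [hy]; exact hrn x
  have hry : rev y = x := by rw [hy, hrr]
  obtain ⟨σ1, hσ1⟩ : ∃ σ1, σ1 = swap x (τ x) * τ := ⟨_, rfl⟩
  obtain ⟨σ', hσ'⟩ : ∃ σ', σ' = swap y (σ1 y) * σ1 := ⟨_, rfl⟩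
  have h1x : σ1 x = x := by rw [hσ1]; exact isolate_fix x
  have hτx : τ x ≠ x := by
    intro h
    exact hdx (sameCycle_fixed h hs.symm).symm
  have hn1 : numCyc σ1 = numCyc τ + 1 := by
    rw [hσ1]
    exact numCyc_swap_split hτx.symm (sameCycle_step rfl)
  refine ⟨σ', ?_, ?_, ?_, ?_, ?_, ?_⟩
  · rw [hσ']; exact isolate_fix' hyx.symm h1x
  · rw [hσ']; exact isolate_fix y
  · intro c hcx hcy hc
    rw [hσ']
    apply isolate_fix' hcy
    rw [hσ1]
    exact isolate_fix' hcx hc
  · intro a b hax hay hbx hby hab
    rw [hσ']
    apply same_isolate hay hby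
    rw [hσ1]
    exact same_isolate hax hbx hab
  · intro tl htl
    rw [hσ']
    apply isolate_label
    rw [hσ1]
    exact isolate_label htl x
  · by_cases hfix : σ1 y = y
    · have e1 : σ' = σ1 := by
        rw [hσ', hfix, swap_self]; rfl
      have hty : τ y = y := by
        rw [hσ1, Perm.mul_apply, swap_apply_def] at hfix
        split_ifs at hfix with h1 h2
        · -- `τ y = x`, `τ x = y`
          exfalso
          obtain ⟨n, hn⟩ := sameCycle_nat hs.symm
          have h3 : ∀ n : ℕ, (τ ^ n) x = x ∨ (τ ^ n) x = y := by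
            intro n
            induction n with
            | zero => left; rfl
            | succ n ih =>
              rw [pow_succ', Perm.mul_apply]
              rcases ih with h | h
              · right; rw [h]; exact hfix
              · left; rw [h]; exact h1
          rcases h3 n with h | h
          · rw [hn] at h; exact hdx h
          · rw [hn] at h; exact hdy h
        · exfalso
          exact hyx hfix.symm
        · exact hfix
      have hsame : (τ * rev).SameCycle x (τ x) := by
        have h1 : (τ * rev).SameCycle x y := by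
          apply sameCycle_step
          rw [Perm.mul_apply, ← hy, hty]
        refine h1.trans (sameCycle_step ?_)
        rw [Perm.mul_apply, hry]
      have h2 := numCyc_swap_split hτx.symm hsame
      rw [← mul_assoc, ← hσ1] at h2
      rw [e1, hn1, h2]
      omega
    · have hn2 : numCyc σ' = numCyc σ1 + 1 := by
        rw [hσ']
        exact numCyc_swap_split (Ne.symm hfix) (sameCycle_step rfl)
      have hsame : (σ1 * rev).SameCycle y (σ1 y) := by
        have h1 : (σ1 * rev).SameCycle y x := by
          apply sameCycle_step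
          rw [Perm.mul_apply, hry, h1x]
        refine h1.trans (sameCycle_step ?_)
        rw [Perm.mul_apply, ← hy]
      have h2 := numCyc_swap_split (Ne.symm hfix) hsame
      rw [← mul_assoc, ← hσ'] at h2
      have h3 := numCyc_swap_le (τ * rev) x (τ x)
      rw [← mul_assoc, ← hσ1] at h3
      omega

/-- isolating all edges outside a set of darts closed under reversal -/
theorem isolate {σ rev : Perm A} (hrr : ∀ d, rev (rev d) = d) (hrn : ∀ d, rev d ≠ d)
    (hconn : ∀ S : Set A, S.Nonempty → (∀ d ∈ S, σ d ∈ S ∧ rev d ∈ S) → S = Set.univ) :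
    ∀ (n : ℕ) (K : Finset A), K.Nonempty → (∀ d ∈ K, rev d ∈ K) → K.card + n = Fintype.card A →
    ∃ σ' : Perm A, (∀ d, d ∉ K → σ' d = d) ∧
      (∀ a ∈ K, ∀ b ∈ K, σ.SameCycle a b → σ'.SameCycle a b) ∧
      (∀ c, cyc σ (σ' c) = cyc σ c) ∧
      numCyc σ + numCyc (σ * rev) + n ≤ numCyc σ' + numCyc (σ' * rev) := by
  intro n
  induction n using Nat.strong_induction_on with
  | _ n ih =>
    intro K hne hrev hcard
    by_cases huniv : ∀ d ∈ K, σ d ∈ K
    · have h1 := hconn (K : Set A) (by simpa using hne) (fun d hd => ⟨huniv d hd, hrev d hd⟩)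
      have h2 : K = Finset.univ := by
        apply Finset.eq_univ_of_forall
        intro d
        have : d ∈ (K : Set A) := by rw [h1]; trivial
        exact this
      have hn : n = 0 := by
        rw [h2, Finset.card_univ] at hcard
        omega
      refine ⟨σ, ?_, fun a _ b _ h => h, fun c => cyc_apply σ c, by rw [hn]; rfl⟩
      intro d hd
      rw [h2] at hd
      exact absurd (Finset.mem_univ d) hd
    · push Not at huniv
      obtain ⟨d, hd, hx⟩ := huniv
      obtain ⟨x, hxe⟩ : ∃ x, x = σ d := ⟨_, rfl⟩
      rw [← hxe] at hx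
      have hy : rev x ∉ K := by
        intro h
        apply hx
        rw [← hrr x]
        exact hrev _ h
      have hyx := hrn x
      obtain ⟨K', hK'⟩ : ∃ K' : Finset A, K' = insert x (insert (rev x) K) := ⟨_, rfl⟩
      have hxK : x ∉ insert (rev x) K := by
        rw [Finset.mem_insert]
        rintro (h | h)
        · exact hyx h.symm
        · exact hx h
      have hc' : K'.card = K.card + 2 := by
        rw [hK', Finset.card_insert_of_notMem hxK, Finset.card_insert_of_notMem hy]
      have hle : K'.card ≤ Fintype.card A := Finset.card_le_univ K'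
      obtain ⟨τ, ht1, ht2, ht3, ht4⟩ := ih (n - 2) (by omega) K'
        (by rw [hK']; exact Finset.insert_nonempty _ _)
        (by
          intro e he
          rw [hK', Finset.mem_insert, Finset.mem_insert] at he
          rw [hK', Finset.mem_insert, Finset.mem_insert]
          rcases he with h | h | h
          · right; left; rw [h]
          · left; rw [h, hrr]
          · right; right; exact hrev e h)
        (by omega)
      have hdK' : d ∈ K' := by
        rw [hK', Finset.mem_insert, Finset.mem_insert]; exact Or.inr (Or.inr hd)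
      have hxK' : x ∈ K' := by rw [hK']; exact Finset.mem_insert_self _ _
      have hdx : d ≠ x := fun h => hx (h ▸ hd)
      have hdy : d ≠ rev x := fun h => hy (h ▸ hd)
      have hsame : τ.SameCycle d x := ht2 d hdK' x hxK' (sameCycle_step hxe.symm)
      obtain ⟨σ', h1, h2, h3, h4, h5, h6⟩ := isolate_pair hrr hrn hdx hdy hsame
      have hsub : ∀ a ∈ K, a ∈ K' ∧ a ≠ x ∧ a ≠ rev x := by
        intro a ha
        refine ⟨?_, fun h => hx (h ▸ ha), fun h => hy (h ▸ ha)⟩
        rw [hK', Finset.mem_insert, Finset.mem_insert]; exact Or.inr (Or.inr ha)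
      refine ⟨σ', ?_, ?_, ?_, by omega⟩
      · intro c hc
        by_cases hcx : c = x
        · rw [hcx]; exact h1
        · by_cases hcy : c = rev x
          · rw [hcy]; exact h2
          · apply h3 c hcx hcy
            apply ht1
            rw [hK', Finset.mem_insert, Finset.mem_insert]
            rintro (h | h | h)
            · exact hcx h
            · exact hcy h
            · exact hc h
      · intro a ha b hb hab
        have ha' := hsub a ha
        have hb' := hsub b hb
        exact h4 a b ha'.2.1 ha'.2.2 hb'.2.1 hb'.2.2 (ht2 a ha'.1 b hb'.1 hab)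
      · -- labels
        intro c
        have hlab : ∀ e, cyc σ (σ' e) = cyc σ e := by
          intro e
          by_contra hne
          have h7 : τ.SameCycle e (σ' e) := by
            have h8 := h5 (cyc τ) (fun c => cyc_apply τ c) e
            exact (cyc_eq.1 h8).symm
          exact hne (inv_sameCycle ht3 h7).symm
        exact hlab c

end

end Run7.h68
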