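import Mathlib

/-!
# Balanced colourings
-/

set_option autoImplicit false

open Finset

namespace Run7.h68.K

section

variable {V A : Type} [Fintype V] [DecidableEq V] [AddCommGroup A] [Fintype A] [DecidableEq A]

theorem sum_shift (G : (V → A) → ℤ) (v : V) (c : A) :
    ∑ τ : V → A, G τ = ∑ τ : V → A, G (τ + Pi.single v c) :=
  (Equiv.sum_comp (Equiv.addRight (Pi.single v c : V → A)) G).symm

theorem sum_mul_zero (x : A → ℤ) (hx : ∑ c, x c = 0) {v w : V} (h : v ≠ w) :
    ∑ τ : V → A, x (τ v) * x (τ w) = 0 := by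
  have h1 : ∀ c : A, ∑ τ : V → A, x (τ v) * x (τ w) = ∑ τ : V → A, x (τ v + c) * x (τ w) := by
    intro c
    rw [sum_shift (fun τ => x (τ v) * x (τ w)) v c]
    apply Finset.sum_congr rfl
    intro τ _
    simp only [Pi.add_apply, Pi.single_eq_same, Pi.single_eq_of_ne h.symm, add_zero]
  have h2 : (Fintype.card A : ℤ) * ∑ τ : V → A, x (τ v) * x (τ w) = 0 := by
    calc (Fintype.card A : ℤ) * ∑ τ : V → A, x (τ v) * x (τ w)
        = ∑ _c : A, ∑ τ : V → A, x (τ v) * x (τ w) := by
          rw [Finset.sum_const, Finset.card_univ, nsmul_eq_mul]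
      _ = ∑ c : A, ∑ τ : V → A, x (τ v + c) * x (τ w) := Finset.sum_congr rfl (fun c _ => h1 c)
      _ = ∑ τ : V → A, (∑ c : A, x (τ v + c)) * x (τ w) := by
          rw [Finset.sum_comm]
          apply Finset.sum_congr rfl
          intro τ _
          rw [Finset.sum_mul]
      _ = 0 := by
          apply Finset.sum_eq_zero
          intro τ _
          have h3 : ∑ c : A, x (τ v + c) = ∑ c, x c := Equiv.sum_comp (Equiv.addLeft (τ v)) x
          rw [h3, hx, zero_mul]
  rcases mul_eq_zero.1 h2 with h3 | h3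
  · exfalso
    have : 0 < Fintype.card A := Fintype.card_pos_iff.2 ⟨0⟩
    have : (0 : ℤ) < Fintype.card A := by exact_mod_cast this
    omega
  · exact h3

theorem sum_sq (x : A → ℤ) (y : ℤ) (hx : ∑ c, x c ^ 2 = Fintype.card A * y) (v : V) :
    ∑ τ : V → A, x (τ v) ^ 2 = Fintype.card (V → A) * y := by
  have h1 : ∀ c : A, ∑ τ : V → A, x (τ v) ^ 2 = ∑ τ : V → A, x (τ v + c) ^ 2 := by
    intro c
    rw [sum_shift (fun τ => x (τ v) ^ 2) v c]
    apply Finset.sum_congr rfl
    intro τ _
    simp only [Pi.add_apply, Pi.single_eq_same]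
  have h2 : (Fintype.card A : ℤ) * ∑ τ : V → A, x (τ v) ^ 2 =
      Fintype.card A * (Fintype.card (V → A) * y) := by
    calc (Fintype.card A : ℤ) * ∑ τ : V → A, x (τ v) ^ 2
        = ∑ _c : A, ∑ τ : V → A, x (τ v) ^ 2 := by
          rw [Finset.sum_const, Finset.card_univ, nsmul_eq_mul]
      _ = ∑ c : A, ∑ τ : V → A, x (τ v + c) ^ 2 := Finset.sum_congr rfl (fun c _ => h1 c)
      _ = ∑ τ : V → A, ∑ c : A, x (τ v + c) ^ 2 := Finset.sum_comm
      _ = ∑ _τ : V → A, Fintype.card A * y := by
          apply Finset.sum_congr rfl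
          intro τ _
          rw [← hx]
          exact Equiv.sum_comp (Equiv.addLeft (τ v)) (fun c => x c ^ 2)
      _ = Fintype.card A * (Fintype.card (V → A) * y) := by
          rw [Finset.sum_const, Finset.card_univ, nsmul_eq_mul]
          ring
  have : 0 < Fintype.card A := Fintype.card_pos_iff.2 ⟨0⟩
  have h3 : (Fintype.card A : ℤ) ≠ 0 := by
    have : (0 : ℤ) < Fintype.card A := by exact_mod_cast this
    omega
  exact mul_left_cancel₀ h3 h2

theorem second_moment (F : Finset V) (a : A) :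
    ∑ τ : V → A, ((Fintype.card A : ℤ) * ((F.filter (fun v => τ v = a)).card : ℤ) - F.card) ^ 2 =
      Fintype.card (V → A) * (F.card * (Fintype.card A - 1)) := by
  obtain ⟨p, hp⟩ : ∃ p : ℤ, p = Fintype.card A := ⟨_, rfl⟩
  rw [← hp]
  let x : A → ℤ := fun c => p * (if c = a then 1 else 0) - 1
  have hx0 : ∑ c, x c = 0 := by
    simp only [x]
    rw [Finset.sum_sub_distrib, ← Finset.mul_sum]
    simp [hp]
  have hx2 : ∑ c, x c ^ 2 = Fintype.card A * (p - 1) := by
    have h1 : ∀ c, x c ^ 2 = (p ^ 2 - 2 * p) * (if c = a then 1 else 0) + 1 := by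
      intro c
      simp only [x]
      split_ifs
      · ring
      · ring
    simp only [h1]
    rw [Finset.sum_add_distrib, ← Finset.mul_sum]
    simp [← hp]
    ring
  have h1 : ∀ τ : V → A, p * ((F.filter (fun v => τ v = a)).card : ℤ) - F.card =
      ∑ v ∈ F, x (τ v) := by
    intro τ
    simp only [x]
    rw [Finset.sum_sub_distrib, ← Finset.mul_sum, Finset.card_filter]
    push_cast
    simp
  calc ∑ τ : V → A, (p * ((F.filter (fun v => τ v = a)).card : ℤ) - F.card) ^ 2
      = ∑ τ : V → A, ∑ v ∈ F, ∑ w ∈ F, x (τ v) * x (τ w) := by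
        apply Finset.sum_congr rfl
        intro τ _
        rw [h1, sq, Finset.sum_mul_sum]
    _ = ∑ v ∈ F, ∑ w ∈ F, ∑ τ : V → A, x (τ v) * x (τ w) := by
        rw [Finset.sum_comm]
        apply Finset.sum_congr rfl
        intro v _
        rw [Finset.sum_comm]
    _ = ∑ v ∈ F, (Fintype.card (V → A) : ℤ) * (p - 1) := by
        apply Finset.sum_congr rfl
        intro v hv
        rw [Finset.sum_eq_single_of_mem v hv]
        · have := sum_sq x (p - 1) hx2 v
          rw [← this]
          apply Finset.sum_congr rfl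
          intro τ _
          ring
        · intro w _ hwv
          exact sum_mul_zero x hx0 hwv.symm
    _ = Fintype.card (V → A) * (F.card * (p - 1)) := by
        rw [Finset.sum_const, nsmul_eq_mul]
        ring

theorem bad_le {ρ l : ℕ} (F : Finset V) (a : A)
    (hF : F.card = Fintype.card A * (ρ + l)) :
    l ^ 2 * (univ.filter (fun τ : V → A => (F.filter (fun v => τ v = a)).card < ρ)).card ≤
      Fintype.card (V → A) * (ρ + l) := by
  have h1 := second_moment F a
  obtain ⟨p, hp⟩ : ∃ p : ℕ, p = Fintype.card A := ⟨_, rfl⟩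
  have hp0 : 0 < p := by rw [hp]; exact Fintype.card_pos_iff.2 ⟨0⟩
  rw [← hp] at h1 hF
  have hp1 : (0 : ℤ) < p := by exact_mod_cast hp0
  have h2 : (∑ τ ∈ univ.filter (fun τ : V → A => (F.filter (fun v => τ v = a)).card < ρ),
      ((p : ℤ) * l) ^ 2) ≤
      ∑ τ : V → A, ((p : ℤ) * ((F.filter (fun v => τ v = a)).card : ℤ) - F.card) ^ 2 := by
    refine le_trans (Finset.sum_le_sum ?_)
      (Finset.sum_le_sum_of_subset_of_nonneg (Finset.filter_subset _ _)
        (fun τ _ _ => sq_nonneg _))
    intro τ hτ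
    rw [mem_filter] at hτ
    have h3 : ((F.filter (fun v => τ v = a)).card : ℤ) ≤ ρ := by exact_mod_cast hτ.2.le
    have h4 : (p : ℤ) * ((F.filter (fun v => τ v = a)).card : ℤ) - F.card ≤ -(p * l) := by
      rw [hF]
      push_cast
      nlinarith
    have h5 : (0 : ℤ) ≤ p * l := by positivity
    nlinarith
  rw [h1, Finset.sum_const, nsmul_eq_mul, hF] at h2
  push_cast at h2
  have h3 : (0 : ℤ) ≤ Fintype.card (V → A) := by positivity
  have h4 : (p : ℤ) * (p * ((l : ℤ) ^ 2 *
      ((univ.filter (fun τ : V → A => (F.filter (fun v => τ v = a)).card < ρ)).card : ℤ))) ≤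
      p * (p * ((Fintype.card (V → A) : ℤ) * (ρ + l))) := by
    have h5 : (Fintype.card (V → A) : ℤ) * (p * (ρ + l) * (p - 1)) ≤
        p * (p * ((Fintype.card (V → A) : ℤ) * (ρ + l))) := by
      have h6 : (0 : ℤ) ≤ (Fintype.card (V → A) : ℤ) * (p * (ρ + l)) := by positivity
      nlinarith
    have h7 := h2.trans h5
    calc _ = ((univ.filter (fun τ : V → A => (F.filter (fun v => τ v = a)).card < ρ)).card : ℤ) *
        (p * l) ^ 2 := by ring
      _ ≤ _ := h7
  have h5 := le_of_mul_le_mul_left (le_of_mul_le_mul_left h4 hp1) hp1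
  exact_mod_cast h5

omit [Fintype V] [DecidableEq V] [AddCommGroup A] [Fintype A] [DecidableEq A] in
open Classical in
theorem double_count {Ξ T : Type} [Fintype Ξ] [Fintype T] (B : Ξ → Fin 3 → T → Prop) :
    ∑ τ : T, (univ.filter (fun π : Ξ => ∃ t, B π t τ)).card ≤
      ∑ π : Ξ, ∑ t : Fin 3, (univ.filter (fun τ : T => B π t τ)).card := by
  simp only [Finset.card_filter]
  rw [Finset.sum_comm]
  apply Finset.sum_le_sum
  intro π _
  rw [Finset.sum_comm]
  apply Finset.sum_le_sum
  intro τ _
  split_ifs with h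
  · obtain ⟨t, ht⟩ := h
    calc 1 = (if B π t τ then 1 else 0) := by rw [if_pos ht]
      _ ≤ _ := Finset.single_le_sum (f := fun t => if B π t τ then 1 else 0)
          (fun _ _ => Nat.zero_le _) (Finset.mem_univ t)
  · exact Nat.zero_le _

/-- There is a colouring such that only few of the given triples of sets contain a set in which the
prescribed colour occurs less than `ρ` times. -/
theorem exists_coloring {Ξ : Type} [Fintype Ξ] {ρ l : ℕ} (F : Ξ → Fin 3 → Finset V)
    (c : Ξ → Fin 3 → A) (hF : ∀ π t, (F π t).card = Fintype.card A * (ρ + l)) :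
    ∃ τ : V → A, l ^ 2 * (univ.filter (fun π : Ξ =>
      ∃ t, ((F π t).filter (fun v => τ v = c π t)).card < ρ)).card ≤
        3 * (ρ + l) * Fintype.card Ξ := by
  classical
  by_contra hcon
  push Not at hcon
  have h1 : ∑ τ : V → A, (3 * (ρ + l) * Fintype.card Ξ) <
      ∑ τ : V → A, l ^ 2 * (univ.filter (fun π : Ξ =>
        ∃ t, ((F π t).filter (fun v => τ v = c π t)).card < ρ)).card :=
    Finset.sum_lt_sum_of_nonempty ⟨fun _ => 0, Finset.mem_univ _⟩ (fun τ _ => hcon τ)
  have h2 : ∑ τ : V → A, l ^ 2 * (univ.filter (fun π : Ξ =>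
        ∃ t, ((F π t).filter (fun v => τ v = c π t)).card < ρ)).card ≤
      ∑ π : Ξ, ∑ t : Fin 3, l ^ 2 * (univ.filter (fun τ : V → A =>
        ((F π t).filter (fun v => τ v = c π t)).card < ρ)).card := by
    rw [← Finset.mul_sum]
    simp only [← Finset.mul_sum]
    apply Nat.mul_le_mul_left
    have := double_count (fun (π : Ξ) (t : Fin 3) (τ : V → A) =>
      ((F π t).filter (fun v => τ v = c π t)).card < ρ)
    refine le_trans (le_of_eq ?_) (this.trans (le_of_eq ?_))
    · apply Finset.sum_congr rfl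
      intro τ _
      congr!
    · apply Finset.sum_congr rfl
      intro π _
      apply Finset.sum_congr rfl
      intro t _
      congr!
  have h3 : ∑ π : Ξ, ∑ t : Fin 3, l ^ 2 * (univ.filter (fun τ : V → A =>
        ((F π t).filter (fun v => τ v = c π t)).card < ρ)).card ≤
      ∑ _π : Ξ, ∑ _t : Fin 3, Fintype.card (V → A) * (ρ + l) :=
    Finset.sum_le_sum (fun π _ => Finset.sum_le_sum (fun t _ => bad_le _ _ (hF π t)))
  have h4 := (h1.trans_le h2).trans_le h3
  simp only [Finset.sum_const, Finset.card_univ, smul_eq_mul, Fintype.card_fin] at h4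
  apply lt_irrefl (Fintype.card (V → A) * (3 * (ρ + l) * Fintype.card Ξ))
  calc _ < _ := h4
    _ = _ := by ring

end

end Run7.h68.K
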