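import Pool.Agent.Run7.h68.Surf2

/-!
# The surface obtained from pieces
-/

set_option autoImplicit false

open Finset Equiv

namespace Run7.h68

section

variable {V Q R : Type} [Fintype V] [DecidableEq V] [Fintype Q] [DecidableEq Q]
  [AddCommGroup R] [Fintype R] [DecidableEq R]

/-- The number of cycles of a permutation of the darts such that the cycles are exactly the sets of
darts with the same tail. -/
theorem numCyc_eq_card_vert {N : V → V → ℕ} (rot : Perm (Dart N))
    (h1 : ∀ d, Dtl (rot d) = Dtl d) (h2 : ∀ d d' : Dart N, Dtl d = Dtl d' → rot.SameCycle d d')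
    (h3 : ∀ v, ∃ d : Dart N, Dtl d = v) : numCyc rot = Fintype.card V := by
  classical
  unfold numCyc
  rw [← Nat.card_eq_fintype_card]
  apply Nat.card_congr
  refine Equiv.ofBijective (Quotient.lift Dtl (fun a b hab => inv_sameCycle h1 hab)) ⟨?_, ?_⟩
  · intro a b
    induction a using Quotient.inductionOn with
    | _ a =>
    induction b using Quotient.inductionOn with
    | _ b =>
    intro h
    exact Quotient.sound (h2 _ _ h)
  · intro v
    obtain ⟨d, hd⟩ := h3 v
    exact ⟨Quotient.mk _ d, hd⟩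

/-- A graph `G` whose vertices are mapped injectively to `V` and whose edges are mapped to edges of
the multigraph `N` embeds in the surface obtained by gluing the pieces. -/
theorem embeds_of_pieces {W : Type} (G : SimpleGraph W) (ι : W → V) (hι : Function.Injective ι)
    (p : Q → Fin 3 × R → V) (hp : ∀ ρ, Function.Injective (p ρ))
    (N : V → V → ℕ) (hs : ∀ u v, N u v = N v u) (hl : ∀ v, N v v = 0)
    (hslots : ∀ u v, (univ.filter fun s : Slot Q R =>
      p s.1 (s.2.1, s.2.2.1) = u ∧ p s.1 (s.2.1 + 1, s.2.2.2) = v).card ≤ N u v)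
    (v0 v1 : V) (h01 : v1 ≠ v0) (hstar : ∀ v, v ≠ v0 → 1 ≤ N v0 v)
    (hG : ∀ u v, G.Adj u v → 1 ≤ N (ι u) (ι v)) (g : ℕ)
    (hg : 3 * Fintype.card Q * Fintype.card R * harmonic (Fintype.card R)
      + (3 / 2) * (∑ u, ∑ v, N u v : ℕ) + 2 ≤
      4 * Fintype.card Q * Fintype.card R ^ 2 + 2 * Fintype.card V + 2 * g) :
    EmbedsIn G g := by
  classical
  obtain ⟨rot0, hr1, hr2, hr3⟩ := exists_rot p hp N hs hslots
  obtain ⟨rot, hm1, hm2, hm3⟩ := merge_all Dtl (drev hs) _ rot0 rfl hr1
  have hv : ∀ v, ∃ d : Dart N, Dtl d = v := by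
    intro v
    by_cases h : v = v0
    · have h1 := hstar v1 h01
      exact ⟨⟨(v0, v1), ⟨0, h1⟩⟩, h.symm⟩
    · have h1 := hstar v h
      rw [hs] at h1
      exact ⟨⟨(v, v0), ⟨0, h1⟩⟩, rfl⟩
  have hcV := numCyc_eq_card_vert rot hm1 hm2 hv
  have hclosed : ∀ S : Set (Dart N), (∀ d ∈ S, rot d ∈ S ∧ drev hs d ∈ S) →
      ∀ d ∈ S, ∀ d', Dtl d = Dtl d' → d' ∈ S := by
    intro S hS d hd d' hdd
    obtain ⟨n, hn⟩ := sameCycle_nat (hm2 d d' hdd)
    have h1 : ∀ n : ℕ, (rot ^ n) d ∈ S := by
      intro n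
      induction n with
      | zero => exact hd
      | succ n ih =>
        rw [pow_succ', Perm.mul_apply]
        exact (hS _ ih).1
    rw [← hn]
    exact h1 n
  let M : CombMap (Dart N) :=
    { rot := rot
      rev := drev hs
      rev_rev := drev_drev hs
      rev_ne := drev_ne hs hl
      nonempty := by
        obtain ⟨d, -⟩ := hv v0
        exact ⟨d⟩
      connected := by
        intro S hne hS
        have hcl := hclosed S hS
        -- some dart out of `v0`
        have h0 : ∀ d : Dart N, Dtl d = v0 → d ∈ S := by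
          obtain ⟨d, hd⟩ := hne
          by_cases hdv : Dtl d = v0
          · intro d' hd'
            exact hcl d hd d' (by rw [hdv, hd'])
          · have h1 := hstar _ hdv
            rw [hs] at h1
            have h2 : (⟨(Dtl d, v0), ⟨0, h1⟩⟩ : Dart N) ∈ S := hcl d hd _ rfl
            have h3 := (hS _ h2).2
            intro d' hd'
            exact hcl _ h3 d' (by rw [hd']; rfl)
        apply Set.eq_univ_of_forall
        intro d
        by_cases hdv : Dtl d = v0
        · exact h0 d hdv
        · have h1 := hstar _ hdv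
          have h2 : (⟨(v0, Dtl d), ⟨0, h1⟩⟩ : Dart N) ∈ S := h0 _ rfl
          exact hcl _ (hS _ h2).2 d rfl }
  have hcD : Fintype.card (Dart N) = ∑ u, ∑ v, N u v := by
    rw [Fintype.card_sigma, Fintype.sum_prod_type]
    simp only [Fintype.card_fin]
  have hrev := two_mul_numCyc (drev hs) (drev_drev hs) (drev_ne hs hl)
  have hv' := hv
  choose f hf using hv'
  refine ⟨Dart N, inferInstance, M, ?_, fun w => M.tail (f (ι w)), ?_, ?_⟩
  · show numCyc (drev hs) + 2 ≤ numCyc rot + numCyc (rot * drev hs) + 2 * g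
    rw [hcV] at hm3 ⊢
    rw [hcD] at hr3 hrev
    have e1 : (2 : ℚ) * numCyc (drev hs) = (∑ u, ∑ v, N u v : ℕ) := by exact_mod_cast hrev
    have e2 : (numCyc (rot0 * drev hs) : ℚ) + Fintype.card V ≤
        numCyc (rot * drev hs) + numCyc rot0 := by exact_mod_cast hm3
    have e3 : (Fintype.card Q * Fintype.card R ^ 2 : ℚ) ≤ numCyc (rot0 * drev hs) := by
      exact_mod_cast hr2
    have e4 : (numCyc (drev hs) + 2 : ℚ) ≤
        Fintype.card V + numCyc (rot * drev hs) + 2 * g := by
      nlinarith [hr3, hg]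
    exact_mod_cast e4
  · intro a b hab
    have h1 : rot.SameCycle (f (ι a)) (f (ι b)) := Quotient.exact hab
    have h2 := inv_sameCycle hm1 h1
    rw [hf, hf] at h2
    exact hι h2
  · intro u v huv
    refine ⟨⟨(ι u, ι v), ⟨0, hG u v huv⟩⟩, ?_, ?_⟩
    · exact Quotient.sound (hm2 _ _ (by rw [hf]; rfl))
    · exact Quotient.sound (hm2 _ _ (by rw [hf]; rfl))

end

end Run7.h68
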