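import Pool.Agent.Run7.h68.Rep
import Pool.Agent.Run7.h68.Master

/-!
# The upper bound, with parameters
-/

set_option autoImplicit false

open Finset

namespace Run7.h68

section

variable {V R : Type} [LinearOrder V] [Fintype R] [DecidableEq R]

theorem slots_card (L : List (Fin 3 × R → V)) (u v : V) :
    (univ.filter fun s : Slot (Fin L.length) R =>
      L.get s.1 (s.2.1, s.2.2.1) = u ∧ L.get s.1 (s.2.1 + 1, s.2.2.2) = v).card = cntL L u v := by
  unfold cntL
  rw [← Fin.sum_univ_fun_getElem L (fun p => cnt p u v), Finset.card_filter,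
    Fintype.sum_prod_type]
  apply Finset.sum_congr rfl
  intro ρ _
  unfold cnt
  rw [Finset.card_filter]
  rfl

end

theorem star_sum {V : Type} [Fintype V] [DecidableEq V] (v0 : V) :
    ∑ u, ∑ v, (if u ≠ v ∧ (u = v0 ∨ v = v0) then 1 else 0) ≤ 2 * Fintype.card V := by
  rw [← Finset.sum_product', ← Finset.card_filter]
  have h1 : (univ ×ˢ univ).filter (fun x : V × V => x.1 ≠ x.2 ∧ (x.1 = v0 ∨ x.2 = v0)) ⊆
      univ.image (fun v => (v0, v)) ∪ univ.image (fun u => (u, v0)) := by
    rintro ⟨u, v⟩ hx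
    simp only [mem_filter] at hx
    rw [mem_union]
    rcases hx.2.2 with h | h
    · left
      rw [h]
      exact Finset.mem_image_of_mem _ (Finset.mem_univ _)
    · right
      rw [h]
      exact Finset.mem_image_of_mem (fun u => (u, v0)) (Finset.mem_univ _)
  refine (Finset.card_le_card h1).trans ((Finset.card_union_le _ _).trans ?_)
  have h2 : (univ.image (fun v => (v0, v))).card ≤ Fintype.card V := Finset.card_image_le
  have h3 : (univ.image (fun u => (u, v0))).card ≤ Fintype.card V := Finset.card_image_le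
  omega

theorem embeds_raw {n k r m g z : ℕ} (hn : 0 < n) (hr : 0 < r) (hm : 0 < m) (hz : g + r ≤ z)
    (hk : 1 + k + 2 * (r * (k / (g + 1) + 1)) ≤ m * r) {G : SimpleGraph (Fin n)}
    (hG : IsBarVisibility k G) (γ : ℕ)
    (hγ : (n * (m * r) + 25 * n * r + 17 * n * z : ℚ) + 6 * n * m * harmonic r
      + 3 / 2 * (2 * (m * r) + r) ^ 2 + n + 2 * (m * r) + 2 ≤ 2 * γ) : EmbedsIn G γ := by
  classical
  haveI : NeZero r := ⟨hr.ne'⟩
  obtain ⟨ι, s, e, Rl, Dm, hι, hRl, hDm, hE, hse, heT, hadj⟩ := exists_model hG (m * r)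
  obtain ⟨α, B, L, N, I, D, hS, hα, hI, hD, hID, hN⟩ :=
    main_sys (R := ZMod r) hE hr hm le_rfl hz (ZMod.card r) hk s e hse heT
  have hMpos : 0 < m * r := Nat.mul_pos hm hr
  let v0 : Fin (m * r + n + m * r) := ⟨0, by omega⟩
  let v1 : Fin (m * r + n + m * r) := ⟨1, by omega⟩
  let N' : Fin (m * r + n + m * r) → Fin (m * r + n + m * r) → ℕ :=
    fun u v => N u v + if u ≠ v ∧ (u = v0 ∨ v = v0) then 1 else 0
  have hcardV : Fintype.card (Fin (m * r + n + m * r)) = n + 2 * (m * r) := by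
    rw [Fintype.card_fin]; ring
  apply embeds_of_pieces (R := ZMod r) G ι hι (fun ρ : Fin L.length => L.get ρ)
    (fun ρ => hS.inj _ (L.get_mem ρ)) N' ?_ ?_ ?_ v0 v1 ?_ ?_ ?_ γ ?_
  · intro u v
    show N u v + _ = N v u + _
    rw [hS.symm u v]
    congr 2
    apply propext
    constructor
    · rintro ⟨h1, h2⟩; exact ⟨h1.symm, h2.symm⟩
    · rintro ⟨h1, h2⟩; exact ⟨h1.symm, h2.symm⟩
  · intro v
    show N v v + _ = 0
    rw [hS.loop v, if_neg]
    simp
  · intro u v
    rw [slots_card]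
    refine le_trans ?_ (Nat.le_add_right (N u v) _)
    rcases lt_trichotomy v u with h | h | h
    · exact hS.down u v h
    · rw [h]
      have h0 : cntL L u u = 0 := by
        unfold cntL
        rw [List.sum_eq_zero_iff]
        intro x hx
        rw [List.mem_map] at hx
        obtain ⟨p, hp, rfl⟩ := hx
        unfold cnt
        rw [Finset.card_eq_zero, Finset.filter_eq_empty_iff]
        rintro ⟨t, i, j⟩ _ ⟨h1, h2⟩
        have h3 := hS.inj p hp (h1.trans h2.symm)
        simp only [Prod.mk.injEq] at h3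
        exact fin3e t h3.1.symm
      rw [h0]
      exact Nat.zero_le _
    · have h1 := hS.up v u h
      rw [hS.symm u v]
      omega
  · intro h
    have h1 := congrArg Fin.val h
    have h2 : (1 : ℕ) = 0 := h1
    omega
  · intro v hv
    show 1 ≤ N v0 v + _
    rw [if_pos ⟨hv.symm, Or.inl rfl⟩]
    omega
  · intro u v huv
    obtain ⟨t, ht⟩ := hadj u v huv
    refine le_trans ?_ (Nat.le_add_right (N (ι u) (ι v)) _)
    rcases ht with h | h
    · exact hN _ _ _ h
    · rw [hS.symm]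
      exact hN _ _ _ h
  · have hsum : (∑ u, ∑ v, N' u v : ℕ) ≤ (∑ u, ∑ v, N u v) + 2 * (n + 2 * (m * r)) := by
      have h1 := star_sum v0
      rw [hcardV] at h1
      show (∑ u, ∑ v, (N u v + if u ≠ v ∧ (u = v0 ∨ v = v0) then 1 else 0) : ℕ) ≤ _
      simp only [Finset.sum_add_distrib]
      omega
    have hS1 := hS.sum
    have hS2 := hS.len
    have hS3 := hS.low
    have hα' : α ≤ 2 * (m * r) + r := by omega
    have hαα : α * α ≤ (2 * (m * r) + r) * (2 * (m * r) + r) := Nat.mul_le_mul hα' hα'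
    rw [hRl] at hI hD
    rw [hcardV, ZMod.card r, Fintype.card_fin]
    have hH : (0 : ℚ) ≤ harmonic r := (harmonic_pos hr.ne').le
    have f0 : ((∑ u, ∑ v, N' u v : ℕ) : ℚ) ≤ (∑ u, ∑ v, N u v : ℕ) + 2 * (n + 2 * (m * r)) := by
      exact_mod_cast hsum
    have f1 : (L.length : ℚ) ≤ (I + D) * m := by exact_mod_cast hS2
    have f2 : ((I + D) * (m * r) : ℚ) ≤ L.length * r + (I + D) * (z + 2 * r) := by
      exact_mod_cast hS3
    have f3 : ((∑ u, ∑ v, N u v : ℕ) : ℚ) ≤ (2 * (m * r) + r) * (2 * (m * r) + r) +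
        I * (2 * (2 * (r * ((m + 1) * r)) + z * r)) +
        D * (2 * ((m + 1) * r * r + 2 * (z * r))) := by
      have h1 := hS1.trans (Nat.add_le_add_right (Nat.add_le_add_right hαα _) _)
      exact_mod_cast h1
    have f4 : (r * I : ℚ) ≤ n := by exact_mod_cast hI
    have f5 : (r * D : ℚ) ≤ n := by exact_mod_cast hD
    have f6 : (I : ℚ) ≤ D := by exact_mod_cast hID
    have hr0 : (0 : ℚ) ≤ r := Nat.cast_nonneg r
    have hm0 : (0 : ℚ) ≤ m := Nat.cast_nonneg m
    have hz0 : (0 : ℚ) ≤ z := Nat.cast_nonneg z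
    have hI0 : (0 : ℚ) ≤ I := Nat.cast_nonneg I
    have p1 : 3 * (L.length : ℚ) * r * harmonic r ≤ 6 * n * m * harmonic r := by
      have q1 : (L.length : ℚ) * r ≤ 2 * n * m := by
        calc (L.length : ℚ) * r ≤ (I + D) * m * r := mul_le_mul_of_nonneg_right f1 hr0
          _ = (r * I + r * D) * m := by ring
          _ ≤ (n + n) * m := mul_le_mul_of_nonneg_right (add_le_add f4 f5) hm0
          _ = 2 * n * m := by ring
      have q2 := mul_le_mul_of_nonneg_right q1 hH
      linarith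
    have p2 : 4 * r * ((I + D) * (m * r) : ℚ) ≤
        4 * r * (L.length * r + (I + D) * (z + 2 * r)) :=
      mul_le_mul_of_nonneg_left f2 (by positivity)
    have p4 : (I : ℚ) * (m * r * r) ≤ D * (m * r * r) :=
      mul_le_mul_of_nonneg_right f6 (by positivity)
    have p5 : (r * I : ℚ) * (m * r) ≤ n * (m * r) :=
      mul_le_mul_of_nonneg_right f4 (by positivity)
    have p6 : (r * I : ℚ) * r ≤ n * r := mul_le_mul_of_nonneg_right f4 hr0
    have p7 : (r * D : ℚ) * r ≤ n * r := mul_le_mul_of_nonneg_right f5 hr0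
    have p8 : (r * I : ℚ) * z ≤ n * z := mul_le_mul_of_nonneg_right f4 hz0
    have p9 : (r * D : ℚ) * z ≤ n * z := mul_le_mul_of_nonneg_right f5 hz0
    push_cast at hγ ⊢
    push_cast at f0 f3
    nlinarith [f0, f3, p1, p2, p4, p5, p6, p7, p8, p9, hγ]

end Run7.h68
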