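import Pool.Agent.Run7.h68.KMatch
import Pool.Agent.Run7.h68.KAvg
import Pool.Agent.Run7.h68.Upper

/-!
# The surface obtained from the coloured pieces
-/

set_option autoImplicit false

open Finset

namespace Run7.h68.K

section

variable {V A : Type} [DecidableEq V] [AddCommGroup A] [Fintype A] [DecidableEq A]

theorem cF_inj {ℓ : A → ZMod 7} (hℓ : Lead ℓ) {a q : A} (hq : ℓ q = 1) {s s' : Fin 3}
    (h : cF a q s = cF a q s') : s = s' := by
  have k : ∀ t : Fin 3, cF a q t ≠ cF a q (t + 1) := by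
    intro t h
    have h1 := cF_lead hℓ a q hq t
    rw [h, sub_self, (hℓ.zero_iff 0).2 rfl] at h1
    clear h
    revert t
    decide
  fin_cases s <;> fin_cases s'
  · rfl
  · exact absurd h (k 0)
  · exact absurd h.symm (k 2)
  · exact absurd h.symm (k 0)
  · rfl
  · exact absurd h (k 1)
  · exact absurd h (k 2)
  · exact absurd h.symm (k 1)
  · rfl

variable [Fintype V]

/-- the index type of the coloured pieces -/
abbrev Ix (ℓ : A → ZMod 7) (n N0 : ℕ) : Type :=
  (Fin n × A × {q : A // q ≠ 0}) ⊕ ((ZMod N0 × ZMod N0 × A × {q : A // ℓ q = 1}) ⊕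
    (ZMod N0 × ZMod N0 × A × {q : A // ℓ q = 1}))

def Fx (ℓ : A → ZMod 7) (L : List (TP V)) {N0 : ℕ} (B0 BT : ZMod N0 → Finset V) :
    Ix ℓ L.length N0 → Fin 3 → Finset V
  | Sum.inl x => FT ℓ (L.get x.1) x.2.2.1
  | Sum.inr (Sum.inl x) => FF B0 x.1 x.2.1
  | Sum.inr (Sum.inr x) => fun t => FF BT x.1 x.2.1 (-t)

def cx (ℓ : A → ZMod 7) (L : List (TP V)) {N0 : ℕ} :
    Ix ℓ L.length N0 → Fin 3 → A
  | Sum.inl x => cT ℓ (L.get x.1) x.2.1 x.2.2.1
  | Sum.inr (Sum.inl x) => cF x.2.2.1 x.2.2.2.1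
  | Sum.inr (Sum.inr x) => fun t => cF x.2.2.1 x.2.2.2.1 (-t)

theorem cx_inj {ℓ : A → ZMod 7} (hℓ : Lead ℓ) (L : List (TP V)) {N0 : ℕ}
    (ξ : Ix ℓ L.length N0) {s s' : Fin 3} (h : cx ℓ L ξ s = cx ℓ L ξ s') : s = s' := by
  rcases ξ with x | x | x
  · exact cT_inj hℓ _ x.2.2.2 h
  · exact cF_inj hℓ x.2.2.2.2 h
  · exact neg_injective (cF_inj hℓ x.2.2.2.2 h)

theorem negs1 (t : Fin 3) : -(t + 1) + 1 = -t := by revert t; decide
theorem negs2 (t : Fin 3) : -(-(t + 1) + 1) = t := by revert t; decide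

theorem mat_neg (τ : V → A) (F : Fin 3 → Finset V) (c : Fin 3 → A) (u v : V) :
    (univ.filter (fun t => mat τ (fun t => F (-t)) (fun t => c (-t)) t u v)).card =
      (univ.filter (fun t => mat τ F c t v u)).card := by
  apply Finset.card_bij (fun t _ => -(t + 1))
  · intro t ht
    simp only [mem_filter, mem_univ, true_and, mat] at ht ⊢
    rw [negs1 t]
    exact ⟨ht.2.2.1, ht.2.2.2, ht.1, ht.2.1⟩
  · intro a _ b _ h
    exact add_right_cancel (neg_injective h)
  · intro t ht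
    simp only [mem_filter, mem_univ, true_and, mat] at ht
    have e1 := negs2 t
    refine ⟨-(t + 1), ?_, e1⟩
    simp only [mem_filter, mem_univ, true_and, mat]
    rw [neg_neg, e1]
    exact ⟨ht.2.2.1, ht.2.2.2, ht.1, ht.2.1⟩

theorem sum_mat_le {ℓ : A → ZMod 7} (hℓ : Lead ℓ) (τ : V → A) {N0 : ℕ} [NeZero N0]
    {r M z : ℕ} {U0 UT : Finset V} {L : List (TP V)} {N : V → V → ℕ} {α I D : ℕ}
    (hS : Sys r M z U0 (fun u v => u ∈ UT ∧ v ∈ UT) L N α I D)
    (B0 BT : ZMod N0 → Finset V) (hB0 : ∀ i j u, u ∈ B0 i → u ∈ B0 j → i = j)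
    (hBT : ∀ i j u, u ∈ BT i → u ∈ BT j → i = j) (hU0 : ∀ i, B0 i ⊆ U0) (hUT : ∀ i, BT i ⊆ UT)
    (u v : V) :
    ∑ ξ : Ix ℓ L.length N0, (univ.filter (fun t => mat τ (Fx ℓ L B0 BT ξ) (cx ℓ L ξ) t u v)).card
      ≤ N u v := by
  by_cases huv : u = v
  · have h0 : ∀ ξ : Ix ℓ L.length N0,
        (univ.filter (fun t => mat τ (Fx ℓ L B0 BT ξ) (cx ℓ L ξ) t u v)).card = 0 := by
      intro ξ
      rw [Finset.card_eq_zero, Finset.filter_eq_empty_iff]
      rintro t - ⟨-, h1, -, h2⟩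
      rw [huv] at h1
      exact ne_succ3 t (cx_inj hℓ L ξ (h1.symm.trans h2))
    simp only [h0, Finset.sum_const_zero]
    exact Nat.zero_le _
  · rw [Fintype.sum_sum_type, Fintype.sum_sum_type]
    have k1 : (∑ x : Fin L.length × A × {q : A // q ≠ 0}, (univ.filter (fun t =>
        mat τ (Fx ℓ L B0 BT (Sum.inl x)) (cx ℓ L (Sum.inl x : Ix ℓ L.length N0)) t u v)).card) ≤
        useL (decide (Qp ℓ (τ v - τ u))) L u v := by
      unfold useL
      rw [← Fin.sum_univ_fun_getElem L (fun π => π.use (decide (Qp ℓ (τ v - τ u))) u v),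
        Fintype.sum_prod_type]
      apply Finset.sum_le_sum
      intro i _
      rw [Fintype.sum_prod_type]
      have hg := hS.good (L.get i) (L.get_mem i)
      exact card_typed hℓ τ (L.get i) hg.2.2.2.1 hg.2.2.2.2.1 hg.2.2.2.2.2 u v
    have k2 : (∑ x : ZMod N0 × ZMod N0 × A × {q : A // ℓ q = 1}, (univ.filter (fun t =>
        mat τ (Fx ℓ L B0 BT (Sum.inr (Sum.inl x)))
          (cx ℓ L (Sum.inr (Sum.inl x) : Ix ℓ L.length N0)) t u v)).card) ≤
        if Qp ℓ (τ v - τ u) then (if u ∈ U0 ∧ v ∈ U0 then 1 else 0) else 0 := by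
      refine le_trans (le_of_eq ?_) (card_fano hℓ τ B0 hB0 U0 hU0 u v)
      rw [Fintype.sum_prod_type]
      apply Finset.sum_congr rfl
      intro i _
      rw [Fintype.sum_prod_type]
      apply Finset.sum_congr rfl
      intro j _
      rw [Fintype.sum_prod_type]
      rfl
    have k3 : (∑ x : ZMod N0 × ZMod N0 × A × {q : A // ℓ q = 1}, (univ.filter (fun t =>
        mat τ (Fx ℓ L B0 BT (Sum.inr (Sum.inr x)))
          (cx ℓ L (Sum.inr (Sum.inr x) : Ix ℓ L.length N0)) t u v)).card) ≤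
        if Qp ℓ (τ u - τ v) then (if v ∈ UT ∧ u ∈ UT then 1 else 0) else 0 := by
      refine le_trans (le_of_eq ?_) (card_fano hℓ τ BT hBT UT hUT v u)
      rw [Fintype.sum_prod_type]
      apply Finset.sum_congr rfl
      intro i _
      rw [Fintype.sum_prod_type]
      apply Finset.sum_congr rfl
      intro j _
      rw [Fintype.sum_prod_type]
      apply Finset.sum_congr rfl
      intro a _
      apply Finset.sum_congr rfl
      intro q _
      exact mat_neg τ (FF BT i j) (cF a q.1) u v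
    have k4 := hS.cr u v huv
    have k5 := hS.de u v huv
    by_cases hQ : Qp ℓ (τ v - τ u)
    · have hne : τ v - τ u ≠ 0 := by
        intro h
        rw [h] at hQ
        unfold Qp at hQ
        rw [(hℓ.zero_iff 0).2 rfl] at hQ
        revert hQ
        decide
      have hQ' : ¬ Qp ℓ (τ u - τ v) := by
        have h1 := hℓ.qp_neg hne
        rw [neg_sub] at h1
        exact fun h => (h1.1 h) hQ
      rw [if_neg hQ'] at k3
      rw [if_pos hQ] at k2
      rw [decide_eq_true hQ] at k1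
      by_cases hU : u ∈ U0 ∧ v ∈ U0
      · rw [if_pos hU] at k2 k4
        omega
      · rw [if_neg hU] at k2 k4
        omega
    · rw [if_neg hQ] at k2
      rw [decide_eq_false hQ] at k1
      have k3' : (∑ x : ZMod N0 × ZMod N0 × A × {q : A // ℓ q = 1}, (univ.filter (fun t =>
        mat τ (Fx ℓ L B0 BT (Sum.inr (Sum.inr x)))
          (cx ℓ L (Sum.inr (Sum.inr x) : Ix ℓ L.length N0)) t u v)).card) ≤
        (if u ∈ UT ∧ v ∈ UT then 1 else 0) := by
        refine k3.trans ?_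
        by_cases hU : u ∈ UT ∧ v ∈ UT
        · have hU' : v ∈ UT ∧ u ∈ UT := ⟨hU.2, hU.1⟩
          simp only [hU, hU', and_self, if_true]
          split_ifs <;> omega
        · have hU' : ¬ (v ∈ UT ∧ u ∈ UT) := fun h => hU ⟨h.2, h.1⟩
          simp only [hU, hU', if_false]
          split_ifs <;> omega
      by_cases hU : u ∈ UT ∧ v ∈ UT
      · rw [if_pos hU] at k3' k5
        omega
      · rw [if_neg hU] at k3' k5
        omega

theorem card_Ix {ℓ : A → ZMod 7} (hℓ : Lead ℓ) (n N0 : ℕ) [NeZero N0] :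
    (3 * Fintype.card (Ix ℓ n N0) : ℚ) =
      Fintype.card A * (Fintype.card A - 1) * (3 * n + N0 ^ 2) := by
  have h1 : Fintype.card {q : A // q ≠ 0} = Fintype.card A - 1 := by
    rw [Fintype.card_subtype_compl]
    simp
  have h2 : 6 * Fintype.card {q : A // ℓ q = 1} + 1 = Fintype.card A := by
    rw [Fintype.card_subtype]
    exact hℓ.cnt
  have hA : 1 ≤ Fintype.card A := by omega
  rw [Fintype.card_sum, Fintype.card_sum, Fintype.card_prod, Fintype.card_prod,
    Fintype.card_prod, Fintype.card_prod, Fintype.card_prod, Fintype.card_fin, ZMod.card, h1]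
  have h3 : (6 : ℚ) * Fintype.card {q : A // ℓ q = 1} + 1 = Fintype.card A := by
    exact_mod_cast h2
  push_cast [Nat.cast_sub hA]
  rw [← h3]
  ring

/-- The genus bound obtained from the result of the sweep. -/
theorem embeds_of_sys {W : Type} (G : SimpleGraph W) (ι : W → V) (hι : Function.Injective ι)
    {ℓ : A → ZMod 7} (hℓ : Lead ℓ) {f0 : V → ℕ} (hf0 : Function.Injective f0)
    {ρ l r M z N0 : ℕ} (hρ : 0 < ρ) (hl : 0 < l) (hN0 : 0 < N0)
    (hr : r = Fintype.card A * (ρ + l))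
    {U0 UT : Finset V} {L : List (TP V)} {N : V → V → ℕ} {α I D : ℕ}
    (hS : Sys r M z U0 (fun u v => u ∈ UT ∧ v ∈ UT) L N α I D)
    (hU0 : U0.card = N0 * r) (hUT : UT.card = N0 * r)
    (hG : ∀ u v, G.Adj u v → 1 ≤ N (ι u) (ι v)) {v0 v1 : V} (h01 : v1 ≠ v0) (g : ℕ) {X : ℚ}
    (hX : 3 * X = Fintype.card A * (Fintype.card A - 1) * (3 * L.length + N0 ^ 2))
    (hg : 3 * X * ρ * harmonic ρ + 12 * (ρ + l) * X * ρ ^ 2 / l ^ 2 +
      (3 / 2) * (∑ u, ∑ v, N u v : ℕ) + Fintype.card V + 2 ≤ 4 * X * ρ ^ 2 + 2 * g) :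
    EmbedsIn G g := by
  classical
  haveI : NeZero N0 := ⟨hN0.ne'⟩
  haveI : NeZero ρ := ⟨hρ.ne'⟩
  haveI : Nonempty V := ⟨v0⟩
  have hApos : 0 < Fintype.card A := Fintype.card_pos_iff.2 ⟨0⟩
  have hrpos : 0 < r := by rw [hr]; exact Nat.mul_pos hApos (by omega)
  obtain ⟨B0, hB0⟩ : ∃ B0 : ZMod N0 → Finset V, ∀ i, B0 i = blk f0 r U0 i.val := ⟨_, fun _ => rfl⟩
  obtain ⟨BT, hBT⟩ : ∃ BT : ZMod N0 → Finset V, ∀ i, BT i = blk f0 r UT i.val := ⟨_, fun _ => rfl⟩
  have hBc : ∀ (U : Finset V), U.card = N0 * r → ∀ i : ZMod N0, (blk f0 r U i.val).card = r := by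
    intro U hU i
    apply blk_card_eq hf0 hrpos
    rw [hU]
    exact Nat.mul_le_mul_right r (ZMod.val_lt i)
  have hBd : ∀ (U : Finset V) (i j : ZMod N0) (u : V), u ∈ blk f0 r U i.val →
      u ∈ blk f0 r U j.val → i = j := by
    intro U i j u h1 h2
    rw [mem_blk] at h1 h2
    exact ZMod.val_injective N0 (h1.2.symm.trans h2.2)
  -- the sizes of the parts
  have hcard : ∀ (ξ : Ix ℓ L.length N0) (t : Fin 3), (Fx ℓ L B0 BT ξ t).card =
      Fintype.card A * (ρ + l) := by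
    intro ξ t
    rw [← hr]
    rcases ξ with x | x | x
    · have hg := hS.good (L.get x.1) (L.get_mem x.1)
      have hp : ∀ s : Fin 3, (prt (L.get x.1) s).card = r := by
        intro s
        fin_cases s
        · exact hg.1
        · exact hg.2.1
        · exact hg.2.2.1
      show (FT ℓ (L.get x.1) x.2.2.1 t).card = r
      unfold FT
      split_ifs
      · exact hp t
      · exact hp _
    · show (FF B0 x.1 x.2.1 t).card = r
      fin_cases t
      · show (B0 _).card = r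
        rw [hB0]; exact hBc U0 hU0 _
      · show (B0 _).card = r
        rw [hB0]; exact hBc U0 hU0 _
      · show (B0 _).card = r
        rw [hB0]; exact hBc U0 hU0 _
    · have h1 : ∀ s : Fin 3, (FF BT x.1 x.2.1 s).card = r := by
        intro s
        fin_cases s
        · show (BT _).card = r
          rw [hBT]; exact hBc UT hUT _
        · show (BT _).card = r
          rw [hBT]; exact hBc UT hUT _
        · show (BT _).card = r
          rw [hBT]; exact hBc UT hUT _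
      exact h1 (-t)
  obtain ⟨τ, hτ⟩ := exists_coloring (A := A) (Fx ℓ L B0 BT) (cx ℓ L) hcard
  -- the embeddings of the coloured blocks
  have hem : ∀ (F : Finset V) (a : A), ∃ e : ZMod ρ → V,
      ρ ≤ (F.filter (fun v => τ v = a)).card → Function.Injective e ∧
        ∀ i, e i ∈ F ∧ τ (e i) = a := by
    intro F a
    by_cases h : ρ ≤ (F.filter (fun v => τ v = a)).card
    · obtain ⟨T, hT, hTc⟩ := Finset.exists_subset_card_eq h
      have e0 : ZMod ρ ≃ T := Fintype.equivOfCardEq (by rw [ZMod.card, Fintype.card_coe, hTc])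
      refine ⟨fun i => (e0 i : V), fun _ => ⟨?_, ?_⟩⟩
      · intro i j hij
        exact e0.injective (Subtype.ext hij)
      · intro i
        have := hT (e0 i).2
        exact mem_filter.1 this
    · exact ⟨fun _ => v0, fun h' => absurd h' h⟩
  choose em hem1 using hem
  let good : Ix ℓ L.length N0 → Prop := fun ξ =>
    ∀ t, ρ ≤ ((Fx ℓ L B0 BT ξ t).filter (fun v => τ v = cx ℓ L ξ t)).card
  let Q := {ξ : Ix ℓ L.length N0 // good ξ}
  let p : Q → Fin 3 × ZMod ρ → V := fun q x => em (Fx ℓ L B0 BT q.1 x.1) (cx ℓ L q.1 x.1) x.2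
  have hp1 : ∀ (q : Q) (t : Fin 3) (i : ZMod ρ), p q (t, i) ∈ Fx ℓ L B0 BT q.1 t ∧
      τ (p q (t, i)) = cx ℓ L q.1 t := fun q t i => (hem1 _ _ (q.2 t)).2 i
  have hp2 : ∀ q : Q, Function.Injective (p q) := by
    rintro q ⟨t, i⟩ ⟨t', i'⟩ h
    have h1 := (hp1 q t i).2
    have h2 := (hp1 q t' i').2
    rw [h] at h1
    have h3 : t = t' := cx_inj hℓ L q.1 (h1.symm.trans h2)
    subst h3
    have h4 : i = i' := (hem1 _ _ (q.2 t)).1 h
    rw [h4]
  have hcardQ : Fintype.card Q + (univ.filter (fun ξ : Ix ℓ L.length N0 =>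
      ∃ t, ((Fx ℓ L B0 BT ξ t).filter (fun v => τ v = cx ℓ L ξ t)).card < ρ)).card =
      Fintype.card (Ix ℓ L.length N0) := by
    rw [Fintype.card_subtype, ← Finset.card_univ (α := Ix ℓ L.length N0),
      ← Finset.card_filter_add_card_filter_not (s := univ) (fun ξ : Ix ℓ L.length N0 => good ξ)]
    congr 2
    ext ξ
    simp only [mem_filter, mem_univ, true_and, good, not_forall, not_le]
  let N' : V → V → ℕ := fun u v => N u v + if u ≠ v ∧ (u = v0 ∨ v = v0) then 1 else 0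
  apply embeds_of_pieces (R := ZMod ρ) G ι hι p hp2 N' ?_ ?_ ?_ v0 v1 h01 ?_ ?_ g ?_
  · intro u v
    show N u v + _ = N v u + _
    rw [hS.symm u v]
    congr 2
    apply propext
    constructor
    · rintro ⟨h1, h2⟩; exact ⟨h1.symm, h2.symm⟩
    · rintro ⟨h1, h2⟩; exact ⟨h1.symm, h2.symm⟩
  · intro v
    show N v v + _ = 0
    rw [hS.loop v, if_neg]
    simp
  · intro u v
    have h1 := sum_mat_le hℓ τ hS B0 BT (by
      intro i j u h1 h2; rw [hB0] at h1 h2; exact hBd U0 i j u h1 h2) (by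
      intro i j u h1 h2; rw [hBT] at h1 h2; exact hBd UT i j u h1 h2) (by
      intro i; rw [hB0]; exact blk_subset) (by
      intro i; rw [hBT]; exact blk_subset) u v
    have h2 : (univ.filter fun s : Slot Q (ZMod ρ) =>
        p s.1 (s.2.1, s.2.2.1) = u ∧ p s.1 (s.2.1 + 1, s.2.2.2) = v).card ≤
        ∑ ξ : Ix ℓ L.length N0,
          (univ.filter (fun t => mat τ (Fx ℓ L B0 BT ξ) (cx ℓ L ξ) t u v)).card := by
      rw [← Finset.card_sigma]
      apply Finset.card_le_card_of_injOn (fun s => ⟨s.1.1, s.2.1⟩)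
      · intro s hs
        rw [Finset.mem_coe, mem_filter] at hs
        rw [Finset.mem_coe, Finset.mem_sigma, mem_filter]
        refine ⟨mem_univ _, mem_univ _, ?_⟩
        have g1 := hp1 s.1 s.2.1 s.2.2.1
        have g2 := hp1 s.1 (s.2.1 + 1) s.2.2.2
        rw [hs.2.1] at g1
        rw [hs.2.2] at g2
        exact ⟨g1.1, g1.2, g2.1, g2.2⟩
      · rintro ⟨q, t, i, j⟩ hs ⟨q', t', i', j'⟩ hs' h
        rw [Finset.mem_coe, mem_filter] at hs hs'
        simp only [Sigma.mk.injEq, heq_eq_eq] at h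
        obtain ⟨h3, h4⟩ := h
        have h5 : q = q' := Subtype.ext h3
        subst h5
        subst h4
        have h6 := hp2 q (hs.2.1.trans hs'.2.1.symm)
        have h7 := hp2 q (hs.2.2.trans hs'.2.2.symm)
        simp only [Prod.mk.injEq, true_and] at h6 h7
        rw [h6, h7]
    exact (h2.trans h1).trans (Nat.le_add_right _ _)
  · intro v hv
    show 1 ≤ N v0 v + _
    rw [if_pos ⟨hv.symm, Or.inl rfl⟩]
    omega
  · intro u v huv
    exact (hG u v huv).trans (Nat.le_add_right _ _)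
  · have hsum : (∑ u, ∑ v, N' u v : ℕ) ≤ (∑ u, ∑ v, N u v) + 2 * Fintype.card V := by
      have h1 := star_sum v0
      show (∑ u, ∑ v, (N u v + if u ≠ v ∧ (u = v0 ∨ v = v0) then 1 else 0) : ℕ) ≤ _
      simp only [Finset.sum_add_distrib]
      omega
    have f0 : ((∑ u, ∑ v, N' u v : ℕ) : ℚ) ≤ (∑ u, ∑ v, N u v : ℕ) + 2 * Fintype.card V := by
      exact_mod_cast hsum
    have hXI : (Fintype.card (Ix ℓ L.length N0) : ℚ) = X := by
      have h1 := card_Ix hℓ L.length N0
      rw [← hX] at h1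
      linarith
    obtain ⟨b, hb⟩ : ∃ b, b = (univ.filter (fun ξ : Ix ℓ L.length N0 =>
      ∃ t, ((Fx ℓ L B0 BT ξ t).filter (fun v => τ v = cx ℓ L ξ t)).card < ρ)).card := ⟨_, rfl⟩
    rw [← hb] at hcardQ hτ
    have f1 : (Fintype.card Q : ℚ) + b = X := by
      rw [← hXI]
      exact_mod_cast hcardQ
    have f2 : ((l : ℚ) ^ 2 * b) ≤ 3 * (ρ + l) * X := by
      rw [← hXI]
      exact_mod_cast hτ
    have hl0 : (0 : ℚ) < (l : ℚ) ^ 2 := by positivity
    have f3 : 4 * (b : ℚ) * ρ ^ 2 ≤ 12 * (ρ + l) * X * ρ ^ 2 / l ^ 2 := by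
      rw [le_div_iff₀ hl0]
      have := mul_le_mul_of_nonneg_left f2 (show (0 : ℚ) ≤ 4 * ρ ^ 2 by positivity)
      linarith
    have hb0 : (0 : ℚ) ≤ b := Nat.cast_nonneg b
    have hH : (0 : ℚ) ≤ harmonic ρ := (harmonic_pos hρ.ne').le
    have hQX : (Fintype.card Q : ℚ) ≤ X := by linarith
    have f4 : 3 * (Fintype.card Q : ℚ) * ρ * harmonic ρ ≤ 3 * X * ρ * harmonic ρ := by
      have h1 := mul_le_mul_of_nonneg_right hQX
        (show (0 : ℚ) ≤ ρ * harmonic ρ from mul_nonneg (Nat.cast_nonneg ρ) hH)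
      linarith
    have f5 : 4 * (Fintype.card Q : ℚ) * ρ ^ 2 = 4 * X * ρ ^ 2 - 4 * b * ρ ^ 2 := by
      rw [← f1]; ring
    rw [ZMod.card]
    linarith

end

end Run7.h68.K
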