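import Pool.Agent.Run7.h68.Blocks

/-!
# Cyclic blocks of a finite set ordered by a key function
-/

set_option autoImplicit false

open Finset

namespace Run7.h68.K

section

variable {V : Type} [DecidableEq V]

/-- number of elements of `B` with smaller key than `v` -/
def rk (f : V → ℕ) (B : Finset V) (v : V) : ℕ := (B.filter (fun w => f w < f v)).card

theorem rk_mono (f : V → ℕ) (B : Finset V) {u v : V} (h : f u ≤ f v) : rk f B u ≤ rk f B v := by
  unfold rk
  apply Finset.card_le_card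
  intro w hw
  rw [mem_filter] at hw ⊢
  exact ⟨hw.1, lt_of_lt_of_le hw.2 h⟩

theorem rk_strict (f : V → ℕ) (B : Finset V) {u v : V} (hu : u ∈ B) (h : f u < f v) :
    rk f B u < rk f B v := by
  unfold rk
  apply Finset.card_lt_card
  rw [Finset.ssubset_iff_of_subset]
  · exact ⟨u, by rw [mem_filter]; exact ⟨hu, h⟩, by rw [mem_filter]; simp⟩
  · intro w hw
    rw [mem_filter] at hw ⊢
    exact ⟨hw.1, hw.2.trans h⟩

theorem rk_lt_card (f : V → ℕ) (B : Finset V) {u : V} (hu : u ∈ B) : rk f B u < B.card := by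
  unfold rk
  apply Finset.card_lt_card
  rw [Finset.ssubset_iff_of_subset (Finset.filter_subset _ _)]
  exact ⟨u, hu, by rw [mem_filter]; simp⟩

theorem rk_le_card (f : V → ℕ) (B : Finset V) (u : V) : rk f B u ≤ B.card := by
  unfold rk
  exact Finset.card_le_card (Finset.filter_subset _ _)

theorem rk_injOn {f : V → ℕ} (hf : Function.Injective f) (B : Finset V) :
    Set.InjOn (rk f B) B := by
  intro u hu v hv h
  rcases lt_trichotomy (f u) (f v) with h1 | h1 | h1
  · have := rk_strict f B hu h1; omega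
  · exact hf h1
  · have := rk_strict f B hv h1; omega

theorem rk_image {f : V → ℕ} (hf : Function.Injective f) (B : Finset V) :
    B.image (rk f B) = range B.card := by
  apply Finset.eq_of_subset_of_card_le
  · intro i hi
    obtain ⟨v, hv, rfl⟩ := Finset.mem_image.1 hi
    rw [Finset.mem_range]
    exact rk_lt_card f B hv
  · rw [Finset.card_range, Finset.card_image_of_injOn (rk_injOn hf B)]

theorem exists_rk {f : V → ℕ} (hf : Function.Injective f) (B : Finset V) {i : ℕ}
    (hi : i < B.card) : ∃ v ∈ B, rk f B v = i := by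
  have h : i ∈ B.image (rk f B) := by rw [rk_image hf, Finset.mem_range]; exact hi
  obtain ⟨v, hv, h1⟩ := Finset.mem_image.1 h
  exact ⟨v, hv, h1⟩

theorem lt_of_rk_lt {f : V → ℕ} {B : Finset V} {u v : V} (h : rk f B u < rk f B v) :
    f u < f v := by
  by_contra hc
  push Not at hc
  have := rk_mono f B hc
  omega

theorem rk_union {f : V → ℕ} {S Y : Finset V} (hd : Disjoint Y S) (v : V) :
    rk f (S ∪ Y) v = rk f S v + rk f Y v := by
  unfold rk
  rw [Finset.filter_union, Finset.card_union_of_disjoint]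
  exact Finset.disjoint_filter_filter hd.symm

theorem rk_congr {f f' : V → ℕ} {B : Finset V} {v : V} (hv : v ∈ B)
    (h : ∀ w ∈ B, f w = f' w) : rk f B v = rk f' B v := by
  unfold rk
  congr 1
  apply Finset.filter_congr
  intro w hw
  rw [h w hw, h v hv]

/-- the elements in the `j`-th block of `r` consecutive elements -/
def blk (f : V → ℕ) (r : ℕ) (S : Finset V) (j : ℕ) : Finset V :=
  S.filter (fun w => rk f S w / r = j)

theorem mem_blk {f : V → ℕ} {r : ℕ} {S : Finset V} {j : ℕ} {w : V} :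
    w ∈ blk f r S j ↔ w ∈ S ∧ rk f S w / r = j := by
  simp [blk]

theorem blk_subset {f : V → ℕ} {r : ℕ} {S : Finset V} {j : ℕ} : blk f r S j ⊆ S :=
  Finset.filter_subset _ _

theorem blk_card_le {f : V → ℕ} (hf : Function.Injective f) {r : ℕ} (hr : 0 < r) (S : Finset V)
    (j : ℕ) : (blk f r S j).card ≤ r := by
  have h1 : ((blk f r S j).image (rk f S)) ⊆ Finset.Ico (j * r) ((j + 1) * r) := by
    intro i hi
    obtain ⟨v, hv, rfl⟩ := Finset.mem_image.1 hi
    rw [mem_blk] at hv
    rw [Finset.mem_Ico]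
    exact (div_eq_iff_mem hr _ _).1 hv.2
  have h2 := Finset.card_le_card h1
  rw [Nat.card_Ico, Finset.card_image_of_injOn] at h2
  · rw [Nat.add_mul, one_mul] at h2
    omega
  · exact (rk_injOn hf S).mono (by intro x hx; exact (mem_blk.1 hx).1)

theorem blk_card_eq {f : V → ℕ} (hf : Function.Injective f) {r : ℕ} (hr : 0 < r) (S : Finset V)
    (j : ℕ) (h : (j + 1) * r ≤ S.card) : (blk f r S j).card = r := by
  have h1 : ((blk f r S j).image (rk f S)) = Finset.Ico (j * r) ((j + 1) * r) := by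
    ext i
    rw [Finset.mem_image, Finset.mem_Ico]
    constructor
    · rintro ⟨v, hv, rfl⟩
      rw [mem_blk] at hv
      exact (div_eq_iff_mem hr _ _).1 hv.2
    · rintro ⟨h2, h3⟩
      obtain ⟨v, hv, h4⟩ := exists_rk hf S (lt_of_lt_of_le h3 h)
      refine ⟨v, ?_, h4⟩
      rw [mem_blk, div_eq_iff_mem hr, h4]
      exact ⟨hv, h2, h3⟩
  have h2 := congrArg Finset.card h1
  rw [Nat.card_Ico, Finset.card_image_of_injOn] at h2
  · rw [Nat.add_mul, one_mul] at h2
    omega
  · exact (rk_injOn hf S).mono (by intro x hx; exact (mem_blk.1 hx).1)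

/-- the index of the block of `v` -/
def ix (f : V → ℕ) (r : ℕ) (B : Finset V) (v : V) : ℕ := rk f B v / r

/-- cyclic coarse adjacency -/
def cadj (f : V → ℕ) (r M : ℕ) (B : Finset V) (u v : V) : Prop :=
  u ∈ B ∧ v ∈ B ∧ ((ix f r B u ≤ ix f r B v + M ∧ ix f r B v ≤ ix f r B u + M) ∨
    B.card / r + ix f r B u ≤ ix f r B v + M ∨ B.card / r + ix f r B v ≤ ix f r B u + M)

theorem cadj_symm {f : V → ℕ} {r M : ℕ} {B : Finset V} {u v : V} (h : cadj f r M B u v) :
    cadj f r M B v u := by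
  obtain ⟨h1, h2, h3⟩ := h
  refine ⟨h2, h1, ?_⟩
  rcases h3 with h | h | h
  · exact Or.inl ⟨h.2, h.1⟩
  · exact Or.inr (Or.inr h)
  · exact Or.inr (Or.inl h)

theorem cadj_comm {f : V → ℕ} {r M : ℕ} {B : Finset V} {u v : V} :
    cadj f r M B u v ↔ cadj f r M B v u :=
  ⟨cadj_symm, cadj_symm⟩

theorem ix_lt {f : V → ℕ} {r N : ℕ} (hr : 0 < r) {B : Finset V} (hB : B.card = N * r) {v : V}
    (hv : v ∈ B) : ix f r B v < N := by
  unfold ix
  rw [Nat.div_lt_iff_lt_mul hr, ← hB]
  exact rk_lt_card f B hv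

theorem card_div {r N : ℕ} (hr : 0 < r) {B : Finset V} (hB : B.card = N * r) :
    B.card / r = N := by
  rw [hB, Nat.mul_div_cancel _ hr]

/-- if there are at most `2 M + 1` blocks then all pairs are adjacent -/
theorem cadj_complete {f : V → ℕ} {r M N : ℕ} (hr : 0 < r) {B : Finset V}
    (hB : B.card = N * r) (hN : N ≤ 2 * M + 1) (u v : V) :
    cadj f r M B u v ↔ u ∈ B ∧ v ∈ B := by
  constructor
  · rintro ⟨h1, h2, -⟩; exact ⟨h1, h2⟩
  · rintro ⟨h1, h2⟩
    have h3 := ix_lt (f := f) hr hB h1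
    have h4 := ix_lt (f := f) hr hB h2
    refine ⟨h1, h2, ?_⟩
    rw [card_div hr hB]
    omega

theorem cadj_congr {f f' : V → ℕ} {r M : ℕ} {B : Finset V} (h : ∀ w ∈ B, f w = f' w) (u v : V) :
    cadj f r M B u v ↔ cadj f' r M B u v := by
  unfold cadj ix
  constructor
  · rintro ⟨h1, h2, h3⟩
    rw [rk_congr h1 h, rk_congr h2 h] at h3
    exact ⟨h1, h2, h3⟩
  · rintro ⟨h1, h2, h3⟩
    rw [← rk_congr h1 h, ← rk_congr h2 h] at h3
    exact ⟨h1, h2, h3⟩

end

/-- The setting of one step: a set `Y` of `r` elements is inserted in `S`. -/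
structure Ins {V : Type} [DecidableEq V] (f : V → ℕ) (S Y : Finset V) (r M N z : ℕ)
    (y0 y1 : V) : Prop where
  hf : Function.Injective f
  hr : 0 < r
  hM : 0 < M
  hN : 2 * M + 1 ≤ N
  cardS : S.card = N * r
  card : Y.card = r
  disj : Disjoint Y S
  mem0 : y0 ∈ Y
  mem1 : y1 ∈ Y
  min : ∀ y ∈ Y, f y0 ≤ f y
  max : ∀ y ∈ Y, f y ≤ f y1
  zone : (S.filter (fun w => f y0 < f w ∧ f w < f y1)).card ≤ z

namespace Ins

variable {V : Type} [DecidableEq V] {f : V → ℕ} {S Y : Finset V} {r M N z : ℕ} {y0 y1 : V}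
  (I : Ins f S Y r M N z y0 y1)
include I

theorem notMem {y : V} (hy : y ∈ Y) : y ∉ S := fun h =>
  (Finset.disjoint_left.1 I.disj) hy h

theorem le01 : f y0 ≤ f y1 := I.min _ I.mem1

theorem ne_of {w y : V} (hw : w ∈ S) (hy : y ∈ Y) : f w ≠ f y := by
  intro h
  exact I.notMem hy (I.hf h ▸ hw)

theorem hi_le : rk f S y1 ≤ rk f S y0 + z := by
  have h1 : S.filter (fun w => f w < f y1) ⊆
      S.filter (fun w => f w < f y0) ∪ S.filter (fun w => f y0 < f w ∧ f w < f y1) := by
    intro w hw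
    rw [mem_filter] at hw
    rw [mem_union, mem_filter, mem_filter]
    rcases lt_trichotomy (f w) (f y0) with h | h | h
    · left; exact ⟨hw.1, h⟩
    · exact absurd h (I.ne_of hw.1 I.mem0)
    · right; exact ⟨hw.1, h, hw.2⟩
  have h2 := (Finset.card_le_card h1).trans (Finset.card_union_le _ _)
  have h3 := I.zone
  unfold rk
  omega

theorem lo_le : rk f S y0 ≤ rk f S y1 := rk_mono f S I.le01

theorem rkY_lt {w : V} (h : f w < f y0) : rk f Y w = 0 := by
  unfold rk
  rw [Finset.card_eq_zero, Finset.filter_eq_empty_iff]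
  intro y hy
  have := I.min y hy
  exact not_lt.2 (h.le.trans this)

theorem rkY_le (w : V) : rk f Y w ≤ r := by
  have := rk_le_card f Y w
  rw [I.card] at this
  exact this

theorem rkY_gt {w : V} (h : f y1 < f w) : rk f Y w = r := by
  unfold rk
  rw [Finset.filter_true_of_mem, I.card]
  intro y hy
  exact lt_of_le_of_lt (I.max y hy) h

theorem rkL (w : V) : rk f (S ∪ Y) w = rk f S w + rk f Y w := rk_union I.disj w

theorem ix_below {w : V} (h : f w < f y0) : ix f r (S ∪ Y) w = ix f r S w := by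
  unfold ix
  rw [I.rkL, I.rkY_lt h, add_zero]

theorem ix_above {w : V} (h : f y1 < f w) : ix f r (S ∪ Y) w = ix f r S w + 1 := by
  unfold ix
  rw [I.rkL, I.rkY_gt h, Nat.add_div_right _ I.hr]

theorem ix_shift (w : V) : ix f r S w ≤ ix f r (S ∪ Y) w ∧ ix f r (S ∪ Y) w ≤ ix f r S w + 1 := by
  have hr := I.hr
  unfold ix
  rw [I.rkL]
  have h1 := I.rkY_le w
  constructor
  · exact Nat.div_le_div_right (by omega)
  · calc (rk f S w + rk f Y w) / r ≤ (rk f S w + r) / r := Nat.div_le_div_right (by omega)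
      _ = rk f S w / r + 1 := by rw [Nat.add_div_right _ hr]

theorem ix_lt {w : V} (h : w ∈ S) : ix f r S w < N := K.ix_lt I.hr I.cardS h

theorem card_union : (S ∪ Y).card = (N + 1) * r := by
  rw [Finset.card_union_of_disjoint I.disj.symm, I.cardS, I.card]; ring

theorem div_S : S.card / r = N := card_div I.hr I.cardS

theorem div_U : (S ∪ Y).card / r = N + 1 := card_div I.hr I.card_union

omit I in
/-- first block not below `Y` -/
def b0 (_ : Ins f S Y r M N z y0 y1) : ℕ := rk f S y0 / r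

omit I in
/-- first block above `Y` -/
def b1 (_ : Ins f S Y r M N z y0 y1) : ℕ := (rk f S y1 + r - 1) / r

theorem b0_mul : I.b0 * r ≤ rk f S y0 := Nat.div_mul_le_self _ _

theorem lt_b0 : rk f S y0 < (I.b0 + 1) * r := by
  have := Nat.lt_div_mul_add (a := rk f S y0) I.hr
  rw [Nat.add_mul, one_mul]
  exact this

theorem b1_mul : rk f S y1 ≤ I.b1 * r := by
  have hr := I.hr
  have := Nat.lt_div_mul_add (a := rk f S y1 + r - 1) hr
  show rk f S y1 ≤ (rk f S y1 + r - 1) / r * r
  omega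

theorem b1_lt : I.b1 * r < rk f S y1 + r := by
  have hr := I.hr
  have : (rk f S y1 + r - 1) / r * r ≤ rk f S y1 + r - 1 := Nat.div_mul_le_self _ _
  show (rk f S y1 + r - 1) / r * r < rk f S y1 + r
  omega

theorem b0_le_b1 : I.b0 ≤ I.b1 := by
  have h1 := I.b0_mul
  have h2 := I.b1_mul
  have h3 := I.lo_le
  exact Nat.le_of_mul_le_mul_right (by omega) I.hr

theorem b1_le : I.b1 ≤ N := by
  have h1 := I.b1_lt
  have h2 : rk f S y1 ≤ N * r := by rw [← I.cardS]; exact rk_le_card f S y1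
  have h3 : I.b1 * r < (N + 1) * r := by rw [Nat.add_mul, one_mul]; omega
  have h4 := Nat.lt_of_mul_lt_mul_right h3
  omega

theorem width : I.b1 * r ≤ I.b0 * r + z + 2 * r := by
  have h1 := I.b1_lt
  have h2 := I.lt_b0
  have h3 := I.hi_le
  rw [Nat.add_mul, one_mul] at h2
  omega

theorem below_of {w : V} (h : ix f r S w < I.b0) : f w < f y0 := by
  apply lt_of_rk_lt (B := S)
  have h1 : rk f S w < (ix f r S w + 1) * r := by
    unfold ix
    have := Nat.lt_div_mul_add (a := rk f S w) I.hr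
    rw [Nat.add_mul, one_mul]
    exact this
  have h2 : (ix f r S w + 1) * r ≤ I.b0 * r := Nat.mul_le_mul_right r h
  have h3 := I.b0_mul
  omega

theorem above_of {w : V} (hw : w ∈ S) (h : I.b1 ≤ ix f r S w) : f y1 < f w := by
  have h1 : ix f r S w * r ≤ rk f S w := Nat.div_mul_le_self _ _
  have h2 : I.b1 * r ≤ ix f r S w * r := Nat.mul_le_mul_right r h
  have h3 := I.b1_mul
  rcases lt_trichotomy (f w) (f y1) with h4 | h4 | h4
  · have := rk_strict f S hw h4; omega
  · exact absurd h4 (I.ne_of hw I.mem1)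
  · exact h4

theorem ix_y {y : V} (hy : y ∈ Y) : I.b0 ≤ ix f r (S ∪ Y) y ∧ ix f r (S ∪ Y) y ≤ I.b1 := by
  have hr := I.hr
  have h1 := rk_mono f S (I.min y hy)
  have h2 := rk_mono f S (I.max y hy)
  have h3 := rk_lt_card f Y hy
  rw [I.card] at h3
  have h4 := I.rkL y
  constructor
  · show rk f S y0 / r ≤ rk f (S ∪ Y) y / r
    exact Nat.div_le_div_right (by omega)
  · have h5 := I.b1_mul
    have h6 : rk f (S ∪ Y) y / r < I.b1 + 1 := by
      rw [Nat.div_lt_iff_lt_mul hr, Nat.add_mul, one_mul]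
      omega
    unfold ix
    omega

end Ins

end Run7.h68.K
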