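import Pool.Agent.Run7.h68.KPieces

/-!
# Counting the adjacencies created in one step, cyclic version
-/

set_option autoImplicit false

open Finset

namespace Run7.h68.K

section

variable {V : Type} [DecidableEq V] [Fintype V]

open Classical in
/-- the ordered pairs whose adjacency is created when `A` is replaced by `A'` -/
noncomputable def created (A A' : V → V → Prop) : Finset (V × V) :=
  univ.filter (fun x => x.1 ≠ x.2 ∧ ¬ A x.1 x.2 ∧ A' x.1 x.2)

theorem mem_created {A A' : V → V → Prop} {x : V × V} :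
    x ∈ created A A' ↔ x.1 ≠ x.2 ∧ ¬ A x.1 x.2 ∧ A' x.1 x.2 := by
  simp [created]

theorem created_card_le (A A' : V → V → Prop) (T : Finset (V × V))
    (hT : ∀ u v, u ≠ v → ¬ A u v → A' u v → (u, v) ∈ T ∨ (v, u) ∈ T) :
    (created A A').card ≤ 2 * T.card := by
  have h1 : created A A' ⊆ T ∪ T.image Prod.swap := by
    rintro ⟨u, v⟩ hx
    rw [mem_created] at hx
    obtain ⟨h1, h2, h3⟩ := hx
    rw [mem_union]
    rcases hT u v h1 h2 h3 with h | h
    · left; exact h
    · right
      rw [Finset.mem_image]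
      exact ⟨(v, u), h, rfl⟩
  have h2 := (Finset.card_le_card h1).trans (Finset.card_union_le _ _)
  have h3 : (T.image Prod.swap).card ≤ T.card := Finset.card_image_le
  omega

end

section

variable {V : Type} [DecidableEq V]

theorem card_blocks_le {f : V → ℕ} (hf : Function.Injective f) {r : ℕ} (hr : 0 < r)
    (S : Finset V) (J : Finset ℕ) : (J.biUnion (fun j => blk f r S j)).card ≤ J.card * r := by
  refine Finset.card_biUnion_le.trans ?_
  rw [← smul_eq_mul, ← Finset.sum_const]
  exact Finset.sum_le_sum (fun j _ => blk_card_le hf hr S _)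

/-- pairs `(u, v)` with `u ∈ Z` and the block of `v` in a set depending on `u` -/
theorem card_pairs_le {f : V → ℕ} (hf : Function.Injective f) {r : ℕ} (hr : 0 < r)
    (S Z : Finset V) (J : V → Finset ℕ) (c : ℕ) (hJ : ∀ u ∈ Z, (J u).card ≤ c) :
    (Z.biUnion (fun u => ((J u).biUnion (fun j => blk f r S j)).image (fun v => (u, v)))).card ≤
      Z.card * (c * r) := by
  refine Finset.card_biUnion_le.trans ?_
  rw [← smul_eq_mul, ← Finset.sum_const]
  apply Finset.sum_le_sum
  intro u hu
  exact Finset.card_image_le.trans ((card_blocks_le hf hr S _).trans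
    (Nat.mul_le_mul_right r (hJ u hu)))

theorem mem_pairs {f : V → ℕ} {r : ℕ} {S Z : Finset V} {J : V → Finset ℕ} {u v : V}
    (hu : u ∈ Z) (hv : v ∈ S) (h : ix f r S v ∈ J u) :
    (u, v) ∈ Z.biUnion (fun u => ((J u).biUnion (fun j => blk f r S j)).image
      (fun v => (u, v))) := by
  rw [Finset.mem_biUnion]
  refine ⟨u, hu, ?_⟩
  rw [Finset.mem_image]
  refine ⟨v, ?_, rfl⟩
  rw [Finset.mem_biUnion]
  exact ⟨_, h, mem_blk.2 ⟨hv, rfl⟩⟩

end

namespace Ins

variable {V : Type} [DecidableEq V] [Fintype V] {f : V → ℕ} {S Y : Finset V} {r M N z : ℕ}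
  {y0 y1 : V} (I : Ins f S Y r M N z y0 y1)
include I

theorem zone_or {w : V} (hw : w ∈ S) : (f w < f y0 ∧ ix f r (S ∪ Y) w = ix f r S w) ∨
    (f y1 < f w ∧ ix f r (S ∪ Y) w = ix f r S w + 1) ∨
    w ∈ S.filter (fun w => f y0 < f w ∧ f w < f y1) := by
  rcases lt_trichotomy (f w) (f y0) with h | h | h
  · exact Or.inl ⟨h, I.ix_below h⟩
  · exact absurd h (I.ne_of hw I.mem0)
  · rcases lt_trichotomy (f w) (f y1) with h' | h' | h'
    · exact Or.inr (Or.inr (mem_filter.2 ⟨hw, h, h'⟩))
    · exact absurd h' (I.ne_of hw I.mem1)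
    · exact Or.inr (Or.inl ⟨h', I.ix_above h'⟩)

theorem created_ins : (created (cadj f r M S) (cadj f r M (S ∪ Y))).card ≤
    2 * ((2 * M + 1) * r * r + 6 * (z * r)) := by
  have hr := I.hr
  have hf := I.hf
  let Z := S.filter (fun w => f y0 < f w ∧ f w < f y1)
  let J1 : V → Finset ℕ := fun y => (Finset.range (N + 1)).filter (fun j =>
    (ix f r (S ∪ Y) y ≤ j + M ∧ j ≤ ix f r (S ∪ Y) y + M) ∨
      N + 1 + ix f r (S ∪ Y) y ≤ j + M ∨ N + 1 + j ≤ ix f r (S ∪ Y) y + M)
  let J2 : V → Finset ℕ := fun w => {ix f r S w + M + 1, ix f r S w - (M + 1)}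
  have hN := I.hN
  have hJ1 : ∀ y ∈ Y, (J1 y).card ≤ 2 * M + 1 := by
    intro y hy
    have h1 : ix f r (S ∪ Y) y < N + 1 := K.ix_lt hr I.card_union (mem_union_right _ hy)
    obtain ⟨i, hi⟩ : ∃ i, i = ix f r (S ∪ Y) y := ⟨_, rfl⟩
    have h2 : J1 y ⊆ Finset.Ico (i - M) (i + M + 1) ∪
        (Finset.Ico (N + 1 + i - M) (N + 1) ∪ Finset.Ico 0 (i + M - N)) := by
      intro j hj
      simp only [J1, mem_filter, Finset.mem_range] at hj
      rw [← hi] at hj
      rw [mem_union, mem_union, Finset.mem_Ico, Finset.mem_Ico, Finset.mem_Ico]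
      omega
    have h3 : J1 y ⊆ (Finset.Ico (i - M) (Nat.min (i + M + 1) (N + 1))) ∪
        (Finset.Ico (N + 1 + i - M) (N + 1) ∪ Finset.Ico 0 (i + M - N)) := by
      intro j hj
      have h4 := h2 hj
      have h5 : j < N + 1 := by
        simp only [J1, mem_filter, Finset.mem_range] at hj
        exact hj.1
      rw [mem_union, mem_union, Finset.mem_Ico, Finset.mem_Ico, Finset.mem_Ico] at h4 ⊢
      rcases h4 with h4 | h4
      · left
        refine ⟨h4.1, ?_⟩
        exact lt_min h4.2 h5
      · right; exact h4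
    refine (Finset.card_le_card h3).trans ?_
    refine (Finset.card_union_le _ _).trans ?_
    have h6 := Finset.card_union_le (Finset.Ico (N + 1 + i - M) (N + 1))
      (Finset.Ico 0 (i + M - N))
    rw [Nat.card_Ico, Nat.card_Ico] at h6
    rw [Nat.card_Ico]
    have h7 : Nat.min (i + M + 1) (N + 1) ≤ i + M + 1 := Nat.min_le_left _ _
    have h8 : Nat.min (i + M + 1) (N + 1) ≤ N + 1 := Nat.min_le_right _ _
    rw [← hi] at h1
    omega
  have hJ2 : ∀ w ∈ Z, (J2 w).card ≤ 2 := fun w _ => Finset.card_le_two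
  let T1 := Y.biUnion (fun u => ((J1 u).biUnion (fun j => blk f r (S ∪ Y) j)).image
    (fun v => (u, v)))
  let T2 := Z.biUnion (fun u => ((J2 u).biUnion (fun j => blk f r S j)).image
    (fun v => (u, v)))
  have hT1 : T1.card ≤ Y.card * ((2 * M + 1) * r) := card_pairs_le hf hr _ _ _ _ hJ1
  have hT2 : T2.card ≤ Z.card * (2 * r) := card_pairs_le hf hr _ _ _ _ hJ2
  have hmemY : ∀ u v, u ∈ Y → cadj f r M (S ∪ Y) u v → (u, v) ∈ T1 := by
    intro u v hu h
    apply mem_pairs hu h.2.1
    simp only [J1, mem_filter, Finset.mem_range]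
    have h1 := K.ix_lt (f := f) hr I.card_union h.2.1
    have h2 := h.2.2
    rw [I.div_U] at h2
    refine ⟨h1, ?_⟩
    omega
  have hmain := created_card_le (cadj f r M S) (cadj f r M (S ∪ Y)) (T1 ∪ T2) (by
    intro u v huv h1 h2
    rw [mem_union, mem_union]
    by_cases hu : u ∈ Y
    · left; left; exact hmemY u v hu h2
    by_cases hv : v ∈ Y
    · right; left; exact hmemY v u hv (cadj_symm h2)
    have huS : u ∈ S := (mem_union.1 h2.1).resolve_right hu
    have hvS : v ∈ S := (mem_union.1 h2.2.1).resolve_right hv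
    have h3 : ¬ ((ix f r S u ≤ ix f r S v + M ∧ ix f r S v ≤ ix f r S u + M) ∨
        N + ix f r S u ≤ ix f r S v + M ∨ N + ix f r S v ≤ ix f r S u + M) := by
      intro h
      apply h1
      refine ⟨huS, hvS, ?_⟩
      rw [I.div_S]
      exact h
    have h4 := h2.2.2
    rw [I.div_U] at h4
    have h5 := I.ix_shift u
    have h6 := I.ix_shift v
    rcases I.zone_or huS with hz | hz | hz
    · rcases I.zone_or hvS with hz' | hz' | hz'
      · omega
      · exfalso
        have h7 := rk_mono f S (hz.1.trans_le (I.le01.trans hz'.1.le)).le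
        have h8 : ix f r S u ≤ ix f r S v := Nat.div_le_div_right h7
        omega
      · right; right
        apply mem_pairs hz' huS
        simp only [J2, Finset.mem_insert, Finset.mem_singleton]
        omega
    · rcases I.zone_or hvS with hz' | hz' | hz'
      · exfalso
        have h7 := rk_mono f S (hz'.1.trans_le (I.le01.trans hz.1.le)).le
        have h8 : ix f r S v ≤ ix f r S u := Nat.div_le_div_right h7
        omega
      · omega
      · right; right
        apply mem_pairs hz' huS
        simp only [J2, Finset.mem_insert, Finset.mem_singleton]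
        omega
    · left; right
      apply mem_pairs hz hvS
      simp only [J2, Finset.mem_insert, Finset.mem_singleton]
      omega)
  refine hmain.trans (Nat.mul_le_mul_left 2 ?_)
  have h1 := Finset.card_union_le T1 T2
  have h2 : Z.card * (2 * r) ≤ z * (2 * r) := Nat.mul_le_mul_right _ I.zone
  rw [I.card] at hT1
  have e1 : r * ((2 * M + 1) * r) = (2 * M + 1) * r * r := by ring
  have e2 : z * (2 * r) = 2 * (z * r) := by ring
  omega

theorem created_del : (created (cadj f r M (S ∪ Y)) (cadj f r M S)).card ≤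
    2 * ((M + 1) * r * r + 6 * (z * r)) := by
  have hr := I.hr
  have hf := I.hf
  have hN := I.hN
  obtain ⟨c1, hc1⟩ : ∃ c1, c1 = rk f S y1 / r := ⟨_, rfl⟩
  let Z := S.filter (fun w => f y0 < f w ∧ f w < f y1)
  let J0 : Finset ℕ := Finset.Icc (c1 - M) I.b0 ∪ Finset.Ico (N + c1 - M) N
  let Lw : Finset V := J0.biUnion (fun j => blk f r S j)
  let J1 : V → Finset ℕ := fun u => {bb M N (ix f r S u)}
  let J2 : V → Finset ℕ := fun w => {ix f r S w + M, ix f r S w - M, ix f r S w + N - M,
    ix f r S w + M - N, ix f r S w + N - M + 1, ix f r S w + M - N - 1}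
  have hb0c : I.b0 ≤ c1 := by rw [hc1]; exact Nat.div_le_div_right I.lo_le
  have hJ0 : J0.card ≤ M + 1 := by
    refine (Finset.card_union_le _ _).trans ?_
    rw [Nat.card_Icc, Nat.card_Ico]
    omega
  have hLw : Lw.card ≤ (M + 1) * r :=
    (card_blocks_le hf hr S J0).trans (Nat.mul_le_mul_right r hJ0)
  have hJ1 : ∀ u ∈ Lw, (J1 u).card ≤ 1 := fun u _ => by
    simp only [J1, Finset.card_singleton, le_refl]
  have hJ2 : ∀ w ∈ Z, (J2 w).card ≤ 6 := fun w _ => Finset.card_le_six
  let T1 := Lw.biUnion (fun u => ((J1 u).biUnion (fun j => blk f r S j)).image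
    (fun v => (u, v)))
  let T2 := Z.biUnion (fun u => ((J2 u).biUnion (fun j => blk f r S j)).image
    (fun v => (u, v)))
  have hT1 : T1.card ≤ Lw.card * (1 * r) := card_pairs_le hf hr _ _ _ _ hJ1
  have hT2 : T2.card ≤ Z.card * (6 * r) := card_pairs_le hf hr _ _ _ _ hJ2
  have hmemL : ∀ u v, u ∈ S → v ∈ S → ix f r S u ∈ J0 → bb M N (ix f r S u) = ix f r S v →
      (u, v) ∈ T1 := by
    intro u v hu hv h h'
    apply mem_pairs _ hv
    · simp only [J1, Finset.mem_singleton]
      exact h'.symm
    · rw [Finset.mem_biUnion]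
      exact ⟨_, h, mem_blk.2 ⟨hu, rfl⟩⟩
  have hbelow : ∀ u, f u < f y0 → ix f r S u ≤ I.b0 := fun u hu =>
    Nat.div_le_div_right (rk_mono f S hu.le)
  have habove : ∀ u, f y1 < f u → c1 ≤ ix f r S u := by
    intro u hu
    rw [hc1]
    exact Nat.div_le_div_right (rk_mono f S hu.le)
  have hc1N : c1 ≤ N := by
    rw [hc1]
    have h1 : rk f S y1 ≤ N * r := by rw [← I.cardS]; exact rk_le_card f S y1
    calc rk f S y1 / r ≤ (N * r) / r := Nat.div_le_div_right h1
      _ = N := Nat.mul_div_cancel _ hr
  have hmemJ : ∀ j, (c1 ≤ j + M ∧ j ≤ I.b0) ∨ (N + c1 ≤ j + M ∧ j < N) → j ∈ J0 := by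
    intro j hj
    simp only [J0, mem_union, Finset.mem_Icc, Finset.mem_Ico]
    omega
  have hmain := created_card_le (cadj f r M (S ∪ Y)) (cadj f r M S) (T1 ∪ T2) (by
    intro u v huv h1 h2
    rw [mem_union, mem_union]
    have huS : u ∈ S := h2.1
    have hvS : v ∈ S := h2.2.1
    have h3 : ¬ ((ix f r (S ∪ Y) u ≤ ix f r (S ∪ Y) v + M ∧
        ix f r (S ∪ Y) v ≤ ix f r (S ∪ Y) u + M) ∨
        N + 1 + ix f r (S ∪ Y) u ≤ ix f r (S ∪ Y) v + M ∨
        N + 1 + ix f r (S ∪ Y) v ≤ ix f r (S ∪ Y) u + M) := by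
      intro h
      apply h1
      refine ⟨mem_union_left _ huS, mem_union_left _ hvS, ?_⟩
      rw [I.div_U]
      exact h
    have h4 := h2.2.2
    rw [I.div_S] at h4
    have h5 := I.ix_shift u
    have h6 := I.ix_shift v
    have h7 := I.ix_lt huS
    have h8 := I.ix_lt hvS
    have hzz : ∀ a b, a ∈ Z → b ∈ S → (ix f r S b = ix f r S a + M ∨
        ix f r S b + M = ix f r S a ∨ ix f r S b + M = ix f r S a + N ∨
        ix f r S b + N = ix f r S a + M ∨ ix f r S b + M = ix f r S a + N + 1 ∨
        ix f r S b + N + 1 = ix f r S a + M) → (a, b) ∈ T2 := by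
      intro a b ha hb h
      apply mem_pairs ha hb
      simp only [J2, Finset.mem_insert, Finset.mem_singleton]
      omega
    rcases I.zone_or huS with hz | hz | hz
    · have g1 := hbelow u hz.1
      rcases I.zone_or hvS with hz' | hz' | hz'
      · have g2 := hbelow v hz'.1
        rcases le_total (ix f r S u) (ix f r S v) with hle | hle
        · right; left
          apply hmemL v u hvS huS
          · apply hmemJ; omega
          · unfold bb; split_ifs <;> omega
        · left; left
          apply hmemL u v huS hvS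
          · apply hmemJ; omega
          · unfold bb; split_ifs <;> omega
      · have g2 := habove v hz'.1
        have h9 := rk_mono f S (hz.1.trans_le (I.le01.trans hz'.1.le)).le
        have h10 : ix f r S u ≤ ix f r S v := Nat.div_le_div_right h9
        left; left
        apply hmemL u v huS hvS
        · apply hmemJ; omega
        · unfold bb; split_ifs <;> omega
      · right; right
        apply hzz v u hz' huS
        omega
    · have g1 := habove u hz.1
      rcases I.zone_or hvS with hz' | hz' | hz'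
      · have g2 := hbelow v hz'.1
        have h9 := rk_mono f S (hz'.1.trans_le (I.le01.trans hz.1.le)).le
        have h10 : ix f r S v ≤ ix f r S u := Nat.div_le_div_right h9
        right; left
        apply hmemL v u hvS huS
        · apply hmemJ; omega
        · unfold bb; split_ifs <;> omega
      · have g2 := habove v hz'.1
        rcases le_total (ix f r S u) (ix f r S v) with hle | hle
        · right; left
          apply hmemL v u hvS huS
          · apply hmemJ; omega
          · unfold bb; split_ifs <;> omega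
        · left; left
          apply hmemL u v huS hvS
          · apply hmemJ; omega
          · unfold bb; split_ifs <;> omega
      · right; right
        apply hzz v u hz' huS
        omega
    · left; right
      apply hzz u v hz hvS
      omega)
  refine hmain.trans (Nat.mul_le_mul_left 2 ?_)
  have h1 := Finset.card_union_le T1 T2
  have h2 : Z.card * (6 * r) ≤ z * (6 * r) := Nat.mul_le_mul_right _ I.zone
  have h3 : Lw.card * (1 * r) ≤ (M + 1) * r * (1 * r) := Nat.mul_le_mul_right _ hLw
  have e1 : (M + 1) * r * (1 * r) = (M + 1) * r * r := by ring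
  have e2 : z * (6 * r) = 6 * (z * r) := by ring
  omega

end Ins

end Run7.h68.K
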