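import Mathlib

/-!
# A class function with values in `ZMod 7`
-/

set_option autoImplicit false

open Finset

namespace Run7.h68.K

/-- a function to `ZMod 7` vanishing only at `0` and commuting with negation and doubling -/
structure Lead {A : Type} [AddCommGroup A] [Fintype A] (ℓ : A → ZMod 7) : Prop where
  zero_iff : ∀ x, ℓ x = 0 ↔ x = 0
  neg : ∀ x, ℓ (-x) = -ℓ x
  dbl : ∀ x, ℓ (x + x) = ℓ x + ℓ x
  sev : ∀ x : A, x + x + (x + x) + (x + x) + x = 0
  cnt : 6 * (univ.filter (fun x => ℓ x = 1)).card + 1 = Fintype.card A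

/-- the positive half -/
def Qp {A : Type} (ℓ : A → ZMod 7) (x : A) : Prop := ℓ x = 1 ∨ ℓ x = 2 ∨ ℓ x = 4

instance {A : Type} (ℓ : A → ZMod 7) (x : A) : Decidable (Qp ℓ x) := by
  unfold Qp; infer_instance

section

variable {A : Type} [AddCommGroup A] [Fintype A] {ℓ : A → ZMod 7} (hℓ : Lead ℓ)
include hℓ

theorem Lead.qp_dbl (x : A) : Qp ℓ (x + x) ↔ Qp ℓ x := by
  unfold Qp
  rw [hℓ.dbl]
  generalize ℓ x = y
  revert y
  decide

theorem Lead.qp_neg {x : A} (hx : x ≠ 0) : Qp ℓ (-x) ↔ ¬ Qp ℓ x := by
  have h : ℓ x ≠ 0 := fun h => hx ((hℓ.zero_iff x).1 h)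
  unfold Qp
  rw [hℓ.neg]
  revert h
  generalize ℓ x = y
  revert y
  decide

theorem Lead.four (x : A) : x + x + (x + x) + (x + x) + (x + x) = x := by
  have := hℓ.sev x
  calc x + x + (x + x) + (x + x) + (x + x) = (x + x + (x + x) + (x + x) + x) + x := by abel
    _ = x := by rw [this, zero_add]

theorem Lead.dbl_inj {x y : A} (h : x + x = y + y) : x = y := by
  rw [← hℓ.four x, ← hℓ.four y, h]

theorem Lead.dbl_ne {x : A} (hx : x ≠ 0) : x + x ≠ 0 := by
  intro h
  apply hx
  apply hℓ.dbl_inj
  rw [h, add_zero]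

end

theorem exists_lead (j : ℕ) : ∃ (A : Type) (_ : AddCommGroup A) (_ : Fintype A)
    (_ : DecidableEq A) (ℓ : A → ZMod 7), Lead ℓ ∧ Fintype.card A = 7 ^ j := by
  induction j with
  | zero =>
    refine ⟨ZMod 1, inferInstance, inferInstance, inferInstance, fun _ => 0,
      ⟨?_, ?_, ?_, ?_, ?_⟩, ?_⟩
    · intro x; constructor
      · intro _; exact Subsingleton.elim _ _
      · intro _; rfl
    · intro x; simp
    · intro x; simp
    · intro x; exact Subsingleton.elim _ _
    · have : (univ.filter (fun x : ZMod 1 => (0 : ZMod 7) = 1)) = ∅ := by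
        rw [Finset.filter_eq_empty_iff]
        intro x _
        decide
      rw [this]
      simp
    · simp
  | succ j ih =>
    obtain ⟨A, _, _, _, ℓ, hℓ, hA⟩ := ih
    refine ⟨ZMod 7 × A, inferInstance, inferInstance, inferInstance,
      fun x => if x.1 = 0 then ℓ x.2 else x.1, ⟨?_, ?_, ?_, ?_, ?_⟩, ?_⟩
    · rintro ⟨x, y⟩
      simp only [Prod.mk_eq_zero]
      split_ifs with h
      · rw [hℓ.zero_iff]
        simp [h]
      · simp [h]
    · rintro ⟨x, y⟩
      simp only [Prod.fst_neg, Prod.snd_neg, neg_eq_zero]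
      split_ifs with h
      · exact hℓ.neg y
      · rfl
    · rintro ⟨x, y⟩
      simp only [Prod.fst_add, Prod.snd_add]
      have h0 : x + x = 0 ↔ x = 0 := by revert x; decide
      simp only [h0]
      split_ifs with h
      · exact hℓ.dbl y
      · rfl
    · rintro ⟨x, y⟩
      have h1 : x + x + (x + x) + (x + x) + x = 0 := by revert x; decide
      have h2 := hℓ.sev y
      simp only [Prod.mk_add_mk]
      rw [h1, h2]
      rfl
    · have h1 : (univ.filter (fun x : ZMod 7 × A => (if x.1 = 0 then ℓ x.2 else x.1) = 1)).card =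
          Fintype.card A + (univ.filter (fun x : A => ℓ x = 1)).card := by
        have h2 : (univ.filter (fun x : ZMod 7 × A => (if x.1 = 0 then ℓ x.2 else x.1) = 1)) =
            (({1} : Finset (ZMod 7)) ×ˢ (univ : Finset A)) ∪
            (({0} : Finset (ZMod 7)) ×ˢ (univ.filter (fun x : A => ℓ x = 1))) := by
          ext ⟨x, y⟩
          simp only [mem_filter, mem_univ, true_and, mem_union, Finset.mem_product,
            Finset.mem_singleton, and_true]
          split_ifs with h
          · rw [h]
            have h01 : ¬ ((0 : ZMod 7) = 1) := by decide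
            simp [h01]
          · simp [h]
        rw [h2, Finset.card_union_of_disjoint, Finset.card_product, Finset.card_product,
          Finset.card_singleton, Finset.card_singleton, Finset.card_univ, one_mul, one_mul]
        rw [Finset.disjoint_left]
        rintro ⟨x, y⟩ hx hy
        rw [Finset.mem_product, Finset.mem_singleton] at hx hy
        have h3 : (1 : ZMod 7) = 0 := hx.1.symm.trans hy.1
        revert h3
        decide
      rw [h1, Fintype.card_prod, ZMod.card]
      have := hℓ.cnt
      omega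
    · rw [Fintype.card_prod, ZMod.card, hA]
      ring

end Run7.h68.K
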