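import Pool.Agent.Run7.h68.KCreated

/-!
# Accumulating edges and pieces along the steps, cyclic version
-/

set_option autoImplicit false

open Finset

namespace Run7.h68.K

/-- a typed piece: three sets; if `ty` is true then the pairs joining the middle set to the outer
sets are used on their creation side and the pairs joining the outer sets on their destruction side;
if `ty` is false it is the other way round -/
structure TP (V : Type) where
  X : Finset V
  Y : Finset V
  Z : Finset V
  ty : Bool

section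

variable {V : Type} [DecidableEq V]

/-- whether the side `b` of the pair `{u, v}` is used by the piece -/
def TP.use (b : Bool) (π : TP V) (u v : V) : ℕ :=
  if π.ty = b then (if midp π.X π.Y π.Z u v then 1 else 0)
  else (if opp π.X π.Z u v then 1 else 0)

def useL (b : Bool) (L : List (TP V)) (u v : V) : ℕ := (L.map (fun π => π.use b u v)).sum

theorem useL_append (b : Bool) (L L' : List (TP V)) (u v : V) :
    useL b (L ++ L') u v = useL b L u v + useL b L' u v := by
  unfold useL
  rw [List.map_append, List.sum_append]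

variable [Fintype V]

open Classical in
/-- The multigraph `N` and the typed pieces `L` built so far; `A` is the current adjacency. -/
structure Sys (r M z : ℕ) (U0 : Finset V) (A : V → V → Prop) (L : List (TP V))
    (N : V → V → ℕ) (α I D : ℕ) : Prop where
  good : ∀ π ∈ L, π.X.card = r ∧ π.Y.card = r ∧ π.Z.card = r ∧ Disjoint π.X π.Y ∧
    Disjoint π.Y π.Z ∧ Disjoint π.X π.Z
  symm : ∀ u v, N u v = N v u
  loop : ∀ v, N v v = 0
  cr : ∀ u v, u ≠ v → useL true L u v + (if u ∈ U0 ∧ v ∈ U0 then 1 else 0) ≤ N u v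
  de : ∀ u v, u ≠ v → useL false L u v + (if A u v then 1 else 0) ≤ N u v
  sum : ∑ u, ∑ v, N u v ≤ α + I * (2 * ((2 * M + 1) * r * r + 6 * (z * r))) +
    D * (2 * ((M + 1) * r * r + 6 * (z * r)))
  len : L.length ≤ (I + D) * M
  low : (I + D) * (M * r) ≤ L.length * r + (I + D) * (z + 2 * r)

theorem Sys.init (r M z : ℕ) (B : Finset V) (A : V → V → Prop)
    (hA : ∀ u v, A u v → u ∈ B ∧ v ∈ B) :
    Sys r M z B A [] (fun u v => if u ≠ v ∧ u ∈ B ∧ v ∈ B then 1 else 0)
      (B.card * B.card) 0 0 where
  good := by simp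
  symm := by
    intro u v
    congr 1
    apply propext
    constructor
    · rintro ⟨h1, h2, h3⟩; exact ⟨h1.symm, h3, h2⟩
    · rintro ⟨h1, h2, h3⟩; exact ⟨h1.symm, h3, h2⟩
  loop := by intro v; simp
  cr := by
    intro u v huv
    simp only [useL, List.map_nil, List.sum_nil, zero_add]
    by_cases h : u ∈ B ∧ v ∈ B
    · rw [if_pos h, if_pos ⟨huv, h⟩]
    · rw [if_neg h]; exact Nat.zero_le _
  de := by
    intro u v huv
    simp only [useL, List.map_nil, List.sum_nil, zero_add]
    by_cases h : A u v
    · rw [if_pos h, if_pos ⟨huv, hA u v h⟩]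
    · rw [if_neg h]; exact Nat.zero_le _
  sum := by
    simp only [zero_mul, add_zero]
    rw [← Finset.card_product, ← Finset.sum_product']
    rw [← Finset.card_filter]
    apply Finset.card_le_card
    intro x hx
    simp only [univ_product_univ, mem_filter, mem_univ, true_and] at hx
    rw [Finset.mem_product]
    exact ⟨hx.2.1, hx.2.2⟩
  len := by simp
  low := by simp

theorem Sys.congr {r M z : ℕ} {U0 : Finset V} {A A' : V → V → Prop} {L : List (TP V)}
    {N : V → V → ℕ} {α I D : ℕ} (hS : Sys r M z U0 A L N α I D) (h : ∀ u v, A' u v → A u v) :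
    Sys r M z U0 A' L N α I D where
  good := hS.good
  symm := hS.symm
  loop := hS.loop
  cr := hS.cr
  de := by
    intro u v huv
    have h1 := hS.de u v huv
    by_cases hA : A' u v
    · rw [if_pos hA]
      rw [if_pos (h u v hA)] at h1
      exact h1
    · rw [if_neg hA]
      omega
  sum := hS.sum
  len := hS.len
  low := hS.low

theorem sum_created (N : V → V → ℕ) (T : Finset (V × V)) :
    ∑ u, ∑ v, (N u v + if (u, v) ∈ T then 1 else 0) = ∑ u, ∑ v, N u v + T.card := by
  simp only [Finset.sum_add_distrib]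
  congr 1
  rw [← Finset.sum_product', ← Finset.card_filter]
  congr 1
  ext x
  simp

/-- general step -/
theorem Sys.step_gen {r M z : ℕ} {U0 : Finset V} {A A' : V → V → Prop} {L P : List (TP V)}
    {N : V → V → ℕ} {α I D I' D' c : ℕ} (hS : Sys r M z U0 A L N α I D)
    (hA : ∀ u v, A u v ↔ A v u) (hA' : ∀ u v, A' u v ↔ A' v u)
    (hgood : ∀ π ∈ P, π.X.card = r ∧ π.Y.card = r ∧ π.Z.card = r ∧ Disjoint π.X π.Y ∧
      Disjoint π.Y π.Z ∧ Disjoint π.X π.Z) (hPm : P.length ≤ M)
    (hlow : M * r ≤ P.length * r + z + 2 * r)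
    (h1 : ∀ u v, useL true P u v ≤ 1 ∧ (0 < useL true P u v → ¬ A u v ∧ A' u v))
    (h2 : ∀ u v, useL false P u v ≤ 1 ∧ (0 < useL false P u v → A u v ∧ ¬ A' u v))
    (hc : (created A A').card ≤ c) (hID : I' + D' = I + D + 1)
    (hsum : I * (2 * ((2 * M + 1) * r * r + 6 * (z * r))) +
      D * (2 * ((M + 1) * r * r + 6 * (z * r))) + c =
      I' * (2 * ((2 * M + 1) * r * r + 6 * (z * r))) +
      D' * (2 * ((M + 1) * r * r + 6 * (z * r)))) :
    Sys r M z U0 A' (L ++ P) (fun u v => N u v + if (u, v) ∈ created A A' then 1 else 0)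
      α I' D' where
  good := by
    intro p hp
    rcases List.mem_append.1 hp with h | h
    · exact hS.good p h
    · exact hgood p h
  symm := by
    intro u v
    rw [hS.symm u v]
    congr 2
    apply propext
    rw [mem_created, mem_created]
    simp only
    rw [hA u v, hA' u v, ne_comm]
  loop := by
    intro v
    rw [hS.loop v, if_neg]
    rw [mem_created]
    simp
  cr := by
    intro u v huv
    have h3 := hS.cr u v huv
    have h4 := h1 u v
    rw [useL_append]
    by_cases hp : 0 < useL true P u v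
    · have h5 := h4.2 hp
      rw [if_pos (mem_created.2 ⟨huv, h5⟩)]
      omega
    · omega
  de := by
    intro u v huv
    have h3 := hS.de u v huv
    have h4 := h2 u v
    rw [useL_append]
    by_cases hp : 0 < useL false P u v
    · have h5 := h4.2 hp
      rw [if_pos h5.1] at h3
      rw [if_neg h5.2]
      omega
    · by_cases ha : A u v
      · rw [if_pos ha] at h3
        split_ifs <;> omega
      · rw [if_neg ha] at h3
        by_cases hb : A' u v
        · rw [if_pos hb, if_pos (mem_created.2 ⟨huv, ha, hb⟩)]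
          omega
        · rw [if_neg hb]
          omega
  sum := by
    rw [sum_created]
    have h3 := hS.sum
    omega
  len := by
    have h3 := hS.len
    rw [List.length_append, hID, Nat.add_mul (I + D), one_mul]
    omega
  low := by
    have h3 := hS.low
    have e1 : (I + D + 1) * (M * r) = (I + D) * (M * r) + M * r := by ring
    have e2 : (L.length + P.length) * r = L.length * r + P.length * r := by ring
    have e3 : (I + D + 1) * (z + 2 * r) = (I + D) * (z + 2 * r) + (z + 2 * r) := by ring
    rw [List.length_append, hID, e1, e2, e3]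
    omega

omit [Fintype V] in
theorem useL_map (b ty : Bool) (Y : Finset V) (P : List (Finset V × Finset V)) (u v : V) :
    useL b (P.map (fun p => ⟨p.1, Y, p.2, ty⟩)) u v =
      if ty = b then (P.map (fun p => if midp p.1 Y p.2 u v then 1 else 0)).sum
      else (P.map (fun p => if opp p.1 p.2 u v then 1 else 0)).sum := by
  unfold useL
  rw [List.map_map]
  split_ifs with h
  · congr 1
    apply List.map_congr_left
    intro p _
    simp only [Function.comp, TP.use]
    rw [if_pos h]
  · congr 1
    apply List.map_congr_left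
    intro p _
    simp only [Function.comp, TP.use]
    rw [if_neg h]

theorem Sys.step_ins {f : V → ℕ} {r M Nb z : ℕ} {U0 B Y : Finset V} {y0 y1 : V}
    {L : List (TP V)} {N : V → V → ℕ} {α I D : ℕ} (hS : Sys r M z U0 (cadj f r M B) L N α I D)
    (hI : Ins f B Y r M Nb z y0 y1) :
    ∃ (L' : List (TP V)) (N' : V → V → ℕ), Sys r M z U0 (cadj f r M (B ∪ Y)) L' N' α (I + 1) D ∧
      ∀ u v, N u v ≤ N' u v := by
  obtain ⟨P, hP1, hP2, hP3, hP4, hP5⟩ := hI.exists_pieces
  refine ⟨L ++ P.map (fun p => ⟨p.1, Y, p.2, true⟩), _, hS.step_gen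
    (fun _ _ => cadj_comm) (fun _ _ => cadj_comm) ?_ ?_ ?_ ?_ ?_ hI.created_ins
    (by omega) (by ring), ?_⟩
  · intro π hπ
    rw [List.mem_map] at hπ
    obtain ⟨p, hp, rfl⟩ := hπ
    have h1 := hP1 p hp
    exact ⟨h1.1, hI.card, h1.2.1, h1.2.2.2.1, h1.2.2.2.2.symm, h1.2.2.1⟩
  · rw [List.length_map]; exact hP2
  · rw [List.length_map]; exact hP3
  · intro u v
    rw [useL_map, if_pos rfl]
    exact hP4 u v
  · intro u v
    rw [useL_map, if_neg (by decide)]
    exact hP5 u v
  · intro u v
    exact Nat.le_add_right _ _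

theorem Sys.step_del {f : V → ℕ} {r M Nb z : ℕ} {U0 S Y : Finset V} {y0 y1 : V}
    {L : List (TP V)} {N : V → V → ℕ} {α I D : ℕ}
    (hS : Sys r M z U0 (cadj f r M (S ∪ Y)) L N α I D)
    (hI : Ins f S Y r M Nb z y0 y1) :
    ∃ (L' : List (TP V)) (N' : V → V → ℕ), Sys r M z U0 (cadj f r M S) L' N' α I (D + 1) ∧
      ∀ u v, N u v ≤ N' u v := by
  obtain ⟨P, hP1, hP2, hP3, hP4, hP5⟩ := hI.exists_pieces
  refine ⟨L ++ P.map (fun p => ⟨p.1, Y, p.2, false⟩), _, hS.step_gen
    (fun _ _ => cadj_comm) (fun _ _ => cadj_comm) ?_ ?_ ?_ ?_ ?_ hI.created_del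
    (by omega) (by ring), ?_⟩
  · intro π hπ
    rw [List.mem_map] at hπ
    obtain ⟨p, hp, rfl⟩ := hπ
    have h1 := hP1 p hp
    exact ⟨h1.1, hI.card, h1.2.1, h1.2.2.2.1, h1.2.2.2.2.symm, h1.2.2.1⟩
  · rw [List.length_map]; exact hP2
  · rw [List.length_map]; exact hP3
  · intro u v
    rw [useL_map, if_neg (by decide)]
    have := hP5 u v
    exact ⟨this.1, fun h => ⟨(this.2 h).2, (this.2 h).1⟩⟩
  · intro u v
    rw [useL_map, if_pos rfl]
    have := hP4 u v
    exact ⟨this.1, fun h => ⟨(this.2 h).2, (this.2 h).1⟩⟩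
  · intro u v
    exact Nat.le_add_right _ _

end

end Run7.h68.K
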