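import Pool.Agent.Run7.h68.KLead
import Pool.Agent.Run7.h68.KSys

/-!
# Coloured pieces
-/

set_option autoImplicit false

open Finset

namespace Run7.h68.K

section

variable {V A : Type} [DecidableEq V] [AddCommGroup A] [Fintype A] [DecidableEq A]

/-- the pair `(u, v)` leads from part `t` to part `t + 1`, with the right colours -/
def mat (τ : V → A) (F : Fin 3 → Finset V) (c : Fin 3 → A) (t : Fin 3) (u v : V) : Prop :=
  u ∈ F t ∧ τ u = c t ∧ v ∈ F (t + 1) ∧ τ v = c (t + 1)

instance (τ : V → A) (F : Fin 3 → Finset V) (c : Fin 3 → A) (t : Fin 3) (u v : V) :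
    Decidable (mat τ F c t u v) := by unfold mat; infer_instance

def prt (π : TP V) : Fin 3 → Finset V := ![π.X, π.Y, π.Z]

def clr (a q : A) : Fin 3 → A := ![a, a + q, a + q + q]

omit [DecidableEq V] in
theorem prt_unique {π : TP V} (h1 : Disjoint π.X π.Y) (h2 : Disjoint π.Y π.Z)
    (h3 : Disjoint π.X π.Z) {u : V} {s s' : Fin 3} (hs : u ∈ prt π s) (hs' : u ∈ prt π s') :
    s = s' := by
  have g1 := fun (hx : u ∈ π.X) (hy : u ∈ π.Y) => Finset.disjoint_left.1 h1 hx hy
  have g2 := fun (hx : u ∈ π.Y) (hy : u ∈ π.Z) => Finset.disjoint_left.1 h2 hx hy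
  have g3 := fun (hx : u ∈ π.X) (hy : u ∈ π.Z) => Finset.disjoint_left.1 h3 hx hy
  fin_cases s <;> fin_cases s'
  · rfl
  · exact (g1 hs hs').elim
  · exact (g3 hs hs').elim
  · exact (g1 hs' hs).elim
  · rfl
  · exact (g2 hs hs').elim
  · exact (g3 hs' hs).elim
  · exact (g2 hs' hs).elim
  · rfl

theorem clr_unique {ℓ : A → ZMod 7} (hℓ : Lead ℓ) {a q a' q' : A} {s s' : Fin 3} (h : s ≠ s')
    (h1 : clr a q s = clr a' q' s) (h2 : clr a q s' = clr a' q' s') : a = a' ∧ q = q' := by
  have k01 : a = a' → a + q = a' + q' → a = a' ∧ q = q' := by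
    intro e1 e2
    rw [e1] at e2
    exact ⟨e1, add_left_cancel e2⟩
  have k02 : a = a' → a + q + q = a' + q' + q' → a = a' ∧ q = q' := by
    intro e1 e2
    rw [e1, add_assoc, add_assoc] at e2
    exact ⟨e1, hℓ.dbl_inj (add_left_cancel e2)⟩
  have k12 : a + q = a' + q' → a + q + q = a' + q' + q' → a = a' ∧ q = q' := by
    intro e1 e2
    rw [e1] at e2
    have e3 := add_left_cancel e2
    rw [e3] at e1
    exact ⟨add_right_cancel e1, e3⟩
  fin_cases s <;> fin_cases s'
  · exact absurd rfl h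
  · exact k01 h1 h2
  · exact k02 h1 h2
  · exact k01 h2 h1
  · exact absurd rfl h
  · exact k12 h1 h2
  · exact k02 h2 h1
  · exact k12 h2 h1
  · exact absurd rfl h

/-- the parts of the coloured piece -/
def FT (ℓ : A → ZMod 7) (π : TP V) (q : A) (t : Fin 3) : Finset V :=
  if (π.ty = true ↔ Qp ℓ q) then prt π t else prt π (-t)

/-- the colours of the coloured piece -/
def cT (ℓ : A → ZMod 7) (π : TP V) (a q : A) (t : Fin 3) : A :=
  if (π.ty = true ↔ Qp ℓ q) then clr a q t else clr a q (-t)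

theorem neg_succ_ne (t : Fin 3) : -t ≠ -(t + 1) := by revert t; decide
theorem ne_succ3 (t : Fin 3) : t ≠ t + 1 := by revert t; decide

theorem use_of {ℓ : A → ZMod 7} (hℓ : Lead ℓ) {τ : V → A} {π : TP V} {a q : A} (hq : q ≠ 0)
    {t : Fin 3} {u v : V} (h : mat τ (FT ℓ π q) (cT ℓ π a q) t u v) :
    π.use (decide (Qp ℓ (τ v - τ u))) u v = 1 := by
  have hdn := hℓ.qp_neg (hℓ.dbl_ne hq)
  have hd := hℓ.qp_dbl q
  have hn := hℓ.qp_neg hq
  unfold mat at h
  simp only [FT, cT] at h
  obtain ⟨h1, h2, h3, h4⟩ := h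
  have e1 : a + q - a = q := by abel
  have e2 : a + q + q - (a + q) = q := by abel
  have e3 : a - (a + q + q) = -(q + q) := by abel
  have e4 : a + q + q - a = q + q := by abel
  have e5 : a - (a + q) = -q := by abel
  have e6 : a + q - (a + q + q) = -q := by abel
  by_cases hc : (π.ty = true ↔ Qp ℓ q)
  · rw [if_pos hc] at h1 h2 h3 h4
    fin_cases t
    · have g1 : u ∈ π.X := h1
      have g2 : τ u = a := h2
      have g3 : v ∈ π.Y := h3
      have g4 : τ v = a + q := h4
      have hm : midp π.X π.Y π.Z u v := Or.inl ⟨g1, g3⟩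
      rw [g2, g4, e1]
      unfold TP.use
      have : π.ty = decide (Qp ℓ q) := by
        by_cases hQ : Qp ℓ q
        · rw [hc.2 hQ]; simp [hQ]
        · have : ¬ π.ty = true := fun h => hQ (hc.1 h)
          simp [hQ, this]
      rw [if_pos this, if_pos hm]
    · have g1 : u ∈ π.Y := h1
      have g2 : τ u = a + q := h2
      have g3 : v ∈ π.Z := h3
      have g4 : τ v = a + q + q := h4
      have hm : midp π.X π.Y π.Z u v := Or.inr (Or.inr (Or.inl ⟨g1, g3⟩))
      rw [g2, g4, e2]
      unfold TP.use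
      have : π.ty = decide (Qp ℓ q) := by
        by_cases hQ : Qp ℓ q
        · rw [hc.2 hQ]; simp [hQ]
        · have : ¬ π.ty = true := fun h => hQ (hc.1 h)
          simp [hQ, this]
      rw [if_pos this, if_pos hm]
    · have g1 : u ∈ π.Z := h1
      have g2 : τ u = a + q + q := h2
      have g3 : v ∈ π.X := h3
      have g4 : τ v = a := h4
      have hm : opp π.X π.Z u v := Or.inr ⟨g1, g3⟩
      rw [g2, g4, e3]
      unfold TP.use
      have : ¬ π.ty = decide (Qp ℓ (-(q + q))) := by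
        by_cases hQ : Qp ℓ q
        · have h5 : ¬ Qp ℓ (-(q + q)) := by rw [hdn, hd]; exact not_not.2 hQ
          rw [hc.2 hQ, decide_eq_false h5]
          decide
        · have h5 : Qp ℓ (-(q + q)) := by rw [hdn, hd]; exact hQ
          have h6 : ¬ π.ty = true := fun h => hQ (hc.1 h)
          have h7 : π.ty = false := by simpa using h6
          rw [h7, decide_eq_true h5]
          decide
      rw [if_neg this, if_pos hm]
  · rw [if_neg hc] at h1 h2 h3 h4
    fin_cases t
    · have g1 : u ∈ π.X := h1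
      have g2 : τ u = a := h2
      have g3 : v ∈ π.Z := h3
      have g4 : τ v = a + q + q := h4
      have hm : opp π.X π.Z u v := Or.inl ⟨g1, g3⟩
      rw [g2, g4, e4]
      unfold TP.use
      have : ¬ π.ty = decide (Qp ℓ (q + q)) := by
        intro h
        apply hc
        by_cases hQ : Qp ℓ q
        · have h5 : Qp ℓ (q + q) := hd.2 hQ
          simp only [h5, decide_true] at h
          simp [h, hQ]
        · have h5 : ¬ Qp ℓ (q + q) := fun h => hQ (hd.1 h)
          simp only [h5, decide_false] at h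
          simp [h, hQ]
      rw [if_neg this, if_pos hm]
    · have g1 : u ∈ π.Z := h1
      have g2 : τ u = a + q + q := h2
      have g3 : v ∈ π.Y := h3
      have g4 : τ v = a + q := h4
      have hm : midp π.X π.Y π.Z u v := Or.inr (Or.inr (Or.inr ⟨g1, g3⟩))
      rw [g2, g4, e6]
      unfold TP.use
      have : π.ty = decide (Qp ℓ (-q)) := by
        by_cases hQ : Qp ℓ q
        · have h5 : ¬ Qp ℓ (-q) := fun h => (hn.1 h) hQ
          have h6 : ¬ π.ty = true := fun h => hc ⟨fun _ => hQ, fun _ => h⟩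
          simp [h5, h6]
        · have h5 : Qp ℓ (-q) := hn.2 hQ
          have h6 : π.ty = true := by
            by_contra h
            exact hc ⟨fun h' => absurd h' h, fun h' => absurd h' hQ⟩
          simp [h5, h6]
      rw [if_pos this, if_pos hm]
    · have g1 : u ∈ π.Y := h1
      have g2 : τ u = a + q := h2
      have g3 : v ∈ π.X := h3
      have g4 : τ v = a := h4
      have hm : midp π.X π.Y π.Z u v := Or.inr (Or.inl ⟨g1, g3⟩)
      rw [g2, g4, e5]
      unfold TP.use
      have : π.ty = decide (Qp ℓ (-q)) := by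
        by_cases hQ : Qp ℓ q
        · have h5 : ¬ Qp ℓ (-q) := fun h => (hn.1 h) hQ
          have h6 : ¬ π.ty = true := fun h => hc ⟨fun _ => hQ, fun _ => h⟩
          simp [h5, h6]
        · have h5 : Qp ℓ (-q) := hn.2 hQ
          have h6 : π.ty = true := by
            by_contra h
            exact hc ⟨fun h' => absurd h' h, fun h' => absurd h' hQ⟩
          simp [h5, h6]
      rw [if_pos this, if_pos hm]

theorem clr_ne {ℓ : A → ZMod 7} (hℓ : Lead ℓ) {a q : A} (hq : q ≠ 0) {s s' : Fin 3}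
    (h : clr a q s = clr a q s') : s = s' := by
  have k1 : a ≠ a + q := fun h => hq (by simpa using h)
  have k2 : a ≠ a + q + q := fun h => hℓ.dbl_ne hq (by rw [add_assoc] at h; simpa using h)
  have k3 : a + q ≠ a + q + q := fun h => hq (by simpa using h)
  fin_cases s <;> fin_cases s'
  · rfl
  · exact absurd h k1
  · exact absurd h k2
  · exact absurd h.symm k1
  · rfl
  · exact absurd h k3
  · exact absurd h.symm k2
  · exact absurd h.symm k3
  · rfl

theorem cT_inj {ℓ : A → ZMod 7} (hℓ : Lead ℓ) (π : TP V) {a q : A} (hq : q ≠ 0) {s s' : Fin 3}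
    (h : cT ℓ π a q s = cT ℓ π a q s') : s = s' := by
  unfold cT at h
  split_ifs at h
  · exact clr_ne hℓ hq h
  · have := clr_ne hℓ hq h
    exact neg_injective this

/-- the number of coloured subpieces of `π` containing the dart `(u, v)` -/
theorem card_typed {ℓ : A → ZMod 7} (hℓ : Lead ℓ) (τ : V → A) (π : TP V)
    (h1 : Disjoint π.X π.Y) (h2 : Disjoint π.Y π.Z) (h3 : Disjoint π.X π.Z) (u v : V) :
    (∑ a : A, ∑ q : {q : A // q ≠ 0},
      (univ.filter (fun t => mat τ (FT ℓ π q.1) (cT ℓ π a q.1) t u v)).card) ≤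
      π.use (decide (Qp ℓ (τ v - τ u))) u v := by
  classical
  rw [← Fintype.sum_prod_type']
  rw [← Finset.card_sigma]
  have hex : ∀ x : (_ : A × {q : A // q ≠ 0}) × Fin 3,
      x ∈ univ.sigma (fun x : A × {q : A // q ≠ 0} =>
        univ.filter (fun t => mat τ (FT ℓ π x.2.1) (cT ℓ π x.1 x.2.1) t u v)) →
      mat τ (FT ℓ π x.1.2.1) (cT ℓ π x.1.1 x.1.2.1) x.2 u v := by
    intro x hx
    rw [Finset.mem_sigma, mem_filter] at hx
    exact hx.2.2
  rcases Finset.eq_empty_or_nonempty (univ.sigma (fun x : A × {q : A // q ≠ 0} =>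
        univ.filter (fun t => mat τ (FT ℓ π x.2.1) (cT ℓ π x.1 x.2.1) t u v))) with h0 | h0
  · rw [h0]; simp
  · obtain ⟨x, hx⟩ := h0
    rw [use_of hℓ x.1.2.2 (hex x hx), Finset.card_le_one]
    rintro ⟨⟨a, q, hq⟩, t⟩ hy ⟨⟨a', q', hq'⟩, t'⟩ hy'
    have k := hex _ hy
    have k' := hex _ hy'
    simp only [mat, FT, cT] at k k'
    -- positions
    have hpos : ∃ s s', s ≠ s' ∧ u ∈ prt π s ∧ τ u = clr a q s ∧ v ∈ prt π s' ∧
        τ v = clr a q s' ∧ ((π.ty = true ↔ Qp ℓ q) → s = t) ∧
        (¬ (π.ty = true ↔ Qp ℓ q) → s = -t) := by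
      by_cases hc : (π.ty = true ↔ Qp ℓ q)
      · simp only [if_pos hc] at k
        exact ⟨t, t + 1, ne_succ3 t, k.1, k.2.1, k.2.2.1, k.2.2.2,
          fun _ => rfl, fun h => absurd hc h⟩
      · simp only [if_neg hc] at k
        exact ⟨-t, -(t + 1), neg_succ_ne t, k.1, k.2.1, k.2.2.1, k.2.2.2,
          fun h => absurd h hc, fun _ => rfl⟩
    have hpos' : ∃ s s', s ≠ s' ∧ u ∈ prt π s ∧ τ u = clr a' q' s ∧ v ∈ prt π s' ∧
        τ v = clr a' q' s' ∧ ((π.ty = true ↔ Qp ℓ q') → s = t') ∧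
        (¬ (π.ty = true ↔ Qp ℓ q') → s = -t') := by
      by_cases hc : (π.ty = true ↔ Qp ℓ q')
      · simp only [if_pos hc] at k'
        exact ⟨t', t' + 1, ne_succ3 t', k'.1, k'.2.1, k'.2.2.1,
          k'.2.2.2, fun _ => rfl, fun h => absurd hc h⟩
      · simp only [if_neg hc] at k'
        exact ⟨-t', -(t' + 1), neg_succ_ne t', k'.1, k'.2.1, k'.2.2.1, k'.2.2.2,
          fun h => absurd h hc, fun _ => rfl⟩
    obtain ⟨s, s', hss, p1, p2, p3, p4, p5, p6⟩ := hpos
    obtain ⟨w, w', -, r1, r2, r3, r4, r5, r6⟩ := hpos'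
    have e1 := prt_unique h1 h2 h3 p1 r1
    have e2 := prt_unique h1 h2 h3 p3 r3
    subst e1
    subst e2
    obtain ⟨e3, e4⟩ := clr_unique hℓ hss (p2.symm.trans r2) (p4.symm.trans r4)
    subst e3
    subst e4
    have e5 : t = t' := by
      by_cases hc : (π.ty = true ↔ Qp ℓ q)
      · rw [← p5 hc, ← r5 hc]
      · exact neg_injective ((p6 hc).symm.trans (r6 hc))
    rw [e5]

/-- the parts of a piece of a clique -/
def FF {N0 : ℕ} (Bl : ZMod N0 → Finset V) (i j : ZMod N0) : Fin 3 → Finset V :=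
  ![Bl i, Bl j, Bl (-i - j)]

/-- the colours of a piece of a clique -/
def cF (a q : A) : Fin 3 → A := ![a, a + q, a + q + (q + q)]

theorem cF_diff {ℓ : A → ZMod 7} (hℓ : Lead ℓ) (a q : A) (hq : ℓ q = 1) (t : Fin 3) :
    (t = 0 ∧ cF a q (t + 1) - cF a q t = q) ∨ (t = 1 ∧ cF a q (t + 1) - cF a q t = q + q) ∨
    (t = 2 ∧ cF a q (t + 1) - cF a q t = q + q + (q + q)) := by
  fin_cases t
  · left; refine ⟨rfl, ?_⟩
    show a + q - a = q
    abel
  · right; left; refine ⟨rfl, ?_⟩
    show a + q + (q + q) - (a + q) = q + q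
    abel
  · right; right; refine ⟨rfl, ?_⟩
    show a - (a + q + (q + q)) = q + q + (q + q)
    have h := hℓ.sev q
    have h2 : a - (a + q + (q + q)) = (q + q + (q + q)) - (q + q + (q + q) + (q + q) + q) := by
      abel
    rw [h2, h, sub_zero]

theorem cF_lead {ℓ : A → ZMod 7} (hℓ : Lead ℓ) (a q : A) (hq : ℓ q = 1) (t : Fin 3) :
    ℓ (cF a q (t + 1) - cF a q t) = if t = 0 then 1 else if t = 1 then 2 else 4 := by
  rcases cF_diff hℓ a q hq t with h | h | h
  · rw [h.2, h.1, hq]; rfl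
  · rw [h.2, h.1, hℓ.dbl, hq]; rfl
  · rw [h.2, h.1, hℓ.dbl, hℓ.dbl, hq]; rfl

theorem cF_qp {ℓ : A → ZMod 7} (hℓ : Lead ℓ) (a q : A) (hq : ℓ q = 1) (t : Fin 3) :
    Qp ℓ (cF a q (t + 1) - cF a q t) := by
  have h := cF_lead hℓ a q hq t
  unfold Qp
  rw [h]
  clear h
  revert t
  decide

/-- the number of pieces of a clique containing the dart `(u, v)` -/
theorem card_fano {ℓ : A → ZMod 7} (hℓ : Lead ℓ) (τ : V → A) {N0 : ℕ} [NeZero N0]
    (Bl : ZMod N0 → Finset V) (hBl : ∀ i j u, u ∈ Bl i → u ∈ Bl j → i = j)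
    (U : Finset V) (hU : ∀ i, Bl i ⊆ U) (u v : V) :
    (∑ i : ZMod N0, ∑ j : ZMod N0, ∑ a : A, ∑ q : {q : A // ℓ q = 1},
      (univ.filter (fun t => mat τ (FF Bl i j) (cF a q.1) t u v)).card) ≤
      if Qp ℓ (τ v - τ u) then (if u ∈ U ∧ v ∈ U then 1 else 0) else 0 := by
  classical
  have hsum : (∑ i : ZMod N0, ∑ j : ZMod N0, ∑ a : A, ∑ q : {q : A // ℓ q = 1},
      (univ.filter (fun t => mat τ (FF Bl i j) (cF a q.1) t u v)).card) =
      (univ.sigma (fun x : ZMod N0 × ZMod N0 × A × {q : A // ℓ q = 1} =>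
        univ.filter (fun t => mat τ (FF Bl x.1 x.2.1) (cF x.2.2.1 x.2.2.2.1) t u v))).card := by
    rw [Finset.card_sigma, Fintype.sum_prod_type]
    apply Finset.sum_congr rfl
    intro i _
    rw [Fintype.sum_prod_type]
    apply Finset.sum_congr rfl
    intro j _
    rw [Fintype.sum_prod_type]
  rw [hsum]
  have hex : ∀ x : (_ : ZMod N0 × ZMod N0 × A × {q : A // ℓ q = 1}) × Fin 3,
      x ∈ (univ.sigma (fun x : ZMod N0 × ZMod N0 × A × {q : A // ℓ q = 1} =>
        univ.filter (fun t => mat τ (FF Bl x.1 x.2.1) (cF x.2.2.1 x.2.2.2.1) t u v))) →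
      mat τ (FF Bl x.1.1 x.1.2.1) (cF x.1.2.2.1 x.1.2.2.2.1) x.2 u v := by
    intro x hx
    rw [Finset.mem_sigma, mem_filter] at hx
    exact hx.2.2
  have hFU : ∀ i j t w, w ∈ FF Bl i j t → w ∈ U := by
    intro i j t w hw
    fin_cases t
    · exact hU i hw
    · exact hU j hw
    · exact hU _ hw
  rcases Finset.eq_empty_or_nonempty (univ.sigma
      (fun x : ZMod N0 × ZMod N0 × A × {q : A // ℓ q = 1} =>
        univ.filter (fun t => mat τ (FF Bl x.1 x.2.1) (cF x.2.2.1 x.2.2.2.1) t u v))) with h0 | h0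
  · rw [h0]; simp
  · obtain ⟨x, hx⟩ := h0
    have k := hex x hx
    have kq : Qp ℓ (τ v - τ u) := by
      rw [k.2.1, k.2.2.2]
      exact cF_qp hℓ _ _ x.1.2.2.2.2 _
    rw [if_pos kq, if_pos ⟨hFU _ _ _ _ k.1, hFU _ _ _ _ k.2.2.1⟩, Finset.card_le_one]
    rintro ⟨⟨i, j, a, q, hq⟩, t⟩ hy ⟨⟨i', j', a', q', hq'⟩, t'⟩ hy'
    have g := hex _ hy
    have g' := hex _ hy'
    simp only [mat] at g g'
    obtain ⟨g1, g2, g3, g4⟩ := g
    obtain ⟨g1', g2', g3', g4'⟩ := g'
    -- the same `t`
    have ht : t = t' := by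
      have h1 := cF_lead hℓ a q hq t
      have h2 := cF_lead hℓ a' q' hq' t'
      rw [← g2, ← g4] at h1
      rw [← g2', ← g4'] at h2
      rw [h1] at h2
      revert h2
      clear * -
      revert t t'
      decide
    subst ht
    have hqq : q = q' := by
      have h1 := cF_diff hℓ a q hq t
      have h2 := cF_diff hℓ a' q' hq' t
      rw [← g2, ← g4] at h1
      rw [← g2', ← g4'] at h2
      rcases h1 with h1 | h1 | h1 <;> rcases h2 with h2 | h2 | h2
      · exact h1.2.symm.trans h2.2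
      · exact absurd (h1.1.symm.trans h2.1) (by decide)
      · exact absurd (h1.1.symm.trans h2.1) (by decide)
      · exact absurd (h1.1.symm.trans h2.1) (by decide)
      · exact hℓ.dbl_inj (h1.2.symm.trans h2.2)
      · exact absurd (h1.1.symm.trans h2.1) (by decide)
      · exact absurd (h1.1.symm.trans h2.1) (by decide)
      · exact absurd (h1.1.symm.trans h2.1) (by decide)
      · exact hℓ.dbl_inj (hℓ.dbl_inj (h1.2.symm.trans h2.2))
    subst hqq
    have haa : a = a' := by
      have h1 := g2.symm.trans g2'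
      clear * - h1
      fin_cases t
      · exact h1
      · exact add_right_cancel (a := a) (b := q) (c := a') h1
      · exact add_right_cancel (add_right_cancel h1)
    subst haa
    have hij : i = i' ∧ j = j' := by
      clear * - g1 g1' g3 g3' hBl
      fin_cases t
      · exact ⟨hBl _ _ u g1 g1', hBl _ _ v g3 g3'⟩
      · have h1 := hBl _ _ u g1 g1'
        have h2 := hBl _ _ v g3 g3'
        subst h1
        have h3 : -i = -i' := by
          have := congrArg (· + j) h2
          simpa using this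
        exact ⟨neg_injective h3, rfl⟩
      · have h1 := hBl _ _ v g3 g3'
        have h2 := hBl _ _ u g1 g1'
        subst h1
        have h3 : -j = -j' := by
          have := congrArg (· + i) h2
          simpa [sub_eq_add_neg, add_comm, add_left_comm] using this
        exact ⟨rfl, neg_injective h3⟩
    obtain ⟨rfl, rfl⟩ := hij
    rfl

end

end Run7.h68.K
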