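import Pool.Agent.Run7.h68.KTime
import Pool.Agent.Run7.h68.KAssemble

/-!
# The upper bounds with parameters
-/

set_option autoImplicit false

open Finset

namespace Run7.h68.K

theorem exists_model2 {n k : ℕ} {G : SimpleGraph (Fin n)} (hG : IsBarVisibility k G) (d : ℕ) :
    ∃ (ι : Fin n → Fin (n + d)) (s e : Fin (n + d) → ℕ)
      (Rl Dm : Finset (Fin (n + d))), Function.Injective ι ∧ Rl.card = n ∧ Dm.card = d ∧
      (∀ d ∈ Dm, ∀ x ∈ Rl, x < d) ∧ (∀ v ∈ Rl, s v ≤ e v) ∧ (∀ v ∈ Rl, e v < 2 * n + 1) ∧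
      ∀ u v, G.Adj u v → ∃ t, SeesT Rl s e k t (ι u) (ι v) ∨ SeesT Rl s e k t (ι v) (ι u) := by
  classical
  obtain ⟨S, hS⟩ := hG
  obtain ⟨σ, hσ⟩ := exists_sort S
  let ι : Fin n → Fin (n + d) := fun w => ⟨(σ w).val, by have := (σ w).2; omega⟩
  have hιval : ∀ w, (ι w).val = (σ w).val := fun w => rfl
  have hι : Function.Injective ι := by
    intro a b hab
    have h1 := congrArg Fin.val hab
    rw [hιval, hιval] at h1
    exact σ.injective (Fin.ext (by omega))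
  have hιlt : ∀ a b, ι a < ι b ↔ σ a < σ b := by
    intro a b
    rw [Fin.lt_def, Fin.lt_def, hιval, hιval]
  let hi : Fin d → Fin (n + d) := fun i => ⟨n + i.val, by have := i.2; omega⟩
  have hhi : Function.Injective hi := by
    intro a b hab
    have h1 := congrArg Fin.val hab
    have h2 : n + a.val = n + b.val := h1
    exact Fin.ext (by omega)
  let s : Fin (n + d) → ℕ := Function.extend ι (fun w => tau S (S.left w)) 0
  let e : Fin (n + d) → ℕ := Function.extend ι (fun w => tau S (S.right w)) 0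
  have hs : ∀ w, s (ι w) = tau S (S.left w) := fun w => hι.extend_apply _ _ w
  have he : ∀ w, e (ι w) = tau S (S.right w) := fun w => hι.extend_apply _ _ w
  have hRl : ∀ v ∈ univ.image ι, ∃ w, ι w = v := by
    intro v hv
    obtain ⟨w, -, hw⟩ := Finset.mem_image.1 hv
    exact ⟨w, hw⟩
  refine ⟨ι, s, e, univ.image ι, univ.image hi, hι, ?_, ?_, ?_, ?_, ?_, ?_⟩
  · rw [Finset.card_image_of_injective _ hι, Finset.card_univ, Fintype.card_fin]
  · rw [Finset.card_image_of_injective _ hhi, Finset.card_univ, Fintype.card_fin]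
  · intro v hv x hx
    obtain ⟨i, -, rfl⟩ := Finset.mem_image.1 hv
    obtain ⟨w, rfl⟩ := hRl x hx
    rw [Fin.lt_def, hιval]
    have h1 : (hi i).val = n + i.val := rfl
    have := (σ w).2
    omega
  · intro v hv
    obtain ⟨w, rfl⟩ := hRl v hv
    rw [hs, he]
    exact tau_mono S (S.left_lt_right w).le
  · intro v hv
    obtain ⟨w, rfl⟩ := hRl v hv
    rw [he]
    have := tau_le S (S.right w)
    omega
  · intro u v huv
    obtain ⟨hne, x, hxu, hxv, hc⟩ := (hS u v).1 huv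
    have hK : ∀ w, ι w ∈ Kset (univ.image ι) s e (tau S x) ↔ S.Meets x w := by
      intro w
      unfold Kset
      rw [mem_filter, hs, he]
      constructor
      · rintro ⟨-, h1, h2⟩
        exact ⟨tau_left S w h1, tau_right S w h2⟩
      · rintro ⟨h1, h2⟩
        exact ⟨Finset.mem_image_of_mem _ (Finset.mem_univ _), tau_mono S h1, tau_mono S h2⟩
    have hmain : ∀ a b, a ≠ b → S.Meets x a → S.Meets x b → ι a < ι b →
        {m : Fin n | m ≠ a ∧ m ≠ b ∧ S.Meets x m ∧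
          S.height m ∈ Set.uIcc (S.height a) (S.height b)}.ncard ≤ k →
        SeesT (univ.image ι) s e k (tau S x) (ι a) (ι b) := by
      intro a b _ ha hb hlt hcard
      refine ⟨(hK a).2 ha, (hK b).2 hb, hlt, ?_⟩
      refine le_trans ?_ hcard
      rw [← Set.ncard_image_of_injective _ hι, ← Set.ncard_coe_finset]
      apply Set.ncard_le_ncard _ (Set.toFinite _)
      intro y hy
      rw [Finset.mem_coe, mem_filter] at hy
      obtain ⟨w, rfl⟩ := hRl y (mem_filter.1 hy.1).1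
      refine ⟨w, ⟨?_, ?_, (hK w).1 hy.1, ?_⟩, rfl⟩
      · intro h; rw [h] at hy; exact lt_irrefl _ hy.2.1
      · intro h; rw [h] at hy; exact lt_irrefl _ hy.2.2
      · exact hσ a b w ((hιlt _ _).1 hy.2.1) ((hιlt _ _).1 hy.2.2)
    refine ⟨tau S x, ?_⟩
    rcases lt_trichotomy (ι u) (ι v) with h | h | h
    · exact Or.inl (hmain u v hne hxu hxv h hc)
    · exact absurd (hι h) hne
    · right
      apply hmain v u hne.symm hxv hxu h
      rw [Set.uIcc_comm]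
      refine le_trans (Set.ncard_le_ncard ?_ (Set.toFinite _)) hc
      rintro m ⟨h1, h2, h3, h4⟩
      exact ⟨h2, h1, h3, h4⟩

section

variable {A : Type} [AddCommGroup A] [Fintype A] [DecidableEq A]

/-- all graphs, with parameters -/
theorem embeds_complete {n : ℕ} (G : SimpleGraph (Fin n)) {ℓ : A → ZMod 7} (hℓ : Lead ℓ)
    {ρ l r N0 : ℕ} (hρ : 0 < ρ) (hl : 0 < l) (hr : r = Fintype.card A * (ρ + l))
    (hN0 : 0 < N0) (hn : n ≤ N0 * r) (hn2 : 2 ≤ N0 * r) (γ : ℕ) {η η2 η3 : ℚ}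
    (h1 : (1 - η) * r ^ 2 ≤ Fintype.card A * (Fintype.card A - 1) * ρ ^ 2)
    (h2 : Fintype.card A * (Fintype.card A - 1) * ρ * harmonic ρ ≤ η2 * r ^ 2)
    (h3 : 12 * (ρ + l) ≤ η3 * l ^ 2) (hη3 : 0 ≤ η3)
    (hγ : (η2 + η3 / 3 + 4 / 3 * η) * (N0 * r) ^ 2 + (N0 * r) ^ 2 / 6 + N0 * r + 2 ≤ 2 * γ) :
    EmbedsIn G γ := by
  have hS0 := Sys.init r 0 0 (univ : Finset (Fin (N0 * r)))
    (fun u v => u ∈ (univ : Finset (Fin (N0 * r))) ∧ v ∈ (univ : Finset (Fin (N0 * r))))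
    (fun u v h => h)
  obtain ⟨N, hN, hS⟩ : ∃ N : Fin (N0 * r) → Fin (N0 * r) → ℕ, (∀ u v, u ≠ v → 1 ≤ N u v) ∧
      Sys r 0 0 univ (fun u v => u ∈ (univ : Finset (Fin (N0 * r))) ∧
        v ∈ (univ : Finset (Fin (N0 * r)))) [] N
        ((univ : Finset (Fin (N0 * r))).card * (univ : Finset (Fin (N0 * r))).card) 0 0 :=
    ⟨_, fun u v huv => by rw [if_pos ⟨huv, mem_univ _, mem_univ _⟩], hS0⟩
  have hcard : (univ : Finset (Fin (N0 * r))).card = N0 * r := by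
    rw [Finset.card_univ, Fintype.card_fin]
  obtain ⟨X, hX⟩ : ∃ X : ℚ, X = Fintype.card A * (Fintype.card A - 1) *
    (3 * (([] : List (TP (Fin (N0 * r)))).length : ℚ) + N0 ^ 2) / 3 := ⟨_, rfl⟩
  apply embeds_of_sys G (Fin.castLE hn) (Fin.castLE_injective hn) hℓ (f0 := Fin.val)
    Fin.val_injective hρ hl hN0 hr hS hcard hcard
    (fun u v huv => hN _ _ (fun h => huv.ne (Fin.castLE_injective hn h)))
    (v0 := ⟨0, by omega⟩) (v1 := ⟨1, by omega⟩) (by simp) γ (X := X)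
  · rw [hX]; ring
  · have hsum := hS.sum
    rw [hcard] at hsum
    simp only [zero_mul, add_zero] at hsum
    have f1 : ((∑ u, ∑ v, N u v : ℕ) : ℚ) ≤ (N0 * r) * (N0 * r) := by exact_mod_cast hsum
    rw [Fintype.card_fin]
    have hV : ((N0 * r : ℕ) : ℚ) = N0 * r := by push_cast; ring
    rw [hV]
    simp only [List.length_nil, Nat.cast_zero, mul_zero, zero_add] at hX
    have hl0 : (0 : ℚ) < (l : ℚ) ^ 2 := by positivity
    have hXρ : X * ρ ^ 2 = Fintype.card A * (Fintype.card A - 1) * ρ ^ 2 * N0 ^ 2 / 3 := by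
      rw [hX]; ring
    have hA1 : (1 : ℚ) ≤ Fintype.card A := by
      have : 0 < Fintype.card A := Fintype.card_pos_iff.2 ⟨0⟩
      exact_mod_cast this
    have hρl : (Fintype.card A * ρ : ℚ) ≤ r := by
      rw [hr]; push_cast; nlinarith [Nat.cast_nonneg (α := ℚ) l]
    have hup : (Fintype.card A : ℚ) * (Fintype.card A - 1) * ρ ^ 2 ≤ r ^ 2 := by
      have h4 : (0 : ℚ) ≤ Fintype.card A * ρ := by positivity
      have h5 : (Fintype.card A * ρ : ℚ) ^ 2 ≤ r ^ 2 := pow_le_pow_left₀ h4 hρl 2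
      have h6 : (0 : ℚ) ≤ ρ ^ 2 := by positivity
      nlinarith
    have hN2 : (0 : ℚ) ≤ (N0 : ℚ) ^ 2 := by positivity
    have g1 : 3 * X * ρ * harmonic ρ ≤ η2 * (N0 * r) ^ 2 := by
      rw [hX]
      calc _ = (Fintype.card A * (Fintype.card A - 1) * ρ * harmonic ρ) * N0 ^ 2 := by ring
        _ ≤ (η2 * r ^ 2) * N0 ^ 2 := mul_le_mul_of_nonneg_right h2 hN2
        _ = _ := by ring
    have g2 : 12 * (ρ + l) * X * ρ ^ 2 / l ^ 2 ≤ η3 / 3 * (N0 * r) ^ 2 := by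
      rw [div_le_iff₀ hl0]
      have h7 : 0 ≤ X * ρ ^ 2 := by
        rw [hXρ]
        have : (0 : ℚ) ≤ (Fintype.card A : ℚ) - 1 := by linarith
        positivity
      have h8 := mul_le_mul_of_nonneg_right h3 h7
      have h9 : X * ρ ^ 2 ≤ (N0 * r) ^ 2 / 3 := by
        rw [hXρ]
        have := mul_le_mul_of_nonneg_right hup hN2
        linarith [show (N0 * r : ℚ) ^ 2 = r ^ 2 * N0 ^ 2 by ring]
      have h10 := mul_le_mul_of_nonneg_left h9 (show 0 ≤ η3 * l ^ 2 by positivity)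
      linarith
    have g3 : (4 / 3) * (1 - η) * (N0 * r) ^ 2 ≤ 4 * X * ρ ^ 2 := by
      have := mul_le_mul_of_nonneg_right h1 hN2
      have h11 : 4 * X * ρ ^ 2 = 4 / 3 * (Fintype.card A * (Fintype.card A - 1) * ρ ^ 2 * N0 ^ 2) := by
        rw [mul_assoc, hXρ]; ring
      rw [h11]
      linarith [show (4 / 3) * (1 - η) * (N0 * r : ℚ) ^ 2 = 4 / 3 * ((1 - η) * r ^ 2 * N0 ^ 2) by ring]
    linarith [show (N0 * r : ℚ) * (N0 * r) = (N0 * r) ^ 2 by ring]

/-- bar visibility graphs, with parameters -/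
theorem embeds_bar {n k : ℕ} {G : SimpleGraph (Fin n)} (hG : IsBarVisibility k G)
    {ℓ : A → ZMod 7} (hℓ : Lead ℓ)
    {ρ l r M g d Nt : ℕ} (hρ : 0 < ρ) (hl : 0 < l) (hr : r = Fintype.card A * (ρ + l))
    (hM : 0 < M) (hk : 1 + k + 2 * (r * (k / (g + 1) + 1)) ≤ M * r) (hd : d < r)
    (hNt : n + d = Nt * r) (hNM : 2 * M + 1 ≤ Nt) (γ : ℕ) {η η2 η3 : ℚ}
    (h1 : (1 - η) * r ^ 2 ≤ Fintype.card A * (Fintype.card A - 1) * ρ ^ 2)
    (h2 : Fintype.card A * (Fintype.card A - 1) * ρ * harmonic ρ ≤ η2 * r ^ 2)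
    (h3 : 12 * (ρ + l) ≤ η3 * l ^ 2) (hη3 : 0 ≤ η3) (hη2 : 0 ≤ η2) (hη : 0 ≤ η)
    (hγ : (η2 + η3 / 3 + 4 / 3 * η) * (6 * ((Nt - (2 * M + 1)) * r) * (M * r) +
        ((2 * M + 1) * r) ^ 2) + ((2 * M + 1) * r) ^ 2 / 6 +
        ((Nt - (2 * M + 1)) * r) * (M * r + 22 * r + 44 * (g + r)) + (Nt * r) + 2 ≤
        2 * (γ : ℚ)) :
    EmbedsIn G γ := by
  have hApos : 0 < Fintype.card A := Fintype.card_pos_iff.2 ⟨0⟩
  have hrpos : 0 < r := by rw [hr]; exact Nat.mul_pos hApos (by omega)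
  obtain ⟨ι, s, e, Rl, Dm, hι, hRl, hDm, hsep, hse, heT, hadj⟩ := exists_model2 hG d
  obtain ⟨U0, UT, L, N, hS, hU0, hUT, hN⟩ := main_K (f0 := (Fin.val : Fin (n + d) → ℕ))
    (H := n + d) (z := g + r) (g := g) (k := k) (T := 2 * n + 1)
    Fin.val_strictMono (fun v => v.2) hrpos hM le_rfl
    hsep hk s e hse heT (by rw [hDm]; exact hd) (Nt := Nt)
    (by rw [hDm, hRl]; omega) hNM
  have hbig : 3 * r ≤ Nt * r := Nat.mul_le_mul_right r (by omega)
  obtain ⟨X, hX⟩ : ∃ X : ℚ, X = Fintype.card A * (Fintype.card A - 1) *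
    (3 * (L.length : ℚ) + ((2 * M + 1 : ℕ) : ℚ) ^ 2) / 3 := ⟨_, rfl⟩
  apply embeds_of_sys G ι hι hℓ (f0 := Fin.val)
    Fin.val_injective hρ hl (N0 := 2 * M + 1) (by omega) hr hS hU0 hUT
    ?_ (v0 := ⟨0, by omega⟩) (v1 := ⟨1, by omega⟩) (by simp) γ (X := X)
  · rw [hX]; ring
  · obtain ⟨I, hI⟩ : ∃ I, I = Nt - (2 * M + 1) := ⟨_, rfl⟩
    rw [← hI] at hS
    have hIq : (I : ℚ) = Nt - (2 * M + 1) := by
      rw [hI, Nat.cast_sub hNM]; push_cast; ring
    rw [← hIq] at hγ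
    have hsum := hS.sum
    have hlen := hS.len
    have hlow := hS.low
    have f1 : ((∑ u, ∑ v, N u v : ℕ) : ℚ) ≤ (2 * M + 1) * r * ((2 * M + 1) * r) +
        I * (2 * ((2 * M + 1) * r * r + 6 * ((g + r) * r))) +
        I * (2 * ((M + 1) * r * r + 6 * ((g + r) * r))) := by exact_mod_cast hsum
    have f2 : (L.length : ℚ) ≤ (I + I) * M := by exact_mod_cast hlen
    have f3 : ((I + I) * (M * r) : ℚ) ≤ L.length * r + (I + I) * (g + r + 2 * r) := by
      exact_mod_cast hlow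
    have hV : (Fintype.card (Fin (n + d)) : ℚ) = Nt * r := by
      rw [Fintype.card_fin, hNt]; push_cast; ring
    rw [hV]
    push_cast at hX
    obtain ⟨T, hT⟩ : ∃ T : ℚ, T = 3 * (L.length : ℚ) + (2 * M + 1) ^ 2 := ⟨_, rfl⟩
    rw [← hT] at hX
    have hT0 : 0 ≤ T := by rw [hT]; positivity
    have hl0 : (0 : ℚ) < (l : ℚ) ^ 2 := by positivity
    have hr0 : (0 : ℚ) ≤ r := Nat.cast_nonneg r
    have hg0 : (0 : ℚ) ≤ g := Nat.cast_nonneg g
    have hI0 : (0 : ℚ) ≤ I := Nat.cast_nonneg I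
    have hA1 : (1 : ℚ) ≤ Fintype.card A := by exact_mod_cast hApos
    have hρl : (Fintype.card A * ρ : ℚ) ≤ r := by
      rw [hr]; push_cast; nlinarith [Nat.cast_nonneg (α := ℚ) l]
    have hup : (Fintype.card A : ℚ) * (Fintype.card A - 1) * ρ ^ 2 ≤ r ^ 2 := by
      have h4 : (0 : ℚ) ≤ Fintype.card A * ρ := by positivity
      have h5 : (Fintype.card A * ρ : ℚ) ^ 2 ≤ r ^ 2 := pow_le_pow_left₀ h4 hρl 2
      have h6 : (0 : ℚ) ≤ ρ ^ 2 := by positivity
      nlinarith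
    have hXρ : X * ρ ^ 2 = Fintype.card A * (Fintype.card A - 1) * ρ ^ 2 * T / 3 := by
      rw [hX]; ring
    have g1 : 3 * X * ρ * harmonic ρ ≤ η2 * (r ^ 2 * T) := by
      rw [hX]
      calc _ = (Fintype.card A * (Fintype.card A - 1) * ρ * harmonic ρ) * T := by ring
        _ ≤ (η2 * r ^ 2) * T := mul_le_mul_of_nonneg_right h2 hT0
        _ = _ := by ring
    have g2 : 12 * (ρ + l) * X * ρ ^ 2 / l ^ 2 ≤ η3 / 3 * (r ^ 2 * T) := by
      rw [div_le_iff₀ hl0]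
      have h7 : 0 ≤ X * ρ ^ 2 := by
        rw [hXρ]
        have : (0 : ℚ) ≤ (Fintype.card A : ℚ) - 1 := by linarith
        positivity
      have h8 := mul_le_mul_of_nonneg_right h3 h7
      have h9 : X * ρ ^ 2 ≤ r ^ 2 * T / 3 := by
        rw [hXρ]
        have := mul_le_mul_of_nonneg_right hup hT0
        linarith
      have h10 := mul_le_mul_of_nonneg_left h9 (show 0 ≤ η3 * l ^ 2 by positivity)
      linarith
    have g3 : (4 / 3) * (1 - η) * (r ^ 2 * T) ≤ 4 * X * ρ ^ 2 := by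
      have := mul_le_mul_of_nonneg_right h1 hT0
      have h11 : 4 * X * ρ ^ 2 = 4 / 3 * (Fintype.card A * (Fintype.card A - 1) * ρ ^ 2 * T) := by
        rw [mul_assoc, hXρ]; ring
      rw [h11]
      linarith [show (4 / 3) * (1 - η) * (r ^ 2 * T : ℚ) = 4 / 3 * ((1 - η) * r ^ 2 * T) by ring]
    -- bounds of `r ^ 2 * T`
    have t1 : r ^ 2 * T ≤ 6 * (I * r) * (M * r) + ((2 * M + 1) * r) ^ 2 := by
      rw [hT]
      have := mul_le_mul_of_nonneg_right f2 (show (0 : ℚ) ≤ 3 * r ^ 2 by positivity)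
      linarith [show (r : ℚ) ^ 2 * (3 * (L.length : ℚ) + (2 * M + 1) ^ 2) =
        (L.length : ℚ) * (3 * r ^ 2) + ((2 * M + 1) * r) ^ 2 by ring,
        show ((I + I) * M * (3 * r ^ 2) : ℚ) = 6 * (I * r) * (M * r) by ring]
    have t2 : 6 * (I * r) * (M * r) + ((2 * M + 1) * r) ^ 2 - 6 * (I * r) * (g + 3 * r) ≤
        r ^ 2 * T := by
      rw [hT]
      have := mul_le_mul_of_nonneg_right f3 (show (0 : ℚ) ≤ 3 * r by positivity)
      linarith [show (r : ℚ) ^ 2 * (3 * (L.length : ℚ) + (2 * M + 1) ^ 2) =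
        (L.length : ℚ) * r * (3 * r) + ((2 * M + 1) * r) ^ 2 by ring,
        show (((I + I) * (M * r)) * (3 * r) : ℚ) = 6 * (I * r) * (M * r) by ring,
        show (((L.length : ℚ) * r + (I + I) * (g + r + 2 * r)) * (3 * r) : ℚ) =
          (L.length : ℚ) * r * (3 * r) + 6 * (I * r) * (g + 3 * r) by ring]
    have t3 := mul_le_mul_of_nonneg_left t1 (show 0 ≤ η2 + η3 / 3 + 4 / 3 * η by positivity)
    have t4 : (0 : ℚ) ≤ I * r * r := by positivity
    have t5 : (0 : ℚ) ≤ I * r * g := by positivity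
    linarith [show ((I : ℚ) * (2 * ((2 * M + 1) * r * r + 6 * ((g + r) * r))) +
        I * (2 * ((M + 1) * r * r + 6 * ((g + r) * r)))) =
        6 * (I * r) * (M * r) + 4 * (I * r * r) + 24 * (I * r * g) + 24 * (I * r * r) by ring,
      show ((2 * M + 1) * r * ((2 * M + 1) * r) : ℚ) = ((2 * M + 1) * r) ^ 2 by ring,
      show ((I * r) * (M * r + 22 * r + 44 * (g + r)) : ℚ) =
        (I * r) * (M * r) + 66 * (I * r * r) + 44 * (I * r * g) by ring,
      show (6 * (I * r) * (g + 3 * r) : ℚ) = 6 * (I * r * g) + 18 * (I * r * r) by ring,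
      show (6 * (I * r) * (M * r) : ℚ) = 6 * ((I * r) * (M * r)) by ring]
  · intro u v huv
    obtain ⟨t, ht⟩ := hadj u v huv
    rcases ht with h | h
    · exact hN _ _ _ h
    · rw [hS.symm]
      exact hN _ _ _ h

end

end Run7.h68.K
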