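import Pool.Agent.Run7.h68.KModel

/-!
# The upper bounds
-/

set_option autoImplicit false

open Finset

namespace Run7.h68.K

/-- the parameters -/
theorem exists_params {s : ℕ} (hs : 1 ≤ s) : ∃ (A : Type) (_ : AddCommGroup A) (_ : Fintype A)
    (_ : DecidableEq A) (ℓ : A → ZMod 7) (r : ℕ), Lead ℓ ∧
      r = Fintype.card A * (s ^ 3 + s ^ 2) ∧ r ≤ 14 * s ^ 4 ∧ 2 ≤ r ∧
      (1 - 3 / s) * (r : ℚ) ^ 2 ≤ Fintype.card A * (Fintype.card A - 1) * (s ^ 3 : ℕ) ^ 2 ∧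
      (Fintype.card A : ℚ) * (Fintype.card A - 1) * (s ^ 3 : ℕ) * harmonic (s ^ 3) ≤
        3 / s * (r : ℚ) ^ 2 ∧
      12 * (((s ^ 3 : ℕ) : ℚ) + (s ^ 2 : ℕ)) ≤ 24 / s * ((s ^ 2 : ℕ) : ℚ) ^ 2 := by
  obtain ⟨A, i1, i2, i3, ℓ, hℓ, hA⟩ := exists_lead (Nat.clog 7 s)
  have hp1 : s ≤ Fintype.card A := by rw [hA]; exact Nat.le_pow_clog (by norm_num) s
  have hp2 : Fintype.card A ≤ 7 * s := by
    rw [hA]
    rcases Nat.lt_or_ge s 2 with h | h
    · have : s = 1 := by omega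
      rw [this]; simp
    · have h1 : 0 < Nat.clog 7 s := Nat.clog_pos (by norm_num) h
      have h2 : 7 ^ (Nat.clog 7 s - 1) < s := Nat.pow_pred_clog_lt_self (by norm_num) h
      have h3 : 7 ^ Nat.clog 7 s = 7 * 7 ^ (Nat.clog 7 s - 1) := by
        rw [← pow_succ']
        congr 1
        omega
      rw [h3]
      omega
  have hs1 : (1 : ℚ) ≤ s := by exact_mod_cast hs
  have hsp : (0 : ℚ) < s := by linarith
  obtain ⟨p, hp⟩ : ∃ p : ℚ, p = Fintype.card A := ⟨_, rfl⟩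
  have hps : (s : ℚ) ≤ p := by rw [hp]; exact_mod_cast hp1
  refine ⟨A, i1, i2, i3, ℓ, Fintype.card A * (s ^ 3 + s ^ 2), hℓ, rfl, ?_, ?_, ?_, ?_, ?_⟩
  · have h1 : s ^ 2 ≤ s ^ 3 := Nat.pow_le_pow_right hs (by norm_num)
    calc Fintype.card A * (s ^ 3 + s ^ 2) ≤ 7 * s * (s ^ 3 + s ^ 3) :=
          Nat.mul_le_mul hp2 (by omega)
      _ = 14 * s ^ 4 := by ring
  · have h1 : 1 ≤ Fintype.card A := hs.trans hp1
    have h2 : 1 ≤ s ^ 3 := Nat.one_le_pow _ _ hs
    have h3 : 1 ≤ s ^ 2 := Nat.one_le_pow _ _ hs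
    calc 2 = 1 * 2 := by norm_num
      _ ≤ Fintype.card A * (s ^ 3 + s ^ 2) := Nat.mul_le_mul h1 (by omega)
  · push_cast
    rw [← hp]
    -- `(1 - 3 / s) p ^ 2 (s ^ 3 + s ^ 2) ^ 2 ≤ p (p - 1) s ^ 6`
    have h1 : (1 - 3 / (s : ℚ)) * (s + 1) ^ 2 ≤ (1 - 1 / p) * s ^ 2 := by
      have h2 : 1 / p ≤ 1 / s := one_div_le_one_div_of_le hsp hps
      have h3 : (1 - 3 / (s : ℚ)) * (s + 1) ^ 2 ≤ (1 - 1 / s) * s ^ 2 := by
        have e1 : (1 - 3 / (s : ℚ)) * (s + 1) ^ 2 = (s - 3) * (s + 1) ^ 2 / s := by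
          field_simp
        have e2 : (1 - 1 / (s : ℚ)) * s ^ 2 = (s - 1) * s ^ 2 / s := by
          field_simp
        rw [e1, e2]
        apply div_le_div_of_nonneg_right _ hsp.le
        nlinarith
      have h4 := mul_le_mul_of_nonneg_right h2 (show (0 : ℚ) ≤ s ^ 2 by positivity)
      linarith
    have hp0 : (0 : ℚ) < p := by linarith
    have h5 := mul_le_mul_of_nonneg_right h1 (show (0 : ℚ) ≤ p ^ 2 * s ^ 4 by positivity)
    calc (1 - 3 / (s : ℚ)) * (p * (s ^ 3 + s ^ 2)) ^ 2 =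
        (1 - 3 / (s : ℚ)) * (s + 1) ^ 2 * (p ^ 2 * s ^ 4) := by ring
      _ ≤ (1 - 1 / p) * s ^ 2 * (p ^ 2 * s ^ 4) := h5
      _ = p * (p - 1) * (s ^ 3) ^ 2 := by
        field_simp
  · have hH : harmonic (s ^ 3) ≤ 3 * s := by
      have h1 := harmonic_le_one_add_log (s ^ 3)
      have hsr : (0 : ℝ) < s := by exact_mod_cast (show 0 < s by omega)
      have h2 : Real.log ((s ^ 3 : ℕ) : ℝ) = 3 * Real.log s := by
        push_cast
        rw [Real.log_pow]
        norm_num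
      have h3 := Real.log_le_sub_one_of_pos hsr
      have h4 : (harmonic (s ^ 3) : ℝ) ≤ ((3 * s : ℚ) : ℝ) := by
        push_cast
        rw [h2] at h1
        linarith
      exact_mod_cast h4
    have hp0 : (0 : ℚ) ≤ p := by linarith
    push_cast
    rw [← hp]
    have h1 : p * (p - 1) * (s : ℚ) ^ 3 * harmonic (s ^ 3) ≤ p * p * s ^ 3 * (3 * s) := by
      apply mul_le_mul _ hH (harmonic_pos (by positivity)).le (by positivity)
      apply mul_le_mul_of_nonneg_right _ (by positivity)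
      nlinarith
    refine h1.trans ?_
    have h2 : (3 / (s : ℚ)) * (p * (s ^ 3 + s ^ 2)) ^ 2 = p * p * s ^ 3 * (3 * (s + 1) ^ 2) := by
      field_simp
    rw [h2]
    apply mul_le_mul_of_nonneg_left _ (by positivity)
    nlinarith
  · push_cast
    have h1 : 24 / (s : ℚ) * (s ^ 2) ^ 2 = 24 * s ^ 3 := by
      field_simp
    rw [h1]
    have h2 : (s : ℚ) ^ 2 ≤ s ^ 3 := pow_le_pow_right₀ hs1 (by norm_num)
    linarith

theorem pow_facts {s : ℚ} (hs : 1 ≤ s) : s ^ 3 ≤ s ^ 5 ∧ s ^ 4 ≤ s ^ 5 ∧ 1 ≤ s ^ 5 ∧ 1 ≤ s ^ 2 :=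
  ⟨pow_le_pow_right₀ hs (by norm_num), pow_le_pow_right₀ hs (by norm_num),
    one_le_pow₀ hs, one_le_pow₀ hs⟩

/-- Every graph with `n` vertices embeds in a surface of genus about `n ^ 2 / 12`. -/
theorem upper_complete {n s : ℕ} (hn : 1 ≤ n) (hs : 1 ≤ s) (hs1 : n ≤ s ^ 6)
    (hs2 : s ^ 6 ≤ 64 * n) (G : SimpleGraph (Fin n)) (γ : ℕ)
    (hγ : (n : ℚ) ^ 2 / 6 + 205000 * s ^ 5 * n ≤ 2 * γ) : EmbedsIn G γ := by
  obtain ⟨A, i1, i2, i3, ℓ, r, hℓ, hr, hr1, hr2, h1, h2, h3⟩ := exists_params hs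
  have hrpos : 0 < r := by omega
  have hN : n < (n / r + 1) * r := by
    have := Nat.lt_div_mul_add (a := n) hrpos
    rw [Nat.add_mul, one_mul]; exact this
  have hN' : (n / r + 1) * r ≤ n + r := by
    have := Nat.div_mul_le_self n r
    rw [Nat.add_mul, one_mul]; omega
  have hsq : (1 : ℚ) ≤ s := by exact_mod_cast hs
  have hsp : (0 : ℚ) < s := by linarith
  have hnq : (1 : ℚ) ≤ n := by exact_mod_cast hn
  apply embeds_complete G hℓ (ρ := s ^ 3) (l := s ^ 2) (r := r) (N0 := n / r + 1)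
    (by positivity) (by positivity) hr (Nat.succ_pos _) hN.le ?_ γ h1 h2 h3 (by positivity)
  · have hB1 : (((n / r + 1 : ℕ) : ℚ) * r) ≤ n + r := by exact_mod_cast hN'
    obtain ⟨B, hB⟩ : ∃ B : ℚ, B = ((n / r + 1 : ℕ) : ℚ) * r := ⟨_, rfl⟩
    rw [← hB] at hB1 ⊢
    have hB0 : 0 ≤ B := by rw [hB]; positivity
    have hr1q : (r : ℚ) ≤ 14 * s ^ 4 := by exact_mod_cast hr1
    have hs1q : (n : ℚ) ≤ s ^ 6 := by exact_mod_cast hs1
    have hs2q : (s : ℚ) ^ 6 ≤ 64 * n := by exact_mod_cast hs2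
    obtain ⟨p3, p4, p5, p2⟩ := pow_facts hsq
    have hr0 : (0 : ℚ) ≤ r := Nat.cast_nonneg r
    have hr896 : (r : ℚ) ≤ 896 * n := by
      have : (s : ℚ) ^ 4 ≤ s ^ 6 := pow_le_pow_right₀ hsq (by norm_num)
      linarith
    have hBn : B ≤ 897 * n := by linarith
    have hBs : B / s ≤ 15 * s ^ 5 := by
      rw [div_le_iff₀ hsp]
      have e1 : 15 * (s : ℚ) ^ 5 * s = 15 * s ^ 6 := by ring
      have e2 : (s : ℚ) ^ 4 ≤ s ^ 6 := pow_le_pow_right₀ hsq (by norm_num)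
      rw [e1]
      linarith
    have hE : (3 / (s : ℚ) + 24 / s / 3 + 4 / 3 * (3 / s)) * B ^ 2 = 15 * (B / s) * B := by
      field_simp
      ring
    rw [hE]
    have t1 : 15 * (B / s) * B ≤ 15 * (15 * s ^ 5) * (897 * n) := by
      apply mul_le_mul _ hBn hB0 (by positivity)
      linarith
    have t2 : B ^ 2 ≤ n ^ 2 + 12572 * s ^ 5 * n := by
      have e1 : B ^ 2 ≤ (n + r) ^ 2 := pow_le_pow_left₀ hB0 hB1 2
      have e2 : (r : ℚ) * r ≤ 896 * n * r := mul_le_mul_of_nonneg_right hr896 hr0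
      have e3 : (r : ℚ) ≤ 14 * s ^ 5 := by linarith
      have e4 : (n : ℚ) * r ≤ n * (14 * s ^ 5) := mul_le_mul_of_nonneg_left e3 (by linarith)
      nlinarith
    have t3 : (n : ℚ) ≤ s ^ 5 * n := by nlinarith
    linarith
  · calc 2 ≤ r := hr2
      _ = 1 * r := (one_mul r).symm
      _ ≤ (n / r + 1) * r := Nat.mul_le_mul_right r (Nat.succ_le_succ (Nat.zero_le _))

/-- The upper bound for bar visibility graphs. -/
theorem upper_bar {n k s : ℕ} (hk : 1 ≤ k) (hn : 4 * k ≤ n) (hs : 1 ≤ s) (hs1 : k ≤ s ^ 6)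
    (hs2 : s ^ 6 ≤ 64 * k) {G : SimpleGraph (Fin n)} (hG : IsBarVisibility k G) (γ : ℕ)
    (hγ : (k : ℚ) * (3 * n - 4 * k) / 3 + 700000 * s ^ 5 * n ≤ 2 * γ) : EmbedsIn G γ := by
  obtain ⟨A, i1, i2, i3, ℓ, r, hℓ, hr, hr1, hr2, h1, h2, h3⟩ := exists_params hs
  have hrpos : 0 < r := by omega
  have hsq : (1 : ℚ) ≤ s := by exact_mod_cast hs
  have hsp : (0 : ℚ) < s := by linarith
  have hkq : (1 : ℚ) ≤ k := by exact_mod_cast hk
  have hnq : (4 : ℚ) * k ≤ n := by exact_mod_cast hn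
  have hr1q : (r : ℚ) ≤ 14 * s ^ 4 := by exact_mod_cast hr1
  have hs1q : (k : ℚ) ≤ s ^ 6 := by exact_mod_cast hs1
  have hs2q : (s : ℚ) ^ 6 ≤ 64 * k := by exact_mod_cast hs2
  obtain ⟨p3, p4, p5, p2⟩ := pow_facts hsq
  have hr0 : (0 : ℚ) ≤ r := Nat.cast_nonneg r
  obtain ⟨M, hM⟩ : ∃ M : ℕ, M = (k + 1 + 2 * (k / s)) / r + 3 := ⟨_, rfl⟩
  obtain ⟨Nt, hNt⟩ : ∃ Nt : ℕ, Nt = (n + r - 1) / r := ⟨_, rfl⟩
  have hNt1 : n ≤ Nt * r := by
    have := Nat.lt_div_mul_add (a := n + r - 1) hrpos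
    rw [← hNt] at this
    omega
  have hNt2 : Nt * r < n + r := by
    have := Nat.div_mul_le_self (n + r - 1) r
    rw [← hNt] at this
    omega
  have hMr1 : M * r ≤ k + 1 + 2 * (k / s) + 3 * r := by
    have := Nat.div_mul_le_self (k + 1 + 2 * (k / s)) r
    rw [hM, Nat.add_mul]
    omega
  have hMr2 : k + 1 + 2 * (k / s) + 2 * r ≤ M * r := by
    have := Nat.lt_div_mul_add (a := k + 1 + 2 * (k / s)) hrpos
    rw [hM, Nat.add_mul]
    omega
  have hks : ((k / s : ℕ) : ℚ) ≤ s ^ 5 := by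
    have e1 : ((k / s : ℕ) : ℚ) ≤ (k : ℚ) / s := Nat.cast_div_le
    refine e1.trans ?_
    rw [div_le_iff₀ hsp]
    have : (s : ℚ) ^ 5 * s = s ^ 6 := by ring
    linarith
  have hKq1 : (M : ℚ) * r ≤ k + 1 + 2 * ((k / s : ℕ) : ℚ) + 3 * r := by exact_mod_cast hMr1
  have hKq2 : (k : ℚ) ≤ M * r := by
    have : k ≤ M * r := by omega
    exact_mod_cast this
  have hKq3 : (M : ℚ) * r ≤ k + 45 * s ^ 5 := by linarith
  have hN1q : (n : ℚ) ≤ Nt * r := by exact_mod_cast hNt1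
  have hN2q : (Nt : ℚ) * r ≤ n + r := by
    have : Nt * r ≤ n + r := hNt2.le
    exact_mod_cast this
  by_cases hc : 2 * M + 1 ≤ Nt
  · -- the main case
    obtain ⟨d, hd⟩ : ∃ d, d = Nt * r - n := ⟨_, rfl⟩
    have hM0 : 3 ≤ M := by rw [hM]; exact Nat.le_add_left _ _
    apply embeds_bar hG hℓ (ρ := s ^ 3) (l := s ^ 2) (r := r) (M := M) (g := s * r) (d := d)
      (Nt := Nt) (by positivity) (by positivity) hr (by clear * - hM0; omega) ?_ (by omega) (by omega) hc γ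
      h1 h2 h3 (by positivity) (by positivity) (by positivity)
    · obtain ⟨K, hK⟩ : ∃ K : ℚ, K = M * r := ⟨_, rfl⟩
      obtain ⟨n', hn'⟩ : ∃ n' : ℚ, n' = Nt * r := ⟨_, rfl⟩
      rw [← hK] at hKq1 hKq2 hKq3
      rw [← hn'] at hN1q hN2q
      have hB : ((2 * M + 1) * r : ℚ) = 2 * K + r := by rw [hK]; ring
      have hI : (((Nt : ℚ) - (2 * M + 1)) * r : ℚ) = n' - (2 * K + r) := by
        rw [hK, hn']; ring
      have hcq : (2 * K + r : ℚ) ≤ n' := by
        rw [← hB, hn']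
        have : (2 * M + 1) * r ≤ Nt * r := Nat.mul_le_mul_right r hc
        exact_mod_cast this
      have hKr : 3 * (r : ℚ) ≤ K := by
        rw [hK]
        have : 3 * r ≤ M * r := Nat.mul_le_mul_right r hM0
        exact_mod_cast this
      have hn76 : n' ≤ 2 * n := by linarith
      have hK0 : 0 ≤ K := by linarith
      have hn'0 : 0 ≤ n' := by linarith
      rw [hB, hI, ← hK, ← hn']
      push_cast
      have hE : (3 / (s : ℚ) + 24 / s / 3 + 4 / 3 * (3 / s)) *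
          (6 * (n' - (2 * K + r)) * K + (2 * K + r) ^ 2) =
          15 * ((6 * (n' - (2 * K + r)) * K + (2 * K + r) ^ 2) / s) := by
        field_simp
        ring
      rw [hE]
      have hW : 6 * (n' - (2 * K + r)) * K + (2 * K + r) ^ 2 ≤ 9 * K * n' := by
        have e1 : (2 * K + r) ^ 2 ≤ 3 * K * n' := by
          have : (2 * K + r) * (2 * K + r) ≤ (3 * K) * n' :=
            mul_le_mul (by linarith) hcq (by linarith) (by linarith)
          linarith [show (2 * K + r) ^ 2 = (2 * K + r) * (2 * K + r) by ring]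
        have e2 : (0 : ℚ) ≤ (2 * K + r) * K := by positivity
        linarith [show 6 * (n' - (2 * K + r)) * K = 6 * K * n' - 6 * ((2 * K + r) * K) by ring]
      have hKs : K / s ≤ 46 * s ^ 5 := by
        rw [div_le_iff₀ hsp]
        have e1 : 46 * (s : ℚ) ^ 5 * s = 46 * s ^ 6 := by ring
        have e2 : (s : ℚ) ^ 5 ≤ s ^ 6 := pow_le_pow_right₀ hsq (by norm_num)
        rw [e1]
        linarith
      have t1 : 15 * ((6 * (n' - (2 * K + r)) * K + (2 * K + r) ^ 2) / s) ≤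
          12420 * s ^ 5 * n := by
        have e1 : (6 * (n' - (2 * K + r)) * K + (2 * K + r) ^ 2) / s ≤ 9 * K * n' / s :=
          div_le_div_of_nonneg_right hW hsp.le
        have e2 : 9 * K * n' / s = 9 * (K / s) * n' := by ring
        have e3 : 9 * (K / s) * n' ≤ 9 * (46 * s ^ 5) * (2 * n) := by
          apply mul_le_mul _ hn76 hn'0 (by positivity)
          linarith
        linarith
      have t2 : (2 * K + r) ^ 2 / 6 + (n' - (2 * K + r)) * K ≤
          n' * K - 4 / 3 * K ^ 2 + r * n' / 6 := by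
        have e1 : (r : ℚ) * r ≤ r * n' := mul_le_mul_of_nonneg_left (by linarith) hr0
        have e2 : (0 : ℚ) ≤ K * r := by positivity
        nlinarith
      have t3 : n' * K - 4 / 3 * K ^ 2 ≤ (k : ℚ) * (3 * n - 4 * k) / 3 + 45 * s ^ 5 * n +
          r * n' := by
        have e1 : n' * K ≤ (n + r) * K := mul_le_mul_of_nonneg_right hN2q hK0
        have e2 : (r : ℚ) * K ≤ r * n' := mul_le_mul_of_nonneg_left (by linarith) hr0
        have e3 : (n : ℚ) * (K - k) ≤ n * (45 * s ^ 5) :=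
          mul_le_mul_of_nonneg_left (by linarith) (by linarith)
        have e4 : (k : ℚ) ^ 2 ≤ K ^ 2 := pow_le_pow_left₀ (by linarith) hKq2 2
        nlinarith
      have t4 : (r : ℚ) * n' ≤ 28 * s ^ 5 * n := by
        have e1 : (r : ℚ) ≤ 14 * s ^ 5 := by linarith
        have e2 : (r : ℚ) * n' ≤ 14 * s ^ 5 * (2 * n) :=
          mul_le_mul e1 hn76 hn'0 (by positivity)
        linarith
      have t5 : (n' - (2 * K + r)) * (22 * r + 44 * (s * r + r)) ≤ 3100 * s ^ 5 * n := by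
        have e1 : (22 * r + 44 * (s * r + r) : ℚ) ≤ 1540 * s ^ 5 := by
          have e3 : (s : ℚ) * r ≤ s * (14 * s ^ 4) := mul_le_mul_of_nonneg_left hr1q hsp.le
          have e4 : (s : ℚ) * (14 * s ^ 4) = 14 * s ^ 5 := by ring
          linarith
        have e2 : (n' - (2 * K + r)) * (22 * r + 44 * (s * r + r)) ≤ (2 * n) * (1540 * s ^ 5) :=
          mul_le_mul (by linarith) e1 (by positivity) (by positivity)
        have e5 : (0 : ℚ) ≤ s ^ 5 * n := by positivity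
        linarith
      have t6 : n' + 2 ≤ 4 * s ^ 5 * n := by
        have e1 : (n : ℚ) ≤ s ^ 5 * n := by
          have : (0 : ℚ) ≤ n := by linarith
          nlinarith
        linarith
      have t7 : (0 : ℚ) ≤ s ^ 5 * n := by positivity
      linarith [show (n' - (2 * K + r)) * (K + 22 * r + 44 * (s * r + r)) =
        (n' - (2 * K + r)) * K + (n' - (2 * K + r)) * (22 * r + 44 * (s * r + r)) by ring]
    · -- the visibility condition
      have e1 : r * (k / (s * r + 1)) ≤ k / s := by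
        have e2 : k / (s * r + 1) ≤ k / (s * r) :=
          Nat.div_le_div_left (by omega) (Nat.mul_pos (by omega) hrpos)
        have e3 : k / (s * r) = (k / s) / r := (Nat.div_div_eq_div_mul k s r).symm
        rw [e3] at e2
        calc r * (k / (s * r + 1)) ≤ r * ((k / s) / r) := Nat.mul_le_mul_left r e2
          _ ≤ k / s := Nat.mul_div_le _ _
      have e4 : r * (k / (s * r + 1) + 1) = r * (k / (s * r + 1)) + r := by ring
      rw [e4]
      omega
  · -- few vertices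
    push Not at hc
    have hNt3 : Nt * r ≤ 2 * (M * r) := by
      calc Nt * r ≤ (2 * M) * r := Nat.mul_le_mul_right r (by omega)
        _ = 2 * (M * r) := by ring
    have hNt0 : 0 < Nt := by
      rcases Nat.eq_zero_or_pos Nt with h | h
      · rw [h] at hNt1; omega
      · exact h
    apply embeds_complete G hℓ (ρ := s ^ 3) (l := s ^ 2) (r := r) (N0 := Nt)
      (by positivity) (by positivity) hr hNt0 hNt1 (by omega) γ h1 h2 h3 (by positivity)
    obtain ⟨B, hB⟩ : ∃ B : ℚ, B = (Nt : ℚ) * r := ⟨_, rfl⟩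
    have hBM : B ≤ 2 * (M * r) := by rw [hB]; exact_mod_cast hNt3
    rw [← hB] at hN1q hN2q ⊢
    have hkk : (k : ℚ) ≤ 45 * s ^ 5 := by linarith
    have hB180 : B ≤ 180 * s ^ 5 := by linarith
    have hrn : (r : ℚ) ≤ 224 * n := by
      have e1 : (s : ℚ) ^ 4 ≤ s ^ 6 := pow_le_pow_right₀ hsq (by norm_num)
      linarith
    have hBn : B ≤ 225 * n := by linarith
    have hB0 : 0 ≤ B := by linarith
    have hE : (3 / (s : ℚ) + 24 / s / 3 + 4 / 3 * (3 / s)) * B ^ 2 = 15 * (B ^ 2 / s) := by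
      field_simp
      ring
    rw [hE]
    have t1 : B ^ 2 ≤ 180 * s ^ 5 * (225 * n) := by
      have : B * B ≤ 180 * s ^ 5 * (225 * n) := mul_le_mul hB180 hBn hB0 (by positivity)
      linarith [show B ^ 2 = B * B by ring]
    have t2 : B ^ 2 / s ≤ B ^ 2 := div_le_self (by positivity) hsq
    have t3 : (n : ℚ) ≤ s ^ 5 * n := by
      have : (0 : ℚ) ≤ n := by linarith
      nlinarith
    have t4 : (0 : ℚ) ≤ (k : ℚ) * (3 * n - 4 * k) / 3 := by
      have : (0 : ℚ) ≤ 3 * n - 4 * k := by linarith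
      positivity
    have t5 : (0 : ℚ) ≤ s ^ 5 * n := by positivity
    linarith

end Run7.h68.K
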