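import Pool.Agent.Run7.h68.KBlocks

/-!
# The pieces of one step, cyclic version
-/

set_option autoImplicit false

open Finset

namespace Run7.h68.K

section

variable {V : Type} [DecidableEq V]

/-- `{u, v}` joins the middle part `Y` to one of the two other parts -/
def midp (X Y Z : Finset V) (u v : V) : Prop :=
  (u ∈ X ∧ v ∈ Y) ∨ (u ∈ Y ∧ v ∈ X) ∨ (u ∈ Y ∧ v ∈ Z) ∨ (u ∈ Z ∧ v ∈ Y)

/-- `{u, v}` joins the two outer parts -/
def opp (X Z : Finset V) (u v : V) : Prop := (u ∈ X ∧ v ∈ Z) ∨ (u ∈ Z ∧ v ∈ X)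

instance (X Y Z : Finset V) (u v : V) : Decidable (midp X Y Z u v) := by
  unfold midp; infer_instance

instance (X Z : Finset V) (u v : V) : Decidable (opp X Z u v) := by
  unfold opp; infer_instance

theorem midp_comm {X Y Z : Finset V} {u v : V} : midp X Y Z u v ↔ midp X Y Z v u := by
  unfold midp; tauto

theorem opp_comm {X Z : Finset V} {u v : V} : opp X Z u v ↔ opp X Z v u := by
  unfold opp; tauto

end

/-- the partner block -/
def bb (M N a : ℕ) : ℕ := if a + M < N then a + M else a + M - N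

namespace Ins

variable {V : Type} [DecidableEq V] {f : V → ℕ} {S Y : Finset V} {r M N z : ℕ} {y0 y1 : V}
  (I : Ins f S Y r M N z y0 y1)

/-- the indices of the pieces -/
def G (_ : Ins f S Y r M N z y0 y1) (b0 b1 : ℕ) : Finset ℕ :=
  Finset.Ico (b1 - M) b0 ∪ Finset.Ico (N + b1 - M) N

include I

theorem mem_G {a : ℕ} (ha : a ∈ I.G I.b0 I.b1) :
    (I.b1 ≤ a + M ∧ a < I.b0) ∨ (N + I.b1 ≤ a + M ∧ a < N) := by
  unfold G at ha
  rw [mem_union, Finset.mem_Ico, Finset.mem_Ico] at ha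
  omega

theorem ix_S {a : ℕ} {u : V} (hu : u ∈ S) (h : ix f r S u = a) :
    (a < I.b0 → ix f r (S ∪ Y) u = a) ∧ (I.b1 ≤ a → ix f r (S ∪ Y) u = a + 1) := by
  constructor
  · intro h1
    rw [I.ix_below (I.below_of (by omega)), h]
  · intro h1
    rw [I.ix_above (I.above_of hu (by omega)), h]

theorem opp_spec {a : ℕ} (ha : a ∈ I.G I.b0 I.b1) {u v : V} (hu : u ∈ blk f r S a)
    (hv : v ∈ blk f r S (bb M N a)) : cadj f r M S u v ∧ ¬ cadj f r M (S ∪ Y) u v := by
  have h1 := I.mem_G ha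
  have h2 := I.b0_le_b1
  have h3 := I.b1_le
  have h4 := I.hN
  have h5 := I.hM
  rw [mem_blk] at hu hv
  have hu2 := I.ix_S hu.1 hu.2
  have hv2 := I.ix_S hv.1 hv.2
  have hu3 : ix f r S u = a := hu.2
  have hv3 : ix f r S v = bb M N a := hv.2
  unfold bb at hv2 hv3
  constructor
  · refine ⟨hu.1, hv.1, ?_⟩
    rw [I.div_S, hu3, hv3]
    split_ifs <;> omega
  · rintro ⟨-, -, h6⟩
    rw [I.div_U] at h6
    split_ifs at hv2 hv3 with hc
    · rcases h1 with h1 | h1
      · have e1 := hu2.1 h1.2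
        have e2 := hv2.2 (by omega)
        omega
      · omega
    · rcases h1 with h1 | h1
      · have e1 := hu2.1 h1.2
        have e2 := hv2.1 (by omega)
        omega
      · have e1 := hu2.2 (by omega)
        have e2 := hv2.2 (by omega)
        omega

theorem mid_spec {a : ℕ} (ha : a ∈ I.G I.b0 I.b1) {u y : V}
    (hu : u ∈ blk f r S a ∨ u ∈ blk f r S (bb M N a)) (hy : y ∈ Y) :
    ¬ cadj f r M S u y ∧ cadj f r M (S ∪ Y) u y := by
  have h1 := I.mem_G ha
  have h2 := I.b0_le_b1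
  have h3 := I.b1_le
  have h4 := I.hN
  have h5 := I.hM
  have hyx := I.ix_y hy
  refine ⟨fun h => I.notMem hy h.2.1, ?_⟩
  rcases hu with hu | hu
  · rw [mem_blk] at hu
    have hu2 := I.ix_S hu.1 hu.2
    refine ⟨mem_union_left _ hu.1, mem_union_right _ hy, ?_⟩
    rw [I.div_U]
    rcases h1 with h1 | h1
    · rw [hu2.1 h1.2]
      omega
    · rw [hu2.2 (by omega)]
      omega
  · rw [mem_blk] at hu
    have hu2 := I.ix_S hu.1 hu.2
    refine ⟨mem_union_left _ hu.1, mem_union_right _ hy, ?_⟩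
    rw [I.div_U]
    unfold bb at hu2
    split_ifs at hu2 with hc
    · rcases h1 with h1 | h1
      · rw [hu2.2 (by omega)]
        omega
      · omega
    · rcases h1 with h1 | h1
      · rw [hu2.1 (by omega)]
        omega
      · rw [hu2.2 (by omega)]
        omega

/-- a block occurs at most once -/
theorem G_unique {a a' j : ℕ} (ha : a ∈ I.G I.b0 I.b1) (ha' : a' ∈ I.G I.b0 I.b1)
    (h : a = j ∨ bb M N a = j) (h' : a' = j ∨ bb M N a' = j) : a = a' := by
  have h1 := I.mem_G ha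
  have h1' := I.mem_G ha'
  have h2 := I.b0_le_b1
  have h3 := I.b1_le
  have h4 := I.hN
  have h5 := I.hM
  unfold bb at h h'
  split_ifs at h h' <;> omega

theorem bb_ne {a : ℕ} : bb M N a ≠ a := by
  have h4 := I.hN
  have h5 := I.hM
  unfold bb
  split_ifs <;> omega

theorem bb_lt {a : ℕ} (ha : a < N) : bb M N a < N := by
  have h4 := I.hN
  unfold bb
  split_ifs <;> omega

theorem blk_card {j : ℕ} (hj : j < N) : (blk f r S j).card = r := by
  apply blk_card_eq I.hf I.hr
  rw [I.cardS]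
  exact Nat.mul_le_mul_right r hj

/-- All new pieces of a step. -/
theorem exists_pieces :
    ∃ P : List (Finset V × Finset V),
      (∀ p ∈ P, p.1.card = r ∧ p.2.card = r ∧ Disjoint p.1 p.2 ∧ Disjoint p.1 Y ∧
        Disjoint p.2 Y) ∧
      P.length ≤ M ∧ M * r ≤ P.length * r + z + 2 * r ∧
      (∀ u v, (P.map (fun p => if midp p.1 Y p.2 u v then 1 else 0)).sum ≤ 1 ∧
        (0 < (P.map (fun p => if midp p.1 Y p.2 u v then 1 else 0)).sum →
          ¬ cadj f r M S u v ∧ cadj f r M (S ∪ Y) u v)) ∧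
      (∀ u v, (P.map (fun p => if opp p.1 p.2 u v then 1 else 0)).sum ≤ 1 ∧
        (0 < (P.map (fun p => if opp p.1 p.2 u v then 1 else 0)).sum →
          cadj f r M S u v ∧ ¬ cadj f r M (S ∪ Y) u v)) := by
  have h2 := I.b0_le_b1
  have h3 := I.b1_le
  have h4 := I.hN
  have h5 := I.hM
  have hGN : ∀ a ∈ I.G I.b0 I.b1, a < N := by
    intro a ha
    have := I.mem_G ha
    omega
  have hcard : (I.G I.b0 I.b1).card = (I.b0 - (I.b1 - M)) + (N - (N + I.b1 - M)) := by
    unfold G
    rw [Finset.card_union_of_disjoint, Nat.card_Ico, Nat.card_Ico]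
    rw [Finset.disjoint_left]
    intro a ha hb
    rw [Finset.mem_Ico] at ha hb
    omega
  have hsum : ∀ g : Finset V × Finset V → ℕ,
      (((I.G I.b0 I.b1).toList.map (fun a => (blk f r S a, blk f r S (bb M N a)))).map g).sum =
      ∑ a ∈ I.G I.b0 I.b1, g (blk f r S a, blk f r S (bb M N a)) := by
    intro g
    rw [List.map_map]
    exact Finset.sum_map_toList _ _
  refine ⟨(I.G I.b0 I.b1).toList.map (fun a => (blk f r S a, blk f r S (bb M N a))),
    ?_, ?_, ?_, ?_, ?_⟩
  · intro p hp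
    rw [List.mem_map] at hp
    obtain ⟨a, ha, rfl⟩ := hp
    have haN := hGN a (Finset.mem_toList.1 ha)
    refine ⟨I.blk_card haN, I.blk_card (I.bb_lt haN), ?_, ?_, ?_⟩
    · rw [Finset.disjoint_left]
      intro w hw1 hw2
      rw [mem_blk] at hw1 hw2
      exact I.bb_ne (hw2.2.symm.trans hw1.2)
    · exact I.disj.symm.mono_left blk_subset
    · exact I.disj.symm.mono_left blk_subset
  · rw [List.length_map, Finset.length_toList, hcard]
    omega
  · rw [List.length_map, Finset.length_toList, hcard]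
    have h6 := I.width
    have h7 : M + I.b0 ≤ ((I.b0 - (I.b1 - M)) + (N - (N + I.b1 - M))) + I.b1 := by omega
    have h8 := Nat.mul_le_mul_right r h7
    rw [Nat.add_mul, Nat.add_mul] at h8
    omega
  · intro u v
    rw [hsum, ← Finset.card_filter]
    have key : ∀ a ∈ (I.G I.b0 I.b1).filter
        (fun a => midp (blk f r S a) Y (blk f r S (bb M N a)) u v),
        a ∈ I.G I.b0 I.b1 ∧ ((u ∈ S ∧ v ∈ Y ∧ (a = ix f r S u ∨ bb M N a = ix f r S u)) ∨
          (v ∈ S ∧ u ∈ Y ∧ (a = ix f r S v ∨ bb M N a = ix f r S v))) ∧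
        ¬ cadj f r M S u v ∧ cadj f r M (S ∪ Y) u v := by
      intro a ha
      rw [mem_filter] at ha
      obtain ⟨ha, h⟩ := ha
      refine ⟨ha, ?_⟩
      rcases h with h | h | h | h
      · have h6 := mem_blk.1 h.1
        exact ⟨Or.inl ⟨h6.1, h.2, Or.inl h6.2.symm⟩, I.mid_spec ha (Or.inl h.1) h.2⟩
      · have h6 := mem_blk.1 h.2
        have h7 := I.mid_spec ha (Or.inl h.2) h.1
        exact ⟨Or.inr ⟨h6.1, h.1, Or.inl h6.2.symm⟩, fun h8 => h7.1 (cadj_symm h8),
          cadj_symm h7.2⟩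
      · have h6 := mem_blk.1 h.2
        have h7 := I.mid_spec ha (Or.inr h.2) h.1
        exact ⟨Or.inr ⟨h6.1, h.1, Or.inr h6.2.symm⟩, fun h8 => h7.1 (cadj_symm h8),
          cadj_symm h7.2⟩
      · have h6 := mem_blk.1 h.1
        exact ⟨Or.inl ⟨h6.1, h.2, Or.inr h6.2.symm⟩, I.mid_spec ha (Or.inr h.1) h.2⟩
    constructor
    · rw [Finset.card_le_one]
      intro a ha a' ha'
      obtain ⟨k1, k2, -⟩ := key a ha
      obtain ⟨k1', k2', -⟩ := key a' ha'
      rcases k2 with k2 | k2 <;> rcases k2' with k2' | k2'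
      · exact I.G_unique k1 k1' k2.2.2 k2'.2.2
      · exact absurd k2.1 (I.notMem k2'.2.1)
      · exact absurd k2'.1 (I.notMem k2.2.1)
      · exact I.G_unique k1 k1' k2.2.2 k2'.2.2
    · intro h
      obtain ⟨a, ha⟩ := Finset.card_pos.1 h
      exact (key a ha).2.2
  · intro u v
    rw [hsum, ← Finset.card_filter]
    have key : ∀ a ∈ (I.G I.b0 I.b1).filter
        (fun a => opp (blk f r S a) (blk f r S (bb M N a)) u v),
        a ∈ I.G I.b0 I.b1 ∧ (a = ix f r S u ∨ bb M N a = ix f r S u) ∧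
        cadj f r M S u v ∧ ¬ cadj f r M (S ∪ Y) u v := by
      intro a ha
      rw [mem_filter] at ha
      obtain ⟨ha, h⟩ := ha
      refine ⟨ha, ?_⟩
      rcases h with h | h
      · have h6 := mem_blk.1 h.1
        exact ⟨Or.inl h6.2.symm, I.opp_spec ha h.1 h.2⟩
      · have h6 := mem_blk.1 h.1
        have h7 := I.opp_spec ha h.2 h.1
        exact ⟨Or.inr h6.2.symm, cadj_symm h7.1, fun h8 => h7.2 (cadj_symm h8)⟩
    constructor
    · rw [Finset.card_le_one]
      intro a ha a' ha'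
      obtain ⟨k1, k2, -⟩ := key a ha
      obtain ⟨k1', k2', -⟩ := key a' ha'
      exact I.G_unique k1 k1' k2 k2'
    · intro h
      obtain ⟨a, ha⟩ := Finset.card_pos.1 h
      exact (key a ha).2.2

end Ins

end Run7.h68.K
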