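import Pool.Agent.Run7.h68.KSys

/-!
# The state of the sweep: real part and junk
-/

set_option autoImplicit false

open Finset

namespace Run7.h68.K

section

variable {V : Type} [DecidableEq V]

/-- the key function in which the junk `J` is moved to the top -/
def key (f0 : V → ℕ) (H : ℕ) (J : Finset V) (v : V) : ℕ := f0 v + if v ∈ J then H else 0

theorem key_of {f0 : V → ℕ} {H : ℕ} {J : Finset V} {v : V} (h : v ∉ J) :
    key f0 H J v = f0 v := by
  unfold key
  rw [if_neg h, add_zero]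

theorem key_mem {f0 : V → ℕ} {H : ℕ} {J : Finset V} {v : V} (h : v ∈ J) :
    key f0 H J v = f0 v + H := by
  unfold key
  rw [if_pos h]

theorem key_inj {f0 : V → ℕ} {H : ℕ} (hf : Function.Injective f0) (hH : ∀ v, f0 v < H)
    (J : Finset V) : Function.Injective (key f0 H J) := by
  intro u v h
  have h1 := hH u
  have h2 := hH v
  unfold key at h
  split_ifs at h
  · exact hf (by omega)
  · omega
  · omega
  · exact hf (by omega)

variable [Fintype V]

/-- the state of the sweep -/
def St (f0 : V → ℕ) (H r M z c : ℕ) (seen : V → V → Prop) (R J : Finset V) : Prop :=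
  Disjoint R J ∧ (∃ j, J.card = j * r) ∧
  (((∃ N, N ≤ 2 * M ∧ (R ∪ J).card = N * r) ∧ (R ∪ J).card = c ∧
      ∀ u v, seen u v → u ≠ v ∧ u ∈ R ∪ J ∧ v ∈ R ∪ J) ∨
    (∃ (U0 : Finset V) (L : List (TP V)) (N : V → V → ℕ) (I D : ℕ),
      Sys r M z U0 (cadj (key f0 H J) r M (R ∪ J)) L N ((2 * M + 1) * r * ((2 * M + 1) * r)) I D ∧
      U0.card = (2 * M + 1) * r ∧ (∃ N', 2 * M + 1 ≤ N' ∧ (R ∪ J).card = N' * r) ∧
      (R ∪ J).card + D * r = (2 * M + 1) * r + I * r ∧ (2 * M + 1) * r + I * r = c ∧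
      (J = ∅ ∨ (R ∪ J).card = (2 * M + 1) * r) ∧ ∀ u v, seen u v → 1 ≤ N u v))

variable {f0 : V → ℕ} {H r M z c : ℕ} {seen : V → V → Prop} {R J : Finset V}

theorem St.init (hr : 0 < r) (R : Finset V) (N : ℕ) (hN : N ≤ 2 * M) (hR : R.card = N * r) :
    St f0 H r M z R.card (fun _ _ => False) R ∅ := by
  refine ⟨Finset.disjoint_empty_right R, ⟨0, by simp⟩, Or.inl ⟨⟨N, hN, ?_⟩, ?_, ?_⟩⟩
  · rw [Finset.union_empty]; exact hR
  · rw [Finset.union_empty]
  · intro u v h; exact h.elim

theorem St.see {seen' : V → V → Prop} (hr : 0 < r) (hS : St f0 H r M z c seen R J)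
    (h : ∀ u v, seen' u v → seen u v ∨ (u ≠ v ∧ u ∈ R ∧ v ∈ R ∧
      (J = ∅ → cadj f0 r M R u v))) : St f0 H r M z c seen' R J := by
  obtain ⟨h1, h2, h3⟩ := hS
  refine ⟨h1, h2, ?_⟩
  rcases h3 with ⟨h3, h4, h5⟩ | ⟨U0, L, N, I, D, h3, h4, h5, h6, h7, h8, h9⟩
  · left
    refine ⟨h3, h4, ?_⟩
    intro u v huv
    rcases h u v huv with h10 | h10
    · exact h5 u v h10
    · exact ⟨h10.1, mem_union_left _ h10.2.1, mem_union_left _ h10.2.2.1⟩
  · right
    refine ⟨U0, L, N, I, D, h3, h4, h5, h6, h7, h8, ?_⟩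
    intro u v huv
    rcases h u v huv with h10 | h10
    · exact h9 u v h10
    · have hadj : cadj (key f0 H J) r M (R ∪ J) u v := by
        rcases h8 with h8 | h8
        · have h11 := h10.2.2.2 h8
          rw [h8, Finset.union_empty]
          refine (cadj_congr ?_ u v).1 h11
          intro w _
          rw [key_of (by simp)]
        · rw [cadj_complete hr h8 le_rfl]
          exact ⟨mem_union_left _ h10.2.1, mem_union_left _ h10.2.2.1⟩
      have h12 := h3.de u v h10.1
      rw [if_pos hadj] at h12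
      omega

/-- the top `r` elements -/
theorem exists_top {f : V → ℕ} (hf : Function.Injective f) (hr : 0 < r) {B : Finset V} {N : ℕ}
    (hB : B.card = (N + 1) * r) (hM : 0 < M) (hN : 2 * M + 1 ≤ N) :
    ∃ W y0 y1, W ⊆ B ∧ Ins f (B \ W) W r M N z y0 y1 ∧
      ∀ w ∈ W, N * r ≤ rk f B w := by
  have hW : (blk f r B N).card = r := blk_card_eq hf hr B N (by rw [hB])
  have hsub : blk f r B N ⊆ B := blk_subset
  have hne : (blk f r B N).Nonempty := Finset.card_pos.1 (by omega)
  obtain ⟨y0, hy0, hy0'⟩ := Finset.exists_min_image (blk f r B N) f hne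
  obtain ⟨y1, hy1, hy1'⟩ := Finset.exists_max_image (blk f r B N) f hne
  have hrkW : ∀ w ∈ blk f r B N, N * r ≤ rk f B w := by
    intro w hw
    exact ((div_eq_iff_mem hr _ _).1 (mem_blk.1 hw).2).1
  refine ⟨blk f r B N, y0, y1, hsub, ⟨hf, hr, hM, hN, ?_, hW, Finset.disjoint_sdiff, hy0, hy1,
    hy0', hy1', ?_⟩, hrkW⟩
  · have := Finset.card_sdiff_add_card_eq_card hsub
    rw [hW, hB, Nat.add_mul, one_mul] at this
    omega
  · have : (B \ blk f r B N).filter (fun w => f y0 < f w ∧ f w < f y1) = ∅ := by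
      rw [Finset.filter_eq_empty_iff]
      intro w hw h
      rw [Finset.mem_sdiff] at hw
      apply hw.2
      rw [mem_blk]
      refine ⟨hw.1, ?_⟩
      rw [div_eq_iff_mem hr]
      have h1 := hrkW y0 hy0
      have h2 := rk_mono f B h.1.le
      have h3 := rk_lt_card f B hw.1
      rw [hB] at h3
      exact ⟨by omega, h3⟩
    rw [this]
    exact Nat.zero_le _

theorem St.ins (hf : Function.Injective f0) (hH : ∀ v, f0 v < H) (hr : 0 < r) (hM : 0 < M)
    (hS : St f0 H r M z c seen R J) {Y : Finset V} (hY : Y.card = r) (hYR : Disjoint Y R)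
    (hYJ : Disjoint Y J)
    (hz : ∀ a ∈ Y, ∀ b ∈ Y, (R.filter (fun w => f0 a < f0 w ∧ f0 w < f0 b)).card ≤ z) :
    ∃ J', J' ⊆ J ∧ St f0 H r M z (c + r) seen (R ∪ Y) J' := by
  obtain ⟨h1, ⟨j, h2⟩, h3⟩ := hS
  have hne : Y.Nonempty := Finset.card_pos.1 (by omega)
  have hYU : Disjoint Y (R ∪ J) := by
    rw [Finset.disjoint_union_right]; exact ⟨hYR, hYJ⟩
  have hU : R ∪ Y ∪ J = (R ∪ J) ∪ Y := Finset.union_right_comm R Y J
  have hcard : (R ∪ Y ∪ J).card = (R ∪ J).card + r := by
    rw [hU, Finset.card_union_of_disjoint hYU.symm, hY]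
  have hdis : Disjoint (R ∪ Y) J := by
    rw [Finset.disjoint_union_left]; exact ⟨h1, hYJ⟩
  rcases h3 with ⟨⟨N, hN, h3⟩, h4, h5⟩ | ⟨U0, L, N, I, D, h3, h4, ⟨N', hN', h5⟩, h6, h7, h8, h9⟩
  · refine ⟨J, Finset.Subset.refl _, hdis, ⟨j, h2⟩, ?_⟩
    have hcard' : (R ∪ Y ∪ J).card = (N + 1) * r := by
      rw [hcard, h3]; ring
    have hseen : ∀ u v, seen u v → u ≠ v ∧ u ∈ R ∪ Y ∪ J ∧ v ∈ R ∪ Y ∪ J := by
      intro u v huv
      have := h5 u v huv
      rw [hU]
      exact ⟨this.1, mem_union_left _ this.2.1, mem_union_left _ this.2.2⟩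
    by_cases hN2 : N + 1 ≤ 2 * M
    · left
      exact ⟨⟨N + 1, hN2, hcard'⟩, by rw [hcard, h4], hseen⟩
    · right
      have hNN : N + 1 = 2 * M + 1 := by omega
      rw [hNN] at hcard'
      obtain ⟨N1, hN1, hN1'⟩ : ∃ N1 : V → V → ℕ, Sys r M z (R ∪ Y ∪ J)
          (cadj (key f0 H J) r M (R ∪ Y ∪ J)) [] N1 ((R ∪ Y ∪ J).card * (R ∪ Y ∪ J).card) 0 0 ∧
          ∀ u v, u ≠ v → u ∈ R ∪ Y ∪ J → v ∈ R ∪ Y ∪ J → 1 ≤ N1 u v := by
        refine ⟨_, Sys.init r M z (R ∪ Y ∪ J) (cadj (key f0 H J) r M (R ∪ Y ∪ J))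
          (fun u v h => ⟨h.1, h.2.1⟩), ?_⟩
        intro u v h1 h2 h3
        rw [if_pos ⟨h1, h2, h3⟩]
      rw [hcard'] at hN1
      refine ⟨R ∪ Y ∪ J, [], N1, 0, 0, hN1, hcard', ⟨2 * M + 1, le_rfl, hcard'⟩, ?_, ?_,
        Or.inr hcard', ?_⟩
      · rw [hcard']
      · rw [← hcard', hcard, h4]; ring
      · intro u v huv
        have := hseen u v huv
        exact hN1' u v this.1 this.2.1 this.2.2
  · -- phase 2
    have hfJ := key_inj hf hH J
    have hkY : ∀ y ∈ Y, key f0 H J y = f0 y := fun y hy =>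
      key_of (fun h => (Finset.disjoint_left.1 hYJ) hy h)
    obtain ⟨y0, hy0, hy0'⟩ := Finset.exists_min_image Y (key f0 H J) hne
    obtain ⟨y1, hy1, hy1'⟩ := Finset.exists_max_image Y (key f0 H J) hne
    have hI : Ins (key f0 H J) (R ∪ J) Y r M N' z y0 y1 := by
      refine ⟨hfJ, hr, hM, hN', h5, hY, hYU, hy0, hy1, hy0', hy1', ?_⟩
      refine le_trans (Finset.card_le_card ?_) (hz y0 hy0 y1 hy1)
      intro w hw
      rw [mem_filter] at hw ⊢
      rw [hkY y0 hy0, hkY y1 hy1] at hw
      obtain ⟨hw1, hw2, hw3⟩ := hw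
      have hwJ : w ∉ J := by
        intro h
        rw [key_mem h] at hw3
        have := hH y1
        omega
      rw [key_of hwJ] at hw2 hw3
      exact ⟨(mem_union.1 hw1).resolve_right hwJ, hw2, hw3⟩
    obtain ⟨L', N1, hS', hNN⟩ := h3.step_ins hI
    rcases Finset.eq_empty_or_nonempty J with hJ | hJ
    · -- no junk
      subst hJ
      refine ⟨∅, Finset.Subset.refl _, hdis, ⟨0, by simp⟩, Or.inr ⟨U0, L', N1, I + 1, D, ?_, h4,
        ⟨N' + 1, by omega, ?_⟩, ?_, ?_, Or.inl rfl, ?_⟩⟩
      · rw [hU]; exact hS'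
      · rw [hcard, h5]; ring
      · rw [hcard]
        have : (I + 1) * r = I * r + r := by ring
        omega
      · rw [← h7]; ring
      · intro u v huv
        exact (h9 u v huv).trans (hNN u v)
    · -- remove a group of junk
      have hJe : J ≠ ∅ := hJ.ne_empty
      have h8' := h8.resolve_left hJe
      have hNe : N' = 2 * M + 1 := by
        have : N' * r = (2 * M + 1) * r := by rw [← h5]; exact h8'
        exact Nat.eq_of_mul_eq_mul_right hr this
      have hJr : r ≤ J.card := by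
        have : 0 < J.card := Finset.card_pos.2 hJ
        rw [h2] at this ⊢
        have hj : 0 < j := Nat.pos_of_mul_pos_right this
        calc r = 1 * r := (one_mul r).symm
          _ ≤ j * r := Nat.mul_le_mul_right r hj
      have hBc : ((R ∪ J) ∪ Y).card = (N' + 1) * r := by
        rw [← hU, hcard, h5]; ring
      obtain ⟨W, w0, w1, hWB, hWI, hWr⟩ := exists_top (z := z) hfJ hr hBc hM hN'
      have hWJ : W ⊆ J := by
        intro w hw
        by_contra hwJ
        have h10 := hWr w hw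
        have h11 : rk (key f0 H J) ((R ∪ J) ∪ Y) w + J.card ≤ ((R ∪ J) ∪ Y).card - 1 := by
          have hJB : J ⊆ (R ∪ J) ∪ Y := by
            intro x hx; simp [hx]
          have h12 : (((R ∪ J) ∪ Y).filter (fun x => key f0 H J x < key f0 H J w)) ⊆
              (((R ∪ J) ∪ Y) \ J).erase w := by
            intro x hx
            rw [mem_filter] at hx
            rw [Finset.mem_erase, Finset.mem_sdiff]
            refine ⟨?_, hx.1, ?_⟩
            · intro h; rw [h] at hx; exact lt_irrefl _ hx.2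
            · intro h
              have h13 := hx.2
              rw [key_mem h, key_of hwJ] at h13
              have := hH w
              omega
          have h13 := Finset.card_le_card h12
          rw [Finset.card_erase_of_mem (Finset.mem_sdiff.2 ⟨hWB hw, hwJ⟩)] at h13
          have h14 := Finset.card_sdiff_add_card_eq_card hJB
          have h15 : 0 < (((R ∪ J) ∪ Y) \ J).card :=
            Finset.card_pos.2 ⟨w, Finset.mem_sdiff.2 ⟨hWB hw, hwJ⟩⟩
          unfold rk
          omega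
        rw [hBc, Nat.add_mul, one_mul] at h11
        omega
      have hWc : W.card = r := hWI.card
      have hset : ((R ∪ J) ∪ Y) \ W = (R ∪ Y) ∪ (J \ W) := by
        ext x
        simp only [Finset.mem_sdiff, mem_union]
        constructor
        · rintro ⟨(h | h) | h, h'⟩
          · exact Or.inl (Or.inl h)
          · exact Or.inr ⟨h, h'⟩
          · exact Or.inl (Or.inr h)
        · rintro (h | h)
          · refine ⟨by tauto, fun h' => ?_⟩
            exact (Finset.disjoint_left.1 hdis) (mem_union.2 h) (hWJ h')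
          · exact ⟨Or.inl (Or.inr h.1), h.2⟩
      have hS'' : Sys r M z U0 (cadj (key f0 H J) r M ((((R ∪ J) ∪ Y) \ W) ∪ W)) L' N1
          ((2 * M + 1) * r * ((2 * M + 1) * r)) (I + 1) D := by
        rw [Finset.sdiff_union_of_subset hWB]
        exact hS'
      obtain ⟨L2, N2, hS2, hNN2⟩ := hS''.step_del hWI
      rw [hset] at hS2
      have hcard2 : ((R ∪ Y) ∪ (J \ W)).card = (2 * M + 1) * r := by
        rw [← hset, hWI.cardS, hNe]
      refine ⟨J \ W, Finset.sdiff_subset, hdis.mono_right Finset.sdiff_subset, ⟨j - 1, ?_⟩,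
        Or.inr ⟨U0, L2, N2, I + 1, D + 1, ?_, h4, ⟨2 * M + 1, le_rfl, hcard2⟩, ?_, ?_,
        Or.inr hcard2, ?_⟩⟩
      · have h10 := Finset.card_sdiff_add_card_eq_card hWJ
        rw [hWc, h2] at h10
        rw [Nat.sub_mul, one_mul]
        omega
      · apply hS2.congr
        intro u v h
        refine (cadj_congr ?_ u v).1 h
        intro w hw
        unfold key
        congr 1
        have : w ∈ J \ W ↔ w ∈ J := by
          rw [Finset.mem_sdiff]
          constructor
          · exact fun h => h.1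
          · intro hwJ
            rcases mem_union.1 hw with h | h
            · exact absurd hwJ ((Finset.disjoint_left.1 hdis) h)
            · exact Finset.mem_sdiff.1 h
        simp only [this]
      · rw [hcard2]
        rw [h8'] at h6
        have e1 : (D + 1) * r = D * r + r := by ring
        have e2 : (I + 1) * r = I * r + r := by ring
        omega
      · rw [← h7]; ring
      · intro u v huv
        exact (h9 u v huv).trans ((hNN u v).trans (hNN2 u v))

theorem St.del (hf : Function.Injective f0) (hr : 0 < r) (hM : 0 < M)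
    (hS : St f0 H r M z c seen R J) {W : Finset V} (hW : W.card = r) (hWR : W ⊆ R)
    (hz : ∀ a ∈ W, ∀ b ∈ W, ((R \ W).filter (fun w => f0 a < f0 w ∧ f0 w < f0 b)).card ≤ z) :
    ∃ J', J' ⊆ J ∪ W ∧ St f0 H r M z c seen (R \ W) J' := by
  obtain ⟨h1, ⟨j, h2⟩, h3⟩ := hS
  have hne : W.Nonempty := Finset.card_pos.1 (by omega)
  have hWJ : Disjoint J W := (h1.mono_left hWR).symm
  have hU : (R \ W) ∪ (J ∪ W) = R ∪ J := by
    ext x
    simp only [Finset.mem_sdiff, mem_union]
    have := @hWR x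
    tauto
  have hdis : Disjoint (R \ W) (J ∪ W) := by
    rw [Finset.disjoint_union_right]
    exact ⟨h1.mono_left Finset.sdiff_subset, Finset.sdiff_disjoint⟩
  have hJc : (J ∪ W).card = (j + 1) * r := by
    rw [Finset.card_union_of_disjoint hWJ, h2, hW]; ring
  rcases h3 with ⟨⟨N, hN, h3⟩, h4, h5⟩ | ⟨U0, L, N, I, D, h3, h4, ⟨N', hN', h5⟩, h6, h7, h8, h9⟩
  · refine ⟨J ∪ W, Finset.Subset.refl _, hdis, ⟨j + 1, hJc⟩, Or.inl ⟨⟨N, hN, ?_⟩, ?_, ?_⟩⟩
    · rw [hU]; exact h3
    · rw [hU]; exact h4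
    · rw [hU]; exact h5
  · by_cases hc : (R ∪ J).card = (2 * M + 1) * r
    · -- move to the junk
      refine ⟨J ∪ W, Finset.Subset.refl _, hdis, ⟨j + 1, hJc⟩,
        Or.inr ⟨U0, L, N, I, D, ?_, h4, ⟨N', hN', ?_⟩, ?_, h7, Or.inr ?_, h9⟩⟩
      · rw [hU]
        apply h3.congr
        intro u v h
        rw [cadj_complete hr hc le_rfl]
        exact ⟨h.1, h.2.1⟩
      · rw [hU]; exact h5
      · rw [hU]; exact h6
      · rw [hU]; exact hc
    · -- real deletion
      have hJ : J = ∅ := h8.resolve_right hc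
      subst hJ
      rw [Finset.union_empty] at h3 h5 h6 hc
      have hN2 : 2 * M + 1 < N' := by
        rcases Nat.lt_or_eq_of_le hN' with h | h
        · exact h
        · exfalso; apply hc; rw [h5, ← h]
      obtain ⟨y0, hy0, hy0'⟩ := Finset.exists_min_image W f0 hne
      obtain ⟨y1, hy1, hy1'⟩ := Finset.exists_max_image W f0 hne
      have hkey : key f0 H ∅ = f0 := by
        funext v
        exact key_of (by simp)
      have hcs := Finset.card_sdiff_add_card_eq_card hWR
      have hN3 : N' * r = (N' - 1) * r + r := by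
        have : N' = (N' - 1) + 1 := by omega
        conv_lhs => rw [this]
        ring
      have hcR : (R \ W).card = (N' - 1) * r := by
        rw [h5, hW, hN3] at hcs
        omega
      have hI : Ins f0 (R \ W) W r M (N' - 1) z y0 y1 :=
        ⟨hf, hr, hM, by omega, hcR, hW, Finset.disjoint_sdiff, hy0, hy1, hy0', hy1',
          hz y0 hy0 y1 hy1⟩
      have hS' : Sys r M z U0 (cadj f0 r M ((R \ W) ∪ W)) L N
          ((2 * M + 1) * r * ((2 * M + 1) * r)) I D := by
        rw [Finset.sdiff_union_of_subset hWR]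
        rw [hkey] at h3
        exact h3
      obtain ⟨L2, N2, hS2, hNN2⟩ := hS'.step_del hI
      refine ⟨∅, Finset.empty_subset _, Finset.disjoint_empty_right _, ⟨0, by simp⟩,
        Or.inr ⟨U0, L2, N2, I, D + 1, ?_, h4, ⟨N' - 1, by omega, ?_⟩, ?_, h7, Or.inl rfl, ?_⟩⟩
      · rw [Finset.union_empty, hkey]; exact hS2
      · rw [Finset.union_empty]; exact hcR
      · rw [Finset.union_empty, hcR]
        have e1 : (D + 1) * r = D * r + r := by ring
        omega
      · intro u v huv
        exact (h9 u v huv).trans (hNN2 u v)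

end

end Run7.h68.K
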