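import Pool.Agent.Run7.h68.Group

/-!
# The sweep over time
-/

set_option autoImplicit false

open Finset

namespace Run7.h68

theorem exists_backward {α : Type*} (F : ℕ → α → α) (T : ℕ) (a : α) :
    ∃ P : ℕ → α, P T = a ∧ ∀ t < T, P t = F t (P (t + 1)) := by
  refine ⟨fun t => Nat.rec a (fun i x => F (T - (i + 1)) x) (T - t), by simp, ?_⟩
  intro t ht
  have h1 : T - t = (T - (t + 1)) + 1 := by omega
  have h2 : T - ((T - (t + 1)) + 1) = t := by omega
  simp only
  rw [h1]
  simp only
  rw [h2]

section

variable {V : Type} [LinearOrder V]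

/-- elements alive before and at time `t` -/
def Cset (Rl : Finset V) (s e : V → ℕ) (t : ℕ) : Finset V :=
  Rl.filter (fun w => s w < t ∧ t ≤ e w)

/-- elements alive at time `t` -/
def Kset (Rl : Finset V) (s e : V → ℕ) (t : ℕ) : Finset V :=
  Rl.filter (fun w => s w ≤ t ∧ t ≤ e w)

/-- elements with value `t` -/
def Eset (Rl : Finset V) (e : V → ℕ) (t : ℕ) : Finset V := Rl.filter (fun w => e w = t)

/-- elements with value below `t` -/
def Fset (Rl : Finset V) (e : V → ℕ) (t : ℕ) : Finset V := Rl.filter (fun w => e w < t)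

theorem Fset_succ (Rl : Finset V) (e : V → ℕ) (t : ℕ) :
    (Fset Rl e (t + 1)).card = (Fset Rl e t).card + (Eset Rl e t).card := by
  rw [← Finset.card_union_of_disjoint]
  · congr 1
    ext w
    simp only [Fset, Eset, mem_filter, mem_union]
    constructor
    · rintro ⟨h1, h2⟩
      rcases Nat.lt_succ_iff_lt_or_eq.1 h2 with h | h
      · exact Or.inl ⟨h1, h⟩
      · exact Or.inr ⟨h1, h⟩
    · rintro (⟨h1, h2⟩ | ⟨h1, h2⟩)
      · exact ⟨h1, by omega⟩
      · exact ⟨h1, by omega⟩
  · rw [Finset.disjoint_left]
    intro w h1 h2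
    have h3 := (mem_filter.1 h1).2
    have h4 := (mem_filter.1 h2).2
    omega

theorem NoClose.empty {r : ℕ} (hr : 0 < r) (g : ℕ) (C : Finset V) : NoClose r g C ∅ := by
  intro x y _
  simpa using hr

theorem NoClose.card_lt {r : ℕ} (hr : 0 < r) {g : ℕ} {Z : Finset V} (h : NoClose r g ∅ Z) :
    Z.card < r := by
  rcases Finset.eq_empty_or_nonempty Z with h0 | h0
  · rw [h0]; simpa using hr
  · have h1 := h (Z.min' h0) (Z.max' h0) (by simp)
    rw [Finset.filter_true_of_mem] at h1
    · exact h1
    · intro w hw
      exact ⟨Finset.min'_le Z w hw, Finset.le_max' Z w hw⟩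

theorem exists_Z {r : ℕ} (hr : 0 < r) (g : ℕ) (Rl : Finset V) (s e : V → ℕ) :
    ∃ (Z : ℕ → Finset V) (j : ℕ → ℕ), Z 0 = ∅ ∧ (∀ t, Cl r g (Cset Rl s e (t + 1))
      (Z t ∪ Eset Rl e t) (Z (t + 1)) (j t)) ∧ (∀ t, NoClose r g (Cset Rl s e t) (Z t)) ∧
      ∀ t, Z t ⊆ Fset Rl e t := by
  choose cl jj h1 h2 using fun (C Z : Finset V) => exists_clean hr g C Z.card Z rfl
  let Z : ℕ → Finset V := fun t => Nat.rec ∅ (fun t Zt => cl (Cset Rl s e (t + 1))
    (Zt ∪ Eset Rl e t)) t
  have hcl : ∀ t, Cl r g (Cset Rl s e (t + 1)) (Z t ∪ Eset Rl e t) (Z (t + 1))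
      (jj (Cset Rl s e (t + 1)) (Z t ∪ Eset Rl e t)) := fun t => h1 _ _
  refine ⟨Z, _, rfl, hcl, ?_, ?_⟩
  · intro t
    cases t with
    | zero => exact NoClose.empty hr g _
    | succ t => exact h2 _ _
  · intro t
    induction t with
    | zero => exact Finset.empty_subset _
    | succ t ih =>
      refine (hcl t).subset.trans ?_
      intro w hw
      rcases mem_union.1 hw with h | h
      · have := mem_filter.1 (ih h)
        exact mem_filter.2 ⟨this.1, by omega⟩
      · have := mem_filter.1 h
        exact mem_filter.2 ⟨this.1, by omega⟩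

theorem exists_P {r : ℕ} (hr : 0 < r) (g T : ℕ) (Rl : Finset V) (s e : V → ℕ) :
    ∃ (P : ℕ → Finset V) (j : ℕ → ℕ), P T = ∅ ∧ (∀ t < T, Cl r g (Cset Rl s e t)
      (P (t + 1) ∪ Eset Rl s t) (P t) (j t)) ∧ (∀ t ≤ T, NoClose r g (Cset Rl s e t) (P t)) ∧
      ∀ t ≤ T, ∀ w ∈ P t, w ∈ Rl ∧ t ≤ s w := by
  choose cl jj h1 h2 using fun (C Z : Finset V) => exists_clean hr g C Z.card Z rfl
  obtain ⟨P, hP1, hP2⟩ := exists_backward
    (fun t X => cl (Cset Rl s e t) (X ∪ Eset Rl s t)) T ∅
  have hcl : ∀ t < T, Cl r g (Cset Rl s e t) (P (t + 1) ∪ Eset Rl s t) (P t)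
      (jj (Cset Rl s e t) (P (t + 1) ∪ Eset Rl s t)) := by
    intro t ht
    rw [hP2 t ht]
    exact h1 _ _
  refine ⟨P, _, hP1, hcl, ?_, ?_⟩
  · intro t ht
    rcases Nat.lt_or_eq_of_le ht with h | h
    · rw [hP2 t h]; exact h2 _ _
    · rw [h, hP1]; exact NoClose.empty hr g _
  · have key : ∀ i t, t + i = T → ∀ w ∈ P t, w ∈ Rl ∧ t ≤ s w := by
      intro i
      induction i with
      | zero =>
        intro t ht w hw
        rw [show t = T by omega, hP1] at hw
        simp at hw
      | succ i ih =>
        intro t ht w hw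
        have h3 := (hcl t (by omega)).subset hw
        rcases mem_union.1 h3 with h | h
        · have h4 := ih (t + 1) (by omega) w h
          exact ⟨h4.1, by omega⟩
        · have h4 := mem_filter.1 h
          exact ⟨h4.1, by omega⟩
    intro t ht
    exact key (T - t) t (by omega)

/-- elements alive at a common time and close to each other at that time -/
def SeesT (Rl : Finset V) (s e : V → ℕ) (k t : ℕ) (u v : V) : Prop :=
  u ∈ Kset Rl s e t ∧ v ∈ Kset Rl s e t ∧ u < v ∧
    ((Kset Rl s e t).filter (fun w => u < w ∧ w < v)).card ≤ k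

end

section

variable {V R : Type} [LinearOrder V] [Fintype V] [AddCommGroup R] [Fintype R] [DecidableEq R]

theorem main_sys {Rl Dm : Finset V} {M r m g z k T : ℕ} (E : Env Rl Dm M) (hr : 0 < r)
    (hm : 0 < m) (hM : m * r ≤ M) (hz : g + r ≤ z) (hR : Fintype.card R = r)
    (hk : 1 + k + 2 * (r * (k / (g + 1) + 1)) ≤ m * r) (s e : V → ℕ)
    (hse : ∀ v ∈ Rl, s v ≤ e v) (heT : ∀ v ∈ Rl, e v < T) :
    ∃ (α : ℕ) (B : Finset V) (L : List (Fin 3 × R → V)) (N : V → V → ℕ) (I D : ℕ),
      Sys r m z B L N (α * α) I D ∧ α ≤ Dm.card + r ∧ r * I ≤ Rl.card ∧ r * D ≤ Rl.card ∧ I ≤ D ∧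
      ∀ t u v, SeesT Rl s e k t u v → 1 ≤ N u v := by
  obtain ⟨Z, jZ, hZ0, hZc, hZn, hZs⟩ := exists_Z hr g Rl s e
  obtain ⟨P, jP, hPT, hPc, hPn, hPs⟩ := exists_P hr g T Rl s e
  have hCK : ∀ t, Cset Rl s e t ⊆ Kset Rl s e t := by
    intro t w hw
    have h1 := mem_filter.1 hw
    exact mem_filter.2 ⟨h1.1, by omega, h1.2.2⟩
  have hCK' : ∀ t, Cset Rl s e (t + 1) ⊆ Kset Rl s e t := by
    intro t w hw
    have h1 := mem_filter.1 hw
    exact mem_filter.2 ⟨h1.1, by omega, by omega⟩
  have hK1 : ∀ t w, w ∈ Cset Rl s e t ∨ w ∈ Eset Rl s t ↔ w ∈ Kset Rl s e t := by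
    intro t w
    simp only [Cset, Eset, Kset, mem_filter]
    constructor
    · rintro (⟨h1, h2, h3⟩ | ⟨h1, h2⟩)
      · exact ⟨h1, by omega, h3⟩
      · exact ⟨h1, by omega, by have := hse w h1; omega⟩
    · rintro ⟨h1, h2, h3⟩
      rcases Nat.lt_or_eq_of_le h2 with h | h
      · exact Or.inl ⟨h1, h, h3⟩
      · exact Or.inr ⟨h1, h⟩
  have hK2 : ∀ t w, w ∈ Cset Rl s e (t + 1) ∨ w ∈ Eset Rl e t ↔ w ∈ Kset Rl s e t := by
    intro t w
    simp only [Cset, Eset, Kset, mem_filter]
    constructor
    · rintro (⟨h1, h2, h3⟩ | ⟨h1, h2⟩)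
      · exact ⟨h1, by omega, by omega⟩
      · exact ⟨h1, by have := hse w h1; omega, by omega⟩
    · rintro ⟨h1, h2, h3⟩
      rcases Nat.lt_or_eq_of_le h3 with h | h
      · exact Or.inl ⟨h1, by omega, by omega⟩
      · exact Or.inr ⟨h1, h.symm⟩
  have hmain : ∀ t, t ≤ T → ∃ (L : List (Fin 3 × R → V)) (N : V → V → ℕ) (I D : ℕ),
      Sys r m z (Dm ∪ Cset Rl s e t ∪ P t ∪ Z t) L N
        ((Dm ∪ P 0).card * (Dm ∪ P 0).card) I D ∧
      (P 0).card + r * I = (P t).card + (Fset Rl s t).card ∧
      (Z t).card + r * D = (Fset Rl e t).card ∧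
      ∀ t' u v, t' < t → SeesT Rl s e k t' u v → 1 ≤ N u v := by
    intro t
    induction t with
    | zero =>
      intro _
      have h1 : Cset Rl s e 0 = ∅ := by
        unfold Cset
        rw [Finset.filter_eq_empty_iff]
        intro w _ h; omega
      have h2 : ∀ f : V → ℕ, Fset Rl f 0 = ∅ := by
        intro f
        unfold Fset
        rw [Finset.filter_eq_empty_iff]
        intro w _ h; omega
      have hinit := Sys.init (R := R) r m z (Dm ∪ P 0)
      refine ⟨[], fun u v => if u ≠ v ∧ u ∈ Dm ∪ P 0 ∧ v ∈ Dm ∪ P 0 then 1 else 0, 0, 0,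
        ?_, ?_, ?_, ?_⟩
      · rw [h1, hZ0, Finset.union_empty, Finset.union_empty]
        exact hinit
      · rw [h2]; simp
      · rw [h2, hZ0]; simp
      · intro t' u v h; omega
    | succ t ih =>
      intro ht
      obtain ⟨L, N, I, D, hS, hI, hD, hN⟩ := ih (by omega)
      -- insertion
      have hS1 : Sys r m z (Dm ∪ Cset Rl s e t ∪ Z t ∪ P t) L N
          ((Dm ∪ P 0).card * (Dm ∪ P 0).card) I D := by
        rw [Finset.union_right_comm]; exact hS
      obtain ⟨L1, N1, hS2, hN1⟩ := sys_ins_cl E hr hm hM hz hR (hZn t) (hPc t (by omega))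
        (by
          intro w hw
          rcases mem_union.1 hw with h | h
          · exact (hPs (t + 1) ht w h).1
          · exact (mem_filter.1 h).1)
        (by
          rw [Finset.disjoint_left]
          intro w hw h2
          have h3 := (mem_filter.1 h2).2
          rcases mem_union.1 hw with h | h
          · have := (hPs (t + 1) ht w h).2; omega
          · have := (mem_filter.1 h).2; omega)
        (by
          rw [Finset.disjoint_left]
          intro w hw h2
          have h3 := mem_filter.1 (hZs t h2)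
          have h4 := hse w h3.1
          have h5 := h3.2
          rcases mem_union.1 hw with h | h
          · have := (hPs (t + 1) ht w h).2; omega
          · have := (mem_filter.1 h).2; omega) hS1
      -- the middle state
      have e1 : Dm ∪ Cset Rl s e t ∪ Z t ∪ (P (t + 1) ∪ Eset Rl s t) =
          Dm ∪ Cset Rl s e (t + 1) ∪ P (t + 1) ∪ (Z t ∪ Eset Rl e t) := by
        ext w
        have h1 := hK1 t w
        have h2 := hK2 t w
        simp only [mem_union]
        tauto
      have e2 : Dm ∪ Cset Rl s e t ∪ Z t ∪ (P (t + 1) ∪ Eset Rl s t) =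
          Dm ∪ Kset Rl s e t ∪ Z t ∪ P (t + 1) := by
        ext w
        have h1 := hK1 t w
        simp only [mem_union]
        tauto
      have hsees : ∀ u v, SeesT Rl s e k t u v → 1 ≤ N1 u v := by
        rintro u v ⟨hu, hv, huv, hc⟩
        rw [e2] at hS2
        have huR := (mem_filter.1 hu).1
        have hvR := (mem_filter.1 hv).1
        set W := Dm ∪ Kset Rl s e t ∪ Z t ∪ P (t + 1) with hW
        have huW : u ∈ W := by simp [hW, hu]
        have hvW : v ∈ W := by simp [hW, hv]
        have hsub : W.filter (fun w => w < v) ⊆ W.filter (fun w => w < u) ∪ {u} ∪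
            ((Kset Rl s e t).filter (fun w => u < w ∧ w < v)) ∪
            ((Z t).filter (fun w => u < w ∧ w < v)) ∪
            ((P (t + 1)).filter (fun w => u < w ∧ w < v)) := by
          intro w hw
          simp only [mem_filter, mem_union, mem_singleton] at hw ⊢
          obtain ⟨hw1, hw2⟩ := hw
          rcases lt_trichotomy w u with h | h | h
          · simp [hw1, h]
          · simp [h]
          · rw [hW] at hw1
            simp only [mem_union] at hw1
            rcases hw1 with ((h1 | h1) | h1) | h1
            · exfalso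
              rcases E.sep w h1 with h2 | h2
              · exact lt_asymm (h2 u huR) h
              · exact lt_asymm (h2 v hvR) hw2
            · simp [h1, h, hw2]
            · simp [h1, h, hw2]
            · simp [h1, h, hw2]
        have hcard := Finset.card_le_card hsub
        have c1 := Finset.card_union_le (W.filter (fun w => w < u) ∪ {u} ∪
            ((Kset Rl s e t).filter (fun w => u < w ∧ w < v)) ∪
            ((Z t).filter (fun w => u < w ∧ w < v)))
            ((P (t + 1)).filter (fun w => u < w ∧ w < v))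
        have c2 := Finset.card_union_le (W.filter (fun w => w < u) ∪ {u} ∪
            ((Kset Rl s e t).filter (fun w => u < w ∧ w < v)))
            ((Z t).filter (fun w => u < w ∧ w < v))
        have c3 := Finset.card_union_le (W.filter (fun w => w < u) ∪ {u})
            ((Kset Rl s e t).filter (fun w => u < w ∧ w < v))
        have c4 := Finset.card_union_le (W.filter (fun w => w < u)) {u}
        rw [Finset.card_singleton] at c4
        have hmono : ∀ C' : Finset V, C' ⊆ Kset Rl s e t →
            r * ((C'.filter (fun w => u < w ∧ w < v)).card / (g + 1) + 1) ≤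
              r * (k / (g + 1) + 1) := by
          intro C' hC'
          apply Nat.mul_le_mul_left
          apply Nat.add_le_add_right
          apply Nat.div_le_div_right
          refine le_trans (Finset.card_le_card ?_) hc
          intro w hw
          rw [mem_filter] at hw ⊢
          exact ⟨hC' hw.1, hw.2⟩
        have c5 := (count_le (hZn t) (by
          rw [Finset.disjoint_left]
          intro w h1 h2
          have h3 := (mem_filter.1 h1).2
          have h4 := (mem_filter.1 (hZs t h2)).2
          omega) _ u v rfl).trans (hmono _ (hCK t))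
        have c6 := (count_le (hPn (t + 1) ht) (by
          rw [Finset.disjoint_left]
          intro w h1 h2
          have h3 := (mem_filter.1 h1).2
          have h4 := (hPs (t + 1) ht w h2).2
          omega) _ u v rfl).trans (hmono _ (hCK' t))
        have hrk : rk W v ≤ rk W u + m * r := by
          unfold rk
          omega
        have hadj : cadj r m W u v := by
          refine cadj_symm ((cadj_iff_of_lt hvW huW huv).2 ?_)
          calc rk W v / r ≤ (rk W u + m * r) / r := Nat.div_le_div_right hrk
            _ = rk W u / r + m := by rw [Nat.add_mul_div_right _ _ hr]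
        have h1 := hS2.up v u huv
        rw [if_pos (cadj_symm hadj)] at h1
        rw [hS2.symm]
        omega
      -- deletion
      rw [e1] at hS2
      obtain ⟨L2, N2, hS3, hN2⟩ := sys_del_cl E hr hm hM hz hR (hPn (t + 1) ht) (hZc t)
        (by
          intro w hw
          rcases mem_union.1 hw with h | h
          · exact (mem_filter.1 (hZs t h)).1
          · exact (mem_filter.1 h).1)
        (by
          rw [Finset.disjoint_left]
          intro w hw h2
          have h3 := (mem_filter.1 h2).2
          rcases mem_union.1 hw with h | h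
          · have := (mem_filter.1 (hZs t h)).2; omega
          · have := (mem_filter.1 h).2; omega)
        (by
          rw [Finset.disjoint_left]
          intro w hw h2
          have h3 := hPs (t + 1) ht w h2
          have h4 := hse w h3.1
          have h5 := h3.2
          rcases mem_union.1 hw with h | h
          · have := (mem_filter.1 (hZs t h)).2; omega
          · have := (mem_filter.1 h).2; omega) hS2
      refine ⟨L2, N2, _, _, hS3, ?_, ?_, ?_⟩
      · have h1 := (hPc t (by omega)).card
        rw [Finset.card_union_of_disjoint] at h1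
        · rw [Fset_succ, Nat.mul_add]
          omega
        · rw [Finset.disjoint_left]
          intro w hw h2
          have h3 := (hPs (t + 1) ht w hw).2
          have h4 := (mem_filter.1 h2).2
          omega
      · have h1 := (hZc t).card
        rw [Finset.card_union_of_disjoint] at h1
        · rw [Fset_succ, Nat.mul_add]
          omega
        · rw [Finset.disjoint_left]
          intro w hw h2
          have h3 := (mem_filter.1 (hZs t hw)).2
          have h4 := (mem_filter.1 h2).2
          omega
      · intro t' u v ht' hs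
        rcases Nat.lt_succ_iff_lt_or_eq.1 ht' with h | h
        · exact (hN t' u v h hs).trans ((hN1 u v).trans (hN2 u v))
        · rw [h] at hs
          exact (hsees u v hs).trans (hN2 u v)
  obtain ⟨L, N, I, D, hS, hI, hD, hN⟩ := hmain T le_rfl
  have hFe : Fset Rl e T = Rl := by
    unfold Fset
    exact Finset.filter_true_of_mem heT
  have hFs : Fset Rl s T = Rl := by
    unfold Fset
    apply Finset.filter_true_of_mem
    intro v hv
    exact lt_of_le_of_lt (hse v hv) (heT v hv)
  have hC0 : Cset Rl s e 0 = ∅ := by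
    unfold Cset
    rw [Finset.filter_eq_empty_iff]
    intro w _ h; omega
  have hCT : Cset Rl s e T = ∅ := by
    unfold Cset
    rw [Finset.filter_eq_empty_iff]
    intro w hw h
    have := heT w hw
    omega
  have hP0 : (P 0).card < r := by
    have h1 := hPn 0 (Nat.zero_le _)
    rw [hC0] at h1
    exact h1.card_lt hr
  have hZT : (Z T).card < r := by
    have h1 := hZn T
    rw [hCT] at h1
    exact h1.card_lt hr
  rw [hFs, hPT, Finset.card_empty, zero_add] at hI
  rw [hFe] at hD
  refine ⟨_, _, L, N, I, D, hS, ?_, by omega, by omega, ?_, ?_⟩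
  · exact (Finset.card_union_le _ _).trans (by omega)
  · by_contra hc
    push Not at hc
    have h1 : r * (D + 1) ≤ r * I := Nat.mul_le_mul_left r hc
    rw [Nat.mul_add, mul_one] at h1
    omega
  · intro t u v hs
    apply hN t u v _ hs
    have h1 := mem_filter.1 hs.1
    have h2 := heT u h1.1
    omega

end

end Run7.h68
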