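import Pool.Agent.Run7.h68.KState
import Pool.Agent.Run7.h68.Time

/-!
# The sweep over time, cyclic version
-/

set_option autoImplicit false

open Finset

namespace Run7.h68.K

section

variable {V : Type} [LinearOrder V] [Fintype V] {f0 : V → ℕ} {H r M z g : ℕ}
  {seen : V → V → Prop} {Rl Dm : Finset V}

omit [Fintype V] in
theorem zone_bound (hf : StrictMono f0) (hz : g + r ≤ z)
    (hsep : ∀ d ∈ Dm, ∀ x ∈ Rl, x < d) {C P Z D : Finset V} (hD : D ⊆ Rl)
    (hg : ∀ a ∈ D, ∀ b ∈ D, (C.filter (fun w => a ≤ w ∧ w ≤ b)).card ≤ g)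
    (hP : NoClose r g C P)
    (hcons : ∀ a ∈ D, ∀ b ∈ D, ∀ z ∈ Z, a ≤ z → z ≤ b → False)
    {a b : V} (ha : a ∈ D) (hb : b ∈ D) :
    ((Dm ∪ C ∪ P ∪ Z).filter (fun w => f0 a < f0 w ∧ f0 w < f0 b)).card ≤ z := by
  have hC1 := hg a ha b hb
  have hP1 := hP a b hC1
  have hsub : (Dm ∪ C ∪ P ∪ Z).filter (fun w => f0 a < f0 w ∧ f0 w < f0 b) ⊆
      C.filter (fun w => a ≤ w ∧ w ≤ b) ∪ P.filter (fun w => a ≤ w ∧ w ≤ b) := by
    intro w hw
    rw [mem_filter, mem_union, mem_union, mem_union] at hw
    rw [mem_union, mem_filter, mem_filter]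
    obtain ⟨hw1, hw2, hw3⟩ := hw
    have hw2' := hf.lt_iff_lt.1 hw2
    have hw3' := hf.lt_iff_lt.1 hw3
    rcases hw1 with ((h | h) | h) | h
    · exact absurd (hsep w h b (hD hb)) (lt_asymm hw3')
    · left; exact ⟨h, hw2'.le, hw3'.le⟩
    · right; exact ⟨h, hw2'.le, hw3'.le⟩
    · exact absurd (hcons a ha b hb w h hw2'.le hw3'.le) id
  have h2 := (Finset.card_le_card hsub).trans (Finset.card_union_le _ _)
  omega

theorem st_del_cl (hf : StrictMono f0) (hr : 0 < r) (hM : 0 < M) (hz : g + r ≤ z)
    (hsep : ∀ d ∈ Dm, ∀ x ∈ Rl, x < d) {C P : Finset V}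
    (hP : NoClose r g C P) {Z Z' : Finset V} {j : ℕ} (hcl : Cl r g C Z Z' j) :
    ∀ {J : Finset V} {c : ℕ}, Z ⊆ Rl → Disjoint Z C →
      Disjoint Z P → St f0 H r M z c seen (Dm ∪ C ∪ P ∪ Z) J →
      ∃ J', J' ⊆ J ∪ Z ∧ St f0 H r M z c seen (Dm ∪ C ∪ P ∪ Z') J' := by
  induction hcl with
  | refl Z =>
    intro J c _ _ _ hS
    exact ⟨J, Finset.subset_union_left, hS⟩
  | @step Z D Z' j hD hc hg hcons h ih =>
    intro J c hZR hZC hZP hS
    have hsd : Z \ D ⊆ Z := Finset.sdiff_subset
    have hset : (Dm ∪ C ∪ P ∪ Z) \ D = Dm ∪ C ∪ P ∪ (Z \ D) := by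
      ext x
      simp only [Finset.mem_sdiff, mem_union]
      constructor
      · tauto
      · rintro (((h | h) | h) | h)
        · exact ⟨by tauto, fun hx => lt_irrefl _ (hsep x h x (hZR (hD hx)))⟩
        · exact ⟨by tauto, fun hx => (Finset.disjoint_left.1 hZC) (hD hx) h⟩
        · exact ⟨by tauto, fun hx => (Finset.disjoint_left.1 hZP) (hD hx) h⟩
        · exact ⟨by tauto, h.2⟩
    obtain ⟨J1, hJ1, hS1⟩ := hS.del (W := D) hf.injective hr hM hc
      (fun x hx => mem_union_right _ (hD hx))
      (by
        intro a ha b hb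
        rw [hset]
        exact zone_bound hf hz hsep (hD.trans hZR) hg hP
          (by
            intro a ha b hb w hw h1 h2
            have h3 := hcons a ha b hb w (hsd hw) h1 h2
            exact (Finset.mem_sdiff.1 hw).2 h3) ha hb)
    rw [hset] at hS1
    obtain ⟨J2, hJ2, hS2⟩ := ih (hsd.trans hZR) (hZC.mono_left hsd) (hZP.mono_left hsd) hS1
    refine ⟨J2, ?_, hS2⟩
    intro x hx
    rcases mem_union.1 (hJ2 hx) with h | h
    · rcases mem_union.1 (hJ1 h) with h' | h'
      · exact mem_union_left _ h'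
      · exact mem_union_right _ (hD h')
    · exact mem_union_right _ (hsd h)

theorem st_ins_cl (hf : StrictMono f0) (hH : ∀ v, f0 v < H) (hr : 0 < r) (hM : 0 < M)
    (hz : g + r ≤ z) (hsep : ∀ d ∈ Dm, ∀ x ∈ Rl, x < d) {C P : Finset V}
    (hP : NoClose r g C P) {Z Z' : Finset V} {j : ℕ} (hcl : Cl r g C Z Z' j) :
    ∀ {J : Finset V} {c : ℕ}, Z ⊆ Rl → Disjoint Z C →
      Disjoint Z P → Disjoint Z J → St f0 H r M z c seen (Dm ∪ C ∪ P ∪ Z') J →
      ∃ J', J' ⊆ J ∧ St f0 H r M z (c + r * j) seen (Dm ∪ C ∪ P ∪ Z) J' := by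
  induction hcl with
  | refl Z =>
    intro J c _ _ _ _ hS
    exact ⟨J, Finset.Subset.refl _, by rw [mul_zero, add_zero]; exact hS⟩
  | @step Z D Z' j hD hc hg hcons h ih =>
    intro J c hZR hZC hZP hZJ hS
    have hsd : Z \ D ⊆ Z := Finset.sdiff_subset
    obtain ⟨J1, hJ1, hS1⟩ := ih (hsd.trans hZR) (hZC.mono_left hsd) (hZP.mono_left hsd)
      (hZJ.mono_left hsd) hS
    obtain ⟨J2, hJ2, hS2⟩ := hS1.ins (Y := D) hf.injective hH hr hM hc
      (by
        rw [Finset.disjoint_union_right, Finset.disjoint_union_right,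
          Finset.disjoint_union_right]
        refine ⟨⟨⟨?_, hZC.mono_left hD⟩, hZP.mono_left hD⟩, Finset.disjoint_sdiff⟩
        rw [Finset.disjoint_left]
        intro x hx hx'
        exact lt_irrefl _ (hsep x hx' x (hZR (hD hx))))
      ((hZJ.mono_left hD).mono_right hJ1)
      (by
        intro a ha b hb
        exact zone_bound hf hz hsep (hD.trans hZR) hg hP
          (by
            intro a ha b hb w hw h1 h2
            have h3 := hcons a ha b hb w (hsd hw) h1 h2
            exact (Finset.mem_sdiff.1 hw).2 h3) ha hb)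
    refine ⟨J2, hJ2.trans hJ1, ?_⟩
    have e1 : Dm ∪ C ∪ P ∪ (Z \ D) ∪ D = Dm ∪ C ∪ P ∪ Z := by
      rw [Finset.union_assoc _ (Z \ D) D, Finset.sdiff_union_of_subset hD]
    rw [e1] at hS2
    have e2 : c + r * (j + 1) = c + r * j + r := by ring
    rw [e2]
    exact hS2

/-- The result of the sweep. -/
theorem main_K {k T : ℕ} (hf : StrictMono f0) (hH : ∀ v, f0 v < H) (hr : 0 < r) (hM : 0 < M)
    (hz : g + r ≤ z) (hsep : ∀ d ∈ Dm, ∀ x ∈ Rl, x < d)
    (hk : 1 + k + 2 * (r * (k / (g + 1) + 1)) ≤ M * r) (s e : V → ℕ)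
    (hse : ∀ v ∈ Rl, s v ≤ e v) (heT : ∀ v ∈ Rl, e v < T) (hDm : Dm.card < r) {Nt : ℕ}
    (hNt : Dm.card + Rl.card = Nt * r) (hNM : 2 * M + 1 ≤ Nt) :
    ∃ (U0 UT : Finset V) (L : List (TP V)) (N : V → V → ℕ),
      Sys r M z U0 (fun u v => u ∈ UT ∧ v ∈ UT) L N ((2 * M + 1) * r * ((2 * M + 1) * r))
        (Nt - (2 * M + 1)) (Nt - (2 * M + 1)) ∧
      U0.card = (2 * M + 1) * r ∧ UT.card = (2 * M + 1) * r ∧
      ∀ t u v, SeesT Rl s e k t u v → 1 ≤ N u v := by
  obtain ⟨Z, jZ, hZ0, hZc, hZn, hZs⟩ := exists_Z hr g Rl s e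
  obtain ⟨P, jP, hPT, hPc, hPn, hPs⟩ := exists_P hr g T Rl s e
  have hCK : ∀ t, Cset Rl s e t ⊆ Kset Rl s e t := by
    intro t w hw
    have h1 := mem_filter.1 hw
    exact mem_filter.2 ⟨h1.1, by omega, h1.2.2⟩
  have hCK' : ∀ t, Cset Rl s e (t + 1) ⊆ Kset Rl s e t := by
    intro t w hw
    have h1 := mem_filter.1 hw
    exact mem_filter.2 ⟨h1.1, by omega, by omega⟩
  have hK1 : ∀ t w, w ∈ Cset Rl s e t ∨ w ∈ Eset Rl s t ↔ w ∈ Kset Rl s e t := by
    intro t w
    simp only [Cset, Eset, Kset, mem_filter]
    constructor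
    · rintro (⟨h1, h2, h3⟩ | ⟨h1, h2⟩)
      · exact ⟨h1, by omega, h3⟩
      · exact ⟨h1, by omega, by have := hse w h1; omega⟩
    · rintro ⟨h1, h2, h3⟩
      rcases Nat.lt_or_eq_of_le h2 with h | h
      · exact Or.inl ⟨h1, h, h3⟩
      · exact Or.inr ⟨h1, h⟩
  have hK2 : ∀ t w, w ∈ Cset Rl s e (t + 1) ∨ w ∈ Eset Rl e t ↔ w ∈ Kset Rl s e t := by
    intro t w
    simp only [Cset, Eset, Kset, mem_filter]
    constructor
    · rintro (⟨h1, h2, h3⟩ | ⟨h1, h2⟩)
      · exact ⟨h1, by omega, by omega⟩
      · exact ⟨h1, by have := hse w h1; omega, by omega⟩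
    · rintro ⟨h1, h2, h3⟩
      rcases Nat.lt_or_eq_of_le h3 with h | h
      · exact Or.inl ⟨h1, by omega, by omega⟩
      · exact Or.inr ⟨h1, h.symm⟩
  have hPstep : ∀ t < T, (P (t + 1)).card + (Eset Rl s t).card = (P t).card + r * jP t := by
    intro t ht
    have h1 := (hPc t ht).card
    rw [Finset.card_union_of_disjoint] at h1
    · exact h1
    · rw [Finset.disjoint_left]
      intro w hw h2
      have h3 := (hPs (t + 1) ht w hw).2
      have h4 := (mem_filter.1 h2).2
      omega
  have hP0n : ∀ t ≤ T, ∃ i, (P 0).card + r * i = (P t).card + (Fset Rl s t).card := by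
    intro t
    induction t with
    | zero =>
      intro _
      refine ⟨0, ?_⟩
      have : Fset Rl s 0 = ∅ := by
        unfold Fset
        rw [Finset.filter_eq_empty_iff]
        intro w _ h; omega
      rw [this]; simp
    | succ t ih =>
      intro ht
      obtain ⟨i, hi⟩ := ih (by omega)
      refine ⟨i + jP t, ?_⟩
      have h1 := hPstep t (by omega)
      rw [Fset_succ, Nat.mul_add]
      omega
  have hFs : Fset Rl s T = Rl := by
    unfold Fset
    apply Finset.filter_true_of_mem
    intro v hv
    exact lt_of_le_of_lt (hse v hv) (heT v hv)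
  have hC0 : Cset Rl s e 0 = ∅ := by
    unfold Cset
    rw [Finset.filter_eq_empty_iff]
    intro w _ h; omega
  have hCT : Cset Rl s e T = ∅ := by
    unfold Cset
    rw [Finset.filter_eq_empty_iff]
    intro w hw h
    have := heT w hw
    omega
  have hP0 : (P 0).card < r := by
    have h1 := hPn 0 (Nat.zero_le _)
    rw [hC0] at h1
    exact h1.card_lt hr
  have hZT : (Z T).card < r := by
    have h1 := hZn T
    rw [hCT] at h1
    exact h1.card_lt hr
  have hDmR : ∀ x ∈ Dm, x ∉ Rl := fun x hx hx' => lt_irrefl _ (hsep x hx x hx')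
  -- the initial number of elements is a multiple of `r`
  obtain ⟨N0, hN0, hN0M⟩ : ∃ N0, (Dm ∪ P 0).card = N0 * r ∧ N0 ≤ 2 * M := by
    obtain ⟨i, hi⟩ := hP0n T le_rfl
    rw [hFs, hPT, Finset.card_empty, zero_add] at hi
    have h1 : (Dm ∪ P 0).card = Dm.card + (P 0).card := by
      apply Finset.card_union_of_disjoint
      rw [Finset.disjoint_left]
      intro w hw h2
      exact hDmR w hw (hPs 0 (Nat.zero_le _) w h2).1
    have h2 : (Dm ∪ P 0).card + r * i = Nt * r := by omega
    have h3 : r ∣ (Dm ∪ P 0).card := by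
      have h4 : r ∣ (Dm ∪ P 0).card + r * i := by rw [h2]; exact Dvd.intro_left Nt rfl
      exact (Nat.dvd_add_iff_left (Dvd.intro i rfl)).2 h4
    obtain ⟨N0, hN0⟩ := h3
    refine ⟨N0, by rw [hN0]; ring, ?_⟩
    have h5 : r * N0 < r * 2 := by omega
    have h6 := Nat.lt_of_mul_lt_mul_left h5
    omega
  have hmain : ∀ t, t ≤ T → ∃ J : Finset V, (∀ w ∈ J, e w < t) ∧
      St f0 H r M z (Dm.card + (P t).card + (Fset Rl s t).card)
        (fun u v => ∃ t' < t, SeesT Rl s e k t' u v) (Dm ∪ Cset Rl s e t ∪ P t ∪ Z t) J := by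
    intro t
    induction t with
    | zero =>
      intro _
      refine ⟨∅, by simp, ?_⟩
      have h2 : Fset Rl s 0 = ∅ := by
        unfold Fset
        rw [Finset.filter_eq_empty_iff]
        intro w _ h; omega
      have h1 : (Dm ∪ P 0).card = Dm.card + (P 0).card := by
        apply Finset.card_union_of_disjoint
        rw [Finset.disjoint_left]
        intro w hw h2
        exact hDmR w hw (hPs 0 (Nat.zero_le _) w h2).1
      have hinit := St.init (f0 := f0) (H := H) (z := z) hr (Dm ∪ P 0) N0 hN0M hN0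
      rw [h1] at hinit
      rw [hC0, hZ0, Finset.union_empty, Finset.union_empty, h2, Finset.card_empty, add_zero]
      refine hinit.see hr ?_
      rintro u v ⟨t', h, -⟩
      omega
    | succ t ih =>
      intro ht
      obtain ⟨J, hJ, hS⟩ := ih (by omega)
      -- insertion
      have hS1 : St f0 H r M z (Dm.card + (P t).card + (Fset Rl s t).card)
          (fun u v => ∃ t' < t, SeesT Rl s e k t' u v) (Dm ∪ Cset Rl s e t ∪ Z t ∪ P t) J := by
        rw [Finset.union_right_comm]; exact hS
      obtain ⟨J1, hJ1, hS2⟩ := st_ins_cl hf hH hr hM hz hsep (hZn t) (hPc t (by omega))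
        (by
          intro w hw
          rcases mem_union.1 hw with h | h
          · exact (hPs (t + 1) ht w h).1
          · exact (mem_filter.1 h).1)
        (by
          rw [Finset.disjoint_left]
          intro w hw h2
          have h3 := (mem_filter.1 h2).2
          rcases mem_union.1 hw with h | h
          · have := (hPs (t + 1) ht w h).2; omega
          · have := (mem_filter.1 h).2; omega)
        (by
          rw [Finset.disjoint_left]
          intro w hw h2
          have h3 := mem_filter.1 (hZs t h2)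
          have h4 := hse w h3.1
          have h5 := h3.2
          rcases mem_union.1 hw with h | h
          · have := (hPs (t + 1) ht w h).2; omega
          · have := (mem_filter.1 h).2; omega)
        (by
          rw [Finset.disjoint_left]
          intro w hw h2
          have h3 := hJ w h2
          rcases mem_union.1 hw with h | h
          · have h4 := hPs (t + 1) ht w h
            have := hse w h4.1; omega
          · have h4 := mem_filter.1 h
            have := hse w h4.1; omega) hS1
      have hc2 : Dm.card + (P t).card + (Fset Rl s t).card + r * jP t =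
          Dm.card + (P (t + 1)).card + (Fset Rl s (t + 1)).card := by
        have h1 := hPstep t (by omega)
        rw [Fset_succ]
        omega
      rw [hc2] at hS2
      -- the middle state
      have e1 : Dm ∪ Cset Rl s e t ∪ Z t ∪ (P (t + 1) ∪ Eset Rl s t) =
          Dm ∪ Cset Rl s e (t + 1) ∪ P (t + 1) ∪ (Z t ∪ Eset Rl e t) := by
        ext w
        have h1 := hK1 t w
        have h2 := hK2 t w
        simp only [mem_union]
        tauto
      have e2 : Dm ∪ Cset Rl s e t ∪ Z t ∪ (P (t + 1) ∪ Eset Rl s t) =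
          Dm ∪ Kset Rl s e t ∪ Z t ∪ P (t + 1) := by
        ext w
        have h1 := hK1 t w
        simp only [mem_union]
        tauto
      have hS3 : St f0 H r M z (Dm.card + (P (t + 1)).card + (Fset Rl s (t + 1)).card)
          (fun u v => ∃ t' < t + 1, SeesT Rl s e k t' u v)
          (Dm ∪ Cset Rl s e t ∪ Z t ∪ (P (t + 1) ∪ Eset Rl s t)) J1 := by
        refine hS2.see hr ?_
        rintro u v ⟨t', ht', hs⟩
        rcases Nat.lt_succ_iff_lt_or_eq.1 ht' with h | h
        · exact Or.inl ⟨t', h, hs⟩
        right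
        rw [h] at hs
        obtain ⟨hu, hv, huv, hc⟩ := hs
        rw [e2]
        have huR := (mem_filter.1 hu).1
        have hvR := (mem_filter.1 hv).1
        set W := Dm ∪ Kset Rl s e t ∪ Z t ∪ P (t + 1) with hW
        have huW : u ∈ W := by simp [hW, hu]
        have hvW : v ∈ W := by simp [hW, hv]
        refine ⟨ne_of_lt huv, huW, hvW, fun _ => ?_⟩
        have hsub : W.filter (fun w => f0 w < f0 v) ⊆ W.filter (fun w => f0 w < f0 u) ∪ {u} ∪
            ((Kset Rl s e t).filter (fun w => u < w ∧ w < v)) ∪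
            ((Z t).filter (fun w => u < w ∧ w < v)) ∪
            ((P (t + 1)).filter (fun w => u < w ∧ w < v)) := by
          intro w hw
          simp only [mem_filter, mem_union, mem_singleton] at hw ⊢
          obtain ⟨hw1, hw2⟩ := hw
          rw [hf.lt_iff_lt] at hw2
          rw [hf.lt_iff_lt]
          rcases lt_trichotomy w u with h | h | h
          · simp [hw1, h]
          · simp [h]
          · rw [hW] at hw1
            simp only [mem_union] at hw1
            rcases hw1 with ((h1 | h1) | h1) | h1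
            · exact absurd (hsep w h1 v hvR) (lt_asymm hw2)
            · simp [h1, h, hw2]
            · simp [h1, h, hw2]
            · simp [h1, h, hw2]
        have hcard := Finset.card_le_card hsub
        have c1 := Finset.card_union_le (W.filter (fun w => f0 w < f0 u) ∪ {u} ∪
            ((Kset Rl s e t).filter (fun w => u < w ∧ w < v)) ∪
            ((Z t).filter (fun w => u < w ∧ w < v)))
            ((P (t + 1)).filter (fun w => u < w ∧ w < v))
        have c2 := Finset.card_union_le (W.filter (fun w => f0 w < f0 u) ∪ {u} ∪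
            ((Kset Rl s e t).filter (fun w => u < w ∧ w < v)))
            ((Z t).filter (fun w => u < w ∧ w < v))
        have c3 := Finset.card_union_le (W.filter (fun w => f0 w < f0 u) ∪ {u})
            ((Kset Rl s e t).filter (fun w => u < w ∧ w < v))
        have c4 := Finset.card_union_le (W.filter (fun w => f0 w < f0 u)) {u}
        rw [Finset.card_singleton] at c4
        have hmono : ∀ C' : Finset V, C' ⊆ Kset Rl s e t →
            r * ((C'.filter (fun w => u < w ∧ w < v)).card / (g + 1) + 1) ≤
              r * (k / (g + 1) + 1) := by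
          intro C' hC'
          apply Nat.mul_le_mul_left
          apply Nat.add_le_add_right
          apply Nat.div_le_div_right
          refine le_trans (Finset.card_le_card ?_) hc
          intro w hw
          rw [mem_filter] at hw ⊢
          exact ⟨hC' hw.1, hw.2⟩
        have c5 := (count_le (hZn t) (by
          rw [Finset.disjoint_left]
          intro w h1 h2
          have h3 := (mem_filter.1 h1).2
          have h4 := (mem_filter.1 (hZs t h2)).2
          omega) _ u v rfl).trans (hmono _ (hCK t))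
        have c6 := (count_le (hPn (t + 1) ht) (by
          rw [Finset.disjoint_left]
          intro w h1 h2
          have h3 := (mem_filter.1 h1).2
          have h4 := (hPs (t + 1) ht w h2).2
          omega) _ u v rfl).trans (hmono _ (hCK' t))
        have hrk : rk f0 W v ≤ rk f0 W u + M * r := by
          unfold rk
          omega
        refine ⟨huW, hvW, Or.inl ⟨?_, ?_⟩⟩
        · have h1 : ix f0 r W u ≤ ix f0 r W v :=
            Nat.div_le_div_right (rk_mono f0 W (hf huv).le)
          omega
        · unfold ix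
          calc rk f0 W v / r ≤ (rk f0 W u + M * r) / r := Nat.div_le_div_right hrk
            _ = rk f0 W u / r + M := by rw [Nat.add_mul_div_right _ _ hr]
      -- deletion
      rw [e1] at hS3
      obtain ⟨J2, hJ2, hS4⟩ := st_del_cl hf hr hM hz hsep (hPn (t + 1) ht) (hZc t)
        (by
          intro w hw
          rcases mem_union.1 hw with h | h
          · exact (mem_filter.1 (hZs t h)).1
          · exact (mem_filter.1 h).1)
        (by
          rw [Finset.disjoint_left]
          intro w hw h2
          have h3 := (mem_filter.1 h2).2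
          rcases mem_union.1 hw with h | h
          · have := (mem_filter.1 (hZs t h)).2; omega
          · have := (mem_filter.1 h).2; omega)
        (by
          rw [Finset.disjoint_left]
          intro w hw h2
          have h3 := hPs (t + 1) ht w h2
          have h4 := hse w h3.1
          have h5 := h3.2
          rcases mem_union.1 hw with h | h
          · have := (mem_filter.1 (hZs t h)).2; omega
          · have := (mem_filter.1 h).2; omega) hS3
      refine ⟨J2, ?_, hS4⟩
      intro w hw
      rcases mem_union.1 (hJ2 hw) with h | h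
      · have := hJ w (hJ1 h); omega
      · rcases mem_union.1 h with h' | h'
        · have := (mem_filter.1 (hZs t h')).2; omega
        · have := (mem_filter.1 h').2; omega
  obtain ⟨J, -, hS⟩ := hmain T le_rfl
  rw [hCT, hPT, hFs, Finset.union_empty, Finset.union_empty, Finset.card_empty, add_zero,
    hNt] at hS
  obtain ⟨h1, -, h3⟩ := hS
  have hMr : (2 * M + 1) * r ≤ Nt * r := Nat.mul_le_mul_right r hNM
  rcases h3 with ⟨⟨N, hN, h3⟩, h4, -⟩ | ⟨U0, L, N, I, D, h3, h4, ⟨N', hN', h5⟩, h6, h7, h8, h9⟩
  · exfalso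
    rw [h3] at h4
    have h5 : N = Nt := Nat.eq_of_mul_eq_mul_right hr h4
    omega
  · have hUc : (Dm ∪ Z T ∪ J).card = (2 * M + 1) * r := by
      rcases h8 with h8 | h8
      · exfalso
        rw [h8, Finset.union_empty] at h5
        have h10 := Finset.card_union_le Dm (Z T)
        have h11 : N' * r < 2 * r := by omega
        have h12 := Nat.lt_of_mul_lt_mul_right h11
        omega
      · exact h8
    rw [hUc] at h6
    have hID : D = I := by
      have : D * r = I * r := by omega
      exact Nat.eq_of_mul_eq_mul_right hr this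
    have hI : I = Nt - (2 * M + 1) := by
      have : (2 * M + 1 + I) * r = Nt * r := by rw [← h7]; ring
      have := Nat.eq_of_mul_eq_mul_right hr this
      omega
    rw [hID, hI] at h3
    refine ⟨U0, Dm ∪ Z T ∪ J, L, N, h3.congr ?_, h4, hUc, ?_⟩
    · intro u v huv
      rw [cadj_complete hr hUc le_rfl]
      exact huv
    · intro t u v hs
      apply h9
      refine ⟨t, ?_, hs⟩
      have h1 := mem_filter.1 hs.1
      have h2 := heT u h1.1
      omega

end

end Run7.h68.K
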