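import Pool.Agent.Run7.h68.Rot

/-!
# A graph all of whose embeddings have many non-triangular faces
-/

set_option autoImplicit false

open Finset Equiv

namespace Run7.h68

/-- cycles of length three carry weight at least `32`, longer ones contain four elements of weight
at least `8` -/
theorem numCyc_le_of_weights {A : Type*} [Fintype A] [DecidableEq A] (φ : Perm A) (ω : A → ℤ)
    (h1 : ∀ d, φ d ≠ d) (h2 : ∀ d, φ (φ d) ≠ d) (h8 : ∀ d, 8 ≤ ω d)
    (h3 : ∀ d, φ (φ (φ d)) = d → 32 ≤ ω d + ω (φ d) + ω (φ (φ d))) :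
    32 * (numCyc φ : ℤ) ≤ ∑ d, ω d := by
  classical
  rw [← cycOn_univ]
  unfold cycOn
  rw [← Finset.sum_fiberwise_of_maps_to (t := univ.image (cyc φ)) (g := cyc φ)
    (fun x _ => Finset.mem_image_of_mem _ (Finset.mem_univ _))]
  rw [mul_comm, ← nsmul_eq_mul]
  apply Finset.card_nsmul_le_sum
  intro q hq
  obtain ⟨d, -, rfl⟩ := Finset.mem_image.1 hq
  have hc : ∀ e, cyc φ (φ e) = cyc φ e := fun e => cyc_apply φ e
  have hi := φ.injective
  have h0 : ∀ e, 0 ≤ ω e := fun e => le_trans (by norm_num) (h8 e)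
  by_cases h : φ (φ (φ d)) = d
  · have hsub : ({d, φ d, φ (φ d)} : Finset A) ⊆ univ.filter (fun e => cyc φ e = cyc φ d) := by
      intro e he
      simp only [Finset.mem_insert, Finset.mem_singleton] at he
      rw [mem_filter]
      rcases he with rfl | rfl | rfl
      · exact ⟨Finset.mem_univ _, rfl⟩
      · exact ⟨Finset.mem_univ _, by rw [hc]⟩
      · exact ⟨Finset.mem_univ _, by rw [hc, hc]⟩
    refine le_trans ?_ (Finset.sum_le_sum_of_subset_of_nonneg hsub (fun e _ _ => h0 e))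
    have e1 : d ∉ ({φ d, φ (φ d)} : Finset A) := by
      simp only [Finset.mem_insert, Finset.mem_singleton, not_or]
      exact ⟨(h1 d).symm, (h2 d).symm⟩
    have e2 : φ d ∉ ({φ (φ d)} : Finset A) := by
      rw [Finset.mem_singleton]
      exact fun h => h1 d (hi h).symm
    rw [Finset.sum_insert e1, Finset.sum_insert e2, Finset.sum_singleton]
    have := h3 d h
    linarith
  · have hsub : ({d, φ d, φ (φ d), φ (φ (φ d))} : Finset A) ⊆
        univ.filter (fun e => cyc φ e = cyc φ d) := by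
      intro e he
      simp only [Finset.mem_insert, Finset.mem_singleton] at he
      rw [mem_filter]
      rcases he with rfl | rfl | rfl | rfl
      · exact ⟨Finset.mem_univ _, rfl⟩
      · exact ⟨Finset.mem_univ _, by rw [hc]⟩
      · exact ⟨Finset.mem_univ _, by rw [hc, hc]⟩
      · exact ⟨Finset.mem_univ _, by rw [hc, hc, hc]⟩
    refine le_trans ?_ (Finset.sum_le_sum_of_subset_of_nonneg hsub (fun e _ _ => h0 e))
    have e1 : d ∉ ({φ d, φ (φ d), φ (φ (φ d))} : Finset A) := by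
      simp only [Finset.mem_insert, Finset.mem_singleton, not_or]
      exact ⟨(h1 d).symm, (h2 d).symm, fun h' => h h'.symm⟩
    have e2 : φ d ∉ ({φ (φ d), φ (φ (φ d))} : Finset A) := by
      simp only [Finset.mem_insert, Finset.mem_singleton, not_or]
      exact ⟨fun h => h1 d (hi h).symm, fun h => h2 d (hi h).symm⟩
    have e3 : φ (φ d) ∉ ({φ (φ (φ d))} : Finset A) := by
      rw [Finset.mem_singleton]
      exact fun h => h1 d (hi (hi h)).symm
    rw [Finset.sum_insert e1, Finset.sum_insert e2, Finset.sum_insert e3, Finset.sum_singleton]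
    have a0 := h8 d
    have a1 := h8 (φ d)
    have a2 := h8 (φ (φ d))
    have a3 := h8 (φ (φ (φ d)))
    have : ((32 : ℕ) • (1 : ℤ)) = 32 := by norm_num
    linarith

/-- vertices: `(j, t)` is the `t`-th bar in column `j`; then `J + 3` long bars -/
abbrev LW (J T : ℕ) : Type := (Fin J × Fin T) ⊕ Fin (J + 3)

variable {J T : ℕ}

/-- adjacency -/
def ladj : LW J T → LW J T → Prop
  | Sum.inl a, Sum.inl b =>
      ((b.1 : ℕ) = a.1 + 1 ∧ ((a.2 : ℕ) = b.2 ∨ (a.2 : ℕ) = b.2 + 1)) ∨
      ((a.1 : ℕ) = b.1 + 1 ∧ ((b.2 : ℕ) = a.2 ∨ (b.2 : ℕ) = a.2 + 1))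
  | Sum.inl a, Sum.inr i => (a.1 : ℕ) ≤ i ∧ (i : ℕ) ≤ a.1 + 3
  | Sum.inr i, Sum.inl a => (a.1 : ℕ) ≤ i ∧ (i : ℕ) ≤ a.1 + 3
  | Sum.inr _, Sum.inr _ => False

theorem ladj_symm : ∀ u v : LW J T, ladj u v → ladj v u
  | Sum.inl _, Sum.inl _, h => Or.symm h
  | Sum.inl _, Sum.inr _, h => h
  | Sum.inr _, Sum.inl _, h => h
  | Sum.inr _, Sum.inr _, h => h

theorem ladj_irrefl : ∀ u : LW J T, ¬ ladj u u
  | Sum.inl a => by
      unfold ladj
      omega
  | Sum.inr _ => fun h => h

/-- the graph -/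
def lgraph (J T : ℕ) : SimpleGraph (LW J T) where
  Adj := ladj
  symm := ⟨fun u v h => ladj_symm u v h⟩
  loopless := ⟨fun u h => ladj_irrefl u h⟩

/-- weights of the darts (in units of `1/32`) -/
def yw : LW J T → LW J T → ℤ
  | Sum.inl _, Sum.inl _ => 10
  | Sum.inl a, Sum.inr i => if (i : ℕ) = a.1 + 1 ∨ (i : ℕ) = a.1 + 2 then 13 else 9
  | Sum.inr i, Sum.inl a => if (i : ℕ) = a.1 + 1 ∨ (i : ℕ) = a.1 + 2 then 13 else 9
  | Sum.inr _, Sum.inr _ => 10

/-- the two classes of neighbours of `a` -/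
def clsP (a : Fin J × Fin T) : LW J T → Prop
  | Sum.inl b => (b.1 : ℕ) = a.1 + 1
  | Sum.inr i => (i : ℕ) = a.1 + 1 ∨ (i : ℕ) = a.1 + 3

open Classical in
/-- the corner at the middle vertex switches class -/
noncomputable def bad : LW J T → LW J T → LW J T → ℤ
  | u, Sum.inl a, w => if (clsP a u ∧ ¬ clsP a w) ∨ (¬ clsP a u ∧ clsP a w) then 1 else 0
  | _, Sum.inr _, _ => 0

theorem bad_nonneg : ∀ u v w : LW J T, 0 ≤ bad u v w
  | u, Sum.inl a, w => by
      simp only [bad]
      split_ifs <;> norm_num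
  | _, Sum.inr _, _ => le_refl _

theorem bad_le : ∀ u v w : LW J T, bad u v w ≤ 1
  | u, Sum.inl a, w => by
      simp only [bad]
      split_ifs <;> norm_num
  | _, Sum.inr _, _ => zero_le_one

theorem triangle_weight : ∀ u v w : LW J T, ladj u v → ladj v w → ladj w u →
    32 ≤ yw u v + yw v w + yw w u - 2 * (bad u v w + bad v w u + bad w u v)
  | Sum.inl a, Sum.inl b, Sum.inl c, h1, h2, h3 => by
      unfold ladj at h1 h2 h3
      omega
  | Sum.inl a, Sum.inl b, Sum.inr i, h1, h2, h3 => by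
      unfold ladj at h1 h2 h3
      simp only [yw, bad, clsP]
      split_ifs <;> omega
  | Sum.inl a, Sum.inr i, Sum.inl b, h1, h2, h3 => by
      unfold ladj at h1 h2 h3
      simp only [yw, bad, clsP]
      split_ifs <;> omega
  | Sum.inr i, Sum.inl a, Sum.inl b, h1, h2, h3 => by
      unfold ladj at h1 h2 h3
      simp only [yw, bad, clsP]
      split_ifs <;> omega
  | Sum.inl a, Sum.inr i, Sum.inr j, h1, h2, h3 => False.elim h2
  | Sum.inr i, Sum.inl a, Sum.inr j, h1, h2, h3 => False.elim h3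
  | Sum.inr i, Sum.inr j, Sum.inl a, h1, h2, h3 => False.elim h1
  | Sum.inr i, Sum.inr j, Sum.inr l, h1, h2, h3 => False.elim h1

/-- pointwise bound on the weights -/
theorem weight_ge : ∀ (x u v z : LW J T), ladj u v →
    8 ≤ yw u v - bad u v z - bad x u v
  | x, Sum.inl a, Sum.inl b, z, _ => by
      have h1 := bad_le (Sum.inl a : LW J T) (Sum.inl b) z
      have h2 := bad_le x (Sum.inl a : LW J T) (Sum.inl b)
      have h3 : yw (Sum.inl a : LW J T) (Sum.inl b) = 10 := rfl
      omega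
  | x, Sum.inl a, Sum.inr i, z, _ => by
      have h1 : bad (Sum.inl a : LW J T) (Sum.inr i) z = 0 := rfl
      have h2 := bad_le x (Sum.inl a : LW J T) (Sum.inr i)
      have h3 : 9 ≤ yw (Sum.inl a : LW J T) (Sum.inr i) := by
        simp only [yw]; split_ifs <;> norm_num
      omega
  | x, Sum.inr i, Sum.inl b, z, _ => by
      have h1 := bad_le (Sum.inr i : LW J T) (Sum.inl b) z
      have h2 : bad x (Sum.inr i : LW J T) (Sum.inl b) = 0 := rfl
      have h3 : 9 ≤ yw (Sum.inr i : LW J T) (Sum.inl b) := by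
        simp only [yw]; split_ifs <;> norm_num
      omega
  | _, Sum.inr _, Sum.inr _, _, h => False.elim h

end Run7.h68
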