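import Pool.Agent.Run7.h68.Defs

/-!
# Bars whose `k`-visibility graph contains a large complete bipartite graph
-/

set_option autoImplicit false

open Finset

namespace Run7.h68

theorem Bars.sees_comm {n : ℕ} (S : Bars n) (k : ℕ) {i j : Fin n} (h : S.Sees k i j) :
    S.Sees k j i := by
  obtain ⟨x, h1, h2, h3⟩ := h
  refine ⟨x, h2, h1, ?_⟩
  rw [Set.uIcc_comm]
  refine le_trans (Set.ncard_le_ncard ?_ (Set.toFinite _)) h3
  rintro m ⟨h4, h5, h6, h7⟩
  exact ⟨h5, h4, h6, h7⟩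

/-- the visibility graph of a family of bars -/
def Bars.graph {n : ℕ} (S : Bars n) (k : ℕ) : SimpleGraph (Fin n) where
  Adj i j := i ≠ j ∧ S.Sees k i j
  symm := ⟨fun _ _ h => ⟨h.1.symm, S.sees_comm k h.2⟩⟩
  loopless := ⟨fun _ h => h.1 rfl⟩

theorem Bars.graph_isBar {n : ℕ} (S : Bars n) (k : ℕ) : IsBarVisibility k (S.graph k) :=
  ⟨S, fun _ _ => Iff.rfl⟩

/-- heights -/
noncomputable def hgt (k i : ℕ) : ℝ :=
  if i < k + 1 then i else if i < 2 * k + 2 then i + 1 else k + 1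

theorem exists_bars (k n : ℕ) : ∃ S : Bars n,
    (∀ i, S.height i = hgt k i) ∧
    (∀ i : Fin n, (i : ℕ) < 2 * k + 2 → S.left i = 0 ∧ S.right i = n + 1) ∧
    (∀ i : Fin n, 2 * k + 2 ≤ (i : ℕ) → S.left i = (i : ℕ) ∧ S.right i = (i : ℕ) + 1 / 2) := by
  refine ⟨{ left := fun i => if (i : ℕ) < 2 * k + 2 then 0 else (i : ℕ)
            right := fun i => if (i : ℕ) < 2 * k + 2 then n + 1 else (i : ℕ) + 1 / 2
            height := fun i => hgt k i
            left_lt_right := ?_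
            disjoint := ?_ }, fun _ => rfl, ?_, ?_⟩
  · intro i
    by_cases h : (i : ℕ) < 2 * k + 2
    · rw [if_pos h, if_pos h]; positivity
    · rw [if_neg h, if_neg h]; linarith
  · intro i j hij hh
    have hval : (i : ℕ) ≠ (j : ℕ) := fun h => hij (Fin.ext h)
    have key : 2 * k + 2 ≤ (i : ℕ) ∧ 2 * k + 2 ≤ (j : ℕ) := by
      unfold hgt at hh
      by_contra hc
      split_ifs at hh with h1 h2 h3 h4 h5 h6 h7 h8
      · exact hval (by exact_mod_cast hh)
      · have : (i : ℕ) = (j : ℕ) + 1 := by exact_mod_cast hh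
        omega
      · have : (i : ℕ) = k + 1 := by exact_mod_cast hh
        omega
      · have : (i : ℕ) + 1 = (j : ℕ) := by exact_mod_cast hh
        omega
      · have : (i : ℕ) + 1 = (j : ℕ) + 1 := by exact_mod_cast hh
        omega
      · have : (i : ℕ) + 1 = k + 1 := by exact_mod_cast hh
        omega
      · have : k + 1 = (j : ℕ) := by exact_mod_cast hh
        omega
      · have : k + 1 = (j : ℕ) + 1 := by exact_mod_cast hh
        omega
      · omega
    obtain ⟨hi, hj⟩ := key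
    rw [if_neg (by omega), if_neg (by omega), if_neg (by omega), if_neg (by omega)]
    rcases lt_or_gt_of_ne hval with h | h
    · left
      have : ((i : ℕ) : ℝ) + 1 ≤ (j : ℕ) := by exact_mod_cast h
      linarith
    · right
      have : ((j : ℕ) : ℝ) + 1 ≤ (i : ℕ) := by exact_mod_cast h
      linarith
  · intro i h
    simp only [if_pos h, and_self]
  · intro i h
    have h' : ¬ (i : ℕ) < 2 * k + 2 := by omega
    simp only [if_neg h', and_self]

theorem ncard_le_of_val {n a b : ℕ} (s : Set (Fin n)) (h : ∀ m ∈ s, a ≤ (m : ℕ) ∧ (m : ℕ) < b) :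
    s.ncard ≤ b - a := by
  have h1 : (Fin.val '' s).ncard = s.ncard := Set.ncard_image_of_injective _ Fin.val_injective
  rw [← h1, ← Nat.card_Ico, ← Set.ncard_coe_finset]
  apply Set.ncard_le_ncard _ (Set.toFinite _)
  rintro _ ⟨m, hm, rfl⟩
  rw [Finset.coe_Ico]
  exact h m hm

theorem lower_sees {k n : ℕ} {S : Bars n} (hh : ∀ i, S.height i = hgt k i)
    (hl : ∀ i : Fin n, (i : ℕ) < 2 * k + 2 → S.left i = 0 ∧ S.right i = n + 1)
    (hs : ∀ i : Fin n, 2 * k + 2 ≤ (i : ℕ) → S.left i = (i : ℕ) ∧ S.right i = (i : ℕ) + 1 / 2)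
    {i j : Fin n} (hi : (i : ℕ) < 2 * k + 2) (hj : 2 * k + 2 ≤ (j : ℕ)) : S.Sees k i j := by
  have hjn : ((j : ℕ) : ℝ) < n := by exact_mod_cast j.2
  have hj0 : (0 : ℝ) ≤ (j : ℕ) := Nat.cast_nonneg _
  have hl' := hl i hi
  have hs' := hs j hj
  have hshort : ∀ m : Fin n, m ≠ j → S.Meets (j : ℕ) m → (m : ℕ) < 2 * k + 2 := by
    intro m hm ⟨h1, h2⟩
    by_contra hc
    push Not at hc
    have h3 := hs m hc
    rw [h3.1] at h1
    rw [h3.2] at h2
    apply hm
    have h4 : (m : ℕ) ≤ (j : ℕ) := by exact_mod_cast h1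
    have h5 : ((j : ℕ) : ℝ) < (m : ℕ) + 1 := by linarith
    have h6 : (j : ℕ) < (m : ℕ) + 1 := by exact_mod_cast h5
    exact Fin.ext (by omega)
  have hhj : S.height j = k + 1 := by
    rw [hh, hgt, if_neg (by omega), if_neg (by omega)]
  refine ⟨(j : ℕ), ⟨by rw [hl'.1]; exact hj0, by rw [hl'.2]; linarith⟩,
    ⟨by rw [hs'.1], by rw [hs'.2]; linarith⟩, ?_⟩
  rw [hhj]
  by_cases hik : (i : ℕ) < k + 1
  · have hhi : S.height i = (i : ℕ) := by rw [hh, hgt, if_pos hik]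
    rw [hhi]
    have h1 : ((i : ℕ) : ℝ) ≤ k + 1 := by exact_mod_cast hik.le
    rw [Set.uIcc_of_le h1]
    refine (ncard_le_of_val (a := (i : ℕ) + 1) (b := k + 1) _ ?_).trans (by omega)
    rintro m ⟨h2, h3, h4, h5⟩
    have h6 := hshort m h3 h4
    rw [hh, hgt] at h5
    have hmi : (m : ℕ) ≠ (i : ℕ) := fun h => h2 (Fin.ext h)
    split_ifs at h5 with h7
    · have h8 : (i : ℕ) ≤ (m : ℕ) := by exact_mod_cast h5.1
      omega
    · have h8 : (m : ℕ) + 1 ≤ k + 1 := by exact_mod_cast h5.2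
      omega
  · have hhi : S.height i = (i : ℕ) + 1 := by rw [hh, hgt, if_neg hik, if_pos hi]
    rw [hhi]
    have h1 : (k : ℝ) + 1 ≤ (i : ℕ) + 1 := by
      have : (k : ℝ) ≤ (i : ℕ) := by exact_mod_cast (show k ≤ (i : ℕ) by omega)
      linarith
    rw [Set.uIcc_of_ge h1]
    refine (ncard_le_of_val (a := k + 1) (b := (i : ℕ)) _ ?_).trans (by omega)
    rintro m ⟨h2, h3, h4, h5⟩
    have h6 := hshort m h3 h4
    rw [hh, hgt] at h5
    have hmi : (m : ℕ) ≠ (i : ℕ) := fun h => h2 (Fin.ext h)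
    split_ifs at h5 with h7
    · have h8 : k + 1 ≤ (m : ℕ) := by exact_mod_cast h5.1
      omega
    · have h8 : (m : ℕ) + 1 ≤ (i : ℕ) + 1 := by exact_mod_cast h5.2
      omega

theorem exists_lower_graph (k n : ℕ) : ∃ G : SimpleGraph (Fin n), IsBarVisibility k G ∧
    ∀ i j : Fin n, (i : ℕ) < 2 * k + 2 → 2 * k + 2 ≤ (j : ℕ) → G.Adj i j := by
  obtain ⟨S, h1, h2, h3⟩ := exists_bars k n
  refine ⟨S.graph k, S.graph_isBar k, ?_⟩
  intro i j hi hj
  refine ⟨?_, lower_sees h1 h2 h3 hi hj⟩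
  rintro rfl
  omega

end Run7.h68
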