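import Pool.Agent.Run7.h68.LatticeGenus
import Pool.Agent.Run7.h68.LowerBars

/-!
# The graph `lgraph J T` in bar `1`-visibility graphs
-/

set_option autoImplicit false

open Finset Equiv

namespace Run7.h68

/-- A criterion for visibility through at most one bar. -/
theorem sees_one {n : ℕ} (S : Bars n) (Ln Rn Hn : Fin n → ℕ) (hL : ∀ i, S.left i = Ln i)
    (hR : ∀ i, S.right i = Rn i) (hH : ∀ i, S.height i = Hn i) {i j : Fin n} (x : ℕ) (c : Fin n)
    (hi1 : Ln i ≤ x) (hi2 : x ≤ Rn i) (hj1 : Ln j ≤ x) (hj2 : x ≤ Rn j) (hh : Hn i ≤ Hn j)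
    (hc : ∀ m, m ≠ i → m ≠ j → Ln m ≤ x → x ≤ Rn m → Hn i ≤ Hn m → Hn m ≤ Hn j → m = c) :
    S.Sees 1 i j := by
  refine ⟨(x : ℝ), ⟨?_, ?_⟩, ⟨?_, ?_⟩, ?_⟩
  · rw [hL]; exact_mod_cast hi1
  · rw [hR]; exact_mod_cast hi2
  · rw [hL]; exact_mod_cast hj1
  · rw [hR]; exact_mod_cast hj2
  · have hsub : {m : Fin n | m ≠ i ∧ m ≠ j ∧ S.Meets x m ∧
        S.height m ∈ Set.uIcc (S.height i) (S.height j)} ⊆ {c} := by
      rintro m ⟨h1, h2, ⟨h3, h4⟩, h5⟩
      rw [hH, hH, hH, Set.uIcc_of_le (by exact_mod_cast hh)] at h5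
      rw [hL] at h3
      rw [hR] at h4
      have h6 : Ln m ≤ x := by exact_mod_cast h3
      have h7 : x ≤ Rn m := by exact_mod_cast h4
      have h8 : Hn i ≤ Hn m := by exact_mod_cast h5.1
      have h9 : Hn m ≤ Hn j := by exact_mod_cast h5.2
      exact hc m h1 h2 h6 h7 h8 h9
    exact (Set.ncard_le_ncard hsub (Set.toFinite _)).trans (Set.ncard_singleton _).le

section

variable (J T r : ℕ)

def Lnat : LW J T ⊕ Fin r → ℕ
  | Sum.inl (Sum.inl a) => 4 * ((a.2 : ℕ) * (J + 1) + a.1) + 1
  | Sum.inl (Sum.inr _) => 0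
  | Sum.inr q => 4 * (T * (J + 1) + J) + 5 + 2 * q

def Rnat : LW J T ⊕ Fin r → ℕ
  | Sum.inl (Sum.inl a) => 4 * ((a.2 : ℕ) * (J + 1) + a.1) + 4 * J + 3
  | Sum.inl (Sum.inr _) => 4 * (T * (J + 1) + J) + 4
  | Sum.inr q => 4 * (T * (J + 1) + J) + 6 + 2 * q

def Hnat : LW J T ⊕ Fin r → ℕ
  | Sum.inl (Sum.inl a) => 2 * a.1 + 3
  | Sum.inl (Sum.inr i) => 2 * i
  | Sum.inr _ => 2 * J + 7

end

theorem mul_step (J : ℕ) {t t' : ℕ} (h : t < t') : t * (J + 1) + (J + 1) ≤ t' * (J + 1) := by
  calc t * (J + 1) + (J + 1) = (t + 1) * (J + 1) := by ring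
    _ ≤ t' * (J + 1) := Nat.mul_le_mul_right _ h

variable {J T r : ℕ}

theorem L_lt_R : ∀ x : LW J T ⊕ Fin r, Lnat J T r x < Rnat J T r x
  | Sum.inl (Sum.inl a) => by simp only [Lnat, Rnat]; omega
  | Sum.inl (Sum.inr _) => by simp only [Lnat, Rnat]; omega
  | Sum.inr q => by simp only [Lnat, Rnat]; omega

/-- two bars of the same column are not alive at the same time -/
theorem col_unique {t t' j x : ℕ} (h1 : 4 * (t * (J + 1) + j) + 1 ≤ x)
    (h2 : x ≤ 4 * (t * (J + 1) + j) + 4 * J + 3) (h3 : 4 * (t' * (J + 1) + j) + 1 ≤ x)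
    (h4 : x ≤ 4 * (t' * (J + 1) + j) + 4 * J + 3) : t = t' := by
  rcases lt_trichotomy t t' with h | h | h
  · have := mul_step J h; omega
  · exact h
  · have := mul_step J h; omega

theorem disj_nat : ∀ x y : LW J T ⊕ Fin r, x ≠ y → Hnat J T r x = Hnat J T r y →
    Rnat J T r x < Lnat J T r y ∨ Rnat J T r y < Lnat J T r x
  | Sum.inl (Sum.inl a), Sum.inl (Sum.inl b), hne, h => by
      simp only [Hnat] at h
      simp only [Lnat, Rnat]
      have h1 : a.1 = b.1 := Fin.ext (by omega)
      have h2 : (a.2 : ℕ) ≠ b.2 := by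
        intro h3
        apply hne
        rw [show a = b from Prod.ext h1 (Fin.ext h3)]
      rw [h1]
      rcases lt_or_gt_of_ne h2 with h3 | h3
      · left
        have := mul_step J h3
        omega
      · right
        have := mul_step J h3
        omega
  | Sum.inl (Sum.inl a), Sum.inl (Sum.inr i), hne, h => by
      simp only [Hnat] at h
      omega
  | Sum.inl (Sum.inl a), Sum.inr q, hne, h => by
      simp only [Hnat] at h
      have := a.1.2
      omega
  | Sum.inl (Sum.inr i), Sum.inl (Sum.inl a), hne, h => by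
      simp only [Hnat] at h
      omega
  | Sum.inl (Sum.inr i), Sum.inl (Sum.inr j), hne, h => by
      simp only [Hnat] at h
      exfalso
      apply hne
      rw [show i = j from Fin.ext (by omega)]
  | Sum.inl (Sum.inr i), Sum.inr q, hne, h => by
      simp only [Hnat] at h
      omega
  | Sum.inr q, Sum.inl (Sum.inl a), hne, h => by
      simp only [Hnat] at h
      have := a.1.2
      omega
  | Sum.inr q, Sum.inl (Sum.inr i), hne, h => by
      simp only [Hnat] at h
      omega
  | Sum.inr q, Sum.inr q', hne, h => by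
      simp only [Lnat, Rnat]
      have h2 : (q : ℕ) ≠ q' := by
        intro h3
        apply hne
        rw [show q = q' from Fin.ext h3]
      omega

/-- the visibility statement on the level of natural numbers -/
def SeesNat (J T r : ℕ) (u v : LW J T ⊕ Fin r) : Prop :=
  ∃ (x : ℕ) (c : LW J T ⊕ Fin r), Lnat J T r u ≤ x ∧ x ≤ Rnat J T r u ∧ Lnat J T r v ≤ x ∧
    x ≤ Rnat J T r v ∧ Hnat J T r u ≤ Hnat J T r v ∧
    ∀ m, m ≠ u → m ≠ v → Lnat J T r m ≤ x → x ≤ Rnat J T r m → Hnat J T r u ≤ Hnat J T r m →
      Hnat J T r m ≤ Hnat J T r v → m = c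

theorem time_le {a : Fin J × Fin T} : (a.2 : ℕ) * (J + 1) + (J + 1) ≤ T * (J + 1) :=
  mul_step J a.2.2

/-- a bar of a column sees the four long bars around it -/
theorem sees_hub (hJ : 1 ≤ J) (a : Fin J × Fin T) (i : Fin (J + 3)) (h1 : (a.1 : ℕ) ≤ i)
    (h2 : (i : ℕ) ≤ a.1 + 3) :
    SeesNat J T r (Sum.inl (Sum.inl a)) (Sum.inl (Sum.inr i)) ∨
      SeesNat J T r (Sum.inl (Sum.inr i)) (Sum.inl (Sum.inl a)) := by
  have ht := @time_le J T a
  have ha := a.1.2
  by_cases c3 : (i : ℕ) = a.1 + 3
  · left
    refine ⟨4 * ((a.2 : ℕ) * (J + 1) + a.1) + 4, Sum.inl (Sum.inr ⟨a.1 + 2, by omega⟩), ?_, ?_, ?_,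
      ?_, ?_, ?_⟩
    · simp only [Lnat]; omega
    · simp only [Rnat]; omega
    · simp only [Lnat]; omega
    · simp only [Rnat]; omega
    · simp only [Hnat]; omega
    · rintro ((b | l) | q) hm1 hm2 hl hr hh1 hh2
      · exfalso
        simp only [Lnat, Rnat, Hnat] at hl hr hh1 hh2
        by_cases hb : (b.1 : ℕ) = a.1
        · rw [hb] at hl hr
          have h5 : (b.2 : ℕ) = a.2 := by
            rcases lt_trichotomy (b.2 : ℕ) a.2 with h | h | h
            · have := mul_step J h; omega
            · exact h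
            · have := mul_step J h; omega
          apply hm1
          rw [show b = a from Prod.ext (Fin.ext hb) (Fin.ext h5)]
        · have hb' : (b.1 : ℕ) = a.1 + 1 := by omega
          rw [hb'] at hl hr
          rcases lt_trichotomy (b.2 : ℕ) a.2 with h | h | h
          · have := mul_step J h; omega
          · rw [h] at hl; omega
          · have := mul_step J h; omega
      · simp only [Hnat] at hh1 hh2
        have hne : (l : ℕ) ≠ i := by
          intro h
          apply hm2
          rw [show l = i from Fin.ext h]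
        congr 2
        exact Fin.ext (show (l : ℕ) = a.1 + 2 by omega)
      · exfalso
        simp only [Lnat] at hl
        omega
  · by_cases c0 : (i : ℕ) = a.1
    · right
      refine ⟨4 * ((a.2 : ℕ) * (J + 1) + a.1) + 4 * J, Sum.inl (Sum.inr ⟨a.1 + 1, by omega⟩),
        ?_, ?_, ?_, ?_, ?_, ?_⟩
      · simp only [Lnat]; omega
      · simp only [Rnat]; omega
      · simp only [Lnat]; omega
      · simp only [Rnat]; omega
      · simp only [Hnat]; omega
      · rintro ((b | l) | q) hm1 hm2 hl hr hh1 hh2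
        · exfalso
          simp only [Lnat, Rnat, Hnat] at hl hr hh1 hh2
          by_cases hb : (b.1 : ℕ) = a.1
          · rw [hb] at hl hr
            have h5 : (b.2 : ℕ) = a.2 := by
              rcases lt_trichotomy (b.2 : ℕ) a.2 with h | h | h
              · have := mul_step J h; omega
              · exact h
              · have := mul_step J h; omega
            apply hm2
            rw [show b = a from Prod.ext (Fin.ext hb) (Fin.ext h5)]
          · have hb' : (b.1 : ℕ) + 1 = a.1 := by omega
            rcases lt_trichotomy (b.2 : ℕ) a.2 with h | h | h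
            · have := mul_step J h; omega
            · rw [h] at hr; omega
            · have := mul_step J h; omega
        · simp only [Hnat] at hh1 hh2
          have hne : (l : ℕ) ≠ i := by
            intro h
            apply hm1
            rw [show l = i from Fin.ext h]
          congr 2
          exact Fin.ext (show (l : ℕ) = a.1 + 1 by omega)
        · exfalso
          simp only [Lnat] at hl
          omega
    · by_cases c1 : (i : ℕ) = a.1 + 1
      · right
        refine ⟨4 * ((a.2 : ℕ) * (J + 1) + a.1) + 1, Sum.inl (Sum.inl a),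
          ?_, ?_, ?_, ?_, ?_, ?_⟩
        · simp only [Lnat]; omega
        · simp only [Rnat]; omega
        · simp only [Lnat]; omega
        · simp only [Rnat]; omega
        · simp only [Hnat]; omega
        · rintro ((b | l) | q) hm1 hm2 hl hr hh1 hh2
          · exfalso
            simp only [Lnat, Rnat, Hnat] at hl hr hh1 hh2
            have hb : (b.1 : ℕ) = a.1 := by omega
            rw [hb] at hl hr
            have h5 : (b.2 : ℕ) = a.2 := by
              rcases lt_trichotomy (b.2 : ℕ) a.2 with h | h | h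
              · have := mul_step J h; omega
              · exact h
              · have := mul_step J h; omega
            apply hm2
            rw [show b = a from Prod.ext (Fin.ext hb) (Fin.ext h5)]
          · exfalso
            simp only [Hnat] at hh1 hh2
            apply hm1
            rw [show l = i from Fin.ext (by omega)]
          · exfalso
            simp only [Lnat] at hl
            omega
      · left
        refine ⟨4 * ((a.2 : ℕ) * (J + 1) + a.1) + 1, Sum.inl (Sum.inl a),
          ?_, ?_, ?_, ?_, ?_, ?_⟩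
        · simp only [Lnat]; omega
        · simp only [Rnat]; omega
        · simp only [Lnat]; omega
        · simp only [Rnat]; omega
        · simp only [Hnat]; omega
        · rintro ((b | l) | q) hm1 hm2 hl hr hh1 hh2
          · exfalso
            simp only [Lnat, Rnat, Hnat] at hl hr hh1 hh2
            have hb : (b.1 : ℕ) = a.1 := by omega
            rw [hb] at hl hr
            have h5 : (b.2 : ℕ) = a.2 := by
              rcases lt_trichotomy (b.2 : ℕ) a.2 with h | h | h
              · have := mul_step J h; omega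
              · exact h
              · have := mul_step J h; omega
            apply hm1
            rw [show b = a from Prod.ext (Fin.ext hb) (Fin.ext h5)]
          · exfalso
            simp only [Hnat] at hh1 hh2
            apply hm2
            rw [show l = i from Fin.ext (by omega)]
          · exfalso
            simp only [Lnat] at hl
            omega

/-- bars of neighbouring columns see each other -/
theorem sees_col (hJ : 1 ≤ J) (a b : Fin J × Fin T) (h1 : (b.1 : ℕ) = a.1 + 1)
    (h2 : (a.2 : ℕ) = b.2 ∨ (a.2 : ℕ) = b.2 + 1) :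
    SeesNat J T r (Sum.inl (Sum.inl a)) (Sum.inl (Sum.inl b)) := by
  have ht := @time_le J T a
  have ht' := @time_le J T b
  have ha := a.1.2
  have hmain : ∀ x : ℕ, 4 * ((a.2 : ℕ) * (J + 1) + a.1) + 1 ≤ x →
      x ≤ 4 * ((a.2 : ℕ) * (J + 1) + a.1) + 4 * J + 3 →
      4 * ((b.2 : ℕ) * (J + 1) + b.1) + 1 ≤ x → x ≤ 4 * ((b.2 : ℕ) * (J + 1) + b.1) + 4 * J + 3 →
      SeesNat J T r (Sum.inl (Sum.inl a)) (Sum.inl (Sum.inl b)) := by
    intro x hx1 hx2 hx3 hx4
    refine ⟨x, Sum.inl (Sum.inr ⟨a.1 + 2, by omega⟩), hx1, hx2, hx3, hx4, ?_, ?_⟩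
    · simp only [Hnat]; omega
    · rintro ((c | l) | q) hm1 hm2 hl hr hh1 hh2
      · exfalso
        simp only [Lnat, Rnat, Hnat] at hl hr hh1 hh2
        by_cases hb : (c.1 : ℕ) = a.1
        · rw [hb] at hl hr
          have h5 : (c.2 : ℕ) = a.2 := col_unique hl hr hx1 hx2
          apply hm1
          rw [show c = a from Prod.ext (Fin.ext hb) (Fin.ext h5)]
        · have hb' : (c.1 : ℕ) = b.1 := by omega
          rw [hb'] at hl hr
          have h5 : (c.2 : ℕ) = b.2 := col_unique hl hr hx3 hx4
          apply hm2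
          rw [show c = b from Prod.ext (Fin.ext hb') (Fin.ext h5)]
      · simp only [Hnat] at hh1 hh2
        congr 2
        exact Fin.ext (show (l : ℕ) = a.1 + 2 by omega)
      · exfalso
        simp only [Lnat] at hl
        omega
  rcases h2 with h2 | h2
  · apply hmain (4 * ((a.2 : ℕ) * (J + 1) + a.1) + 6)
    · omega
    · omega
    · rw [← h2, h1]; omega
    · rw [← h2, h1]; omega
  · have e1 : (a.2 : ℕ) * (J + 1) = (b.2 : ℕ) * (J + 1) + (J + 1) := by
      rw [h2]; ring
    apply hmain (4 * ((a.2 : ℕ) * (J + 1) + a.1) + 2)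
    · omega
    · omega
    · rw [e1, h1]; omega
    · rw [e1, h1]; omega

theorem sees_of_ladj (hJ : 1 ≤ J) : ∀ u v : LW J T, ladj u v →
    SeesNat J T r (Sum.inl u) (Sum.inl v) ∨ SeesNat J T r (Sum.inl v) (Sum.inl u)
  | Sum.inl a, Sum.inl b, h => by
      unfold ladj at h
      rcases h with h | h
      · exact Or.inl (sees_col hJ a b h.1 h.2)
      · exact Or.inr (sees_col hJ b a h.1 h.2)
  | Sum.inl a, Sum.inr i, h => sees_hub hJ a i h.1 h.2
  | Sum.inr i, Sum.inl a, h => (sees_hub hJ a i h.1 h.2).symm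
  | Sum.inr _, Sum.inr _, h => False.elim h

theorem exists_lattice_bars (J T r n : ℕ) (hJ : 1 ≤ J) (hn : n = J * T + (J + 3) + r) :
    ∃ G : SimpleGraph (Fin n), IsBarVisibility 1 G ∧ ∃ ι : LW J T → Fin n,
      Function.Injective ι ∧ ∀ u v, (lgraph J T).Adj u v → G.Adj (ι u) (ι v) := by
  have hcard : Fintype.card (LW J T ⊕ Fin r) = Fintype.card (Fin n) := by
    rw [Fintype.card_sum, Fintype.card_sum, Fintype.card_prod, Fintype.card_fin,
      Fintype.card_fin, Fintype.card_fin, Fintype.card_fin, Fintype.card_fin, hn]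
  let e : (LW J T ⊕ Fin r) ≃ Fin n := Fintype.equivOfCardEq hcard
  let S : Bars n :=
    { left := fun i => (Lnat J T r (e.symm i) : ℝ)
      right := fun i => (Rnat J T r (e.symm i) : ℝ)
      height := fun i => (Hnat J T r (e.symm i) : ℝ)
      left_lt_right := fun i => by exact_mod_cast L_lt_R (e.symm i)
      disjoint := by
        intro i j hij hh
        have h1 : Hnat J T r (e.symm i) = Hnat J T r (e.symm j) := by exact_mod_cast hh
        have h2 := disj_nat (e.symm i) (e.symm j) (fun h => hij (e.symm.injective h)) h1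
        rcases h2 with h2 | h2
        · left; exact_mod_cast h2
        · right; exact_mod_cast h2 }
  have hsees : ∀ u v : LW J T ⊕ Fin r, SeesNat J T r u v → S.Sees 1 (e u) (e v) := by
    rintro u v ⟨x, c, h1, h2, h3, h4, h5, h6⟩
    apply sees_one S (fun i => Lnat J T r (e.symm i)) (fun i => Rnat J T r (e.symm i))
      (fun i => Hnat J T r (e.symm i)) (fun _ => rfl) (fun _ => rfl) (fun _ => rfl) x (e c)
    · simpa using h1
    · simpa using h2
    · simpa using h3
    · simpa using h4
    · simpa using h5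
    · intro m hm1 hm2 hm3 hm4 hm5 hm6
      simp only [Equiv.symm_apply_apply] at hm5 hm6
      rw [← h6 (e.symm m) (fun h => hm1 (by rw [← h, e.apply_symm_apply]))
        (fun h => hm2 (by rw [← h, e.apply_symm_apply])) hm3 hm4 hm5 hm6, e.apply_symm_apply]
  refine ⟨S.graph 1, S.graph_isBar 1, fun u => e (Sum.inl u), ?_, ?_⟩
  · intro u v h
    exact Sum.inl_injective (e.injective h)
  · intro u v huv
    refine ⟨?_, ?_⟩
    · intro h
      have h1 : u = v := Sum.inl_injective (e.injective h)
      exact (lgraph J T).ne_of_adj huv h1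
    · rcases sees_of_ladj (r := r) hJ u v huv with h | h
      · exact hsees _ _ h
      · exact S.sees_comm 1 (hsees _ _ h)

theorem embedsIn_of_map {V W : Type} {H : SimpleGraph W} {G : SimpleGraph V} {g : ℕ}
    (ι : W → V) (hι : Function.Injective ι) (hadj : ∀ u v, H.Adj u v → G.Adj (ι u) (ι v))
    (h : EmbedsIn G g) : EmbedsIn H g := by
  obtain ⟨D, hD, M, hM, f, hf, hG⟩ := h
  exact ⟨D, hD, M, hM, fun w => f (ι w), hf.comp hι, fun u v huv => hG _ _ (hadj u v huv)⟩

end Run7.h68
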