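import Pool.Agent.Run7.h68.Lattice

/-!
# The genus of the graph `lgraph J T`
-/

set_option autoImplicit false

open Finset Equiv

namespace Run7.h68

theorem sum_inj_le {X Y : Type*} [Fintype X] [Fintype Y] [DecidableEq Y] (g : X → Y)
    (hg : Function.Injective g) (f : Y → ℤ) (hf : ∀ y, 0 ≤ f y) : ∑ x, f (g x) ≤ ∑ y, f y := by
  rw [← Finset.sum_image (s := Finset.univ) (g := g) (f := f) (fun x _ y _ h => hg h)]
  exact Finset.sum_le_sum_of_subset_of_nonneg (Finset.subset_univ _) (fun y _ _ => hf y)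

section

variable {J T : ℕ}

/-- nonnegative part of the weights, from columns to long bars -/
def f1 : LW J T → LW J T → ℤ
  | Sum.inl a, Sum.inr i => if (i : ℕ) = a.1 + 1 ∨ (i : ℕ) = a.1 + 2 then 3 else 7
  | _, _ => 0

/-- between columns, upwards -/
def f2 : LW J T → LW J T → ℤ
  | Sum.inl a, Sum.inl b => if (b.1 : ℕ) = a.1 + 1 then 6 else 0
  | _, _ => 0

theorem f1_nonneg : ∀ u v : LW J T, 0 ≤ f1 u v
  | Sum.inl _, Sum.inr _ => by simp only [f1]; split_ifs <;> norm_num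
  | Sum.inl _, Sum.inl _ => le_refl _
  | Sum.inr _, Sum.inl _ => le_refl _
  | Sum.inr _, Sum.inr _ => le_refl _

theorem f2_nonneg : ∀ u v : LW J T, 0 ≤ f2 u v
  | Sum.inl _, Sum.inl _ => by simp only [f2]; split_ifs <;> norm_num
  | Sum.inl _, Sum.inr _ => le_refl _
  | Sum.inr _, Sum.inl _ => le_refl _
  | Sum.inr _, Sum.inr _ => le_refl _

theorem f_total : ∀ u v : LW J T, ladj u v →
    16 - yw u v = f1 u v + f1 v u + f2 u v + f2 v u
  | Sum.inl _, Sum.inl _, h => by
      unfold ladj at h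
      simp only [f1, f2, yw]
      split_ifs <;> omega
  | Sum.inl _, Sum.inr _, _ => by
      simp only [f1, f2, yw]
      split_ifs <;> omega
  | Sum.inr _, Sum.inl _, _ => by
      simp only [f1, f2, yw]
      split_ifs <;> omega
  | Sum.inr _, Sum.inr _, h => False.elim h

/-- the dart from a bar to a long bar -/
def dart1 (a : Fin J × Fin T) (o : Fin 4) : (lgraph J T).Dart :=
  ⟨(Sum.inl a, Sum.inr ⟨a.1 + o, by have := a.1.2; have := o.2; omega⟩), by
    show (a.1 : ℕ) ≤ a.1 + o ∧ (a.1 : ℕ) + o ≤ a.1 + 3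
    have := o.2
    omega⟩

theorem dart1_inj : Function.Injective (fun x : (Fin J × Fin T) × Fin 4 => dart1 x.1 x.2) := by
  rintro ⟨a, o⟩ ⟨b, q⟩ h
  have h1 : (dart1 a o).fst = (dart1 b q).fst := congrArg (fun d => d.fst) h
  have h2 : (dart1 a o).snd = (dart1 b q).snd := congrArg (fun d => d.snd) h
  have h3 : a = b := Sum.inl.inj h1
  subst h3
  have h4 := congrArg Fin.val (Sum.inr.inj h2)
  have h5 : (a.1 : ℕ) + o = a.1 + q := h4
  have h6 : o = q := Fin.ext (by omega)
  rw [h6]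

theorem sum_f1 [Fintype (lgraph J T).Dart] :
    20 * (J * T : ℤ) ≤ ∑ d : (lgraph J T).Dart, f1 d.fst d.snd := by
  classical
  refine le_trans ?_ (sum_inj_le _ dart1_inj (fun d : (lgraph J T).Dart => f1 d.fst d.snd)
    (fun d => f1_nonneg _ _))
  rw [Fintype.sum_prod_type]
  have h1 : ∀ a : Fin J × Fin T, ∑ o : Fin 4, f1 (dart1 a o).fst (dart1 a o).snd = 20 := by
    intro a
    rw [Fin.sum_univ_four]
    have e : ∀ o : Fin 4, f1 (dart1 a o).fst (dart1 a o).snd =
        if (a.1 : ℕ) + o = a.1 + 1 ∨ (a.1 : ℕ) + o = a.1 + 2 then 3 else 7 := fun o => rfl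
    rw [e, e, e, e]
    have v0 : ((0 : Fin 4) : ℕ) = 0 := rfl
    have v1 : ((1 : Fin 4) : ℕ) = 1 := rfl
    have v2 : ((2 : Fin 4) : ℕ) = 2 := rfl
    have v3 : ((3 : Fin 4) : ℕ) = 3 := rfl
    rw [v0, v1, v2, v3, if_neg (by omega), if_pos (by omega), if_pos (by omega),
      if_neg (by omega)]
    norm_num
  simp only [h1]
  rw [Finset.sum_const, Finset.card_univ, Fintype.card_prod, Fintype.card_fin, Fintype.card_fin]
  rw [nsmul_eq_mul]
  push_cast
  linarith

end

/-- the dart between two bars of neighbouring columns -/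
def dart2 {J T : ℕ} (x : (Fin J × Fin T) × Bool) : (lgraph (J + 1) (T + 1)).Dart :=
  ⟨(Sum.inl (x.1.1.castSucc, x.1.2.succ),
    Sum.inl (x.1.1.succ, if x.2 then x.1.2.succ else x.1.2.castSucc)), by
    show ((x.1.1.succ : Fin (J + 1)) : ℕ) = (x.1.1.castSucc : ℕ) + 1 ∧ _ ∨ _
    left
    refine ⟨rfl, ?_⟩
    cases x.2
    · right
      rfl
    · left
      rfl⟩

theorem dart2_inj {J T : ℕ} : Function.Injective (dart2 (J := J) (T := T)) := by
  rintro ⟨⟨a, b⟩, c⟩ ⟨⟨a', b'⟩, c'⟩ h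
  have h1 := congrArg (fun d => d.fst) h
  have h2 := congrArg (fun d => d.snd) h
  have h3 := Sum.inl.inj h1
  have h4 := Sum.inl.inj h2
  simp only [Prod.mk.injEq] at h3 h4
  have h5 : a = a' := Fin.castSucc_injective _ h3.1
  have h6 : b = b' := Fin.succ_injective _ h3.2
  subst h5
  subst h6
  have h7 : c = c' := by
    have h8 := congrArg Fin.val h4.2
    cases c <;> cases c'
    · rfl
    · simp at h8
    · simp at h8
    · rfl
  rw [h7]

theorem sum_f2 {J T : ℕ} [Fintype (lgraph (J + 1) (T + 1)).Dart] :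
    12 * (J * T : ℤ) ≤ ∑ d : (lgraph (J + 1) (T + 1)).Dart, f2 d.fst d.snd := by
  classical
  refine le_trans ?_ (sum_inj_le _ dart2_inj (fun d : (lgraph (J + 1) (T + 1)).Dart =>
    f2 d.fst d.snd) (fun d => f2_nonneg _ _))
  have h1 : ∀ x : (Fin J × Fin T) × Bool, f2 (dart2 x).fst (dart2 x).snd = 6 := by
    intro x
    show (if ((x.1.1.succ : Fin (J + 1)) : ℕ) = (x.1.1.castSucc : ℕ) + 1 then (6 : ℤ) else 0) = 6
    exact if_pos (by simp)
  simp only [h1]
  rw [Finset.sum_const, Finset.card_univ, Fintype.card_prod, Fintype.card_prod, Fintype.card_fin,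
    Fintype.card_fin, Fintype.card_bool, nsmul_eq_mul]
  push_cast
  linarith

section

variable {J T : ℕ}

theorem clsP_one (a : Fin J × Fin T) : clsP a (dart1 a 1).snd := by
  show (a.1 : ℕ) + 1 = a.1 + 1 ∨ _
  left; rfl

theorem clsP_zero (a : Fin J × Fin T) : ¬ clsP a (dart1 a 0).snd := by
  show ¬ ((a.1 : ℕ) + 0 = a.1 + 1 ∨ (a.1 : ℕ) + 0 = a.1 + 3)
  omega

/-- every bar has at least two bad corners -/
theorem sum_bad [Fintype (lgraph J T).Dart] (ρ : Perm (lgraph J T).Dart)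
    (h1 : ∀ d, (ρ d).fst = d.fst)
    (h2 : ∀ d e : (lgraph J T).Dart, d.fst = e.fst → ρ.SameCycle d e) :
    2 * (J * T : ℤ) ≤ ∑ d : (lgraph J T).Dart, bad d.snd d.fst (ρ d).snd := by
  classical
  have hpow : ∀ (n : ℕ) d, ((ρ ^ n) d).fst = d.fst := by
    intro n
    induction n with
    | zero => intro d; rfl
    | succ n ih => intro d; rw [pow_succ', Perm.mul_apply, h1, ih]
  have key1 : ∀ a : Fin J × Fin T, ∃ e : (lgraph J T).Dart, e.fst = Sum.inl a ∧
      clsP a e.snd ∧ ¬ clsP a (ρ e).snd := by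
    intro a
    by_contra hc
    push Not at hc
    obtain ⟨n, hn⟩ := sameCycle_nat (h2 (dart1 a 1) (dart1 a 0) rfl)
    have : ∀ n : ℕ, clsP a ((ρ ^ n) (dart1 a 1)).snd := by
      intro n
      induction n with
      | zero => exact clsP_one a
      | succ n ih =>
        rw [pow_succ', Perm.mul_apply]
        exact hc _ (by rw [hpow]; rfl) ih
    have h3 := this n
    rw [hn] at h3
    exact clsP_zero a h3
  have key2 : ∀ a : Fin J × Fin T, ∃ e : (lgraph J T).Dart, e.fst = Sum.inl a ∧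
      ¬ clsP a e.snd ∧ clsP a (ρ e).snd := by
    intro a
    by_contra hc
    push Not at hc
    obtain ⟨n, hn⟩ := sameCycle_nat (h2 (dart1 a 0) (dart1 a 1) rfl)
    have : ∀ n : ℕ, ¬ clsP a ((ρ ^ n) (dart1 a 0)).snd := by
      intro n
      induction n with
      | zero => exact clsP_zero a
      | succ n ih =>
        rw [pow_succ', Perm.mul_apply]
        exact hc _ (by rw [hpow]; rfl) ih
    have h3 := this n
    rw [hn] at h3
    exact h3 (clsP_one a)
  choose e1 he1 he1' he1'' using key1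
  choose e2 he2 he2' he2'' using key2
  let g : (Fin J × Fin T) × Bool → (lgraph J T).Dart := fun x => if x.2 then e1 x.1 else e2 x.1
  have hg : Function.Injective g := by
    rintro ⟨a, b⟩ ⟨a', b'⟩ h
    have hfst : ∀ x : (Fin J × Fin T) × Bool, (g x).fst = Sum.inl x.1 := by
      rintro ⟨a, b⟩
      cases b
      · exact he2 a
      · exact he1 a
    have h3 : a = a' := by
      have h4 := hfst (a, b)
      rw [h, hfst (a', b')] at h4
      exact (Sum.inl.inj h4).symm
    subst h3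
    cases b <;> cases b'
    · rfl
    · exfalso
      have h5 : e2 a = e1 a := h
      have h6 := he2' a
      rw [h5] at h6
      exact h6 (he1' a)
    · exfalso
      have h5 : e1 a = e2 a := h
      have h6 := he1' a
      rw [h5] at h6
      exact he2' a h6
    · rfl
  refine le_trans ?_ (sum_inj_le g hg (fun d : (lgraph J T).Dart => bad d.snd d.fst (ρ d).snd)
    (fun d => bad_nonneg _ _ _))
  have hval : ∀ x : (Fin J × Fin T) × Bool, bad (g x).snd (g x).fst (ρ (g x)).snd = 1 := by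
    rintro ⟨a, b⟩
    cases b
    · show bad (e2 a).snd (e2 a).fst (ρ (e2 a)).snd = 1
      rw [he2 a]
      simp only [bad]
      rw [if_pos (Or.inr ⟨he2' a, he2'' a⟩)]
    · show bad (e1 a).snd (e1 a).fst (ρ (e1 a)).snd = 1
      rw [he1 a]
      simp only [bad]
      rw [if_pos (Or.inl ⟨he1' a, he1'' a⟩)]
  simp only [hval]
  rw [Finset.sum_const, Finset.card_univ, Fintype.card_prod, Fintype.card_prod, Fintype.card_fin,
    Fintype.card_fin, Fintype.card_bool, nsmul_eq_mul]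
  push_cast
  linarith

/-- no vertex has degree one -/
theorem exists_other (hT : 2 ≤ T) : ∀ d : (lgraph J T).Dart, ∃ e : (lgraph J T).Dart,
    e.fst = d.fst ∧ e ≠ d := by
  rintro ⟨⟨u, v⟩, h⟩
  rcases u with a | i
  · by_cases h0 : dart1 a 0 = ⟨(Sum.inl a, v), h⟩
    · refine ⟨dart1 a 1, rfl, ?_⟩
      rw [← h0]
      intro h1
      have h2 := @dart1_inj J T (a, 1) (a, 0) h1
      simp at h2
    · exact ⟨dart1 a 0, rfl, h0⟩
  · rcases v with a | j
    · have h' : (a.1 : ℕ) ≤ i ∧ (i : ℕ) ≤ a.1 + 3 := h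
      obtain ⟨t, ht⟩ : ∃ t : Fin T, t ≠ a.2 := by
        by_cases h0 : (⟨0, by omega⟩ : Fin T) = a.2
        · refine ⟨⟨1, by omega⟩, ?_⟩
          rw [← h0]
          intro h1
          have := congrArg Fin.val h1
          simp at this
        · exact ⟨⟨0, by omega⟩, h0⟩
      refine ⟨⟨(Sum.inr i, Sum.inl (a.1, t)), h'⟩, rfl, ?_⟩
      intro h1
      have h2 := congrArg (fun d : (lgraph J T).Dart => d.snd) h1
      have h3 : (Sum.inl (a.1, t) : LW J T) = Sum.inl a := h2
      have h4 := Sum.inl.inj h3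
      exact ht (congrArg Prod.snd h4)
    · exact False.elim h

end

theorem lattice_genus {J T g : ℕ} (hT : 1 ≤ T) (h : EmbedsIn (lgraph (J + 1) (T + 1)) g) :
    36 * ((J + 1) * (T + 1)) ≤ 64 * g + 56 * (J + 1) + 24 * (T + 1) + 8 := by
  classical
  haveI : Finite (lgraph (J + 1) (T + 1)).Dart :=
    Finite.of_injective (fun d : (lgraph (J + 1) (T + 1)).Dart => d.toProd)
      (fun d e h => SimpleGraph.Dart.ext _ _ h)
  haveI : Fintype (lgraph (J + 1) (T + 1)).Dart := Fintype.ofFinite _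
  obtain ⟨ρ, h1, h2, h3⟩ := exists_rotation (lgraph (J + 1) (T + 1)) h
    ⟨dart1 (⟨0, by omega⟩, ⟨0, by omega⟩) 0⟩
  obtain ⟨φ, hφ⟩ : ∃ φ, φ = ρ * symmPerm (lgraph (J + 1) (T + 1)) := ⟨_, rfl⟩
  have hφa : ∀ d, φ d = ρ d.symm := fun d => by rw [hφ]; rfl
  have hφ1 : ∀ d, (φ d).fst = d.snd := fun d => by rw [hφa, h1]; rfl
  have hadj : ∀ d : (lgraph (J + 1) (T + 1)).Dart, ladj d.fst d.snd := fun d => d.adj
  obtain ⟨ω, hω⟩ : ∃ ω : (lgraph (J + 1) (T + 1)).Dart → ℤ, ∀ d, ω d =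
    yw d.fst d.snd - bad d.fst d.snd (φ d).snd - bad (φ.symm d).fst d.fst d.snd :=
    ⟨_, fun _ => rfl⟩
  have hn1 : ∀ d, φ d ≠ d := by
    intro d hd
    have h4 := hφ1 d
    rw [hd] at h4
    exact d.adj.ne h4
  have hn2 : ∀ d, φ (φ d) ≠ d := by
    intro d hd
    have h4 := hφ1 d
    have h5 := hφ1 (φ d)
    rw [hd] at h5
    have h6 : φ d = d.symm := SimpleGraph.Dart.ext _ _ (Prod.ext h4 h5.symm)
    rw [hφa] at h6
    obtain ⟨e, he1, he2⟩ := exists_other (by omega) d.symm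
    exact he2 (sameCycle_fixed h6 (h2 _ _ he1.symm)).symm
  have h32 := numCyc_le_of_weights φ ω hn1 hn2
    (fun d => by rw [hω]; exact weight_ge _ _ _ _ (hadj d))
    (by
      intro d hd
      have e1 : φ.symm (φ d) = d := φ.symm_apply_apply d
      have e2 : φ.symm (φ (φ d)) = φ d := φ.symm_apply_apply _
      have e3 : φ.symm d = φ (φ d) := by
        rw [Equiv.symm_apply_eq]; exact hd.symm
      rw [hω d, hω (φ d), hω (φ (φ d)), e1, e2, e3, hd]
      have t1 := hφ1 d
      have t2 := hφ1 (φ d)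
      have t3 := hφ1 (φ (φ d))
      rw [hd] at t3
      have a1 := hadj d
      have a2 := hadj (φ d)
      have a3 := hadj (φ (φ d))
      rw [t1] at a2 ⊢
      rw [t2] at a3 ⊢
      rw [← t3] at a3 ⊢
      have := triangle_weight _ _ _ a1 a2 a3
      linarith)
  have hsum : ∑ d, ω d = ∑ d : (lgraph (J + 1) (T + 1)).Dart, yw d.fst d.snd -
      2 * ∑ d : (lgraph (J + 1) (T + 1)).Dart, bad d.snd d.fst (ρ d).snd := by
    have s1 : ∑ d : (lgraph (J + 1) (T + 1)).Dart, bad d.fst d.snd (φ d).snd =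
        ∑ d : (lgraph (J + 1) (T + 1)).Dart, bad d.snd d.fst (ρ d).snd := by
      rw [← Equiv.sum_comp (symmPerm (lgraph (J + 1) (T + 1)))]
      apply Finset.sum_congr rfl
      intro d _
      rw [hφa, symmPerm_apply, SimpleGraph.Dart.symm_symm]
      rfl
    have s2 : ∑ d : (lgraph (J + 1) (T + 1)).Dart, bad (φ.symm d).fst d.fst d.snd =
        ∑ d : (lgraph (J + 1) (T + 1)).Dart, bad d.fst d.snd (φ d).snd := by
      rw [← Equiv.sum_comp φ]
      apply Finset.sum_congr rfl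
      intro d _
      rw [φ.symm_apply_apply, hφ1]
    simp only [hω]
    rw [Finset.sum_sub_distrib, Finset.sum_sub_distrib, s2, s1]
    ring
  have hb := sum_bad ρ h1 h2
  have hf1 := @sum_f1 (J + 1) (T + 1) _
  have hf2 := @sum_f2 J T _
  have hsym1 : ∑ d : (lgraph (J + 1) (T + 1)).Dart, f1 d.snd d.fst =
      ∑ d : (lgraph (J + 1) (T + 1)).Dart, f1 d.fst d.snd := by
    rw [← Equiv.sum_comp (symmPerm (lgraph (J + 1) (T + 1)))]
    rfl
  have hsym2 : ∑ d : (lgraph (J + 1) (T + 1)).Dart, f2 d.snd d.fst =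
      ∑ d : (lgraph (J + 1) (T + 1)).Dart, f2 d.fst d.snd := by
    rw [← Equiv.sum_comp (symmPerm (lgraph (J + 1) (T + 1)))]
    rfl
  have htot : 16 * (Fintype.card (lgraph (J + 1) (T + 1)).Dart : ℤ) -
      ∑ d : (lgraph (J + 1) (T + 1)).Dart, yw d.fst d.snd =
      2 * ∑ d : (lgraph (J + 1) (T + 1)).Dart, f1 d.fst d.snd +
      2 * ∑ d : (lgraph (J + 1) (T + 1)).Dart, f2 d.fst d.snd := by
    have e1 : ∑ d : (lgraph (J + 1) (T + 1)).Dart, (16 - yw d.fst d.snd) =
        ∑ d : (lgraph (J + 1) (T + 1)).Dart,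
          (f1 d.fst d.snd + f1 d.snd d.fst + f2 d.fst d.snd + f2 d.snd d.fst) :=
      Finset.sum_congr rfl (fun d _ => f_total _ _ (hadj d))
    rw [Finset.sum_sub_distrib, Finset.sum_const, Finset.card_univ, nsmul_eq_mul,
      Finset.sum_add_distrib, Finset.sum_add_distrib, Finset.sum_add_distrib, hsym1, hsym2] at e1
    linarith
  have hcard : Fintype.card (LW (J + 1) (T + 1)) = (J + 1) * (T + 1) + (J + 1 + 3) := by
    rw [Fintype.card_sum, Fintype.card_prod, Fintype.card_fin, Fintype.card_fin, Fintype.card_fin]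
  rw [hcard, ← hφ] at h3
  have h3' : (Fintype.card (lgraph (J + 1) (T + 1)).Dart : ℤ) + 4 ≤
      2 * ((J + 1) * (T + 1) + (J + 1 + 3)) + 2 * numCyc φ + 4 * g := by exact_mod_cast h3
  have hfin : (36 * ((J + 1) * (T + 1)) : ℤ) ≤ 64 * g + 56 * (J + 1) + 24 * (T + 1) + 8 := by
    rw [hsum] at h32
    push_cast at hb hf1
    nlinarith
  exact_mod_cast hfin

end Run7.h68
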