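import Pool.Agent.Run7.h68.Numeric
import Pool.Agent.Run7.h68.Bipartite
import Pool.Agent.Run7.h68.LowerBars

/-!
# The maximum genus of bar `k`-visibility graphs
-/

set_option autoImplicit false

open Finset

namespace Run7.h68

theorem maxGenus_upper {k n : ℕ} (hk : 0 < k) (hn : 0 < n) :
    ∃ γ : ℕ, (∀ G : SimpleGraph (Fin n), IsBarVisibility k G → EmbedsIn G γ) ∧
      (γ : ℝ) ≤ (k * n : ℝ) / 2 + 140 * ((k : ℝ) ^ (2 / 3 : ℝ) * (1 + Real.log k) * n) +
        991 * k ^ 2 := by
  have hk1 : (1 : ℝ) ≤ k := by exact_mod_cast hk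
  obtain ⟨b, hb⟩ : ∃ b : ℝ, b = (k * n : ℝ) +
      280 * ((k : ℝ) ^ (2 / 3 : ℝ) * (1 + Real.log k) * n) + 1980 * k ^ 2 := ⟨_, rfl⟩
  have hb0 : 0 ≤ b := by
    have : 0 ≤ Real.log k := Real.log_nonneg hk1
    rw [hb]
    positivity
  refine ⟨⌈b / 2⌉₊, ?_, ?_⟩
  · intro G hG
    apply genus_upper hn hk hG
    rw [← hb]
    have := Nat.le_ceil (b / 2)
    linarith
  · have h1 := Nat.ceil_lt_add_one (a := b / 2) (by linarith)
    have h2 : (1 : ℝ) ≤ k ^ 2 := by nlinarith
    rw [hb] at h1 ⊢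
    linarith

theorem genus_le_of_embeds {V : Type} {G : SimpleGraph V} {γ : ℕ} (h : EmbedsIn G γ) :
    genus G ≤ γ := Nat.sInf_le h

theorem embeds_genus {V : Type} {G : SimpleGraph V} {γ : ℕ} (h : EmbedsIn G γ) :
    EmbedsIn G (genus G) := Nat.sInf_mem (s := {g | EmbedsIn G g}) ⟨γ, h⟩

theorem main {k n : ℕ} (hk : 0 < k) (hn : 0 < n) :
    (k : ℝ) * (n - 2 * k - 4) / 2 ≤ maxGenus k n ∧
    (maxGenus k n : ℝ) ≤ (k : ℝ) * n / 2 +
      140 * ((k : ℝ) ^ (2 / 3 : ℝ) * (1 + Real.log k) * n) + 991 * (k : ℝ) ^ 2 := by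
  classical
  obtain ⟨γ, hγ, hγ2⟩ := maxGenus_upper hk hn
  have hbound : ∀ g ∈ {g | ∃ G : SimpleGraph (Fin n), IsBarVisibility k G ∧ genus G = g},
      g ≤ γ := by
    rintro g ⟨G, hG, rfl⟩
    exact genus_le_of_embeds (hγ G hG)
  obtain ⟨G, hG, hadj⟩ := exists_lower_graph k n
  constructor
  · by_cases hn2 : n ≤ 2 * k + 4
    · have h1 : (k : ℝ) * (n - 2 * k - 4) / 2 ≤ 0 := by
        have h2 : (n : ℝ) ≤ 2 * k + 4 := by exact_mod_cast hn2
        have h3 : (0 : ℝ) ≤ k := Nat.cast_nonneg k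
        have h4 : (n : ℝ) - 2 * k - 4 ≤ 0 := by linarith
        have h5 := mul_nonneg h3 (neg_nonneg.2 h4)
        linarith
      exact h1.trans (Nat.cast_nonneg _)
    · push Not at hn2
      let A : Finset (Fin n) := Finset.univ.filter (fun i => (i : ℕ) < 2 * k + 2)
      let B : Finset (Fin n) := Finset.univ.filter (fun i => ¬ (i : ℕ) < 2 * k + 2)
      have hA : A.card = 2 * k + 2 := by
        show (Finset.univ.filter (fun i : Fin n => (i : ℕ) < 2 * k + 2)).card = 2 * k + 2
        rw [Fin.card_filter_val_lt]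
        omega
      have hAB : A.card + B.card = n := by
        have := Finset.card_filter_add_card_filter_not (s := (Finset.univ : Finset (Fin n)))
          (fun i : Fin n => (i : ℕ) < 2 * k + 2)
        rw [Finset.card_univ, Fintype.card_fin] at this
        exact this
      have hg := genus_lower (embeds_genus (hγ G hG)) A B
        (Finset.disjoint_filter_filter_not _ _ _)
        (by
          intro a ha b hb
          have h1 := (mem_filter.1 ha).2
          have h2 := (mem_filter.1 hb).2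
          exact hadj a b h1 (by omega))
        (by omega) (by omega)
      have hle : genus G ≤ maxGenus k n := le_csSup ⟨γ, hbound⟩ ⟨G, hG, rfl⟩
      obtain ⟨N, hN⟩ : ∃ N, n = 2 * k + 2 + N := ⟨n - (2 * k + 2), by omega⟩
      have hB : B.card = N := by omega
      rw [hA, hB] at hg
      have h1 : k * N ≤ 2 * k + 2 * genus G := by
        have e1 : (2 * k + 2) * N = 2 * (k * N) + 2 * N := by ring
        omega
      have h2 : ((k * N : ℕ) : ℝ) ≤ 2 * k + 2 * maxGenus k n := by
        have h3 : k * N ≤ 2 * k + 2 * maxGenus k n := by omega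
        exact_mod_cast h3
      have e3 : (n : ℝ) = 2 * k + 2 + N := by exact_mod_cast hN
      rw [e3]
      push_cast at h2
      linarith
  · have h1 : maxGenus k n ≤ γ := csSup_le ⟨genus G, G, hG, rfl⟩ hbound
    have h2 : (maxGenus k n : ℝ) ≤ γ := by exact_mod_cast h1
    exact h2.trans hγ2

end Run7.h68
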