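import Pool.Agent.Run7.h68.LowerBars

/-!
# Edge-maximal bar `k`-visibility graphs
-/

set_option autoImplicit false

open Finset

namespace Run7.h68

theorem ncard_le_of_val2 {n a b c d : ℕ} (s : Set (Fin n))
    (h : ∀ r ∈ s, (a ≤ (r : ℕ) ∧ (r : ℕ) < b) ∨ (c ≤ (r : ℕ) ∧ (r : ℕ) < d)) :
    s.ncard ≤ (b - a) + (d - c) := by
  have h1 : (Fin.val '' s).ncard = s.ncard := Set.ncard_image_of_injective _ Fin.val_injective
  have h2 : ((Finset.Ico a b ∪ Finset.Ico c d : Finset ℕ) : Set ℕ).ncard ≤ (b - a) + (d - c) := by
    rw [Set.ncard_coe_finset]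
    refine (Finset.card_union_le _ _).trans ?_
    rw [Nat.card_Ico, Nat.card_Ico]
  refine le_trans ?_ h2
  rw [← h1]
  apply Set.ncard_le_ncard _ (Set.toFinite _)
  rintro _ ⟨r, hr, rfl⟩
  rw [Finset.mem_coe, Finset.mem_union, Finset.mem_Ico, Finset.mem_Ico]
  exact h r hr

/-- left endpoints -/
def Lf (m N p : ℕ) : ℕ :=
  if p < m then p else if p < 2 * m then p + 1 else if p < N then N + 2 * m - p
  else if p < N + m then 2 * N + m - p else N + 2 * m - 1 - p

/-- right endpoints -/
def Rt (m N p : ℕ) : ℕ :=
  if p < m then 2 * N + 2 * m - p else if p < N then N + p + 1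
  else if p < N + m then 2 * N + 2 * m + 1 else N + p + 1

theorem Lf_lt_Rt {m N p : ℕ} (hN : 2 * m ≤ N) (hp : p < N + 2 * m) :
    Lf m N p < Rt m N p := by
  unfold Lf Rt
  split_ifs <;> omega

/-- The bars: the bar with number `p` has height `p`. -/
noncomputable def maxBars (m N n : ℕ) (hN : 2 * m ≤ N) (hn : n = N + 2 * m) : Bars n where
  left p := (Lf m N p : ℝ)
  right p := (Rt m N p : ℝ)
  height p := ((p : ℕ) : ℝ)
  left_lt_right p := by exact_mod_cast Lf_lt_Rt hN (by omega)
  disjoint i j hij h := by
    exfalso
    apply hij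
    exact Fin.ext (by exact_mod_cast h)

theorem sees_crit {m N n : ℕ} (hN : 2 * m ≤ N) (hn : n = N + 2 * m) (k : ℕ) (p q : Fin n)
    (hpq : (p : ℕ) < q) (x a b c d : ℕ) (h1 : Lf m N p ≤ x ∧ x ≤ Rt m N p)
    (h2 : Lf m N q ≤ x ∧ x ≤ Rt m N q)
    (h3 : ∀ r : ℕ, (p : ℕ) < r → r < (q : ℕ) → Lf m N r ≤ x → x ≤ Rt m N r →
      (a ≤ r ∧ r < b) ∨ (c ≤ r ∧ r < d)) (h4 : (b - a) + (d - c) ≤ k) :
    (maxBars m N n hN hn).Sees k p q := by
  refine ⟨(x : ℝ), ⟨?_, ?_⟩, ⟨?_, ?_⟩, ?_⟩
  · show ((Lf m N p : ℕ) : ℝ) ≤ x
    exact_mod_cast h1.1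
  · show (x : ℝ) ≤ ((Rt m N p : ℕ) : ℝ)
    exact_mod_cast h1.2
  · show ((Lf m N q : ℕ) : ℝ) ≤ x
    exact_mod_cast h2.1
  · show (x : ℝ) ≤ ((Rt m N q : ℕ) : ℝ)
    exact_mod_cast h2.2
  · refine (ncard_le_of_val2 (a := a) (b := b) (c := c) (d := d) _ ?_).trans h4
    rintro r ⟨e1, e2, ⟨e3, e4⟩, e5⟩
    change ((Lf m N r : ℕ) : ℝ) ≤ x at e3
    change (x : ℝ) ≤ ((Rt m N r : ℕ) : ℝ) at e4
    change ((r : ℕ) : ℝ) ∈ Set.uIcc ((p : ℕ) : ℝ) ((q : ℕ) : ℝ) at e5
    rw [Set.uIcc_of_le (by exact_mod_cast hpq.le)] at e5
    have e6 : (p : ℕ) ≤ r := by exact_mod_cast e5.1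
    have e7 : (r : ℕ) ≤ q := by exact_mod_cast e5.2
    have e8 : (r : ℕ) ≠ p := fun h => e1 (Fin.ext h)
    have e9 : (r : ℕ) ≠ q := fun h => e2 (Fin.ext h)
    exact h3 r (by omega) (by omega) (by exact_mod_cast e3) (by exact_mod_cast e4)

/-- the adjacencies that we need, for `p < q` -/
def madj (m N p q : ℕ) : Prop :=
  p < m ∨ N ≤ p ∨ (p < 2 * m ∧ (q < N ∨ N + m ≤ q)) ∨ (N - m ≤ p ∧ q < N + m) ∨
    (2 * m ≤ p ∧ q ≤ p + m) ∨ (2 * m ≤ p ∧ N - m ≤ p ∧ q ≤ p + 2 * m)

set_option maxHeartbeats 4000000 in
theorem sees_of_madj {m N n k : ℕ} (hm : m = k + 1) (hN : 2 * m ≤ N) (hn : n = N + 2 * m)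
    (p q : Fin n) (hpq : (p : ℕ) < q) (h : madj m N p q) :
    (maxBars m N n hN hn).Sees k p q := by
  have hq := q.2
  obtain ⟨p', hp'⟩ : ∃ p' : ℕ, p' = p := ⟨_, rfl⟩
  obtain ⟨q', hq'⟩ : ∃ q' : ℕ, q' = q := ⟨_, rfl⟩
  have crit := sees_crit hN hn k p q hpq
  rw [← hp'] at hpq h crit
  rw [← hq'] at hpq h hq crit
  clear hp' hq'
  unfold madj at h
  by_cases c1 : p' < m
  · by_cases d1 : q' < m
    · apply crit q' p' 0 (p' + 1) q'
      · unfold Lf Rt; split_ifs <;> omega
      · unfold Lf Rt; split_ifs <;> omega
      · intro r h1 h2 h3 h4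
        right; omega
      · omega
    · by_cases d2 : q' < N
      · apply crit (N + q' + 1) (p' + 1) m 0 0
        · unfold Lf Rt; split_ifs <;> omega
        · unfold Lf Rt; split_ifs <;> omega
        · intro r h1 h2 h3 h4
          left
          unfold Lf at h3
          unfold Rt at h4
          split_ifs at h3 h4 <;> omega
        · omega
      · by_cases d3 : q' < N + m
        · apply crit (2 * N + 2 * m - p') N q' 0 0
          · unfold Lf Rt; split_ifs <;> omega
          · unfold Lf Rt; split_ifs <;> omega
          · intro r h1 h2 h3 h4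
            left
            unfold Lf at h3
            unfold Rt at h4
            split_ifs at h3 h4 <;> omega
          · omega
        · by_cases d4 : p' ≤ N + 2 * m - 1 - q'
          · apply crit (N + 2 * m - 1 - q') (p' + 1) (N + 2 * m - q') 0 0
            · unfold Lf Rt; split_ifs <;> omega
            · unfold Lf Rt; split_ifs <;> omega
            · intro r h1 h2 h3 h4
              left
              unfold Lf at h3
              unfold Rt at h4
              split_ifs at h3 h4 <;> omega
            · omega
          · apply crit p' (N + 2 * m - 1 - p') q' 0 0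
            · unfold Lf Rt; split_ifs <;> omega
            · unfold Lf Rt; split_ifs <;> omega
            · intro r h1 h2 h3 h4
              left
              unfold Lf at h3
              unfold Rt at h4
              split_ifs at h3 h4 <;> omega
            · omega
  · by_cases c2 : N ≤ p'
    · by_cases d1 : p' < N + m
      · by_cases d2 : q' < N + m
        · apply crit (2 * N + m - p') (p' + 1) q' 0 0
          · unfold Lf Rt; split_ifs <;> omega
          · unfold Lf Rt; split_ifs <;> omega
          · intro r h1 h2 h3 h4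
            left; omega
          · omega
        · apply crit (N + q' + 1) (p' + 1) (N + m) 0 0
          · unfold Lf Rt; split_ifs <;> omega
          · unfold Lf Rt; split_ifs <;> omega
          · intro r h1 h2 h3 h4
            left
            unfold Lf at h3
            unfold Rt at h4
            split_ifs at h3 h4 <;> omega
          · omega
      · apply crit (N + 2 * m - 1 - p') (p' + 1) q' 0 0
        · unfold Lf Rt; split_ifs <;> omega
        · unfold Lf Rt; split_ifs <;> omega
        · intro r h1 h2 h3 h4
          left; omega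
        · omega
    · by_cases d1 : q' < N
      · by_cases c3 : p' < 2 * m
        · by_cases d2 : q' < 2 * m
          · apply crit (q' + 1) (p' + 1) q' 0 0
            · unfold Lf Rt; split_ifs <;> omega
            · unfold Lf Rt; split_ifs <;> omega
            · intro r h1 h2 h3 h4
              left; omega
            · omega
          · apply crit (N + 2 * m - q') (p' + 1) (2 * m) 0 0
            · unfold Lf Rt; split_ifs <;> omega
            · unfold Lf Rt; split_ifs <;> omega
            · intro r h1 h2 h3 h4
              left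
              unfold Lf at h3
              unfold Rt at h4
              split_ifs at h3 h4 <;> omega
            · omega
        · apply crit (N + 2 * m - p') (p' + 1) q' 0 0
          · unfold Lf Rt; split_ifs <;> omega
          · unfold Lf Rt; split_ifs <;> omega
          · intro r h1 h2 h3 h4
            left; omega
          · omega
      · by_cases d2 : q' < N + m
        · apply crit (2 * N + m - q') (p' + 1) N 0 0
          · unfold Lf Rt; split_ifs <;> omega
          · unfold Lf Rt; split_ifs <;> omega
          · intro r h1 h2 h3 h4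
            left
            unfold Lf at h3
            unfold Rt at h4
            split_ifs at h3 h4 <;> omega
          · omega
        · by_cases c3 : p' < 2 * m
          · apply crit (p' + 1) (N + m) q' 0 0
            · unfold Lf Rt; split_ifs <;> omega
            · unfold Lf Rt; split_ifs <;> omega
            · intro r h1 h2 h3 h4
              left
              unfold Lf at h3
              unfold Rt at h4
              split_ifs at h3 h4 <;> omega
            · omega
          · apply crit (N + 2 * m - p') (p' + 1) N (N + m) q'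
            · unfold Lf Rt; split_ifs <;> omega
            · unfold Lf Rt; split_ifs <;> omega
            · intro r h1 h2 h3 h4
              unfold Lf at h3
              unfold Rt at h4
              split_ifs at h3 h4 <;> omega
            · omega

end Run7.h68
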