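import Pool.Agent.Run7.h68.MaxBars
import Pool.Agent.Run7.h68.Euler

/-!
# The number of edges of the edge-maximal bar `k`-visibility graphs
-/

set_option autoImplicit false

open Finset

namespace Run7.h68

/-- the graph -/
def mgraph (m N n : ℕ) : SimpleGraph (Fin n) where
  Adj p q := ((p : ℕ) < q ∧ madj m N p q) ∨ ((q : ℕ) < p ∧ madj m N q p)
  symm := ⟨fun _ _ h => h.symm⟩
  loopless := ⟨fun _ h => by rcases h with h | h <;> exact lt_irrefl _ h.1⟩

theorem sum_linear (c : ℤ) (a b : ℕ) (h : a ≤ b) :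
    2 * ∑ p ∈ Finset.Ico a b, (c - (p : ℤ)) = ((b : ℤ) - a) * (2 * c - a - b + 1) := by
  induction b, h using Nat.le_induction with
  | base => simp
  | succ b hab ih =>
    rw [Finset.sum_Ico_succ_top hab, mul_add, ih]
    push_cast
    ring

/-- the upper neighbours -/
def upn (m N p : ℕ) : Finset ℕ :=
  if p < m ∨ N ≤ p then Finset.Ioo p (N + 2 * m)
  else if p < 2 * m then
    (if N - m ≤ p then Finset.Ioo p (N + 2 * m) else Finset.Ioo p N ∪ Finset.Ico (N + m) (N + 2 * m))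
  else if N - m ≤ p then Finset.Ioc p (p + 2 * m)
  else Finset.Ioc p (p + m)

/-- the number of upper neighbours -/
def unum (m N p : ℕ) : ℤ :=
  (if p < m then (N + 2 * m - 1 : ℤ) - p
  else if p < 2 * m then (N - 1 + m : ℤ) - p
  else if p < N then (m : ℤ)
  else (N + 2 * m - 1 : ℤ) - p) + (if N - m ≤ p ∧ p < N then (m : ℤ) else 0)

theorem upn_card {m N p : ℕ} (hN : 2 * m ≤ N) (hp : p < N + 2 * m) :
    unum m N p ≤ ((upn m N p).card : ℤ) := by
  unfold unum upn
  by_cases c1 : p < m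
  · rw [if_pos c1, if_pos (Or.inl c1), Nat.card_Ioo, if_neg (by omega)]
    omega
  · by_cases c2 : N ≤ p
    · rw [if_neg c1, if_neg (by omega), if_neg (by omega), if_pos (Or.inr c2), Nat.card_Ioo,
        if_neg (by omega)]
      omega
    · rw [if_neg c1, if_neg (show ¬ (p < m ∨ N ≤ p) by omega)]
      by_cases c3 : p < 2 * m
      · rw [if_pos c3, if_pos c3]
        by_cases c4 : N - m ≤ p
        · rw [if_pos c4, if_pos ⟨c4, by omega⟩, Nat.card_Ioo]
          omega
        · rw [if_neg c4, if_neg (fun h => c4 h.1), Finset.card_union_of_disjoint, Nat.card_Ioo,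
            Nat.card_Ico]
          · omega
          · rw [Finset.disjoint_left]
            intro q h1 h2
            rw [Finset.mem_Ioo] at h1
            rw [Finset.mem_Ico] at h2
            omega
      · rw [if_neg c3, if_neg c3]
        by_cases c4 : N - m ≤ p
        · rw [if_pos c4, if_pos (show p < N by omega), if_pos ⟨c4, by omega⟩, Nat.card_Ioc]
          omega
        · rw [if_neg c4, if_pos (show p < N by omega), if_neg (fun h => c4 h.1), Nat.card_Ioc]
          omega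

theorem upn_spec {m N p q : ℕ} (hN : 2 * m ≤ N) (hp : p < N + 2 * m) (h : q ∈ upn m N p) :
    p < q ∧ q < N + 2 * m ∧ madj m N p q := by
  unfold upn at h
  unfold madj
  split_ifs at h with c1 c2 c3 c4
  · rw [Finset.mem_Ioo] at h
    omega
  · rw [Finset.mem_Ioo] at h
    omega
  · rw [Finset.mem_union, Finset.mem_Ioo, Finset.mem_Ico] at h
    omega
  · rw [Finset.mem_Ioc] at h
    omega
  · rw [Finset.mem_Ioc] at h
    omega

theorem sum_unum {m N : ℕ} (hN : 2 * m ≤ N) :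
    (6 * m * N + 4 * m * m - 4 * m : ℤ) ≤ 2 * ∑ p ∈ Finset.Ico 0 (N + 2 * m), unum m N p := by
  unfold unum
  rw [Finset.sum_add_distrib, mul_add]
  have h1 : (m * m : ℤ) ≤ ∑ p ∈ Finset.Ico 0 (N + 2 * m),
      (if N - m ≤ p ∧ p < N then (m : ℤ) else 0) := by
    have h2 : Finset.Ico (N - m) N ⊆ Finset.Ico 0 (N + 2 * m) := by
      intro p hp
      rw [Finset.mem_Ico] at hp ⊢
      omega
    refine le_trans ?_ (Finset.sum_le_sum_of_subset_of_nonneg h2 (fun p _ _ => by
      split_ifs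
      · exact Int.natCast_nonneg m
      · exact le_refl _))
    rw [Finset.sum_congr rfl (fun p hp => if_pos (Finset.mem_Ico.1 hp)), Finset.sum_const,
      Nat.card_Ico, nsmul_eq_mul]
    have h3 : N - (N - m) = m := by omega
    rw [h3]
  rw [← Finset.sum_Ico_consecutive _ (Nat.zero_le m) (show m ≤ N + 2 * m by omega),
    ← Finset.sum_Ico_consecutive _ (show m ≤ 2 * m by omega) (show 2 * m ≤ N + 2 * m by omega),
    ← Finset.sum_Ico_consecutive _ hN (show N ≤ N + 2 * m by omega)]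
  have e1 : ∑ p ∈ Finset.Ico 0 m, (if p < m then (N + 2 * m - 1 : ℤ) - p
      else if p < 2 * m then (N - 1 + m : ℤ) - p
      else if p < N then (m : ℤ) else (N + 2 * m - 1 : ℤ) - p) =
      ∑ p ∈ Finset.Ico 0 m, ((N + 2 * m - 1 : ℤ) - (p : ℤ)) := by
    apply Finset.sum_congr rfl
    intro p hp
    rw [Finset.mem_Ico] at hp
    rw [if_pos hp.2]
  have e2 : ∑ p ∈ Finset.Ico m (2 * m), (if p < m then (N + 2 * m - 1 : ℤ) - p
      else if p < 2 * m then (N - 1 + m : ℤ) - p
      else if p < N then (m : ℤ) else (N + 2 * m - 1 : ℤ) - p) =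
      ∑ p ∈ Finset.Ico m (2 * m), ((N - 1 + m : ℤ) - (p : ℤ)) := by
    apply Finset.sum_congr rfl
    intro p hp
    rw [Finset.mem_Ico] at hp
    rw [if_neg (by omega), if_pos hp.2]
  have e3 : ∑ p ∈ Finset.Ico (2 * m) N, (if p < m then (N + 2 * m - 1 : ℤ) - p
      else if p < 2 * m then (N - 1 + m : ℤ) - p
      else if p < N then (m : ℤ) else (N + 2 * m - 1 : ℤ) - p) =
      ∑ p ∈ Finset.Ico (2 * m) N, (m : ℤ) := by
    apply Finset.sum_congr rfl
    intro p hp
    rw [Finset.mem_Ico] at hp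
    rw [if_neg (by omega), if_neg (by omega), if_pos hp.2]
  have e4 : ∑ p ∈ Finset.Ico N (N + 2 * m), (if p < m then (N + 2 * m - 1 : ℤ) - p
      else if p < 2 * m then (N - 1 + m : ℤ) - p
      else if p < N then (m : ℤ) else (N + 2 * m - 1 : ℤ) - p) =
      ∑ p ∈ Finset.Ico N (N + 2 * m), ((N + 2 * m - 1 : ℤ) - (p : ℤ)) := by
    apply Finset.sum_congr rfl
    intro p hp
    rw [Finset.mem_Ico] at hp
    rcases Nat.eq_zero_or_pos m with h0 | h0
    · subst h0
      omega
    · rw [if_neg (by omega), if_neg (by omega), if_neg (by omega)]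
  rw [e1, e2, e3, e4]
  have s1 := sum_linear (N + 2 * m - 1 : ℤ) 0 m (Nat.zero_le _)
  have s2 := sum_linear (N - 1 + m : ℤ) m (2 * m) (by omega)
  have s4 := sum_linear (N + 2 * m - 1 : ℤ) N (N + 2 * m) (by omega)
  have s3 : ∑ p ∈ Finset.Ico (2 * m) N, (m : ℤ) = ((N : ℤ) - 2 * m) * m := by
    rw [Finset.sum_const, Nat.card_Ico, nsmul_eq_mul, Nat.cast_sub hN]
    push_cast
    ring
  rw [mul_add, mul_add, mul_add, s1, s2, s3, s4]
  push_cast
  nlinarith [h1]

theorem mgraph_darts {m N n : ℕ} (hN : 2 * m ≤ N) (hn : n = N + 2 * m)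
    [Fintype (mgraph m N n).Dart] :
    (6 * m * N + 4 * m * m - 4 * m : ℤ) ≤ (Fintype.card (mgraph m N n).Dart : ℤ) := by
  classical
  let A : Finset (mgraph m N n).Dart := univ.filter (fun d => (d.fst : ℕ) < d.snd)
  let B : Finset (mgraph m N n).Dart := univ.filter (fun d => ¬ (d.fst : ℕ) < d.snd)
  have hAB : A.card + B.card = Fintype.card (mgraph m N n).Dart := by
    have := Finset.card_filter_add_card_filter_not (s := (univ : Finset (mgraph m N n).Dart))
      (fun d => (d.fst : ℕ) < d.snd)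
    rw [Finset.card_univ] at this
    exact this
  have hBA : A.card ≤ B.card := by
    apply Finset.card_le_card_of_injOn (fun d => d.symm)
    · intro d hd
      have hd' := (mem_filter.1 hd).2
      rw [Finset.mem_coe, mem_filter]
      refine ⟨mem_univ _, ?_⟩
      show ¬ (d.snd : ℕ) < d.fst
      omega
    · intro d _ d' _ h
      have : d.symm.symm = d'.symm.symm := by
        show d.symm.symm = d'.symm.symm
        exact congrArg _ h
      rwa [d.symm_symm, d'.symm_symm] at this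
  have hT : ((Finset.Ico 0 n).sigma (fun p => upn m N p)).card ≤ A.card := by
    apply Finset.card_le_card_of_surjOn
      (fun d : (mgraph m N n).Dart => (⟨(d.fst : ℕ), (d.snd : ℕ)⟩ : (_ : ℕ) × ℕ))
    rintro ⟨p, q⟩ hpq
    rw [Finset.mem_coe, Finset.mem_sigma] at hpq
    obtain ⟨h1, h2⟩ := hpq
    have h1' : p < n := (Finset.mem_Ico.1 h1).2
    have h2' : q ∈ upn m N p := h2
    obtain ⟨h3, h4, h5⟩ := upn_spec hN (show p < N + 2 * m by omega) h2'
    have h4' : q < n := by omega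
    refine ⟨⟨(⟨p, h1'⟩, ⟨q, h4'⟩), Or.inl ⟨h3, h5⟩⟩, ?_, rfl⟩
    rw [Finset.mem_coe, mem_filter]
    exact ⟨mem_univ _, h3⟩
  rw [Finset.card_sigma] at hT
  have hsum := sum_unum hN
  have hle : ∑ p ∈ Finset.Ico 0 (N + 2 * m), unum m N p ≤
      ((∑ p ∈ Finset.Ico 0 n, (upn m N p).card : ℕ) : ℤ) := by
    rw [hn]
    push_cast
    apply Finset.sum_le_sum
    intro p hp
    exact upn_card hN (Finset.mem_Ico.1 hp).2
  have hA : ((∑ p ∈ Finset.Ico 0 n, (upn m N p).card : ℕ) : ℤ) ≤ A.card := by exact_mod_cast hT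
  have hBA' : (A.card : ℤ) ≤ B.card := by exact_mod_cast hBA
  have hAB' : (A.card : ℤ) + B.card = Fintype.card (mgraph m N n).Dart := by exact_mod_cast hAB
  linarith

/-- the genus of the edge-maximal graphs -/
theorem mgraph_genus {m N n g : ℕ} (hm : 2 ≤ m) (hN : 2 * m ≤ N) (hn : n = N + 2 * m)
    (h : EmbedsIn (mgraph m N n) g) :
    (6 * m * N + 4 * m * m - 4 * m + 12 : ℤ) ≤ 6 * n + 12 * g := by
  classical
  have h0 : (mgraph m N n).Adj ⟨0, by omega⟩ ⟨1, by omega⟩ := by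
    left
    refine ⟨by show 0 < 1; omega, ?_⟩
    unfold madj
    left
    show 0 < m
    omega
  have hlow : ∀ p q : Fin n, (p : ℕ) ≠ q → ((p : ℕ) < 2 ∨ (q : ℕ) < 2) →
      (mgraph m N n).Adj p q := by
    intro p q hpq hor
    rcases lt_or_gt_of_ne hpq with h1 | h1
    · left
      refine ⟨h1, ?_⟩
      unfold madj
      left; omega
    · right
      refine ⟨h1, ?_⟩
      unfold madj
      left; omega
  have hE := euler_bound (mgraph m N n) h ⟨⟨(_, _), h0⟩⟩ (by
    intro d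
    have hd : (d.fst : ℕ) ≠ d.snd := fun h => d.adj.ne (Fin.ext h)
    obtain ⟨r, hr1, hr2, hr3⟩ : ∃ r : ℕ, r < 3 ∧ r ≠ d.fst ∧ r ≠ d.snd := by
      by_cases c0 : (0 : ℕ) ≠ d.fst ∧ (0 : ℕ) ≠ d.snd
      · exact ⟨0, by omega, c0.1, c0.2⟩
      · by_cases c1 : (1 : ℕ) ≠ d.fst ∧ (1 : ℕ) ≠ d.snd
        · exact ⟨1, by omega, c1.1, c1.2⟩
        · exact ⟨2, by omega, by omega, by omega⟩
    obtain ⟨r', hr'⟩ : ∃ r' : ℕ, r' < n ∧ r' ≠ d.fst ∧ r' ≠ d.snd ∧ ((d.fst : ℕ) < 2 ∨ r' < 2) := by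
      by_cases c : (d.fst : ℕ) < 2
      · exact ⟨r, by omega, hr2, hr3, Or.inl c⟩
      · by_cases c0 : (0 : ℕ) = d.snd
        · exact ⟨1, by omega, by omega, by omega, Or.inr (by omega)⟩
        · exact ⟨0, by omega, by omega, by omega, Or.inr (by omega)⟩
    obtain ⟨hrn, hra, hrb, hrc⟩ := hr'
    refine ⟨⟨(d.fst, ⟨r', hrn⟩), hlow _ _ (Ne.symm hra) hrc⟩, rfl, ?_⟩
    intro hcon
    apply hrb
    have : ((⟨(d.fst, ⟨r', hrn⟩), hlow _ _ (Ne.symm hra) hrc⟩ : (mgraph m N n).Dart).snd : ℕ)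
        = d.snd := by rw [hcon]
    exact this)
  have hD := mgraph_darts hN hn
  have hE' : (Fintype.card (mgraph m N n).Dart : ℤ) + 12 ≤ 6 * Fintype.card (Fin n) + 12 * g := by
    exact_mod_cast hE
  rw [Fintype.card_fin] at hE'
  linarith

/-- removing bars keeps visibility -/
def Bars.restrict {n n' : ℕ} (S : Bars n) (ι : Fin n' → Fin n) (hι : Function.Injective ι) :
    Bars n' where
  left i := S.left (ι i)
  right i := S.right (ι i)
  height i := S.height (ι i)
  left_lt_right i := S.left_lt_right _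
  disjoint i j hij h := S.disjoint _ _ (fun h' => hij (hι h')) h

theorem Bars.restrict_sees {n n' : ℕ} (S : Bars n) (ι : Fin n' → Fin n)
    (hι : Function.Injective ι) {k : ℕ} {i j : Fin n'} (h : S.Sees k (ι i) (ι j)) :
    (S.restrict ι hι).Sees k i j := by
  obtain ⟨x, h1, h2, h3⟩ := h
  refine ⟨x, h1, h2, ?_⟩
  refine le_trans ?_ h3
  rw [← Set.ncard_image_of_injective _ hι]
  apply Set.ncard_le_ncard _ (Set.toFinite _)
  rintro _ ⟨m, ⟨e1, e2, e3, e4⟩, rfl⟩
  exact ⟨fun h' => e1 (hι h'), fun h' => e2 (hι h'), e3, e4⟩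

/-- complete graphs with at most `4 k + 4` vertices are bar `k`-visibility graphs -/
theorem complete_isBar {n k : ℕ} (hn : n ≤ 4 * k + 4) :
    IsBarVisibility k (⊤ : SimpleGraph (Fin n)) := by
  let S := maxBars (k + 1) (2 * (k + 1)) (4 * k + 4) (le_refl _) (by ring)
  refine ⟨S.restrict (Fin.castLE hn) (Fin.castLE_injective hn), ?_⟩
  have key : ∀ i j : Fin n, (i : ℕ) < j →
      (S.restrict (Fin.castLE hn) (Fin.castLE_injective hn)).Sees k i j := by
    intro i j hij
    apply Bars.restrict_sees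
    apply sees_of_madj rfl (le_refl _) (by ring)
    · show (i : ℕ) < j
      exact hij
    · show madj (k + 1) (2 * (k + 1)) i j
      unfold madj
      omega
  intro i j
  rw [SimpleGraph.top_adj]
  constructor
  · intro hne
    refine ⟨hne, ?_⟩
    have hne' : (i : ℕ) ≠ j := fun h => hne (Fin.ext h)
    rcases lt_or_gt_of_ne hne' with h | h
    · exact key i j h
    · exact Bars.sees_comm _ k (key j i h)
  · exact fun h => h.1

theorem complete_genus {n g : ℕ} (hn : 3 ≤ n) (h : EmbedsIn (⊤ : SimpleGraph (Fin n)) g) :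
    n * (n - 1) + 12 ≤ 6 * n + 12 * g := by
  classical
  have hE := euler_bound (⊤ : SimpleGraph (Fin n)) h
    ⟨⟨(⟨0, by omega⟩, ⟨1, by omega⟩), by
      rw [SimpleGraph.top_adj]
      intro h
      exact absurd (congrArg Fin.val h) (by show ¬ (0 : ℕ) = 1; omega)⟩⟩ (by
    intro d
    obtain ⟨r, hr1, hr2, hr3⟩ : ∃ r : ℕ, r < 3 ∧ r ≠ d.fst ∧ r ≠ d.snd := by
      by_cases c0 : (0 : ℕ) ≠ d.fst ∧ (0 : ℕ) ≠ d.snd
      · exact ⟨0, by omega, c0.1, c0.2⟩
      · by_cases c1 : (1 : ℕ) ≠ d.fst ∧ (1 : ℕ) ≠ d.snd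
        · exact ⟨1, by omega, c1.1, c1.2⟩
        · exact ⟨2, by omega, by omega, by omega⟩
    have hadj : (⊤ : SimpleGraph (Fin n)).Adj d.fst ⟨r, by omega⟩ := by
      rw [SimpleGraph.top_adj]
      intro h
      exact hr2 (congrArg Fin.val h).symm
    refine ⟨⟨(d.fst, ⟨r, by omega⟩), hadj⟩, rfl, ?_⟩
    intro hcon
    apply hr3
    have : ((⟨(d.fst, ⟨r, by omega⟩), hadj⟩ : (⊤ : SimpleGraph (Fin n)).Dart).snd : ℕ)
        = d.snd := by rw [hcon]
    exact this)
  have hD : Fintype.card (⊤ : SimpleGraph (Fin n)).Dart = n * (n - 1) := by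
    rw [SimpleGraph.dart_card_eq_sum_degrees]
    simp
  rw [hD, Fintype.card_fin] at hE
  exact hE

end Run7.h68
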