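import Pool.Agent.Run7.h68.Upper

/-!
# The upper bound
-/

set_option autoImplicit false

open Finset

namespace Run7.h68

theorem genus_upper {n k : ℕ} (hn : 0 < n) (hk : 0 < k) {G : SimpleGraph (Fin n)}
    (hG : IsBarVisibility k G) (γ : ℕ)
    (hγ : (k * n : ℝ) + 280 * ((k : ℝ) ^ (2 / 3 : ℝ) * (1 + Real.log k) * n) + 1980 * k ^ 2 ≤
      2 * γ) : EmbedsIn G γ := by
  have hk1 : (1 : ℝ) ≤ k := by exact_mod_cast hk
  obtain ⟨x, hx⟩ : ∃ x : ℝ, x = (k : ℝ) ^ (1 / 3 : ℝ) := ⟨_, rfl⟩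
  have hx1 : 1 ≤ x := by
    rw [hx]
    exact Real.one_le_rpow hk1 (by norm_num)
  have hx3 : x ^ 3 = k := by
    rw [hx, ← Real.rpow_natCast, ← Real.rpow_mul (by positivity)]
    norm_num
  have hx2 : x ^ 2 = (k : ℝ) ^ (2 / 3 : ℝ) := by
    rw [hx, ← Real.rpow_natCast, ← Real.rpow_mul (by positivity)]
    norm_num
  obtain ⟨s, hs⟩ : ∃ s : ℕ, s = ⌈x⌉₊ := ⟨_, rfl⟩
  have hs1 : x ≤ s := by rw [hs]; exact Nat.le_ceil x
  have hs2 : (s : ℝ) ≤ 2 * x := by
    have := Nat.ceil_lt_add_one (a := x) (by linarith)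
    rw [← hs] at this
    linarith
  have hs0 : 0 < s := by
    have : (0 : ℝ) < s := by linarith
    exact_mod_cast this
  have hks : k ≤ s ^ 3 := by
    have : (k : ℝ) ≤ (s : ℝ) ^ 3 := by
      rw [← hx3]
      exact pow_le_pow_left₀ (by linarith) hs1 3
    exact_mod_cast this
  obtain ⟨m, hm⟩ : ∃ m : ℕ, m = k / s + 2 * s + 4 := ⟨_, rfl⟩
  have hms1 : m * s ≤ k + 2 * s ^ 2 + 4 * s := by
    rw [hm]
    have := Nat.div_mul_le_self k s
    calc (k / s + 2 * s + 4) * s = k / s * s + 2 * s ^ 2 + 4 * s := by ring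
      _ ≤ _ := by omega
  have hms2 : 1 + k + 2 * (s * (k / (s ^ 2 + 1) + 1)) ≤ m * s := by
    have h1 := Nat.lt_div_mul_add (a := k) hs0
    have h2 : k / (s ^ 2 + 1) ≤ s := by
      apply Nat.div_le_of_le_mul
      calc k ≤ s ^ 3 := hks
        _ ≤ (s ^ 2 + 1) * s := by ring_nf; omega
    have h3 : s * (k / (s ^ 2 + 1) + 1) ≤ s * (s + 1) := Nat.mul_le_mul_left s (by omega)
    have h4 : s * (s + 1) = s ^ 2 + s := by ring
    have h5 : m * s = k / s * s + 2 * s ^ 2 + 4 * s := by rw [hm]; ring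
    omega
  have hm9 : (m : ℝ) ≤ 9 * x ^ 2 := by
    have h1 : ((k / s : ℕ) : ℝ) ≤ x ^ 2 := by
      have h2 : ((k / s : ℕ) : ℝ) ≤ (k : ℝ) / s := Nat.cast_div_le
      refine h2.trans ?_
      rw [div_le_iff₀ (by linarith), ← hx3]
      have h3 := mul_le_mul_of_nonneg_left hs1 (show (0 : ℝ) ≤ x ^ 2 by positivity)
      linarith [h3, show x ^ 3 = x ^ 2 * x by ring]
    rw [hm]
    push_cast
    nlinarith
  have hms : (m * s : ℝ) ≤ k + 16 * x ^ 2 := by
    have h1 : (m * s : ℝ) ≤ k + 2 * s ^ 2 + 4 * s := by exact_mod_cast hms1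
    nlinarith
  have hxk : x ^ 2 ≤ k := by
    rw [← hx3]
    nlinarith [sq_nonneg x]
  have hH : (harmonic s : ℝ) ≤ 2 * (1 + Real.log k) := by
    have h1 := harmonic_le_one_add_log s
    have h2 : Real.log s ≤ Real.log (2 * x) := Real.log_le_log (by linarith) hs2
    have h3 : Real.log (2 * x) = Real.log 2 + Real.log x := Real.log_mul (by norm_num) (by linarith)
    have h4 : Real.log x = (1 / 3) * Real.log k := by
      rw [hx, Real.log_rpow (by linarith)]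
    have h5 : Real.log 2 ≤ 1 := by
      have := Real.log_two_lt_d9
      linarith
    have h6 : 0 ≤ Real.log k := Real.log_nonneg hk1
    linarith
  have hlog : 0 ≤ Real.log k := Real.log_nonneg hk1
  have hn1 : (1 : ℝ) ≤ n := by exact_mod_cast hn
  apply embeds_raw (r := s) (m := m) (g := s ^ 2) (z := s ^ 2 + s) hn hs0
    (by rw [hm]; exact Nat.succ_pos _) le_rfl hms2
    hG γ
  have hmain : (n * (m * s) + 25 * n * s + 17 * n * ((s ^ 2 + s : ℕ) : ℝ)) +
      6 * n * m * (harmonic s : ℝ) + 3 / 2 * (2 * (m * s) + s) ^ 2 + n + 2 * (m * s) + 2 ≤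
      2 * γ := by
    refine le_trans ?_ hγ
    rw [← hx2]
    push_cast
    have e0 : (0 : ℝ) ≤ x ^ 2 := by positivity
    have e1 : (n : ℝ) * (m * s) ≤ n * (k + 16 * x ^ 2) :=
      mul_le_mul_of_nonneg_left hms (by linarith)
    have e2 : 25 * (n : ℝ) * s ≤ 50 * (n * x ^ 2) := by
      have : (s : ℝ) ≤ 2 * x ^ 2 := by nlinarith
      nlinarith
    have e3 : 17 * (n : ℝ) * (s ^ 2 + s) ≤ 102 * (n * x ^ 2) := by
      have : (s : ℝ) ^ 2 + s ≤ 6 * x ^ 2 := by nlinarith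
      nlinarith
    have e4 : 6 * (n : ℝ) * m * harmonic s ≤ 108 * (n * (x ^ 2 * (1 + Real.log k))) := by
      have h1 : (m : ℝ) * harmonic s ≤ 9 * x ^ 2 * (2 * (1 + Real.log k)) := by
        apply mul_le_mul hm9 hH
        · exact_mod_cast (harmonic_pos hs0.ne').le
        · positivity
      have h2 := mul_le_mul_of_nonneg_left h1 (show (0 : ℝ) ≤ 6 * n by linarith)
      linarith
    have hxx : x ≤ x ^ 2 := by nlinarith
    have e5 : (2 * (m * s : ℝ) + s) ≤ 36 * k := by linarith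
    have e6 : (2 * (m * s : ℝ) + s) ^ 2 ≤ (36 * k) ^ 2 := by
      apply pow_le_pow_left₀ _ e5
      positivity
    have e7 : (n : ℝ) ≤ n * x ^ 2 := by nlinarith
    have e8 : (0 : ℝ) ≤ n * x ^ 2 * Real.log k := by positivity
    have e9 : (k : ℝ) ≤ k ^ 2 := by nlinarith
    nlinarith
  have hcast : ((((n * (m * s) + 25 * n * s + 17 * n * (s ^ 2 + s : ℕ) : ℚ) +
      6 * n * m * harmonic s + 3 / 2 * (2 * (m * s) + s) ^ 2 + n + 2 * (m * s) + 2 : ℚ)) : ℝ) ≤
      ((2 * γ : ℚ) : ℝ) := by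
    push_cast at hmain ⊢
    exact hmain
  exact_mod_cast hcast

end Run7.h68
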