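import Pool.Agent.Run7.h68.LatticeBars
import Pool.Agent.Run7.h68.Main

/-!
# A lower bound for the maximum genus of bar `1`-visibility graphs
-/

set_option autoImplicit false

namespace Run7.h68

theorem maxGenus_one_lower {n : ℕ} (hn : 1 ≤ n) :
    (9 / 16 : ℝ) * n - 5 * Real.sqrt n ≤ maxGenus 1 n := by
  obtain ⟨s, hs⟩ : ∃ s, s = Nat.sqrt n := ⟨_, rfl⟩
  have hs1 : s * s ≤ n := by rw [hs]; exact Nat.sqrt_le n
  have hs2 : n < (s + 1) * (s + 1) := by rw [hs]; exact Nat.lt_succ_sqrt n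
  obtain ⟨q, hq⟩ : ∃ q : ℝ, q = Real.sqrt n := ⟨_, rfl⟩
  have hq0 : 0 ≤ q := by rw [hq]; exact Real.sqrt_nonneg _
  have hqq : q * q = n := by rw [hq]; exact Real.mul_self_sqrt (Nat.cast_nonneg n)
  rw [← hq]
  by_cases hs4 : s < 4
  · -- small values of `n`
    have h1 : q ≤ 4 := by
      by_contra hc
      push Not at hc
      have h2 : (n : ℝ) < 16 := by
        have h3 : n < 16 := by
          have : (s + 1) * (s + 1) ≤ 4 * 4 := Nat.mul_le_mul (by omega) (by omega)
          omega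
        exact_mod_cast h3
      nlinarith
    have h3 : (9 / 16 : ℝ) * n - 5 * q ≤ 0 := by nlinarith
    exact h3.trans (Nat.cast_nonneg _)
  · push Not at hs4
    obtain ⟨m, hm⟩ : ∃ m, s = m + 3 := ⟨s - 3, by omega⟩
    have hm1 : 1 ≤ m := by omega
    obtain ⟨r, hr⟩ : ∃ r, n = (m + 1) * (m + 1) + ((m + 1) + 3) + r := by
      refine ⟨n - ((m + 1) * (m + 1) + ((m + 1) + 3)), ?_⟩
      have : (m + 1) * (m + 1) + ((m + 1) + 3) ≤ n := by
        rw [hm] at hs1
        have e1 : (m + 3) * (m + 3) = (m + 1) * (m + 1) + 4 * m + 8 := by ring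
        omega
      omega
    obtain ⟨G, hG, ι, hι, hadj⟩ := exists_lattice_bars (m + 1) (m + 1) r n (by omega) hr
    obtain ⟨γ, hγ, -⟩ := maxGenus_upper (k := 1) one_pos hn
    have h1 := lattice_genus hm1 (embedsIn_of_map ι hι hadj (embeds_genus (hγ G hG)))
    have h2 : genus G ≤ maxGenus 1 n := by
      apply le_csSup
      · refine ⟨γ, ?_⟩
        rintro g ⟨G', hG', rfl⟩
        exact genus_le_of_embeds (hγ G' hG')
      · exact ⟨G, hG, rfl⟩
    have h3 : (36 * ((m + 1) * (m + 1)) : ℝ) ≤ 64 * maxGenus 1 n + 80 * (m + 1) + 8 := by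
      have h4 : 36 * ((m + 1) * (m + 1)) ≤ 64 * maxGenus 1 n + 80 * (m + 1) + 8 := by omega
      exact_mod_cast h4
    have h5 : q < m + 4 := by
      have h6 : (n : ℝ) < (m + 4) * (m + 4) := by
        rw [hm] at hs2
        exact_mod_cast hs2
      by_contra hc
      push Not at hc
      have h0 : (0 : ℝ) ≤ m := Nat.cast_nonneg m
      nlinarith
    have h6 : (m : ℝ) + 3 ≤ q := by
      have h7 : ((m : ℝ) + 3) * (m + 3) ≤ n := by
        rw [hm] at hs1
        exact_mod_cast hs1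
      by_contra hc
      push Not at hc
      nlinarith
    have h0 : (1 : ℝ) ≤ m := by exact_mod_cast hm1
    rw [← hqq]
    nlinarith

end Run7.h68
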