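import Pool.Agent.Run7.h68.Blocks

/-!
# The pieces of one step
-/

set_option autoImplicit false

open Finset

namespace Run7.h68

section

variable {V R : Type} [LinearOrder V] [AddCommGroup R] [Fintype R] [DecidableEq R]

/-- number of slots of the piece `p` leading from `u` to `v` -/
def cnt (p : Fin 3 × R → V) (u v : V) : ℕ :=
  (univ.filter fun s : Fin 3 × R × R => p (s.1, s.2.1) = u ∧ p (s.1 + 1, s.2.2) = v).card

def cntL (L : List (Fin 3 × R → V)) (u v : V) : ℕ := (L.map (fun p => cnt p u v)).sum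

omit [AddCommGroup R] in
theorem cntL_append (L L' : List (Fin 3 × R → V)) (u v : V) :
    cntL (L ++ L') u v = cntL L u v + cntL L' u v := by
  unfold cntL
  rw [List.map_append, List.sum_append]

omit [AddCommGroup R] in
theorem cntL_range (f : ℕ → (Fin 3 × R → V)) (n : ℕ) (u v : V) :
    cntL ((List.range n).map f) u v = ∑ i ∈ range n, cnt (f i) u v := by
  induction n with
  | zero => rfl
  | succ n ih =>
    rw [List.range_succ, List.map_append, cntL_append, ih, Finset.sum_range_succ]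
    simp [cntL]

/-- the piece with the opposite orientation -/
def prev (p : Fin 3 × R → V) : Fin 3 × R → V := fun x => p (-x.1, x.2)

omit [LinearOrder V] [AddCommGroup R] [Fintype R] [DecidableEq R] in
theorem prev_injective {p : Fin 3 × R → V} (hp : Function.Injective p) :
    Function.Injective (prev p) := by
  rintro ⟨t, i⟩ ⟨t', i'⟩ h
  have h1 := hp h
  simp only [Prod.mk.injEq, neg_inj] at h1
  rw [h1.1, h1.2]

theorem fin3h (t : Fin 3) : -(-(t + 1) + 1) = t := by revert t; decide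
theorem fin3i (t : Fin 3) : -(-(t + 1)) = t + 1 := by revert t; decide
theorem fin3j (t : Fin 3) : -(t + 1) + 1 = -t := by revert t; decide

omit [AddCommGroup R] in
theorem cnt_prev (p : Fin 3 × R → V) (u v : V) : cnt (prev p) u v = cnt p v u := by
  unfold cnt prev
  apply Finset.card_bij (fun s _ => (-(s.1 + 1), s.2.2, s.2.1))
  · rintro ⟨t, i, j⟩ hs
    simp only [mem_filter, mem_univ, true_and] at hs ⊢
    rw [fin3j]
    exact ⟨hs.2, hs.1⟩
  · rintro ⟨t, i, j⟩ _ ⟨t', i', j'⟩ _ h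
    simp only [Prod.mk.injEq, neg_inj, add_left_inj] at h
    rw [h.1, h.2.1, h.2.2]
  · rintro ⟨t, i, j⟩ hs
    simp only [mem_filter, mem_univ, true_and] at hs
    refine ⟨(-(t + 1), j, i), ?_, ?_⟩
    · simp only [mem_filter, mem_univ, true_and]
      rw [fin3i, fin3h]
      exact ⟨hs.2, hs.1⟩
    · simp only [fin3h]

omit [AddCommGroup R] in
theorem cntL_prev (L : List (Fin 3 × R → V)) (u v : V) :
    cntL (L.map prev) u v = cntL L v u := by
  unfold cntL
  rw [List.map_map]
  congr 1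
  apply List.map_congr_left
  intro p _
  exact cnt_prev p u v

end

namespace Ins

variable {V R : Type} [LinearOrder V] {S Y : Finset V} {r m z : ℕ} {y0 y1 : V}
  (I : Ins S Y r m z y0 y1)

section
include I

/-- the block condition on `j` -/
def Good (_ : Ins S Y r m z y0 y1) (j : ℕ) : Prop :=
  (j + 1) * r ≤ rk S y0 ∧ rk S y1 ≤ (j + m) * r

variable {j : ℕ} (hj : I.Good j)

include hj

theorem low_lt {w : V} (hw : w ∈ blkSet r S j) : w < y0 := by
  rw [mem_blkSet, div_eq_iff_mem I.hr] at hw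
  exact I.below (lt_of_lt_of_le hw.2.2 hj.1)

theorem high_gt {w : V} (hw : w ∈ blkSet r S (j + m)) : y1 < w := by
  rw [mem_blkSet, div_eq_iff_mem I.hr] at hw
  exact I.above hw.1 (hj.2.trans hw.2.1)

theorem blk_y {y : V} (hy : y ∈ Y) : j + 1 ≤ rk (S ∪ Y) y / r ∧ rk (S ∪ Y) y / r ≤ j + m := by
  have h1 := I.rkLy hy
  have hr := I.hr
  constructor
  · rw [Nat.le_div_iff_mul_le hr]
    exact hj.1.trans h1.1
  · have h2 : rk (S ∪ Y) y < (j + m + 1) * r := by
      rw [Nat.add_mul (j + m), one_mul]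
      have := hj.2
      omega
    have h3 := (Nat.div_lt_iff_lt_mul hr).2 h2
    omega

theorem pair01 {u v : V} (hu : u ∈ blkSet r S j) (hv : v ∈ blkSet r S (j + m)) :
    u < v ∧ cadj r m S v u ∧ ¬ cadj r m (S ∪ Y) v u := by
  have h1 := I.low_lt hj hu
  have h2 := I.high_gt hj hv
  have h3 : u < v := h1.trans_le (I.le01.trans h2.le)
  rw [mem_blkSet] at hu hv
  refine ⟨h3, ?_, ?_⟩
  · rw [cadj_iff_of_lt hv.1 hu.1 h3, hv.2, hu.2]
  · rw [cadj_iff_of_lt (mem_union_left _ hv.1) (mem_union_left _ hu.1) h3, I.div_above h2,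
      I.div_below h1, hv.2, hu.2]
    omega

theorem pair12 {u y : V} (hu : u ∈ blkSet r S (j + m)) (hy : y ∈ Y) :
    y < u ∧ ¬ cadj r m S u y ∧ cadj r m (S ∪ Y) u y := by
  have h2 := I.high_gt hj hu
  have h3 : y < u := (I.max y hy).trans_lt h2
  rw [mem_blkSet] at hu
  refine ⟨h3, fun h => I.notMem hy h.2.1, ?_⟩
  have h4 := I.blk_y hj hy
  rw [cadj_iff_of_lt (mem_union_left _ hu.1) (mem_union_right _ hy) h3, I.div_above h2, hu.2]
  omega

theorem pair20 {y v : V} (hy : y ∈ Y) (hv : v ∈ blkSet r S j) :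
    v < y ∧ ¬ cadj r m S y v ∧ cadj r m (S ∪ Y) y v := by
  have h2 := I.low_lt hj hv
  have h3 : v < y := h2.trans_le (I.min y hy)
  rw [mem_blkSet] at hv
  refine ⟨h3, fun h => I.notMem hy h.1, ?_⟩
  have h4 := I.blk_y hj hy
  rw [cadj_iff_of_lt (mem_union_right _ hy) (mem_union_left _ hv.1) h3, I.div_below h2, hv.2]
  omega

theorem exists_piece [Fintype R] (hR : Fintype.card R = r) :
    ∃ p : Fin 3 × R → V, (∀ i, p (0, i) ∈ blkSet r S j) ∧ (∀ i, p (1, i) ∈ blkSet r S (j + m)) ∧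
      (∀ i, p (2, i) ∈ Y) ∧ Function.Injective p := by
  classical
  have hhigh := I.high
  have c0 : (blkSet r S j).card = r := by
    apply blkSet_card_eq I.hr
    exact hj.1.trans (rk_le_card S y0)
  have c1 : (blkSet r S (j + m)).card = r := by
    apply blkSet_card_eq I.hr
    have h1 := hj.1
    have h2 := I.lo_le
    have h3 : (j + m + 1) * r = (j + 1) * r + m * r := by ring
    rw [h3]
    omega
  have e0 : R ≃ blkSet r S j := Fintype.equivOfCardEq (by rw [hR, Fintype.card_coe, c0])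
  have e1 : R ≃ blkSet r S (j + m) := Fintype.equivOfCardEq (by rw [hR, Fintype.card_coe, c1])
  have e2 : R ≃ Y := Fintype.equivOfCardEq (by rw [hR, Fintype.card_coe, I.card])
  let p : Fin 3 × R → V := fun x =>
    if x.1 = 0 then (e0 x.2 : V) else if x.1 = 1 then (e1 x.2 : V) else (e2 x.2 : V)
  have p0 : ∀ i, p (0, i) = e0 i := fun i => rfl
  have p1 : ∀ i, p (1, i) = e1 i := fun i => rfl
  have p2 : ∀ i, p (2, i) = e2 i := fun i => rfl
  refine ⟨p, fun i => by rw [p0]; exact (e0 i).2, fun i => by rw [p1]; exact (e1 i).2,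
    fun i => by rw [p2]; exact (e2 i).2, ?_⟩
  have hm := I.hm
  have d01 : ∀ a b, (e0 a : V) ≠ e1 b := by
    intro a b h
    have h1 := (mem_blkSet.1 (e0 a).2).2
    have h2 := (mem_blkSet.1 (e1 b).2).2
    rw [h] at h1
    omega
  have d02 : ∀ a b, (e0 a : V) ≠ e2 b := by
    intro a b h
    exact I.notMem (e2 b).2 (h ▸ (mem_blkSet.1 (e0 a).2).1)
  have d12 : ∀ a b, (e1 a : V) ≠ e2 b := by
    intro a b h
    exact I.notMem (e2 b).2 (h ▸ (mem_blkSet.1 (e1 a).2).1)
  rintro ⟨t, i⟩ ⟨t', i'⟩ h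
  fin_cases t <;> fin_cases t'
  · have h1 : (e0 i : V) = e0 i' := h
    rw [e0.injective (Subtype.ext h1)]
  · exact absurd h (d01 _ _)
  · exact absurd h (d02 _ _)
  · exact absurd h.symm (d01 _ _)
  · have h1 : (e1 i : V) = e1 i' := h
    rw [e1.injective (Subtype.ext h1)]
  · exact absurd h (d12 _ _)
  · exact absurd h.symm (d02 _ _)
  · exact absurd h.symm (d12 _ _)
  · have h1 : (e2 i : V) = e2 i' := h
    rw [e2.injective (Subtype.ext h1)]

end

/-- All new pieces of a step. -/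
theorem exists_pieces [AddCommGroup R] [Fintype R] [DecidableEq R] (I : Ins S Y r m z y0 y1)
    (hR : Fintype.card R = r) :
    ∃ P : List (Fin 3 × R → V), (∀ p ∈ P, Function.Injective p) ∧ P.length ≤ m ∧
      m * r ≤ P.length * r + z + 2 * r ∧
      (∀ u v, v < u → cntL P u v ≤ 1 ∧ (0 < cntL P u v →
        ¬ cadj r m S u v ∧ cadj r m (S ∪ Y) u v)) ∧
      (∀ u v, v < u → cntL P v u ≤ 1 ∧ (0 < cntL P v u →
        cadj r m S u v ∧ ¬ cadj r m (S ∪ Y) u v)) := by
  classical
  obtain ⟨a, b, hJ, hlen, hlow⟩ := I.exists_J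
  have hgood : ∀ i, i < b - a → I.Good (a + i) := by
    intro i hi
    exact hJ (a + i) (by omega) (by omega)
  have hex : ∀ i, ∃ p : Fin 3 × R → V, i < b - a → (∀ k, p (0, k) ∈ blkSet r S (a + i)) ∧
      (∀ k, p (1, k) ∈ blkSet r S (a + i + m)) ∧ (∀ k, p (2, k) ∈ Y) ∧ Function.Injective p := by
    intro i
    by_cases hi : i < b - a
    · obtain ⟨p, hp⟩ := I.exists_piece (hgood i hi) hR
      exact ⟨p, fun _ => hp⟩
    · exact ⟨fun _ => y0, fun h => absurd h hi⟩
  choose p hp using hex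
  refine ⟨(List.range (b - a)).map p, ?_, ?_, ?_, ?_, ?_⟩
  · intro q hq
    rw [List.mem_map] at hq
    obtain ⟨i, hi, rfl⟩ := hq
    exact (hp i (List.mem_range.1 hi)).2.2.2
  · rw [List.length_map, List.length_range]
    exact hlen
  · rw [List.length_map, List.length_range]
    exact hlow
  -- the slots
  all_goals
    have key : ∀ (u v : V) (i : ℕ) (s : Fin 3 × R × R), i < b - a →
        p i (s.1, s.2.1) = u → p i (s.1 + 1, s.2.2) = v →
        (s.1 = 0 ∧ u ∈ S ∧ v ∈ S ∧ rk S u / r = a + i ∧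
          (u < v ∧ cadj r m S v u ∧ ¬ cadj r m (S ∪ Y) v u)) ∨
        (s.1 = 1 ∧ u ∈ S ∧ v ∉ S ∧ rk S u / r = a + i + m ∧
          (v < u ∧ ¬ cadj r m S u v ∧ cadj r m (S ∪ Y) u v)) ∨
        (s.1 = 2 ∧ u ∉ S ∧ v ∈ S ∧ rk S v / r = a + i ∧
          (v < u ∧ ¬ cadj r m S u v ∧ cadj r m (S ∪ Y) u v)) := by
      rintro u v i ⟨t, k, l⟩ hi h1 h2
      obtain ⟨q0, q1, q2, -⟩ := hp i hi
      have hg := hgood i hi
      simp only at h1 h2 ⊢
      fin_cases t
      · left
        have h3 : u ∈ blkSet r S (a + i) := by rw [← h1]; exact q0 k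
        have h4 : v ∈ blkSet r S (a + i + m) := by rw [← h2]; exact q1 l
        exact ⟨rfl, (mem_blkSet.1 h3).1, (mem_blkSet.1 h4).1, (mem_blkSet.1 h3).2,
          I.pair01 hg h3 h4⟩
      · right; left
        have h3 : u ∈ blkSet r S (a + i + m) := by rw [← h1]; exact q1 k
        have h4 : v ∈ Y := by rw [← h2]; exact q2 l
        exact ⟨rfl, (mem_blkSet.1 h3).1, I.notMem h4, (mem_blkSet.1 h3).2,
          I.pair12 hg h3 h4⟩
      · right; right
        have h3 : u ∈ Y := by rw [← h1]; exact q2 k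
        have h4 : v ∈ blkSet r S (a + i) := by rw [← h2]; exact q0 l
        exact ⟨rfl, I.notMem h3, (mem_blkSet.1 h4).1, (mem_blkSet.1 h4).2,
          I.pair20 hg h3 h4⟩
    have hone : ∀ u v : V, cntL ((List.range (b - a)).map p) u v ≤ 1 := by
      intro u v
      rw [cntL_range]
      unfold cnt
      rw [← Finset.card_sigma, Finset.card_le_one]
      rintro ⟨i, s⟩ hs ⟨i', s'⟩ hs'
      rw [Finset.mem_sigma, Finset.mem_range, mem_filter] at hs hs'
      simp only at hs hs'
      obtain ⟨hi, -, h1, h2⟩ := hs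
      obtain ⟨hi', -, h1', h2'⟩ := hs'
      have k1 := key u v i s hi h1 h2
      have k2 := key u v i' s' hi' h1' h2'
      have hii : i = i' ∧ s.1 = s'.1 := by
        rcases k1 with k1 | k1 | k1 <;> rcases k2 with k2 | k2 | k2
        · exact ⟨by have := k1.2.2.2.1; have := k2.2.2.2.1; omega, by rw [k1.1, k2.1]⟩
        · exact absurd k1.2.2.1 k2.2.2.1
        · exact absurd k1.2.1 k2.2.1
        · exact absurd k2.2.2.1 k1.2.2.1
        · exact ⟨by have := k1.2.2.2.1; have := k2.2.2.2.1; omega, by rw [k1.1, k2.1]⟩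
        · exact absurd k1.2.1 k2.2.1
        · exact absurd k2.2.1 k1.2.1
        · exact absurd k2.2.1 k1.2.1
        · exact ⟨by have := k1.2.2.2.1; have := k2.2.2.2.1; omega, by rw [k1.1, k2.1]⟩
      obtain ⟨rfl, hss⟩ := hii
      have hinj := (hp i hi).2.2.2
      obtain ⟨t, k, l⟩ := s
      obtain ⟨t', k', l'⟩ := s'
      simp only at hss h1 h2 h1' h2'
      subst hss
      have h3 := hinj (h1.trans h1'.symm)
      have h4 := hinj (h2.trans h2'.symm)
      simp only [Prod.mk.injEq, true_and] at h3 h4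
      rw [h3, h4]
    have hpos : ∀ u v : V, 0 < cntL ((List.range (b - a)).map p) u v →
        ∃ (i : ℕ) (s : Fin 3 × R × R), i < b - a ∧ p i (s.1, s.2.1) = u ∧
          p i (s.1 + 1, s.2.2) = v := by
      intro u v h
      rw [cntL_range] at h
      obtain ⟨i, hi, h1⟩ := Finset.exists_ne_zero_of_sum_ne_zero (Nat.pos_iff_ne_zero.1 h)
      unfold cnt at h1
      obtain ⟨s, hs⟩ := Finset.card_pos.1 (Nat.pos_of_ne_zero h1)
      rw [mem_filter] at hs
      exact ⟨i, s, Finset.mem_range.1 hi, hs.2.1, hs.2.2⟩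
  · intro u v huv
    refine ⟨hone u v, fun h => ?_⟩
    obtain ⟨i, s, hi, h1, h2⟩ := hpos u v h
    rcases key u v i s hi h1 h2 with k | k | k
    · exact absurd k.2.2.2.2.1 (not_lt.2 huv.le)
    · exact k.2.2.2.2.2
    · exact k.2.2.2.2.2
  · intro u v huv
    refine ⟨hone v u, fun h => ?_⟩
    obtain ⟨i, s, hi, h1, h2⟩ := hpos v u h
    rcases key v u i s hi h1 h2 with k | k | k
    · exact k.2.2.2.2.2
    · exact absurd k.2.2.2.2.1 (not_lt.2 huv.le)
    · exact absurd k.2.2.2.2.1 (not_lt.2 huv.le)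

end Ins

end Run7.h68
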