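import Pool.Agent.Run7.h68.Time
import Pool.Agent.Run7.h68.Defs

/-!
# From bars to elements with starting and ending times
-/

set_option autoImplicit false

open Finset

namespace Run7.h68

section

variable {n : ℕ}

/-- discrete time -/
noncomputable def tau (S : Bars n) (x : ℝ) : ℕ :=
  {j : Fin n | S.left j ≤ x}.ncard + {j : Fin n | S.right j < x}.ncard

theorem tau_mono (S : Bars n) {x y : ℝ} (h : x ≤ y) : tau S x ≤ tau S y := by
  unfold tau
  apply Nat.add_le_add
  · exact Set.ncard_le_ncard (fun j hj => le_trans hj h) (Set.toFinite _)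
  · exact Set.ncard_le_ncard (fun j hj => lt_of_lt_of_le hj h) (Set.toFinite _)

theorem tau_le (S : Bars n) (x : ℝ) : tau S x ≤ 2 * n := by
  unfold tau
  have h1 : ∀ s : Set (Fin n), s.ncard ≤ n := by
    intro s
    have := Set.ncard_le_card s
    simpa using this
  have h2 := h1 {j : Fin n | S.left j ≤ x}
  have h3 := h1 {j : Fin n | S.right j < x}
  omega

theorem tau_left (S : Bars n) (i : Fin n) {x : ℝ} (h : tau S (S.left i) ≤ tau S x) :
    S.left i ≤ x := by
  by_contra hc
  push Not at hc
  have h1 : {j : Fin n | S.left j ≤ x}.ncard < {j : Fin n | S.left j ≤ S.left i}.ncard := by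
    apply Set.ncard_lt_ncard _ (Set.toFinite _)
    rw [Set.ssubset_def]
    refine ⟨fun j hj => le_trans hj hc.le, fun hsub => ?_⟩
    have h2 : i ∈ {j : Fin n | S.left j ≤ x} := hsub (le_refl (S.left i))
    exact absurd h2 (not_le.2 hc)
  have h2 : {j : Fin n | S.right j < x}.ncard ≤ {j : Fin n | S.right j < S.left i}.ncard :=
    Set.ncard_le_ncard (fun j hj => lt_trans hj hc) (Set.toFinite _)
  unfold tau at h
  omega

theorem tau_right (S : Bars n) (i : Fin n) {x : ℝ} (h : tau S x ≤ tau S (S.right i)) :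
    x ≤ S.right i := by
  by_contra hc
  push Not at hc
  have h1 : {j : Fin n | S.right j < S.right i}.ncard < {j : Fin n | S.right j < x}.ncard := by
    apply Set.ncard_lt_ncard _ (Set.toFinite _)
    rw [Set.ssubset_def]
    refine ⟨fun j hj => lt_trans hj hc, fun hsub => ?_⟩
    have h2 : i ∈ {j : Fin n | S.right j < S.right i} := hsub hc
    exact absurd h2 (lt_irrefl (S.right i))
  have h2 : {j : Fin n | S.left j ≤ S.right i}.ncard ≤ {j : Fin n | S.left j ≤ x}.ncard :=
    Set.ncard_le_ncard (fun j hj => le_trans hj hc.le) (Set.toFinite _)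
  unfold tau at h
  omega

theorem exists_sort (S : Bars n) : ∃ σ : Equiv.Perm (Fin n),
    ∀ u v w, σ u < σ w → σ w < σ v → S.height w ∈ Set.uIcc (S.height u) (S.height v) := by
  let f : Fin n → Lex (ℝ × ℝ) := fun i => toLex (S.height i, S.left i)
  let σ := Tuple.sort f
  have hm : Monotone (f ∘ σ) := Tuple.monotone_sort f
  refine ⟨σ.symm, ?_⟩
  intro u v w h1 h2
  have h3 := hm h1.le
  have h4 := hm h2.le
  simp only [Function.comp, Equiv.apply_symm_apply] at h3 h4
  have h5 : S.height u ≤ S.height w := by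
    rcases (Prod.Lex.le_iff).1 h3 with h | h
    · exact h.le
    · exact h.1.le
  have h6 : S.height w ≤ S.height v := by
    rcases (Prod.Lex.le_iff).1 h4 with h | h
    · exact h.le
    · exact h.1.le
  rw [Set.mem_uIcc]
  exact Or.inl ⟨h5, h6⟩

theorem exists_model {k : ℕ} {G : SimpleGraph (Fin n)} (hG : IsBarVisibility k G) (M : ℕ) :
    ∃ (ι : Fin n → Fin (M + n + M)) (s e : Fin (M + n + M) → ℕ)
      (Rl Dm : Finset (Fin (M + n + M))), Function.Injective ι ∧ Rl.card = n ∧ Dm.card ≤ 2 * M ∧
      Env Rl Dm M ∧ (∀ v ∈ Rl, s v ≤ e v) ∧ (∀ v ∈ Rl, e v < 2 * n + 1) ∧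
      ∀ u v, G.Adj u v → ∃ t, SeesT Rl s e k t (ι u) (ι v) ∨ SeesT Rl s e k t (ι v) (ι u) := by
  classical
  obtain ⟨S, hS⟩ := hG
  obtain ⟨σ, hσ⟩ := exists_sort S
  let ι : Fin n → Fin (M + n + M) := fun w => ⟨M + (σ w).val, by have := (σ w).2; omega⟩
  have hιval : ∀ w, (ι w).val = M + (σ w).val := fun w => rfl
  have hι : Function.Injective ι := by
    intro a b hab
    have h1 := congrArg Fin.val hab
    rw [hιval, hιval] at h1
    exact σ.injective (Fin.ext (by omega))
  have hιlt : ∀ a b, ι a < ι b ↔ σ a < σ b := by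
    intro a b
    rw [Fin.lt_def, Fin.lt_def, hιval, hιval]
    omega
  let lo : Fin M → Fin (M + n + M) := fun i => ⟨i.val, by have := i.2; omega⟩
  let hi : Fin M → Fin (M + n + M) := fun i => ⟨M + n + i.val, by have := i.2; omega⟩
  have hlo : Function.Injective lo := by
    intro a b hab
    have h1 := congrArg Fin.val hab
    exact Fin.ext h1
  have hhi : Function.Injective hi := by
    intro a b hab
    have h1 := congrArg Fin.val hab
    have h2 : M + n + a.val = M + n + b.val := h1
    exact Fin.ext (by omega)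
  let s : Fin (M + n + M) → ℕ := Function.extend ι (fun w => tau S (S.left w)) 0
  let e : Fin (M + n + M) → ℕ := Function.extend ι (fun w => tau S (S.right w)) 0
  have hs : ∀ w, s (ι w) = tau S (S.left w) := fun w => hι.extend_apply _ _ w
  have he : ∀ w, e (ι w) = tau S (S.right w) := fun w => hι.extend_apply _ _ w
  have hRl : ∀ v ∈ univ.image ι, ∃ w, ι w = v := by
    intro v hv
    obtain ⟨w, -, hw⟩ := Finset.mem_image.1 hv
    exact ⟨w, hw⟩
  have hloR : ∀ (i : Fin M) (w : Fin n), lo i < ι w := by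
    intro i w
    rw [Fin.lt_def, hιval]
    have h1 : (lo i).val = i.val := rfl
    have := i.2
    omega
  have hhiR : ∀ (i : Fin M) (w : Fin n), ι w < hi i := by
    intro i w
    rw [Fin.lt_def, hιval]
    have h1 : (hi i).val = M + n + i.val := rfl
    have := (σ w).2
    omega
  refine ⟨ι, s, e, univ.image ι, univ.image lo ∪ univ.image hi, hι, ?_, ?_, ⟨?_, ?_, ?_⟩, ?_, ?_,
    ?_⟩
  · rw [Finset.card_image_of_injective _ hι, Finset.card_univ, Fintype.card_fin]
  · refine (Finset.card_union_le _ _).trans ?_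
    rw [Finset.card_image_of_injective _ hlo, Finset.card_image_of_injective _ hhi,
      Finset.card_univ, Fintype.card_fin]
    omega
  · intro d hd
    rcases mem_union.1 hd with h | h
    · obtain ⟨i, -, rfl⟩ := Finset.mem_image.1 h
      left
      intro x hx
      obtain ⟨w, rfl⟩ := hRl x hx
      exact hloR i w
    · obtain ⟨i, -, rfl⟩ := Finset.mem_image.1 h
      right
      intro x hx
      obtain ⟨w, rfl⟩ := hRl x hx
      exact hhiR i w
  · intro x hx
    obtain ⟨w, rfl⟩ := hRl x hx
    have h1 : (univ.image lo).card = M := by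
      rw [Finset.card_image_of_injective _ hlo, Finset.card_univ, Fintype.card_fin]
    calc M = (univ.image lo).card := h1.symm
      _ ≤ _ := by
        apply Finset.card_le_card
        intro y hy
        obtain ⟨i, -, rfl⟩ := Finset.mem_image.1 hy
        exact mem_filter.2 ⟨mem_union_left _ hy, hloR i w⟩
  · intro x hx
    obtain ⟨w, rfl⟩ := hRl x hx
    have h1 : (univ.image hi).card = M := by
      rw [Finset.card_image_of_injective _ hhi, Finset.card_univ, Fintype.card_fin]
    calc M = (univ.image hi).card := h1.symm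
      _ ≤ _ := by
        apply Finset.card_le_card
        intro y hy
        obtain ⟨i, -, rfl⟩ := Finset.mem_image.1 hy
        exact mem_filter.2 ⟨mem_union_right _ hy, hhiR i w⟩
  · intro v hv
    obtain ⟨w, rfl⟩ := hRl v hv
    rw [hs, he]
    exact tau_mono S (S.left_lt_right w).le
  · intro v hv
    obtain ⟨w, rfl⟩ := hRl v hv
    rw [he]
    have := tau_le S (S.right w)
    omega
  · intro u v huv
    obtain ⟨hne, x, hxu, hxv, hc⟩ := (hS u v).1 huv
    have hK : ∀ w, ι w ∈ Kset (univ.image ι) s e (tau S x) ↔ S.Meets x w := by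
      intro w
      unfold Kset
      rw [mem_filter, hs, he]
      constructor
      · rintro ⟨-, h1, h2⟩
        exact ⟨tau_left S w h1, tau_right S w h2⟩
      · rintro ⟨h1, h2⟩
        exact ⟨Finset.mem_image_of_mem _ (Finset.mem_univ _), tau_mono S h1, tau_mono S h2⟩
    have hmain : ∀ a b, a ≠ b → S.Meets x a → S.Meets x b → ι a < ι b →
        {m : Fin n | m ≠ a ∧ m ≠ b ∧ S.Meets x m ∧
          S.height m ∈ Set.uIcc (S.height a) (S.height b)}.ncard ≤ k →
        SeesT (univ.image ι) s e k (tau S x) (ι a) (ι b) := by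
      intro a b _ ha hb hlt hcard
      refine ⟨(hK a).2 ha, (hK b).2 hb, hlt, ?_⟩
      refine le_trans ?_ hcard
      rw [← Set.ncard_image_of_injective _ hι, ← Set.ncard_coe_finset]
      apply Set.ncard_le_ncard _ (Set.toFinite _)
      intro y hy
      rw [Finset.mem_coe, mem_filter] at hy
      obtain ⟨w, rfl⟩ := hRl y (mem_filter.1 hy.1).1
      refine ⟨w, ⟨?_, ?_, (hK w).1 hy.1, ?_⟩, rfl⟩
      · intro h; rw [h] at hy; exact lt_irrefl _ hy.2.1
      · intro h; rw [h] at hy; exact lt_irrefl _ hy.2.2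
      · exact hσ a b w ((hιlt _ _).1 hy.2.1) ((hιlt _ _).1 hy.2.2)
    refine ⟨tau S x, ?_⟩
    rcases lt_trichotomy (ι u) (ι v) with h | h | h
    · exact Or.inl (hmain u v hne hxu hxv h hc)
    · exact absurd (hι h) hne
    · right
      apply hmain v u hne.symm hxv hxu h
      rw [Set.uIcc_comm]
      refine le_trans (Set.ncard_le_ncard ?_ (Set.toFinite _)) hc
      rintro m ⟨h1, h2, h3, h4⟩
      exact ⟨h2, h1, h3, h4⟩

end

end Run7.h68
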