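import Pool.Agent.Run7.h68.Isolate

/-!
# From embeddings to rotation systems of the graph itself
-/

set_option autoImplicit false

open Finset Equiv

namespace Run7.h68

/-- reversal of the darts of a graph -/
def symmPerm {W : Type} (H : SimpleGraph W) : Perm H.Dart where
  toFun d := d.symm
  invFun d := d.symm
  left_inv d := d.symm_symm
  right_inv d := d.symm_symm

theorem symmPerm_apply {W : Type} (H : SimpleGraph W) (d : H.Dart) : symmPerm H d = d.symm := rfl

/-- If a graph embeds in the surface of genus `g`, then it has a rotation system (one cyclic order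
of the darts around each vertex) with `E + 2 ≤ V + F + 2 g`. -/
theorem exists_rotation {W : Type} [Fintype W] (H : SimpleGraph W) [Fintype H.Dart] {g : ℕ}
    (hG : EmbedsIn H g) (hne : Nonempty H.Dart) :
    ∃ ρ : Perm H.Dart, (∀ d, (ρ d).fst = d.fst) ∧
      (∀ d e : H.Dart, d.fst = e.fst → ρ.SameCycle d e) ∧
      Fintype.card H.Dart + 4 ≤ 2 * Fintype.card W + 2 * numCyc (ρ * symmPerm H) + 4 * g := by
  classical
  obtain ⟨D, hfin, M, hM, f, hf, hGe⟩ := hG
  haveI : Fintype D := Fintype.ofFinite D
  have hrr := M.rev_rev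
  have hrn := M.rev_ne
  choose c hc1 hc2 using fun d : H.Dart => hGe d.fst d.snd d.adj
  let e := Fintype.equivFin W
  let dd : H.Dart → D := fun d => if e d.fst < e d.snd then c d else M.rev (c d.symm)
  have hdd : ∀ d, M.tail (dd d) = f d.fst ∧ M.tail (M.rev (dd d)) = f d.snd := by
    intro d
    by_cases h : e d.fst < e d.snd
    · have h1 : dd d = c d := if_pos h
      rw [h1]
      exact ⟨hc1 d, hc2 d⟩
    · have h1 : dd d = M.rev (c d.symm) := if_neg h
      rw [h1, hrr]
      exact ⟨hc2 d.symm, hc1 d.symm⟩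
  have hsymm : ∀ d, dd d.symm = M.rev (dd d) := by
    intro d
    have hne' : e d.fst ≠ e d.snd := fun h => d.adj.ne (e.injective h)
    by_cases h : e d.fst < e d.snd
    · have h1 : dd d = c d := if_pos h
      have h2 : dd d.symm = M.rev (c d.symm.symm) := if_neg (not_lt.2 (le_of_lt h))
      rw [h1, h2, d.symm_symm]
    · have h1 : dd d = M.rev (c d.symm) := if_neg h
      have h2 : dd d.symm = c d.symm := if_pos (lt_of_le_of_ne (not_lt.1 h) hne'.symm)
      rw [h1, h2, hrr]
  have hinj : Function.Injective dd := by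
    intro d d' h
    have h1 := (hdd d).1
    have h2 := (hdd d).2
    rw [h] at h1 h2
    rw [(hdd d').1] at h1
    rw [(hdd d').2] at h2
    exact SimpleGraph.Dart.ext _ _ (Prod.ext (hf h1).symm (hf h2).symm)
  obtain ⟨K, hK⟩ : ∃ K : Finset D, K = Finset.univ.image dd := ⟨_, rfl⟩
  have hmem : ∀ d, dd d ∈ K := fun d => by
    rw [hK]; exact Finset.mem_image_of_mem _ (Finset.mem_univ _)
  have hmem' : ∀ x ∈ K, ∃ d, dd d = x := by
    intro x hx
    rw [hK] at hx
    obtain ⟨d, -, hd⟩ := Finset.mem_image.1 hx
    exact ⟨d, hd⟩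
  have hcardK : K.card = Fintype.card H.Dart := by
    rw [hK, Finset.card_image_of_injective _ hinj, Finset.card_univ]
  have hKne : K.Nonempty := by
    obtain ⟨d⟩ := hne
    exact ⟨dd d, hmem d⟩
  have hKrev : ∀ x ∈ K, M.rev x ∈ K := by
    intro x hx
    obtain ⟨d, rfl⟩ := hmem' x hx
    rw [← hsymm]
    exact hmem _
  have hle : K.card ≤ Fintype.card D := Finset.card_le_univ K
  obtain ⟨σ', hs1, hs2, hs3, hs4⟩ := isolate hrr hrn M.connected (Fintype.card D - K.card) K hKne
    hKrev (by omega)
  have htail : ∀ c, M.tail (σ' c) = M.tail c := hs3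
  have hσK : ∀ x ∈ K, σ' x ∈ K := by
    intro x hx
    by_contra hc
    have h1 := hs1 _ hc
    rw [σ'.injective h1] at hc
    exact hc hx
  choose ρf hρf using fun d : H.Dart => hmem' (σ' (dd d)) (hσK _ (hmem d))
  have hρinj : Function.Injective ρf := by
    intro d d' h
    have h1 := hρf d
    rw [h, hρf d'] at h1
    exact hinj (σ'.injective h1.symm)
  obtain ⟨ρ, hρ⟩ : ∃ ρ : Perm H.Dart, ∀ d, ρ d = ρf d :=
    ⟨Equiv.ofBijective ρf (Finite.injective_iff_bijective.1 hρinj), fun _ => rfl⟩
  have hρd : ∀ d, dd (ρ d) = σ' (dd d) := fun d => by rw [hρ, hρf]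
  have hpow : ∀ (n : ℕ) d, dd ((ρ ^ n) d) = (σ' ^ n) (dd d) := by
    intro n
    induction n with
    | zero => intro d; rfl
    | succ n ih =>
      intro d
      rw [pow_succ', Perm.mul_apply, hρd, ih, ← Perm.mul_apply, ← pow_succ']
  have hφd : ∀ d, dd ((ρ * symmPerm H) d) = (σ' * M.rev) (dd d) := by
    intro d
    rw [Perm.mul_apply, hρd, symmPerm_apply, hsymm]
    rfl
  have hpow' : ∀ (n : ℕ) d, dd (((ρ * symmPerm H) ^ n) d) = ((σ' * M.rev) ^ n) (dd d) := by
    intro n
    induction n with
    | zero => intro d; rfl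
    | succ n ih =>
      intro d
      rw [pow_succ', Perm.mul_apply, hφd, ih, ← Perm.mul_apply, ← pow_succ']
  refine ⟨ρ, ?_, ?_, ?_⟩
  · intro d
    apply hf
    rw [← (hdd (ρ d)).1, hρd, htail, (hdd d).1]
  · intro d d' h
    have h1 : M.rot.SameCycle (dd d) (dd d') := by
      have h2 : M.tail (dd d) = M.tail (dd d') := by rw [(hdd d).1, (hdd d').1, h]
      exact Quotient.exact h2
    obtain ⟨n, hn⟩ := sameCycle_nat (hs2 _ (hmem d) _ (hmem d') h1)
    rw [← hpow] at hn
    exact sameCycle_of_nat n (hinj hn)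
  · have hfaces : numCyc (ρ * symmPerm H) = cycOn (σ' * M.rev) K := by
      rw [← cycOn_univ]
      apply cycOn_congr dd
      · intro d _; exact hmem d
      · intro y hy
        obtain ⟨d, hd⟩ := hmem' y hy
        exact ⟨d, Finset.mem_univ _, hd⟩
      · intro x _ y _
        constructor
        · intro h
          obtain ⟨n, hn⟩ := sameCycle_nat h
          exact sameCycle_of_nat n (by rw [← hpow', hn])
        · intro h
          obtain ⟨n, hn⟩ := sameCycle_nat h
          rw [← hpow'] at hn
          exact sameCycle_of_nat n (hinj hn)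
    have hfaces2 : 2 * cycOn (σ' * M.rev) Kᶜ ≤ (Kᶜ).card := by
      unfold cycOn
      apply Finset.mul_card_image_le_card
      intro q hq
      obtain ⟨d, hd, rfl⟩ := Finset.mem_image.1 hq
      rw [Finset.mem_compl] at hd
      have hsub : ({d, M.rev d} : Finset D) ⊆
          (Kᶜ).filter (fun e => cyc (σ' * M.rev) e = cyc (σ' * M.rev) d) := by
        intro e he
        simp only [Finset.mem_insert, Finset.mem_singleton] at he
        rw [mem_filter, Finset.mem_compl]
        rcases he with rfl | rfl
        · exact ⟨hd, rfl⟩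
        · refine ⟨fun h => hd (by rw [← hrr d]; exact hKrev _ h), ?_⟩
          rw [← cyc_apply (σ' * M.rev) (M.rev d), Perm.mul_apply, hrr, hs1 d hd]
      refine le_trans ?_ (Finset.card_le_card hsub)
      rw [Finset.card_pair (hrn d).symm]
    have hFtot : numCyc (σ' * M.rev) ≤ cycOn (σ' * M.rev) K + cycOn (σ' * M.rev) Kᶜ := by
      rw [← cycOn_univ, ← Finset.union_compl K]
      exact cycOn_union_le _ K Kᶜ
    have hVtot : numCyc σ' ≤ cycOn σ' K + cycOn σ' Kᶜ := by
      rw [← cycOn_univ, ← Finset.union_compl K]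
      exact cycOn_union_le σ' K Kᶜ
    have hV2 : cycOn σ' Kᶜ ≤ (Kᶜ).card := cycOn_le_card _ _
    have hV1 : cycOn σ' K ≤ Fintype.card W := by
      have h1 : cycOn σ' K ≤ (K.image M.tail).card := by
        unfold cycOn
        have hne' : Nonempty D := M.nonempty
        let h : M.Vert → Quotient (Perm.SameCycle.setoid σ') := fun v =>
          if hv : ∃ d ∈ K, M.tail d = v then cyc σ' (Classical.choose hv)
          else cyc σ' (Classical.arbitrary D)
        have h2 : K.image (cyc σ') ⊆ (K.image M.tail).image h := by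
          intro q hq
          obtain ⟨d, hd, rfl⟩ := Finset.mem_image.1 hq
          rw [Finset.mem_image]
          refine ⟨M.tail d, Finset.mem_image_of_mem _ hd, ?_⟩
          have hv : ∃ e ∈ K, M.tail e = M.tail d := ⟨d, hd, rfl⟩
          have hsp := Classical.choose_spec hv
          show (if hv : ∃ e ∈ K, M.tail e = M.tail d then cyc σ' (Classical.choose hv)
            else cyc σ' (Classical.arbitrary D)) = cyc σ' d
          rw [dif_pos hv, cyc_eq]
          exact hs2 _ hsp.1 _ hd (Quotient.exact hsp.2)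
        exact (Finset.card_le_card h2).trans Finset.card_image_le
      have h3 : K.image M.tail ⊆ Finset.univ.image f := by
        intro v hv
        obtain ⟨x, hx, rfl⟩ := Finset.mem_image.1 hv
        obtain ⟨d, rfl⟩ := hmem' x hx
        rw [(hdd d).1]
        exact Finset.mem_image_of_mem _ (Finset.mem_univ _)
      exact h1.trans ((Finset.card_le_card h3).trans (Finset.card_image_le.trans (by
        rw [Finset.card_univ])))
    have hE := two_mul_numCyc M.rev hrr hrn
    have hcc : K.card + (Kᶜ).card = Fintype.card D := Finset.card_add_card_compl K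
    have hM' : numCyc M.rev + 2 ≤ numCyc M.rot + numCyc (M.rot * M.rev) + 2 * g := hM
    omega

end Run7.h68
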