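import Pool.Agent.Run7.h68.Ext

/-!
# Surfaces glued from randomly twisted pieces
-/

set_option autoImplicit false

open Finset Equiv

namespace Run7.h68

/-- Darts of the multigraph with `N u v` edges between `u` and `v`. -/
abbrev Dart {V : Type} (N : V → V → ℕ) : Type := Σ x : V × V, Fin (N x.1 x.2)

section

variable {V : Type} {N : V → V → ℕ}

def Dtl (d : Dart N) : V := d.1.1
def Dhd (d : Dart N) : V := d.1.2

/-- reversal -/
def drev (hs : ∀ u v, N u v = N v u) : Perm (Dart N) where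
  toFun d := ⟨(d.1.2, d.1.1), Fin.cast (hs _ _) d.2⟩
  invFun d := ⟨(d.1.2, d.1.1), Fin.cast (hs _ _) d.2⟩
  left_inv := by rintro ⟨⟨u, v⟩, c⟩; rfl
  right_inv := by rintro ⟨⟨u, v⟩, c⟩; rfl

theorem drev_drev (hs : ∀ u v, N u v = N v u) (d : Dart N) : drev hs (drev hs d) = d :=
  (drev hs).left_inv d

theorem Dtl_drev (hs : ∀ u v, N u v = N v u) (d : Dart N) : Dtl (drev hs d) = Dhd d := rfl

theorem Dhd_drev (hs : ∀ u v, N u v = N v u) (d : Dart N) : Dhd (drev hs d) = Dtl d := rfl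

theorem drev_ne (hs : ∀ u v, N u v = N v u) (hl : ∀ v, N v v = 0) (d : Dart N) :
    drev hs d ≠ d := by
  intro h
  have h1 : Dtl (drev hs d) = Dtl d := by rw [h]
  rw [Dtl_drev] at h1
  obtain ⟨⟨u, v⟩, c⟩ := d
  have h2 : v = u := h1
  subst h2
  have h3 := c.2
  have h4 : N v v = 0 := hl v
  simp only at h3
  omega

end

theorem fin3a (t : Fin 3) : t + 1 + 2 = t := by revert t; decide
theorem fin3b (t : Fin 3) : t + 2 + 2 = t + 1 := by revert t; decide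
theorem fin3c (t : Fin 3) : t + 1 + 1 + 1 = t := by revert t; decide
theorem fin3d (t : Fin 3) : t + 1 + 1 = t + 2 := by revert t; decide
theorem fin3e (t : Fin 3) : t + 1 ≠ t := by revert t; decide
theorem fin3f (t : Fin 3) : t + 2 ≠ t := by revert t; decide
theorem fin3g (t : Fin 3) : t + 2 + 1 = t := by revert t; decide

section

variable {V Q R : Type} [AddCommGroup R]

abbrev Slot (Q R : Type) : Type := Q × Fin 3 × R × R

/-- the next slot along a face -/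
def stepFun (ω : Q × Fin 3 → Perm R) (s : Slot Q R) : Slot Q R :=
  (s.1, s.2.1 + 1, s.2.2.2,
    (ω (s.1, s.2.1 + 2))⁻¹ (-(ω (s.1, s.2.1) s.2.2.1 + ω (s.1, s.2.1 + 1) s.2.2.2)))

theorem stepFun3 (ω : Q × Fin 3 → Perm R) (s : Slot Q R) :
    stepFun ω (stepFun ω (stepFun ω s)) = s := by
  obtain ⟨ρ, t, i, j⟩ := s
  have e1 : t + 1 + 1 + 2 = t + 1 := by rw [fin3d, fin3b]
  have h1 : stepFun ω (ρ, t, i, j) =
      (ρ, t + 1, j, (ω (ρ, t + 2))⁻¹ (-(ω (ρ, t) i + ω (ρ, t + 1) j))) := rfl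
  set l := (ω (ρ, t + 2))⁻¹ (-(ω (ρ, t) i + ω (ρ, t + 1) j)) with hl
  have hl2 : ω (ρ, t + 2) l = -(ω (ρ, t) i + ω (ρ, t + 1) j) := by
    rw [hl]; exact (ω (ρ, t + 2)).apply_symm_apply _
  have h2 : stepFun ω (ρ, t + 1, j, l) = (ρ, t + 1 + 1, l, i) := by
    have : (ω (ρ, t + 1 + 2))⁻¹ (-(ω (ρ, t + 1) j + ω (ρ, t + 1 + 1) l)) = i := by
      rw [fin3a, fin3d, hl2, Perm.inv_eq_iff_eq]
      abel
    show (ρ, t + 1 + 1, l, (ω (ρ, t + 1 + 2))⁻¹ (-(ω (ρ, t + 1) j + ω (ρ, t + 1 + 1) l))) = _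
    rw [this]
  have h3 : stepFun ω (ρ, t + 1 + 1, l, i) = (ρ, t, i, j) := by
    have : (ω (ρ, t + 1 + 1 + 2))⁻¹ (-(ω (ρ, t + 1 + 1) l + ω (ρ, t + 1 + 1 + 1) i)) = j := by
      rw [e1, fin3c, fin3d, hl2, Perm.inv_eq_iff_eq]
      abel
    show (ρ, t + 1 + 1 + 1, i,
      (ω (ρ, t + 1 + 1 + 2))⁻¹ (-(ω (ρ, t + 1 + 1) l + ω (ρ, t + 1 + 1 + 1) i))) = _
    rw [this, fin3c]
  rw [h1, h2, h3]

/-- the next slot along a face, as a permutation -/
def step (ω : Q × Fin 3 → Perm R) : Perm (Slot Q R) where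
  toFun := stepFun ω
  invFun := fun s => stepFun ω (stepFun ω s)
  left_inv := stepFun3 ω
  right_inv := stepFun3 ω

end

end Run7.h68
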