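import Pool.Agent.Run7.h68.Surf

set_option autoImplicit false

open Finset Equiv

namespace Run7.h68

section

variable {V Q R : Type} [Fintype V] [DecidableEq V] [Fintype Q] [DecidableEq Q]
  [AddCommGroup R] [Fintype R] [DecidableEq R]

theorem exists_inj_darts (N : V → V → ℕ) {S : Type} [Fintype S] [DecidableEq S]
    (st sh : S → V)
    (h : ∀ u v, (univ.filter fun s : S => st s = u ∧ sh s = v).card ≤ N u v) :
    ∃ δ : S → Dart N, Function.Injective δ ∧ (∀ s, Dtl (δ s) = st s) ∧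
      (∀ s, Dhd (δ s) = sh s) := by
  classical
  have h1 : ∀ x : V × V, Nonempty ({s : S // (st s, sh s) = x} ↪ Fin (N x.1 x.2)) := by
    intro x
    apply Function.Embedding.nonempty_of_card_le
    rw [Fintype.card_fin, Fintype.card_subtype]
    refine le_trans (le_of_eq ?_) (h x.1 x.2)
    congr 1
    ext s
    simp only [mem_filter, mem_univ, true_and, Prod.ext_iff]
  have e := fun x => Classical.choice (h1 x)
  refine ⟨fun s => ⟨(st s, sh s), e (st s, sh s) ⟨s, rfl⟩⟩, ?_, fun s => rfl, fun s => rfl⟩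
  intro s s' hss
  simp only [Sigma.mk.injEq] at hss
  obtain ⟨h2, h3⟩ := hss
  have h4 : ∀ (x y : V × V) (hx : (st s, sh s) = x) (hy : (st s', sh s') = y) (_ : x = y),
      HEq (e x ⟨s, hx⟩) (e y ⟨s', hy⟩) → s = s' := by
    intro x y hx hy hxy hh
    subst hxy
    have h5 := (e x).injective (eq_of_heq hh)
    exact congrArg Subtype.val h5
  exact h4 _ _ rfl rfl h2 h3

/-- Averaging over a group of twists. -/
theorem avg_group {Ω D : Type} [Group Ω] [Fintype Ω] [Fintype D] [DecidableEq D]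
    (rotω : Ω → Perm D) (ι : R ↪ D) (E : Perm R → Perm D) (g : Perm R → Ω)
    (hE1 : ∀ θ x, E θ (ι x) = ι (θ x)) (hE2 : ∀ θ d, (∀ x, ι x ≠ d) → E θ d = d)
    (hloc : ∀ ω θ, cycOn (rotω (ω * g θ)) (univ.map ι) = cycOn (rotω ω * E θ) (univ.map ι)) :
    ∑ ω : Ω, (cycOn (rotω ω) (univ.map ι) : ℚ) ≤
      Fintype.card Ω * harmonic (Fintype.card R) := by
  classical
  have h1 : ∀ θ : Perm R, ∑ ω : Ω, (cycOn (rotω (ω * g θ)) (univ.map ι) : ℚ) =
      ∑ ω : Ω, (cycOn (rotω ω) (univ.map ι) : ℚ) := by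
    intro θ
    exact Equiv.sum_comp (Equiv.mulRight (g θ)) (fun ω => (cycOn (rotω ω) (univ.map ι) : ℚ))
  have h2 : ∑ θ : Perm R, ∑ ω : Ω, (cycOn (rotω (ω * g θ)) (univ.map ι) : ℚ) =
      Fintype.card (Perm R) * ∑ ω : Ω, (cycOn (rotω ω) (univ.map ι) : ℚ) := by
    rw [Finset.sum_congr rfl (fun θ _ => h1 θ), Finset.sum_const, nsmul_eq_mul, Finset.card_univ]
  rw [Finset.sum_comm] at h2
  have h3 : ∀ ω : Ω, ∑ θ : Perm R, (cycOn (rotω (ω * g θ)) (univ.map ι) : ℚ) ≤
      Fintype.card (Perm R) * harmonic (Fintype.card R) := by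
    intro ω
    rw [Finset.sum_congr rfl (fun θ _ => by rw [hloc])]
    exact avg_cyc_emb ι (rotω ω) E hE1 hE2
  have h4 : (Fintype.card (Perm R) : ℚ) * ∑ ω : Ω, (cycOn (rotω ω) (univ.map ι) : ℚ) ≤
      Fintype.card (Perm R) * (Fintype.card Ω * harmonic (Fintype.card R)) := by
    rw [← h2]
    calc _ ≤ ∑ ω : Ω, ((Fintype.card (Perm R) : ℚ) * harmonic (Fintype.card R)) :=
          Finset.sum_le_sum (fun ω _ => h3 ω)
      _ = _ := by
        rw [Finset.sum_const, nsmul_eq_mul, Finset.card_univ]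
        ring
  have h5 : (0 : ℚ) < Fintype.card (Perm R) := by
    exact_mod_cast Fintype.card_pos
  exact le_of_mul_le_mul_left h4 h5

theorem step_fst (ω : Q × Fin 3 → Perm R) (s : Slot Q R) : (step ω s).1 = s.1 := rfl
theorem step_snd (ω : Q × Fin 3 → Perm R) (s : Slot Q R) : (step ω s).2.1 = s.2.1 + 1 := rfl
theorem step_trd (ω : Q × Fin 3 → Perm R) (s : Slot Q R) : (step ω s).2.2.1 = s.2.2.2 := rfl

theorem step_pow_three (ω : Q × Fin 3 → Perm R) (m : ℕ) (s : Slot Q R) :
    (step ω ^ (3 * m)) s = s := by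
  induction m with
  | zero => rfl
  | succ m ih =>
    rw [Nat.mul_succ, pow_add, Perm.mul_apply]
    have : (step ω ^ 3) s = s := by
      rw [pow_succ, pow_succ, pow_one, Perm.mul_apply, Perm.mul_apply]
      exact stepFun3 ω s
    rw [this, ih]

theorem step_pow_snd (ω : Q × Fin 3 → Perm R) (m : ℕ) (s : Slot Q R) :
    (((step ω ^ m) s).2.1).val = ((s.2.1).val + m) % 3 := by
  induction m with
  | zero =>
    have := s.2.1.2
    simp only [pow_zero, Perm.coe_one, id_eq, add_zero]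
    omega
  | succ m ih =>
    rw [pow_succ', Perm.mul_apply, step_snd, Fin.val_add, ih]
    simp only [Fin.isValue, Fin.coe_ofNat_eq_mod]
    omega

/-- twist at one place -/
def tw (ω : Q × Fin 3 → Perm R) (ρ : Q) (t : Fin 3) (θ : Perm R) : Q × Fin 3 → Perm R :=
  ω * Pi.mulSingle (ρ, t) θ

theorem tw_same (ω : Q × Fin 3 → Perm R) (ρ : Q) (t : Fin 3) (θ : Perm R) :
    tw ω ρ t θ (ρ, t) = ω (ρ, t) * θ := by
  unfold tw
  rw [Pi.mul_apply, Pi.mulSingle_eq_same]

theorem tw_ne (ω : Q × Fin 3 → Perm R) (ρ : Q) (t : Fin 3) (θ : Perm R) (z : Q × Fin 3)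
    (hz : z ≠ (ρ, t)) : tw ω ρ t θ z = ω z := by
  unfold tw
  rw [Pi.mul_apply, Pi.mulSingle_eq_of_ne hz, mul_one]

theorem step_twist (ω : Q × Fin 3 → Perm R) (ρ : Q) (t : Fin 3) (θ : Perm R) (x j : R) :
    step (tw ω ρ t θ) (ρ, t, x, j) = (ρ, t + 1, j, (step ω (ρ, t, θ x, j)).2.2.2) := by
  have h2 : tw ω ρ t θ (ρ, t + 1) = ω (ρ, t + 1) := by
    apply tw_ne
    intro h
    rw [Prod.ext_iff] at h
    exact fin3e t h.2
  have h3 : tw ω ρ t θ (ρ, t + 2) = ω (ρ, t + 2) := by
    apply tw_ne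
    intro h
    rw [Prod.ext_iff] at h
    exact fin3f t h.2
  show (ρ, t + 1, j, (tw ω ρ t θ (ρ, t + 2))⁻¹
    (-(tw ω ρ t θ (ρ, t) x + tw ω ρ t θ (ρ, t + 1) j))) = _
  rw [tw_same, h2, h3]
  rfl

theorem step_twist_ne (ω : Q × Fin 3 → Perm R) (ρ : Q) (t : Fin 3) (θ : Perm R) (s : Slot Q R)
    (h : s.1 ≠ ρ) : step (tw ω ρ t θ) s = step ω s := by
  have h1 : ∀ t', tw ω ρ t θ (s.1, t') = ω (s.1, t') := by
    intro t'
    apply tw_ne
    intro h2
    exact h (congrArg Prod.fst h2)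
  show (s.1, s.2.1 + 1, s.2.2.2, (tw ω ρ t θ (s.1, s.2.1 + 2))⁻¹
    (-(tw ω ρ t θ (s.1, s.2.1) s.2.2.1 + tw ω ρ t θ (s.1, s.2.1 + 1) s.2.2.2))) = _
  rw [h1, h1, h1]
  rfl

/-- Existence of a good rotation. -/
theorem exists_rot (p : Q → Fin 3 × R → V) (hp : ∀ ρ, Function.Injective (p ρ))
    (N : V → V → ℕ) (hs : ∀ u v, N u v = N v u)
    (hslots : ∀ u v, (univ.filter fun s : Slot Q R =>
      p s.1 (s.2.1, s.2.2.1) = u ∧ p s.1 (s.2.1 + 1, s.2.2.2) = v).card ≤ N u v) :
    ∃ rot : Perm (Dart N), (∀ d, Dtl (rot d) = Dtl d) ∧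
      Fintype.card Q * Fintype.card R ^ 2 ≤ numCyc (rot * drev hs) ∧
      (numCyc rot : ℚ) ≤ 3 * Fintype.card Q * Fintype.card R * harmonic (Fintype.card R) +
        ((Fintype.card (Dart N) : ℚ) - 3 * Fintype.card Q * Fintype.card R ^ 2) := by
  classical
  -- the darts of the slots
  obtain ⟨δ, hδ, hδt, hδh⟩ := exists_inj_darts N
    (fun s : Slot Q R => p s.1 (s.2.1, s.2.2.1)) (fun s => p s.1 (s.2.1 + 1, s.2.2.2)) hslots
  -- the facial permutations
  obtain ⟨F, hF1, hF2, hF3⟩ := exists_ext δ hδ _ _ Dtl Dhd hδt hδh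
    (by
      intro v
      apply Finset.card_bij (fun d _ => drev hs d)
      · intro d hd
        simp only [mem_filter, mem_univ, true_and] at hd ⊢
        rw [Dtl_drev]; exact hd
      · intro a _ b _ hab
        exact (drev hs).injective hab
      · intro d hd
        simp only [mem_filter, mem_univ, true_and] at hd
        refine ⟨drev hs d, ?_, drev_drev hs d⟩
        simp only [mem_filter, mem_univ, true_and]
        rw [Dhd_drev]; exact hd)
    (by
      intro v
      apply Finset.card_bij (fun s _ => (s.1, s.2.1 + 1, s.2.2.2, s.2.2.1))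
      · intro s hs'
        simp only [mem_filter, mem_univ, true_and] at hs' ⊢
        exact hs'
      · rintro ⟨ρ, t, i, j⟩ _ ⟨ρ', t', i', j'⟩ _ h
        simp only [Prod.mk.injEq, add_left_inj] at h
        obtain ⟨h1, h2, h3, h4⟩ := h
        rw [h1, h2, h3, h4]
      · rintro ⟨ρ, t, i, j⟩ hs'
        simp only [mem_filter, mem_univ, true_and] at hs'
        refine ⟨(ρ, t + 2, j, i), ?_, ?_⟩
        · simp only [mem_filter, mem_univ, true_and]
          rw [fin3g]
          exact hs'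
        · simp only [fin3g])
  obtain ⟨rotω, hrot⟩ : ∃ rotω : (Q × Fin 3 → Perm R) → Perm (Dart N),
      ∀ ω d, rotω ω d = F (step ω) (drev hs d) :=
    ⟨fun ω => F (step ω) * drev hs, fun _ _ => rfl⟩
  -- rotations preserve the tails
  have htl : ∀ ω d, Dtl (rotω ω d) = Dtl d := by
    intro ω d
    rw [hrot]
    by_cases h : drev hs d ∈ Set.range δ
    · obtain ⟨s, hs'⟩ := h
      rw [← hs', hF1, hδt]
      have h1 := hδh s
      rw [hs', Dhd_drev] at h1
      rw [h1]
      show p (step ω s).1 ((step ω s).2.1, (step ω s).2.2.1) = _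
      rw [step_fst, step_snd, step_trd]
    · rw [hF3 _ _ h, Dhd_drev]
  -- the faces
  have hpow : ∀ ω (n : ℕ) s, (F (step ω) ^ n) (δ s) = δ ((step ω ^ n) s) := by
    intro ω n s
    induction n with
    | zero => rfl
    | succ n ih => rw [pow_succ', Perm.mul_apply, ih, hF1, pow_succ', Perm.mul_apply]
  have hface : ∀ ω, Fintype.card Q * Fintype.card R ^ 2 ≤ numCyc (rotω ω * drev hs) := by
    intro ω
    have h0 : rotω ω * drev hs = F (step ω) := by
      ext1 d
      rw [Perm.mul_apply, hrot, drev_drev]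
    rw [h0, ← cycOn_univ]
    have h1 : Fintype.card Q * Fintype.card R ^ 2 = (univ : Finset (Q × R × R)).card := by
      rw [Finset.card_univ, Fintype.card_prod, Fintype.card_prod, sq]
    rw [h1]
    unfold cycOn
    apply Finset.card_le_card_of_injOn
      (fun z : Q × R × R => cyc (F (step ω)) (δ (z.1, 0, z.2.1, z.2.2)))
    · intro z _
      simp
    · rintro ⟨ρ, i, j⟩ _ ⟨ρ', i', j'⟩ _ h
      simp only at h
      rw [cyc_eq] at h
      obtain ⟨n, hn⟩ := sameCycle_nat h
      rw [hpow] at hn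
      have h2 := hδ hn
      have h3 := step_pow_snd ω n (ρ, 0, i, j)
      rw [h2] at h3
      simp only [Fin.isValue, Fin.coe_ofNat_eq_mod, Nat.zero_mod, zero_add] at h3
      have h4 : 3 ∣ n := Nat.dvd_of_mod_eq_zero h3.symm
      obtain ⟨m, rfl⟩ := h4
      rw [step_pow_three] at h2
      simp only [Prod.mk.injEq, true_and] at h2
      obtain ⟨h5, h6, h7⟩ := h2
      rw [h5, h6, h7]
  -- corner sets
  obtain ⟨ι, hι⟩ : ∃ ι : Q → Fin 3 → R → (R ↪ Dart N),
      ∀ ρ t j x, ι ρ t j x = drev hs (δ (ρ, t, x, j)) :=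
    ⟨fun ρ t j => ⟨fun x => drev hs (δ (ρ, t, x, j)), by
      intro a b hab
      have h1 := hδ ((drev hs).injective hab)
      simp only [Prod.mk.injEq, true_and, and_true] at h1
      exact h1⟩, fun _ _ _ _ => rfl⟩
  have hXtl : ∀ ρ t j, ∀ x ∈ univ.map (ι ρ t j), Dtl x = p ρ (t + 1, j) := by
    intro ρ t j x hx
    obtain ⟨y, -, rfl⟩ := Finset.mem_map.1 hx
    rw [hι, Dtl_drev, hδh]
  -- the twisted rotations
  obtain ⟨E, hE1, hE2⟩ : ∃ E : Q → Fin 3 → R → Perm R → Perm (Dart N),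
      (∀ ρ t j θ x, E ρ t j θ (ι ρ t j x) = ι ρ t j (θ x)) ∧
      (∀ ρ t j θ d, (∀ x, ι ρ t j x ≠ d) → E ρ t j θ d = d) := by
    refine ⟨fun ρ t j θ => θ.viaFintypeEmbedding (ι ρ t j), ?_, ?_⟩
    · intro ρ t j θ x
      exact Perm.viaFintypeEmbedding_apply_image θ (ι ρ t j) x
    · intro ρ t j θ d hd
      apply Perm.viaFintypeEmbedding_apply_notMem_range
      rintro ⟨x, hx⟩
      exact hd x hx
  have hlocal : ∀ ρ t j ω θ, cycOn (rotω (tw ω ρ t θ)) (univ.map (ι ρ t j)) =
      cycOn (rotω ω * E ρ t j θ) (univ.map (ι ρ t j)) := by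
    intro ρ t j ω θ
    apply cycOn_local (tl := Dtl) (htl _) (v := p ρ (t + 1, j))
    · intro d hd
      rw [Perm.mul_apply]
      by_cases hdx : ∃ x, ι ρ t j x = d
      · obtain ⟨x, rfl⟩ := hdx
        rw [hE1, hrot, hrot, hι, hι, drev_drev, drev_drev, hF1, hF1, step_twist]
        rfl
      · push Not at hdx
        rw [hE2 _ _ _ _ _ hdx, hrot, hrot]
        by_cases h : drev hs d ∈ Set.range δ
        · obtain ⟨s, hs'⟩ := h
          rw [← hs', hF1, hF1]
          by_cases hρ : s.1 = ρ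
          · exfalso
            have h1 := hδh s
            rw [hs', Dhd_drev, hd] at h1
            rw [hρ] at h1
            have h2 := hp ρ h1
            simp only [Prod.mk.injEq, add_left_inj] at h2
            apply hdx s.2.2.1
            rw [hι, ← drev_drev hs d, ← hs']
            congr 2
            obtain ⟨a, b, c, e⟩ := s
            simp only at h2 hρ ⊢
            rw [hρ, h2.1, h2.2]
          · rw [step_twist_ne _ _ _ _ _ hρ]
        · exact hF2 _ _ _ h
    · exact hXtl ρ t j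
  -- averaging over the twists of one corner set
  have havg : ∀ z : Q × Fin 3 × R,
      ∑ ω : Q × Fin 3 → Perm R, (cycOn (rotω ω) (univ.map (ι z.1 z.2.1 z.2.2)) : ℚ) ≤
      Fintype.card (Q × Fin 3 → Perm R) * harmonic (Fintype.card R) := by
    rintro ⟨ρ, t, j⟩
    exact avg_group rotω (ι ρ t j) (E ρ t j) (fun θ => Pi.mulSingle (ρ, t) θ)
      (hE1 ρ t j) (hE2 ρ t j) (hlocal ρ t j)
  -- the cover
  obtain ⟨U, hU⟩ : ∃ U : Finset (Dart N), U = univ.filter (fun d => drev hs d ∉ Set.range δ) :=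
    ⟨_, rfl⟩
  have hUcard : U.card + 3 * Fintype.card Q * Fintype.card R ^ 2 = Fintype.card (Dart N) := by
    have h1 : (univ.filter (fun d => drev hs d ∈ Set.range δ)).card =
        Fintype.card (Slot Q R) := by
      rw [← Finset.card_univ]
      symm
      apply Finset.card_bij (fun s _ => drev hs (δ s))
      · intro s _
        simp only [mem_filter, mem_univ, true_and]
        rw [drev_drev]
        exact ⟨s, rfl⟩
      · intro a _ b _ hab
        exact hδ ((drev hs).injective hab)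
      · intro d hd
        simp only [mem_filter, mem_univ, true_and] at hd
        obtain ⟨s, hs'⟩ := hd
        exact ⟨s, mem_univ _, by rw [hs', drev_drev]⟩
    have h2 := Finset.card_filter_add_card_filter_not
      (s := (univ : Finset (Dart N))) (fun d => drev hs d ∈ Set.range δ)
    rw [h1, Finset.card_univ] at h2
    have h3 : Fintype.card (Slot Q R) = 3 * Fintype.card Q * Fintype.card R ^ 2 := by
      rw [Fintype.card_prod, Fintype.card_prod, Fintype.card_prod, Fintype.card_fin]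
      ring
    rw [h3] at h2
    rw [hU]
    omega
  have hcover : ∀ ω, numCyc (rotω ω) ≤
      ∑ z : Q × Fin 3 × R, cycOn (rotω ω) (univ.map (ι z.1 z.2.1 z.2.2)) + U.card := by
    intro ω
    rw [← cycOn_univ]
    have h1 : (univ : Finset (Dart N)) ⊆ ((univ : Finset (Q × Fin 3 × R)).biUnion
        (fun z => univ.map (ι z.1 z.2.1 z.2.2))) ∪ U := by
      intro d _
      rw [Finset.mem_union]
      by_cases h : drev hs d ∈ Set.range δ
      · left
        obtain ⟨s, hs'⟩ := h
        rw [Finset.mem_biUnion]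
        refine ⟨(s.1, s.2.1, s.2.2.2), mem_univ _, ?_⟩
        rw [Finset.mem_map]
        exact ⟨s.2.2.1, mem_univ _, by rw [hι]; exact (by rw [← drev_drev hs d, ← hs'])⟩
      · right
        rw [hU, mem_filter]
        exact ⟨mem_univ _, h⟩
    refine (cycOn_mono _ h1).trans ((cycOn_union_le _ _ _).trans ?_)
    have h2 := cycOn_biUnion_le (rotω ω) (univ : Finset (Q × Fin 3 × R))
      (fun z => univ.map (ι z.1 z.2.1 z.2.2))
    have h3 := cycOn_le_card (rotω ω) U
    omega
  -- choose a good twist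
  have hsum : ∑ ω : Q × Fin 3 → Perm R, (numCyc (rotω ω) : ℚ) ≤
      ∑ _ω : Q × Fin 3 → Perm R,
        (3 * Fintype.card Q * Fintype.card R * harmonic (Fintype.card R) + U.card : ℚ) := by
    calc ∑ ω : Q × Fin 3 → Perm R, (numCyc (rotω ω) : ℚ)
        ≤ ∑ ω : Q × Fin 3 → Perm R,
          (∑ z : Q × Fin 3 × R, (cycOn (rotω ω) (univ.map (ι z.1 z.2.1 z.2.2)) : ℚ) + U.card) := by
          apply Finset.sum_le_sum
          intro ω _
          exact_mod_cast hcover ω
      _ = ∑ z : Q × Fin 3 × R, ∑ ω : Q × Fin 3 → Perm R, (cycOn (rotω ω) (univ.map (ι z.1 z.2.1 z.2.2)) : ℚ) +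
          Fintype.card (Q × Fin 3 → Perm R) * U.card := by
          rw [Finset.sum_add_distrib, Finset.sum_comm, Finset.sum_const, nsmul_eq_mul,
            Finset.card_univ]
      _ ≤ ∑ z : Q × Fin 3 × R, ((Fintype.card (Q × Fin 3 → Perm R) : ℚ) *
            harmonic (Fintype.card R)) + Fintype.card (Q × Fin 3 → Perm R) * U.card := by
          gcongr with z _
          exact havg z
      _ = _ := by
          rw [Finset.sum_const, Finset.sum_const, nsmul_eq_mul, nsmul_eq_mul, Finset.card_univ,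
            Finset.card_univ, Fintype.card_prod Q, Fintype.card_prod (Fin 3), Fintype.card_fin]
          push_cast
          ring
  obtain ⟨ω, -, hω⟩ := Finset.exists_le_of_sum_le (s := univ) ⟨1, mem_univ _⟩ hsum
  refine ⟨rotω ω, htl ω, hface ω, ?_⟩
  refine hω.trans (le_of_eq ?_)
  rw [← hUcard]
  push_cast
  ring

end

end Run7.h68
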