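import Pool.Agent.Run7.h68.Created

/-!
# Accumulating edges and pieces along the steps
-/

set_option autoImplicit false

open Finset

namespace Run7.h68

section

variable {V R : Type} [LinearOrder V] [Fintype V] [AddCommGroup R] [Fintype R] [DecidableEq R]

/-- The multigraph `N` and the pieces `L` built so far; `B` is the current set. -/
structure Sys (r m z : ℕ) (B : Finset V) (L : List (Fin 3 × R → V)) (N : V → V → ℕ)
    (α I D : ℕ) : Prop where
  inj : ∀ p ∈ L, Function.Injective p
  symm : ∀ u v, N u v = N v u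
  loop : ∀ v, N v v = 0
  down : ∀ u v, v < u → cntL L u v ≤ N u v
  up : ∀ u v, v < u → cntL L v u + (if cadj r m B u v then 1 else 0) ≤ N u v
  sum : ∑ u, ∑ v, N u v ≤ α + I * (2 * (2 * (r * ((m + 1) * r)) + z * r)) +
    D * (2 * ((m + 1) * r * r + 2 * (z * r)))
  len : L.length ≤ (I + D) * m
  low : (I + D) * (m * r) ≤ L.length * r + (I + D) * (z + 2 * r)

omit [AddCommGroup R] [DecidableEq R] [Fintype R] in
theorem Sys.init [Fintype R] [DecidableEq R] (r m z : ℕ) (B : Finset V) :
    Sys (R := R) r m z B [] (fun u v => if u ≠ v ∧ u ∈ B ∧ v ∈ B then 1 else 0)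
      (B.card * B.card) 0 0 where
  inj := by simp
  symm := by
    intro u v
    congr 1
    apply propext
    constructor
    · rintro ⟨h1, h2, h3⟩; exact ⟨h1.symm, h3, h2⟩
    · rintro ⟨h1, h2, h3⟩; exact ⟨h1.symm, h3, h2⟩
  loop := by intro v; simp
  down := by intro u v _; simp [cntL]
  up := by
    intro u v huv
    simp only [cntL, List.map_nil, List.sum_nil, zero_add]
    by_cases h : cadj r m B u v
    · rw [if_pos h, if_pos ⟨ne_of_gt huv, h.1, h.2.1⟩]
    · rw [if_neg h]; exact Nat.zero_le _
  sum := by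
    simp only [zero_mul, add_zero]
    rw [← Finset.card_product, ← Finset.sum_product']
    rw [← Finset.card_filter]
    apply Finset.card_le_card
    intro x hx
    simp only [univ_product_univ, mem_filter, mem_univ, true_and] at hx
    rw [Finset.mem_product]
    exact ⟨hx.2.1, hx.2.2⟩
  len := by simp
  low := by simp

theorem sum_created (N : V → V → ℕ) (T : Finset (V × V)) :
    ∑ u, ∑ v, (N u v + if (u, v) ∈ T then 1 else 0) = ∑ u, ∑ v, N u v + T.card := by
  simp only [Finset.sum_add_distrib]
  congr 1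
  rw [← Finset.sum_product', ← Finset.card_filter]
  congr 1
  ext x
  simp

omit [AddCommGroup R] in
/-- general step -/
theorem Sys.step_gen {r m z : ℕ} {B B' : Finset V} {L P : List (Fin 3 × R → V)} {N : V → V → ℕ}
    {α I D I' D' c : ℕ} (hS : Sys r m z B L N α I D)
    (hinj : ∀ p ∈ P, Function.Injective p) (hPm : P.length ≤ m)
    (hlow : m * r ≤ P.length * r + z + 2 * r)
    (h1 : ∀ u v, v < u → cntL P u v ≤ 1 ∧ (0 < cntL P u v → ¬ cadj r m B u v ∧ cadj r m B' u v))
    (h2 : ∀ u v, v < u → cntL P v u ≤ 1 ∧ (0 < cntL P v u → cadj r m B u v ∧ ¬ cadj r m B' u v))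
    (hc : (created r m B B').card ≤ c) (hID : I' + D' = I + D + 1)
    (hsum : I * (2 * (2 * (r * ((m + 1) * r)) + z * r)) +
      D * (2 * ((m + 1) * r * r + 2 * (z * r))) + c =
      I' * (2 * (2 * (r * ((m + 1) * r)) + z * r)) +
      D' * (2 * ((m + 1) * r * r + 2 * (z * r)))) :
    Sys r m z B' (L ++ P) (fun u v => N u v + if (u, v) ∈ created r m B B' then 1 else 0)
      α I' D' where
  inj := by
    intro p hp
    rcases List.mem_append.1 hp with h | h
    · exact hS.inj p h
    · exact hinj p h
  symm := by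
    intro u v
    rw [hS.symm u v]
    congr 2
    apply propext
    rw [mem_created, mem_created]
    simp only
    rw [cadj_comm (u := v), cadj_comm (r := r) (m := m) (B := B') (u := v), ne_comm]
  loop := by
    intro v
    rw [hS.loop v, if_neg]
    rw [mem_created]
    simp
  down := by
    intro u v huv
    have h3 := hS.down u v huv
    have h4 := h1 u v huv
    rw [cntL_append]
    by_cases hp : 0 < cntL P u v
    · have h5 := h4.2 hp
      rw [if_pos (mem_created.2 ⟨ne_of_gt huv, h5⟩)]
      omega
    · omega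
  up := by
    intro u v huv
    have h3 := hS.up u v huv
    have h4 := h2 u v huv
    rw [cntL_append]
    by_cases hp : 0 < cntL P v u
    · have h5 := h4.2 hp
      rw [if_pos h5.1] at h3
      rw [if_neg h5.2]
      omega
    · by_cases ha : cadj r m B u v
      · rw [if_pos ha] at h3
        split_ifs <;> omega
      · rw [if_neg ha] at h3
        by_cases hb : cadj r m B' u v
        · rw [if_pos hb, if_pos (mem_created.2 ⟨ne_of_gt huv, ha, hb⟩)]
          omega
        · rw [if_neg hb]
          omega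
  sum := by
    rw [sum_created]
    have h3 := hS.sum
    omega
  len := by
    have h3 := hS.len
    rw [List.length_append, hID, Nat.add_mul (I + D), one_mul]
    omega
  low := by
    have h3 := hS.low
    have e1 : (I + D + 1) * (m * r) = (I + D) * (m * r) + m * r := by ring
    have e2 : (L.length + P.length) * r = L.length * r + P.length * r := by ring
    have e3 : (I + D + 1) * (z + 2 * r) = (I + D) * (z + 2 * r) + (z + 2 * r) := by ring
    rw [List.length_append, hID, e1, e2, e3]
    omega

theorem Sys.step_ins {r m z : ℕ} {B Y : Finset V} {y0 y1 : V} {L : List (Fin 3 × R → V)}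
    {N : V → V → ℕ} {α I D : ℕ} (hR : Fintype.card R = r) (hS : Sys r m z B L N α I D)
    (hI : Ins B Y r m z y0 y1) :
    ∃ (L' : List (Fin 3 × R → V)) (N' : V → V → ℕ), Sys r m z (B ∪ Y) L' N' α (I + 1) D ∧
      ∀ u v, N u v ≤ N' u v := by
  obtain ⟨P, hP1, hP2, hP3, hP4, hP5⟩ := hI.exists_pieces (R := R) hR
  refine ⟨_, _, hS.step_gen hP1 hP2 hP3 hP4 hP5 hI.created_ins (by omega) (by ring), ?_⟩
  intro u v
  exact Nat.le_add_right _ _

theorem Sys.step_del {r m z : ℕ} {S Y : Finset V} {y0 y1 : V} {L : List (Fin 3 × R → V)}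
    {N : V → V → ℕ} {α I D : ℕ} (hR : Fintype.card R = r) (hS : Sys r m z (S ∪ Y) L N α I D)
    (hI : Ins S Y r m z y0 y1) :
    ∃ (L' : List (Fin 3 × R → V)) (N' : V → V → ℕ), Sys r m z S L' N' α I (D + 1) ∧
      ∀ u v, N u v ≤ N' u v := by
  obtain ⟨P, hP1, hP2, hP3, hP4, hP5⟩ := hI.exists_pieces (R := R) hR
  refine ⟨_, _, hS.step_gen (P := P.map prev) ?_ ?_ ?_ ?_ ?_ hI.created_del (by omega)
    (by ring), ?_⟩
  · intro p hp
    rw [List.mem_map] at hp
    obtain ⟨q, hq, rfl⟩ := hp
    exact prev_injective (hP1 q hq)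
  · rw [List.length_map]; exact hP2
  · rw [List.length_map]; exact hP3
  · intro u v huv
    rw [cntL_prev]
    refine ⟨(hP5 u v huv).1, fun h => ?_⟩
    have := (hP5 u v huv).2 h
    exact ⟨this.2, this.1⟩
  · intro u v huv
    rw [cntL_prev]
    refine ⟨(hP4 u v huv).1, fun h => ?_⟩
    have := (hP4 u v huv).2 h
    exact ⟨this.2, this.1⟩
  · intro u v
    exact Nat.le_add_right _ _

end

end Run7.h68
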