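import Pool.Agent.Run7.h68.MaxCount
import Pool.Agent.Run7.h68.KNumeric
import Pool.Agent.Run7.h68.Main

/-!
# The maximum genus up to lower order terms
-/

set_option autoImplicit false

open Finset

namespace Run7.h68

/-- The main term of `g_k(n)`: `n² / 12` for `n ≤ 4 k` and `k (3 n - 4 k) / 6` for `n ≥ 4 k`. -/
noncomputable def mainTerm (k n : ℕ) : ℝ :=
  if n ≤ 4 * k then (n : ℝ) ^ 2 / 12 else (k : ℝ) * (3 * n - 4 * k) / 6

theorem le_maxGenus {k n g : ℕ} (hk : 1 ≤ k) (hn : 1 ≤ n) {G : SimpleGraph (Fin n)}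
    (hG : IsBarVisibility k G) (hg : ∀ γ, EmbedsIn G γ → g ≤ γ) : g ≤ maxGenus k n := by
  obtain ⟨γ, hγ, -⟩ := maxGenus_upper (k := k) hk hn
  have h1 := hg _ (embeds_genus (hγ G hG))
  refine h1.trans ?_
  apply le_csSup
  · refine ⟨γ, ?_⟩
    rintro g ⟨G', hG', rfl⟩
    exact genus_le_of_embeds (hγ G' hG')
  · exact ⟨G, hG, rfl⟩

theorem maxGenus_le {k n γ : ℕ} (h : ∀ G : SimpleGraph (Fin n), IsBarVisibility k G → EmbedsIn G γ) :
    maxGenus k n ≤ γ := by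
  obtain ⟨G, hG, -⟩ := exists_lower_graph k n
  have hne : {g | ∃ G : SimpleGraph (Fin n), IsBarVisibility k G ∧ genus G = g}.Nonempty :=
    ⟨genus G, G, hG, rfl⟩
  refine csSup_le hne ?_
  rintro g ⟨G', hG', rfl⟩
  exact genus_le_of_embeds (h G' hG')

theorem lower_big {k n : ℕ} (hk : 1 ≤ k) (hn : 4 * k + 4 ≤ n) :
    (k : ℤ) * (3 * n - 4 * k - 10) ≤ 6 * maxGenus k n := by
  obtain ⟨N, hN⟩ : ∃ N, n = N + 2 * (k + 1) := ⟨n - 2 * (k + 1), by omega⟩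
  have hN2 : 2 * (k + 1) ≤ N := by omega
  have hmain : ∀ γ, EmbedsIn ((maxBars (k + 1) N n hN2 hN).graph k) γ →
      (k : ℤ) * (3 * n - 4 * k - 10) ≤ 6 * γ := by
    intro γ hγ
    have h1 : EmbedsIn (mgraph (k + 1) N n) γ := by
      apply embedsIn_of_map id Function.injective_id _ hγ
      intro u v huv
      refine ⟨(mgraph (k + 1) N n).ne_of_adj huv, ?_⟩
      rcases huv with h | h
      · exact sees_of_madj rfl hN2 hN u v h.1 h.2
      · exact Bars.sees_comm _ k (sees_of_madj rfl hN2 hN v u h.1 h.2)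
    have h2 := mgraph_genus (by omega) hN2 hN h1
    have h3 : (n : ℤ) = N + 2 * (k + 1) := by exact_mod_cast hN
    push_cast at h2
    rw [h3] at h2 ⊢
    nlinarith [h2]
  obtain ⟨γ, hγ, -⟩ := maxGenus_upper (k := k) (n := n) hk (by omega)
  have hb := Bars.graph_isBar (maxBars (k + 1) N n hN2 hN) k
  have h4 := hmain _ (embeds_genus (hγ _ hb))
  have h5 : genus ((maxBars (k + 1) N n hN2 hN).graph k) ≤ maxGenus k n :=
    le_maxGenus hk (by omega) hb (fun γ h => genus_le_of_embeds h)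
  have h6 : (genus ((maxBars (k + 1) N n hN2 hN).graph k) : ℤ) ≤ maxGenus k n := by
    exact_mod_cast h5
  linarith

theorem lower_small {k n : ℕ} (hk : 1 ≤ k) (hn3 : 3 ≤ n) (hn : n ≤ 4 * k + 4) :
    ((n : ℤ) - 3) * (n - 4) ≤ 12 * maxGenus k n := by
  have hb := complete_isBar hn
  obtain ⟨γ, hγ, -⟩ := maxGenus_upper (k := k) (n := n) hk (by omega)
  have h1 := complete_genus hn3 (embeds_genus (hγ _ hb))
  have h5 : genus (⊤ : SimpleGraph (Fin n)) ≤ maxGenus k n :=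
    le_maxGenus hk (by omega) hb (fun γ h => genus_le_of_embeds h)
  obtain ⟨n', rfl⟩ : ∃ n', n = n' + 1 := ⟨n - 1, by omega⟩
  have h6 : (n' + 1) * n' + 12 ≤ 6 * (n' + 1) + 12 * maxGenus k (n' + 1) := by
    have : n' + 1 - 1 = n' := by omega
    rw [this] at h1
    omega
  have h7 : ((n' : ℤ) + 1) * n' + 12 ≤ 6 * (n' + 1) + 12 * maxGenus k (n' + 1) := by
    exact_mod_cast h6
  push_cast
  nlinarith [h7]

/-- lower bound -/
theorem mainTerm_lower {k n : ℕ} (hk : 1 ≤ k) (hn : 1 ≤ n) :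
    mainTerm k n - n ≤ maxGenus k n := by
  have hkr : (1 : ℝ) ≤ k := by exact_mod_cast hk
  have hnr : (1 : ℝ) ≤ n := by exact_mod_cast hn
  by_cases h1 : n ≤ 4 * k + 4
  · have hle : mainTerm k n ≤ (n : ℝ) ^ 2 / 12 := by
      unfold mainTerm
      split_ifs with h
      · exact le_refl _
      · push Not at h
        have h' : 4 * (k : ℝ) ≤ n := by exact_mod_cast h.le
        nlinarith
    by_cases h3 : 3 ≤ n
    · have h4 := lower_small hk h3 h1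
      have h5 : ((n : ℝ) - 3) * (n - 4) ≤ 12 * maxGenus k n := by exact_mod_cast h4
      nlinarith
    · have h4 : (n : ℝ) ≤ 2 := by exact_mod_cast (show n ≤ 2 by omega)
      have h5 : (0 : ℝ) ≤ maxGenus k n := Nat.cast_nonneg _
      nlinarith
  · have h2 : ¬ n ≤ 4 * k := by omega
    have h4 := lower_big (n := n) hk (by omega)
    have h5 : (k : ℝ) * (3 * n - 4 * k - 10) ≤ 6 * maxGenus k n := by exact_mod_cast h4
    have h6 : 4 * (k : ℝ) ≤ n := by exact_mod_cast (show 4 * k ≤ n by omega)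
    unfold mainTerm
    rw [if_neg h2]
    nlinarith

theorem exists_root {x : ℕ} (hx : 1 ≤ x) : ∃ s : ℕ, 1 ≤ s ∧ x ≤ s ^ 6 ∧ s ^ 6 ≤ 64 * x ∧
    (s : ℝ) ^ 5 ≤ 32 * (x : ℝ) ^ (5 / 6 : ℝ) := by
  have hx1 : (1 : ℝ) ≤ x := by exact_mod_cast hx
  obtain ⟨y, hy⟩ : ∃ y : ℝ, y = (x : ℝ) ^ (1 / 6 : ℝ) := ⟨_, rfl⟩
  have hy1 : 1 ≤ y := by rw [hy]; exact Real.one_le_rpow hx1 (by norm_num)
  have hy6 : y ^ 6 = x := by
    rw [hy, ← Real.rpow_natCast, ← Real.rpow_mul (by linarith)]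
    norm_num
  have hy5 : y ^ 5 = (x : ℝ) ^ (5 / 6 : ℝ) := by
    rw [hy, ← Real.rpow_natCast, ← Real.rpow_mul (by linarith)]
    norm_num
  have hs0 : (1 : ℝ) ≤ ⌈y⌉₊ := hy1.trans (Nat.le_ceil y)
  have hs1 : (⌈y⌉₊ : ℝ) ≤ 2 * y := by
    have := Nat.ceil_lt_add_one (a := y) (by linarith)
    linarith
  refine ⟨⌈y⌉₊, by exact_mod_cast hs0, ?_, ?_, ?_⟩
  · have h1 : (x : ℝ) ≤ (⌈y⌉₊ : ℝ) ^ 6 := by
      rw [← hy6]
      exact pow_le_pow_left₀ (by linarith) (Nat.le_ceil y) 6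
    exact_mod_cast h1
  · have h1 : (⌈y⌉₊ : ℝ) ^ 6 ≤ 64 * x := by
      calc (⌈y⌉₊ : ℝ) ^ 6 ≤ (2 * y) ^ 6 := pow_le_pow_left₀ (by linarith) hs1 6
        _ = 64 * y ^ 6 := by ring
        _ = 64 * x := by rw [hy6]
    exact_mod_cast h1
  · calc (⌈y⌉₊ : ℝ) ^ 5 ≤ (2 * y) ^ 5 := pow_le_pow_left₀ (by linarith) hs1 5
      _ = 32 * y ^ 5 := by ring
      _ = 32 * (x : ℝ) ^ (5 / 6 : ℝ) := by rw [hy5]

theorem ceil_half {a : ℚ} (ha : 0 ≤ a) : ∃ γ : ℕ, a ≤ 2 * γ ∧ (γ : ℝ) ≤ (a : ℝ) / 2 + 1 := by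
  refine ⟨⌈a / 2⌉₊, ?_, ?_⟩
  · have := Nat.le_ceil (a / 2)
    linarith
  · have h1 := Nat.ceil_lt_add_one (a := a / 2) (by linarith)
    have h2 : ((⌈a / 2⌉₊ : ℚ) : ℝ) ≤ ((a / 2 + 1 : ℚ) : ℝ) := Rat.cast_le.2 h1.le
    rw [Rat.cast_natCast] at h2
    push_cast at h2
    exact h2

/-- upper bound -/
theorem mainTerm_upper {k n : ℕ} (hk : 1 ≤ k) (hn : 1 ≤ n) :
    (maxGenus k n : ℝ) ≤
      mainTerm k n + 14000000 * ((min k n : ℕ) : ℝ) ^ (5 / 6 : ℝ) * n := by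
  have hkr : (1 : ℝ) ≤ k := by exact_mod_cast hk
  have hnr : (1 : ℝ) ≤ n := by exact_mod_cast hn
  have hmin : (1 : ℝ) ≤ ((min k n : ℕ) : ℝ) := by exact_mod_cast le_min hk hn
  have hmin' : (1 : ℝ) ≤ ((min k n : ℕ) : ℝ) ^ (5 / 6 : ℝ) := Real.one_le_rpow hmin (by norm_num)
  have hprod : 1 ≤ ((min k n : ℕ) : ℝ) ^ (5 / 6 : ℝ) * n := one_le_mul_of_one_le_of_one_le hmin' hnr
  by_cases h : n ≤ 4 * k
  · obtain ⟨s, hs, hs1, hs2, hs3⟩ := exists_root hn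
    obtain ⟨γ, h1, h2⟩ := ceil_half (a := (n : ℚ) ^ 2 / 6 + 205000 * s ^ 5 * n) (by positivity)
    have h3 : maxGenus k n ≤ γ := maxGenus_le (fun G _ => K.upper_complete hn hs hs1 hs2 G γ h1)
    have h4 : (maxGenus k n : ℝ) ≤ γ := by exact_mod_cast h3
    push_cast at h2
    unfold mainTerm
    rw [if_pos h]
    have h5 : (n : ℝ) ^ (5 / 6 : ℝ) ≤ 4 * ((min k n : ℕ) : ℝ) ^ (5 / 6 : ℝ) := by
      have h6 : (n : ℝ) ≤ 4 * ((min k n : ℕ) : ℝ) := by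
        have : n ≤ 4 * min k n := by omega
        exact_mod_cast this
      calc (n : ℝ) ^ (5 / 6 : ℝ) ≤ (4 * ((min k n : ℕ) : ℝ)) ^ (5 / 6 : ℝ) :=
            Real.rpow_le_rpow (by linarith) h6 (by norm_num)
        _ = (4 : ℝ) ^ (5 / 6 : ℝ) * ((min k n : ℕ) : ℝ) ^ (5 / 6 : ℝ) :=
            Real.mul_rpow (by norm_num) (by linarith)
        _ ≤ (4 : ℝ) ^ (1 : ℝ) * ((min k n : ℕ) : ℝ) ^ (5 / 6 : ℝ) := by
            apply mul_le_mul_of_nonneg_right _ (by linarith)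
            exact Real.rpow_le_rpow_of_exponent_le (by norm_num) (by norm_num)
        _ = 4 * ((min k n : ℕ) : ℝ) ^ (5 / 6 : ℝ) := by rw [Real.rpow_one]
    have h6 : (s : ℝ) ^ 5 * n ≤ 128 * (((min k n : ℕ) : ℝ) ^ (5 / 6 : ℝ) * n) := by
      have : (s : ℝ) ^ 5 ≤ 128 * ((min k n : ℕ) : ℝ) ^ (5 / 6 : ℝ) := by linarith
      calc (s : ℝ) ^ 5 * n ≤ (128 * ((min k n : ℕ) : ℝ) ^ (5 / 6 : ℝ)) * n :=
            mul_le_mul_of_nonneg_right this (by linarith)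
        _ = _ := by ring
    have h7 : (14000000 : ℝ) * ((min k n : ℕ) : ℝ) ^ (5 / 6 : ℝ) * n =
        14000000 * (((min k n : ℕ) : ℝ) ^ (5 / 6 : ℝ) * n) := by ring
    have h8 : (205000 : ℝ) * (s : ℝ) ^ 5 * n = 205000 * ((s : ℝ) ^ 5 * n) := by ring
    rw [h7]
    rw [h8] at h2
    linarith
  · have h0 : 4 * k ≤ n := by omega
    obtain ⟨s, hs, hs1, hs2, hs3⟩ := exists_root hk
    have h0' : 4 * (k : ℚ) ≤ n := by exact_mod_cast h0
    have hk0 : (0 : ℚ) ≤ k := Nat.cast_nonneg k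
    obtain ⟨γ, h1, h2⟩ := ceil_half (a := (k : ℚ) * (3 * n - 4 * k) / 3 + 700000 * s ^ 5 * n) (by
      have h9 : (0 : ℚ) ≤ (k : ℚ) * (3 * n - 4 * k) := mul_nonneg hk0 (by linarith)
      positivity)
    have h3 : maxGenus k n ≤ γ := maxGenus_le (fun G hG => K.upper_bar hk h0 hs hs1 hs2 hG γ h1)
    have h4 : (maxGenus k n : ℝ) ≤ γ := by exact_mod_cast h3
    push_cast at h2
    unfold mainTerm
    rw [if_neg h]
    have hmk : min k n = k := min_eq_left (by omega)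
    rw [hmk] at hprod ⊢
    have h6 : (s : ℝ) ^ 5 * n ≤ 32 * ((k : ℝ) ^ (5 / 6 : ℝ) * n) := by
      calc (s : ℝ) ^ 5 * n ≤ (32 * (k : ℝ) ^ (5 / 6 : ℝ)) * n :=
            mul_le_mul_of_nonneg_right hs3 (by linarith)
        _ = _ := by ring
    have h7 : (14000000 : ℝ) * (k : ℝ) ^ (5 / 6 : ℝ) * n =
        14000000 * ((k : ℝ) ^ (5 / 6 : ℝ) * n) := by ring
    have h8 : (700000 : ℝ) * (s : ℝ) ^ 5 * n = 700000 * ((s : ℝ) ^ 5 * n) := by ring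
    rw [h7]
    rw [h8] at h2
    linarith

/-- both bounds -/
theorem mainTerm_abs {k n : ℕ} (hk : 1 ≤ k) (hn : 1 ≤ n) :
    |(maxGenus k n : ℝ) - mainTerm k n| ≤
      14000000 * ((min k n : ℕ) : ℝ) ^ (5 / 6 : ℝ) * n := by
  have hnr : (1 : ℝ) ≤ n := by exact_mod_cast hn
  have hmin : (1 : ℝ) ≤ ((min k n : ℕ) : ℝ) := by exact_mod_cast le_min hk hn
  have hmin' : (1 : ℝ) ≤ ((min k n : ℕ) : ℝ) ^ (5 / 6 : ℝ) := Real.one_le_rpow hmin (by norm_num)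
  have h1 := mainTerm_lower hk hn
  have h2 := mainTerm_upper hk hn
  have h3 : (n : ℝ) ≤ 14000000 * ((min k n : ℕ) : ℝ) ^ (5 / 6 : ℝ) * n := by
    have : (1 : ℝ) ≤ 14000000 * ((min k n : ℕ) : ℝ) ^ (5 / 6 : ℝ) := by linarith
    calc (n : ℝ) = 1 * n := (one_mul _).symm
      _ ≤ _ := mul_le_mul_of_nonneg_right this (by linarith)
  rw [abs_le]
  constructor <;> linarith

theorem mainTerm_ge {k n : ℕ} : ((min k n : ℕ) : ℝ) * n ≤ 12 * mainTerm k n := by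
  have hnr : (0 : ℝ) ≤ n := Nat.cast_nonneg n
  have hkr : (0 : ℝ) ≤ k := Nat.cast_nonneg k
  have h1 : ((min k n : ℕ) : ℝ) ≤ n := by exact_mod_cast min_le_right k n
  have h2 : ((min k n : ℕ) : ℝ) ≤ k := by exact_mod_cast min_le_left k n
  unfold mainTerm
  split_ifs with h
  · nlinarith
  · have h3 : 4 * (k : ℝ) ≤ n := by exact_mod_cast (show 4 * k ≤ n by omega)
    nlinarith

/-- the main term is asymptotically correct -/
theorem mainTerm_asymp {ε : ℝ} (hε : 0 < ε) : ∃ K : ℕ, ∀ k n : ℕ, K ≤ k → K ≤ n →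
    |(maxGenus k n : ℝ) - mainTerm k n| ≤ ε * mainTerm k n := by
  obtain ⟨K, hK⟩ := exists_nat_ge ((168000000 / ε) ^ (6 : ℝ))
  refine ⟨K + 1, ?_⟩
  intro k n hk hn
  have hk1 : 1 ≤ k := by omega
  have hn1 : 1 ≤ n := by omega
  refine (mainTerm_abs hk1 hn1).trans ?_
  have hm1 : (1 : ℝ) ≤ ((min k n : ℕ) : ℝ) := by exact_mod_cast le_min hk1 hn1
  have hmK : (K : ℝ) ≤ ((min k n : ℕ) : ℝ) := by
    exact_mod_cast le_min (show K ≤ k by omega) (show K ≤ n by omega)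
  obtain ⟨x, hx⟩ : ∃ x : ℝ, x = ((min k n : ℕ) : ℝ) := ⟨_, rfl⟩
  have hge := mainTerm_ge (k := k) (n := n)
  rw [← hx] at hm1 hmK hge ⊢
  have hroot : 168000000 / ε ≤ x ^ (1 / 6 : ℝ) := by
    have h3 : (168000000 / ε) ^ (6 : ℝ) ≤ x := by linarith
    have h4 : (0 : ℝ) ≤ 168000000 / ε := by positivity
    have h5 := Real.rpow_le_rpow (by positivity) h3 (show (0 : ℝ) ≤ 1 / 6 by norm_num)
    rw [← Real.rpow_mul h4] at h5
    norm_num at h5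
    exact h5
  have hx6 : x = x ^ (5 / 6 : ℝ) * x ^ (1 / 6 : ℝ) := by
    rw [← Real.rpow_add (by linarith)]
    norm_num
  have h6 : 168000000 ≤ ε * x ^ (1 / 6 : ℝ) := by
    rw [div_le_iff₀ hε] at hroot
    linarith
  have hn0 : (0 : ℝ) ≤ n := Nat.cast_nonneg n
  have h7 : (0 : ℝ) ≤ x ^ (5 / 6 : ℝ) * n := by positivity
  have h8 := mul_le_mul_of_nonneg_left h6 h7
  have h9 : 12 * (14000000 * x ^ (5 / 6 : ℝ) * n) ≤ ε * (x * n) := by
    calc 12 * (14000000 * x ^ (5 / 6 : ℝ) * n) = x ^ (5 / 6 : ℝ) * n * 168000000 := by ring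
      _ ≤ x ^ (5 / 6 : ℝ) * n * (ε * x ^ (1 / 6 : ℝ)) := h8
      _ = ε * ((x ^ (5 / 6 : ℝ) * x ^ (1 / 6 : ℝ)) * n) := by ring
      _ = ε * (x * n) := by rw [← hx6]
  have h10 := mul_le_mul_of_nonneg_left hge hε.le
  linarith

end Run7.h68
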